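import Mathlib

/-! R3b: the mean ergodic theorem for the operator `conj w * U_T` on `L^2`, in terms of functions. -/

set_option autoImplicit false

open Finset MeasureTheory Filter Topology
open scoped ComplexConjugate

namespace Pool.Agent.Lib.MP_9fe581_an.HD

section merg

variable {X : Type} [MeasurableSpace X] {ν : Measure X}

/-- the composition operator -/
private noncomputable def mergC (T : X → X) (hT : MeasurePreserving T ν ν) :
    Lp ℂ 2 ν →L[ℂ] Lp ℂ 2 ν :=
  (Lp.compMeasurePreservingₗᵢ ℂ T hT).toContinuousLinearMap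

private theorem mergC_apply (T : X → X) (hT : MeasurePreserving T ν ν) (f : Lp ℂ 2 ν) :
    mergC T hT f = Lp.compMeasurePreserving T hT f := rfl

/-- the operator `conj w * U_T` -/
private noncomputable def mergU (T : X → X) (hT : MeasurePreserving T ν ν) (w : ℂ) :
    Lp ℂ 2 ν →L[ℂ] Lp ℂ 2 ν :=
  (conj w) • mergC T hT

private theorem mergU_apply (T : X → X) (hT : MeasurePreserving T ν ν) (w : ℂ) (f : Lp ℂ 2 ν) :
    mergU T hT w f = (conj w) • Lp.compMeasurePreserving T hT f := rfl

private theorem mergU_norm (T : X → X) (hT : MeasurePreserving T ν ν) (w : ℂ) (hw : ‖w‖ = 1) :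
    ‖mergU T hT w‖ ≤ 1 := by
  refine ContinuousLinearMap.opNorm_le_bound _ zero_le_one fun f => ?_
  rw [mergU_apply, norm_smul, RCLike.norm_conj, hw, Lp.norm_compMeasurePreserving]

private theorem mergU_iter (T : X → X) (hT : MeasurePreserving T ν ν) (w : ℂ) (n : ℕ)
    (f : Lp ℂ 2 ν) :
    (mergU T hT w)^[n] f = (conj w) ^ n • Lp.compMeasurePreserving (T^[n]) (hT.iterate n) f := by
  induction n with
  | zero =>
    simp only [Function.iterate_zero, id_eq, pow_zero, one_smul]
    exact (Lp.compMeasurePreserving_id_apply f).symm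
  | succ n ih =>
    rw [Function.iterate_succ_apply', ih, map_smul, mergU_apply, smul_smul, ← pow_succ]
    congr 1
    exact (Lp.compMeasurePreserving_comp_apply f (hT.iterate n) hT).symm

private theorem merg_comm (T : X → X) (hT : MeasurePreserving T ν ν) (R : X → X)
    (hR : MeasurePreserving R ν ν) (h : ∀ z, R (T z) = T (R z)) (f : Lp ℂ 2 ν) :
    Lp.compMeasurePreserving T hT (Lp.compMeasurePreserving R hR f) =
      Lp.compMeasurePreserving R hR (Lp.compMeasurePreserving T hT f) := by
  rw [← Lp.compMeasurePreserving_comp_apply f hR hT, ← Lp.compMeasurePreserving_comp_apply f hT hR]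
  have h2 : R ∘ T = T ∘ R := funext h
  congr 1
  simp only [h2]

end merg

/-- for a measure preserving `T` there is a linear projection `P` of `L²(ν)` onto the `w`-eigenfunctions with the mean ergodic theorem, commuting with
the composition operator of every measure preserving `R` that commutes with `T` -/
theorem mean_erg {X : Type} [MeasurableSpace X] {ν : Measure X} [IsProbabilityMeasure ν] {T : X → X} (hT : MeasurePreserving T ν ν)
    (w : ℂ) (hw : ‖w‖ = 1) :
    ∃ P : Lp ℂ 2 ν →L[ℂ] Lp ℂ 2 ν,
      (∀ f : Lp ℂ 2 ν, ∀ᵐ z ∂ν, (P f) (T z) = w * (P f) z) ∧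
      (∀ f : Lp ℂ 2 ν, Tendsto (fun N : ℕ => (1 / (N : ℂ)) • ∑ n ∈ Icc 1 N,
        (conj w) ^ n • Lp.compMeasurePreserving (T^[n]) (hT.iterate n) f) atTop (𝓝 (P f))) ∧
      (∀ (R : X → X) (hR : MeasurePreserving R ν ν), (∀ z, R (T z) = T (R z)) → ∀ f : Lp ℂ 2 ν,
        P (Lp.compMeasurePreserving R hR f) = Lp.compMeasurePreserving R hR (P f)) := by
  set U := mergU T hT w with hU
  set P : Lp ℂ 2 ν →L[ℂ] Lp ℂ 2 ν := (U.eqLocus (1 : Lp ℂ 2 ν →L[ℂ] Lp ℂ 2 ν)).subtypeL.comp
    (U.eqLocus (1 : Lp ℂ 2 ν →L[ℂ] Lp ℂ 2 ν)).orthogonalProjectionOnto with hP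
  have hfix : ∀ f, U (P f) = P f := fun f =>
    ((U.eqLocus (1 : Lp ℂ 2 ν →L[ℂ] Lp ℂ 2 ν)).orthogonalProjectionOnto f).2
  have hlim : ∀ f : Lp ℂ 2 ν, Tendsto (fun N : ℕ => (1 / (N : ℂ)) • ∑ n ∈ Icc 1 N,
        (conj w) ^ n • Lp.compMeasurePreserving (T^[n]) (hT.iterate n) f) atTop (𝓝 (P f)) := by
    intro f
    have h1 : Tendsto (birkhoffAverage ℂ U _root_.id · f) atTop (𝓝 (P f)) :=
      U.tendsto_birkhoffAverage_orthogonalProjection (mergU_norm T hT w hw) f
    have h2 := (U.continuous.tendsto (P f)).comp h1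
    rw [hfix f] at h2
    refine h2.congr fun N => ?_
    simp only [Function.comp_apply, birkhoffAverage, birkhoffSum, id_eq, one_div, map_smul, map_sum]
    congr 1
    have h3 : Icc 1 N = Ico (0 + 1) (N + 1) := by
      ext n
      simp only [Finset.mem_Icc, Finset.mem_Ico]
      omega
    rw [h3, ← Finset.sum_Ico_add' (fun n => (conj w) ^ n •
      Lp.compMeasurePreserving (T^[n]) (hT.iterate n) f) 0 N 1, Finset.range_eq_Ico]
    refine Finset.sum_congr rfl fun n _ => ?_
    rw [← Function.iterate_succ_apply' (f := U)]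
    exact mergU_iter T hT w (n + 1) f
  refine ⟨P, fun f => ?_, hlim, fun R hR h f => ?_⟩
  · have h1 := hfix f
    rw [hU, mergU_apply] at h1
    have h2 : Lp.compMeasurePreserving T hT (P f) = w • P f := by
      conv_rhs => rw [← h1]
      rw [smul_smul, RCLike.mul_conj, hw]
      simp
    have h3 := Lp.coeFn_compMeasurePreserving (P f) hT
    rw [h2] at h3
    filter_upwards [h3, Lp.coeFn_smul w (P f)] with z hz hz2
    rw [hz2] at hz
    exact hz.symm
  · have hc : ∀ g, U (mergC R hR g) = mergC R hR (U g) := by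
      intro g
      rw [hU, mergU_apply, mergU_apply, map_smul, mergC_apply, mergC_apply,
        merg_comm T hT R hR h]
    have h1 : Tendsto (birkhoffAverage ℂ U _root_.id · f) atTop (𝓝 (P f)) :=
      U.tendsto_birkhoffAverage_orthogonalProjection (mergU_norm T hT w hw) f
    have h2 := ((mergC R hR).continuous.tendsto (P f)).comp h1
    have h3 : Tendsto (birkhoffAverage ℂ U _root_.id · (mergC R hR f)) atTop
        (𝓝 (P (mergC R hR f))) :=
      U.tendsto_birkhoffAverage_orthogonalProjection (mergU_norm T hT w hw) (mergC R hR f)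
    refine tendsto_nhds_unique h3 (h2.congr fun N => ?_)
    have h4 : ∀ n, U^[n] (mergC R hR f) = mergC R hR (U^[n] f) := by
      intro n
      induction n with
      | zero => rfl
      | succ n ih => rw [Function.iterate_succ_apply', Function.iterate_succ_apply', ih, hc]
    simp only [Function.comp_apply, birkhoffAverage, birkhoffSum, id_eq, map_smul, map_sum, h4]

end Pool.Agent.Lib.MP_9fe581_an.HD
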