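import Pool.Agent.Lib.MP_9fe581_an.HD.Model

/-!
# HD, module A0: Chebyshev's lower bound in dyadic blocks
-/

open Finset MeasureTheory Filter Topology UnitAddTorus
open scoped ComplexConjugate Matrix

namespace Pool.Agent.Lib.MP_9fe581_an.HD

theorem Cheb_gq (q : ℕ) (hq : Squarefree q) (hq2 : 2 ≤ q) (N : ℕ) :
    |∑ n ∈ Icc 1 N, SW.gq q n| ≤ q := by
  have hqR : (0 : ℝ) < q := by positivity
  have h := SW.sum_gq_exp_le q hq N 0 (1 / q) (by positivity) (by
    intro b hb m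
    have h1 : (0 : ℝ) + b / q - m = ((b - m * q : ℤ) : ℝ) / q := by
      push_cast
      field_simp
      ring
    rw [h1, abs_div, abs_of_pos hqR]
    apply div_le_div_of_nonneg_right _ hqR.le
    have h2 : b - m * q ≠ 0 := by
      intro h3
      have h4 : b = m * q := by linarith
      rw [h4] at hb
      have h5 : IsUnit ((q : ℤ)) := by
        have h6 : IsCoprime (q : ℤ) (q : ℤ) := IsCoprime.of_mul_left_right hb
        exact isCoprime_self.1 h6
      rw [Int.isUnit_iff] at h5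
      omega
    exact_mod_cast Int.one_le_abs h2)
  have h2 : ((∑ n ∈ Icc 1 N, SW.gq q n : ℝ) : ℂ) = ∑ n ∈ Icc 1 N, (SW.gq q n : ℂ) * GT.e (n * 0) := by
    push_cast
    refine Finset.sum_congr rfl fun n _ => ?_
    have : GT.e ((n : ℝ) * 0) = 1 := by
      rw [mul_zero]
      unfold GT.e
      simp
    rw [this, mul_one]
  rw [← h2, Complex.norm_real, Real.norm_eq_abs] at h
  refine h.trans ?_
  have h3 : 1 / (2 * (1 / (q : ℝ))) = q / 2 := by
    field_simp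
  rw [h3]
  linarith

theorem Cheb_LQ (Q0 N : ℕ) (h1 : 1 ≤ Q0) :
    |∑ n ∈ Icc 1 N, SW.LQ ((Icc 1 Q0).filter Squarefree) n - N| ≤ (Q0 : ℝ) * Q0 := by
  have h2 : (1 : ℕ) ∈ (Icc 1 Q0).filter Squarefree := by
    rw [mem_filter, mem_Icc]
    exact ⟨⟨le_refl _, h1⟩, squarefree_one⟩
  have h3 : ∑ n ∈ Icc 1 N, SW.LQ ((Icc 1 Q0).filter Squarefree) n =
      ∑ q ∈ (Icc 1 Q0).filter Squarefree, ∑ n ∈ Icc 1 N, SW.gq q n := by
    rw [Finset.sum_comm]
    rfl
  have h4 : ∑ n ∈ Icc 1 N, SW.gq 1 n = N := by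
    have : ∀ n ∈ Icc 1 N, SW.gq 1 (n : ℤ) = 1 := by
      intro n _
      unfold SW.gq
      simp
    rw [Finset.sum_congr rfl this]
    simp
  rw [h3, ← Finset.sum_erase_add _ _ h2, h4, add_sub_cancel_right]
  calc _ ≤ ∑ q ∈ ((Icc 1 Q0).filter Squarefree).erase 1, |∑ n ∈ Icc 1 N, SW.gq q n| :=
        Finset.abs_sum_le_sum_abs _ _
    _ ≤ ∑ q ∈ ((Icc 1 Q0).filter Squarefree).erase 1, (Q0 : ℝ) := by
        refine Finset.sum_le_sum fun q hq => ?_
        rw [mem_erase, mem_filter, mem_Icc] at hq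
        refine (Cheb_gq q hq.2.2 (by omega) N).trans ?_
        exact_mod_cast hq.2.1.2
    _ = (((Icc 1 Q0).filter Squarefree).erase 1).card * (Q0 : ℝ) := by
        rw [Finset.sum_const, nsmul_eq_mul]
    _ ≤ (Q0 : ℝ) * Q0 := by
        apply mul_le_mul_of_nonneg_right _ (Nat.cast_nonneg _)
        have h5 : (((Icc 1 Q0).filter Squarefree).erase 1).card ≤ (Icc 1 Q0).card :=
          Finset.card_le_card ((Finset.erase_subset _ _).trans (Finset.filter_subset _ _))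
        have h6 : (Icc 1 Q0).card = Q0 := by simp
        rw [h6] at h5
        exact_mod_cast h5

theorem Cheb_pow (m : ℕ) (hm : 6 ≤ m) : 8 * m ≤ 2 ^ m := by
  induction m, hm using Nat.le_induction with
  | base => norm_num
  | succ n hn ih =>
    rw [pow_succ]
    omega

theorem Cheb_theta (N1 : ℕ) : ∃ N ≥ N1, (N : ℝ) / 16 < ∑ n ∈ Icc 1 N, GT.lam n := by
  obtain ⟨m, hm⟩ : ∃ m, m = max N1 6 := ⟨_, rfl⟩
  have hm1 : N1 ≤ m := hm ▸ le_max_left _ _
  have hm6 : 6 ≤ m := hm ▸ le_max_right _ _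
  have hpow := Cheb_pow m hm6
  have h2m : m < 2 ^ m := Nat.lt_two_pow_self
  have h4m : 2 ^ m ≤ 4 ^ m := Nat.pow_le_pow_left (by norm_num) m
  refine ⟨4 ^ m, by omega, ?_⟩
  have h := Chebyshev.theta_ge (4 ^ m)
  have h1 : Chebyshev.theta ((4 ^ m : ℕ) : ℝ) = ∑ n ∈ Icc 1 (4 ^ m), GT.lam n := by
    rw [Chebyshev.theta_eq_sum_Icc, Nat.floor_natCast, Finset.sum_filter]
    have h2 : Icc 0 (4 ^ m) = insert 0 (Icc 1 (4 ^ m)) := by
      ext n
      simp only [mem_insert, mem_Icc]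
      omega
    rw [h2, Finset.sum_insert (by simp)]
    simp only [Nat.not_prime_zero, if_false, zero_add]
    rfl
  rw [h1] at h
  refine lt_of_lt_of_le ?_ h
  have hs : √((4 ^ m : ℕ) : ℝ) = 2 ^ m := by
    have : ((4 ^ m : ℕ) : ℝ) = (2 ^ m) ^ 2 := by
      push_cast
      rw [← pow_mul, mul_comm, pow_mul]
      norm_num
    rw [this, Real.sqrt_sq (by positivity)]
  have hl : Real.log ((4 ^ m : ℕ) : ℝ) = 2 * m * Real.log 2 := by
    have : ((4 ^ m : ℕ) : ℝ) = 2 ^ (2 * m) := by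
      push_cast
      rw [pow_mul]
      norm_num
    rw [this, Real.log_pow]
    push_cast
    ring
  have hl1 : Real.log (((4 ^ m : ℕ) : ℝ) + 1) ≤ (2 * m + 1) * Real.log 2 := by
    have h3 : (2 * m + 1) * Real.log 2 = Real.log (2 ^ (2 * m + 1)) := by
      rw [Real.log_pow]
      push_cast
      ring
    rw [h3]
    apply Real.log_le_log (by positivity)
    have h4 : (4 : ℝ) ^ m = 2 ^ (2 * m) := by
      rw [pow_mul]
      norm_num
    have h5 : (1 : ℝ) ≤ 2 ^ (2 * m) := one_le_pow₀ (by norm_num)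
    push_cast
    rw [h4, pow_succ]
    linarith
  rw [hs, hl]
  have hl2 : (1 / 2 : ℝ) ≤ Real.log 2 := by
    have := Real.log_two_gt_d9
    linarith
  obtain ⟨P, hP⟩ : ∃ P : ℝ, P = 2 ^ m := ⟨_, rfl⟩
  have hP8 : 8 * (m : ℝ) ≤ P := by
    rw [hP]
    exact_mod_cast hpow
  have hmR : (6 : ℝ) ≤ m := by exact_mod_cast hm6
  have h4P : ((4 ^ m : ℕ) : ℝ) = P * P := by
    rw [hP, ← mul_pow]
    norm_num
  rw [h4P, ← hP]
  rw [h4P] at hl1
  have h6 : P * P / 8 < P * P - (2 * m + 1) - 4 * m * P := by nlinarith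
  have h7 : P * P / 16 < Real.log 2 * (P * P - (2 * m + 1) - 4 * m * P) := by
    have h8 : 0 < P * P - (2 * m + 1) - 4 * m * P := lt_of_le_of_lt (div_nonneg (mul_self_nonneg P) (by norm_num)) h6
    calc P * P / 16 = 1 / 2 * (P * P / 8) := by ring
      _ < 1 / 2 * (P * P - (2 * m + 1) - 4 * m * P) := by linarith
      _ ≤ _ := mul_le_mul_of_nonneg_right hl2 h8.le
  linarith

theorem Cheb_lam : ∃ N0 : ℕ, ∀ N ≥ N0, |∑ n ∈ Icc 1 N, GT.lam n - N| ≤ N / 8 := by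
  obtain ⟨Q0, N1, h1⟩ := model (1 / 16) (by norm_num)
  obtain ⟨N2, h2⟩ := exists_nat_ge (16 * (((max Q0 1 : ℕ) : ℝ) * ((max Q0 1 : ℕ) : ℝ)))
  refine ⟨max N1 N2, fun N hN => ?_⟩
  have hN1 : N1 ≤ N := (le_max_left _ _).trans hN
  have hN2 : N2 ≤ N := (le_max_right _ _).trans hN
  have h3 := h1 N hN1 0
  have h4 : ((∑ n ∈ Icc 1 N, (GT.lam n - SW.LQ ((Icc 1 Q0).filter Squarefree) n) : ℝ) : ℂ) =
      ∑ n ∈ Icc 1 N, ((GT.lam n - SW.LQ ((Icc 1 Q0).filter Squarefree) n : ℝ) : ℂ) * GT.e (n * 0) := by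
    push_cast
    refine Finset.sum_congr rfl fun n _ => ?_
    have : GT.e ((n : ℝ) * 0) = 1 := by
      rw [mul_zero]
      unfold GT.e
      simp
    rw [this, mul_one]
  rw [← h4, Complex.norm_real, Real.norm_eq_abs, Finset.sum_sub_distrib] at h3
  rcases Nat.eq_zero_or_pos Q0 with h0 | h0
  · exfalso
    obtain ⟨M, hM, hM'⟩ := Cheb_theta N1
    have h7 := h1 M hM 0
    have h8 : ((∑ n ∈ Icc 1 M, GT.lam n : ℝ) : ℂ) =
        ∑ n ∈ Icc 1 M, ((GT.lam n - SW.LQ ((Icc 1 Q0).filter Squarefree) n : ℝ) : ℂ) * GT.e (n * 0) := by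
      push_cast
      refine Finset.sum_congr rfl fun n _ => ?_
      have h9 : GT.e ((n : ℝ) * 0) = 1 := by
        rw [mul_zero]
        unfold GT.e
        simp
      have h10 : SW.LQ ((Icc 1 Q0).filter Squarefree) n = 0 := by
        rw [h0]
        unfold SW.LQ
        simp
      rw [h9, h10, mul_one, Complex.ofReal_zero, sub_zero]
    rw [← h8, Complex.norm_real, Real.norm_eq_abs] at h7
    have h11 := (le_abs_self _).trans h7
    linarith
  have h5 := Cheb_LQ Q0 N h0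
  have h6 : (Q0 : ℝ) * Q0 ≤ N / 16 := by
    have h7 : max Q0 1 = Q0 := max_eq_left h0
    rw [h7] at h2
    have : (N2 : ℝ) ≤ N := by exact_mod_cast hN2
    linarith
  rw [abs_le] at h3 h5 ⊢
  constructor <;> linarith [h3.1, h3.2, h5.1, h5.2]

theorem Qb_card : ∃ c : ℝ, 0 < c ∧ ∃ j0 : ℕ, ∀ j ≥ j0, c * 2 ^ j / j ≤ ((Qb j).card : ℝ) := by
  obtain ⟨N0, h⟩ := Cheb_lam
  refine ⟨1 / 4, by norm_num, max (N0 + 1) 1, fun j hj => ?_⟩
  have hjN : N0 + 1 ≤ j := (le_max_left _ _).trans hj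
  have hj1 : 1 ≤ j := (le_max_right _ _).trans hj
  have hjR : (1 : ℝ) ≤ j := by exact_mod_cast hj1
  have hpow : j < 2 ^ j := Nat.lt_two_pow_self
  have hpow' : 2 ^ (j + 1) = 2 * 2 ^ j := by ring
  have hA := h (2 ^ (j + 1) - 1) (by omega)
  have hB := h (2 ^ j - 1) (by omega)
  have hc1 : ((2 ^ (j + 1) - 1 : ℕ) : ℝ) = 2 * 2 ^ j - 1 := by
    have : (2 ^ (j + 1) - 1 : ℕ) + 1 = 2 * 2 ^ j := by omega
    have h' : (((2 ^ (j + 1) - 1 : ℕ) + 1 : ℕ) : ℝ) = ((2 * 2 ^ j : ℕ) : ℝ) := by rw [this]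
    push_cast at h'
    linarith
  have hc2 : ((2 ^ j - 1 : ℕ) : ℝ) = 2 ^ j - 1 := by
    have : (2 ^ j - 1 : ℕ) + 1 = 2 ^ j := by omega
    have h' : (((2 ^ j - 1 : ℕ) + 1 : ℕ) : ℝ) = ((2 ^ j : ℕ) : ℝ) := by rw [this]
    push_cast at h'
    linarith
  rw [hc1, abs_le] at hA
  rw [hc2, abs_le] at hB
  -- the block
  have h2 : Icc 1 (2 ^ (j + 1) - 1) = Icc 1 (2 ^ j - 1) ∪ Ico (2 ^ j) (2 ^ (j + 1)) := by
    ext n
    simp only [mem_union, mem_Icc, mem_Ico]
    omega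
  have h3 : Disjoint (Icc 1 (2 ^ j - 1)) (Ico (2 ^ j) (2 ^ (j + 1))) := by
    rw [Finset.disjoint_left]
    intro n hn hn'
    rw [mem_Icc] at hn
    rw [mem_Ico] at hn'
    omega
  have h4 : ∑ n ∈ Icc 1 (2 ^ (j + 1) - 1), GT.lam n = ∑ n ∈ Icc 1 (2 ^ j - 1), GT.lam n +
      ∑ n ∈ Ico (2 ^ j) (2 ^ (j + 1)), GT.lam n := by
    rw [h2, Finset.sum_union h3]
  have h5 : ∑ n ∈ Ico (2 ^ j) (2 ^ (j + 1)), GT.lam n ≤ (Qb j).card * (2 * j) := by
    have h6 : ∑ n ∈ Ico (2 ^ j) (2 ^ (j + 1)), GT.lam n = ∑ p ∈ Qb j, Real.log p := by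
      unfold Qb
      rw [Finset.sum_filter]
      refine Finset.sum_congr rfl fun n _ => ?_
      unfold GT.lam
      split_ifs <;> rfl
    rw [h6]
    calc _ ≤ ∑ p ∈ Qb j, (2 * (j : ℝ)) := by
          refine Finset.sum_le_sum fun p hp => ?_
          unfold Qb at hp
          rw [mem_filter, mem_Ico] at hp
          have hp0 : (0 : ℝ) < p := by exact_mod_cast hp.2.pos
          calc Real.log p ≤ Real.log (2 ^ (j + 1)) := by
                apply Real.log_le_log hp0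
                exact_mod_cast hp.1.2.le
            _ = (j + 1) * Real.log 2 := by
                rw [Real.log_pow]
                push_cast
                ring
            _ ≤ (j + 1) * 1 := by
                apply mul_le_mul_of_nonneg_left _ (by positivity)
                have := Real.log_two_lt_d9
                linarith
            _ ≤ 2 * j := by linarith
      _ = _ := by rw [Finset.sum_const, nsmul_eq_mul]
  have hP : (1 : ℝ) ≤ 2 ^ j := one_le_pow₀ (by norm_num)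
  have h7 : (2 : ℝ) ^ j / 2 ≤ (Qb j).card * (2 * j) := by
    refine le_trans ?_ h5
    linarith [hA.1, hB.2, h4]
  rw [div_le_iff₀ (by linarith)]
  linarith

end Pool.Agent.Lib.MP_9fe581_an.HD
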