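import Pool.Agent.Lib.MP_7b7e48_nt.GT.Defs

/-!
# HD: skew products over rotations with continuous cocycles, definitions

`Td d` the torus, `mT d` its Haar probability measure, `mFourier k` the characters, `e` = exp(2 pi i .).
`Qb j` = the primes in `[2^j, 2^(j+1))`.
Unitary cocycles `A : Td d -> Matrix` over the rotation by `α` (unitary on the range of the projection `Q`),
`cp α A Q n x = A (x + (n-1) α) ... A (x + α) A x`, `tr` its trace, `aa n` the integral of the trace.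
-/

open Finset MeasureTheory Filter Topology UnitAddTorus
open scoped ComplexConjugate Matrix

namespace Pool.Agent.Lib.MP_9fe581_an.HD

/-- the torus -/
abbrev Td (d : ℕ) := UnitAddTorus (Fin d)

/-- Haar probability measure of the torus -/
noncomputable def mT (d : ℕ) : Measure (Td d) := Measure.pi fun _ => AddCircle.haarAddCircle

instance (d : ℕ) : IsProbabilityMeasure (mT d) := by unfold mT; infer_instance
instance (d : ℕ) : (mT d).IsAddHaarMeasure := by unfold mT; infer_instance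

/-- the dyadic block of primes -/
def Qb (j : ℕ) : Finset ℕ := (Ico (2 ^ j) (2 ^ (j + 1))).filter Nat.Prime

/-- the energy of `F` on the Fourier frequencies divisible by `q` -/
noncomputable def eqf {d : ℕ} (F : Td d → ℂ) (q : ℕ) : ℝ :=
  ∑' a : Fin d → ℤ, if (∀ i, (q : ℤ) ∣ a i) then ‖∫ t, mFourier (-a) t * F t ∂mT d‖ ^ 2 else 0

/-- the point `i / q` of the torus -/
noncomputable def ptq {d : ℕ} (q : ℕ) (i : Fin d → Fin q) : Td d := fun k => (((i k : ℕ) : ℝ) / (q : ℝ) : ℝ)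

variable {d : ℕ} {ι : Type} [Fintype ι] [DecidableEq ι]

/-- a continuous cocycle, unitary on the range of the orthogonal projection `Q` -/
structure UC (A : Td d → Matrix ι ι ℂ) (Q : Matrix ι ι ℂ) : Prop where
  cont : Continuous A
  QH : Qᴴ = Q
  QQ : Q * Q = Q
  QA : ∀ x, Q * A x = A x
  AQ : ∀ x, A x * Q = A x
  AAH : ∀ x, A x * (A x)ᴴ = Q
  AHA : ∀ x, (A x)ᴴ * A x = Q

/-- the cocycle products -/
noncomputable def cp (α : Td d) (A : Td d → Matrix ι ι ℂ) (Q : Matrix ι ι ℂ) : ℕ → Td d → Matrix ι ι ℂ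
  | 0, _ => Q
  | n + 1, x => A (x + n • α) * cp α A Q n x

/-- the integrated trace of the cocycle products -/
noncomputable def aa (α : Td d) (A : Td d → Matrix ι ι ℂ) (Q : Matrix ι ι ℂ) (n : ℕ) : ℂ :=
  ∫ x, (cp α A Q n x).trace ∂mT d

/-- the traces of the cocycle products -/
noncomputable def trc (α : Td d) (A : Td d → Matrix ι ι ℂ) (Q : Matrix ι ι ℂ) (n : ℕ) (x : Td d) : ℂ :=
  (cp α A Q n x).trace

/-- `∫ tr A_n(u + s) conj tr A_n(u) du` -/
noncomputable def bb (α : Td d) (A : Td d → Matrix ι ι ℂ) (Q : Matrix ι ι ℂ) (s : Td d) (n : ℕ) : ℂ :=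
  ∫ u, trc α A Q n (u + s) * conj (trc α A Q n u) ∂mT d

/-- `Δ_j(n) = (1/K_j) ∑_{q ∈ Q_j} ∑_{a ≠ 0, q ∣ a} |c_n(a)|^2` -/
noncomputable def Dl (α : Td d) (A : Td d → Matrix ι ι ℂ) (Q : Matrix ι ι ℂ) (j n : ℕ) : ℝ :=
  (1 / ((Qb j).card : ℝ)) * ∑ q ∈ Qb j, (eqf (trc α A Q n) q - ‖aa α A Q n‖ ^ 2)

/-- entries of `(1/L) ∑_{l < L} A_{pl}(u) ⊗ conj A_{ql}(v)` -/
noncomputable def Wt (α : Td d) (A : Td d → Matrix ι ι ℂ) (Q : Matrix ι ι ℂ) (p q L : ℕ) (u v : Td d)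
    (a b c f : ι) : ℂ :=
  (1 / (L : ℂ)) * ∑ l ∈ range L, cp α A Q (p * l) u a b * conj (cp α A Q (q * l) v c f)

/-- Hilbert - Schmidt norm squared of `(1/L) ∑_{l < L} A_{pl}(u) ⊗ conj A_{ql}(v)` -/
noncomputable def Phi (α : Td d) (A : Td d → Matrix ι ι ℂ) (Q : Matrix ι ι ℂ) (p q L : ℕ) (u v : Td d) : ℝ :=
  ∑ a, ∑ b, ∑ c, ∑ f, ‖Wt α A Q p q L u v a b c f‖ ^ 2

/-- positive definite sequences (`(a 0).im = 0` is a separate hypothesis where needed) -/
def PosDef (a : ℕ → ℂ) : Prop := ∀ (M : ℕ) (z : ℕ → ℂ), 0 ≤ (∑ m ∈ range M, ∑ m' ∈ range M,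
  z m * conj (z m') * (if m' ≤ m then a (m - m') else conj (a (m' - m)))).re

/-- von Neumann's inequality for the sequence `a` and all its dilates -/
def VN (a : ℕ → ℂ) (C : ℝ) : Prop := ∀ (c : ℕ → ℂ) (N r : ℕ) (B : ℝ),
  (∀ θ : ℝ, ‖∑ n ∈ Icc 1 N, c n * GT.e (n * θ)‖ ≤ B) → ‖∑ n ∈ Icc 1 N, c n * a (r * n)‖ ≤ C * B

/-- no mass at rational frequencies -/
def NoRat (a : ℕ → ℂ) : Prop := ∀ b q : ℕ, 0 < q →
  Tendsto (fun N : ℕ => (1 / (N : ℂ)) * ∑ n ∈ Icc 1 N, a n * GT.e (-(n * ((b : ℝ) / q)))) atTop (𝓝 0)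

/-- bounded multiplicative functions -/
structure BMult (u : ℕ → ℂ) : Prop where
  le_one : ∀ n, ‖u n‖ ≤ 1
  mul : ∀ m n, Nat.Coprime m n → u (m * n) = u m * u n

end Pool.Agent.Lib.MP_9fe581_an.HD
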