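import Mathlib

set_option autoImplicit false
set_option linter.unusedVariables false

/-!
# HD: eigenvalues of an ergodic system are simple
-/

open MeasureTheory Filter

namespace Pool.Agent.Lib.MP_9fe581_an.HD

theorem eig_simple {X : Type} [MeasurableSpace X] {ν : Measure X} [IsProbabilityMeasure ν] {T : X → X} (hT : Ergodic T ν)
    (w : ℂ) (hw : ‖w‖ = 1) {h h' : X → ℂ} (hm : AEStronglyMeasurable h ν) (hm' : AEStronglyMeasurable h' ν)
    (he : ∀ᵐ z ∂ν, h (T z) = w * h z) (he' : ∀ᵐ z ∂ν, h' (T z) = w * h' z) (h0 : ¬ (h =ᵐ[ν] 0)) :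
    ∃ c : ℂ, h' =ᵐ[ν] fun z => c * h z := by
  have hw0 : w ≠ 0 := by
    intro h1
    rw [h1, norm_zero] at hw
    exact zero_ne_one hw
  obtain ⟨r, hr⟩ := hT.quasiErgodic.ae_eq_const_of_ae_eq_comp_ae (g := fun z => ‖h z‖) hm.norm (by
    filter_upwards [he] with z hz
    change ‖h (T z)‖ = ‖h z‖
    rw [hz, norm_mul, hw, one_mul])
  obtain ⟨c, hc⟩ := hT.quasiErgodic.ae_eq_const_of_ae_eq_comp_ae (g := fun z => h' z / h z)
    (hm'.aemeasurable.div hm.aemeasurable).aestronglyMeasurable (by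
      filter_upwards [he, he'] with z hz hz'
      change h' (T z) / h (T z) = h' z / h z
      rw [hz, hz', mul_div_mul_left _ _ hw0])
  have hr0 : r ≠ 0 := by
    rintro rfl
    apply h0
    filter_upwards [hr] with z hz
    exact norm_eq_zero.mp hz
  refine ⟨c, ?_⟩
  filter_upwards [hr, hc] with z hz hz'
  have h1 : h z ≠ 0 := by
    intro h2
    apply hr0
    have h3 : ‖h z‖ = r := hz
    rw [← h3, h2, norm_zero]
  have h2 : h' z / h z = c := hz'
  rw [← h2, div_mul_cancel₀ _ h1]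

/-- `w ^ q = 1`: `h ^ q` is a.e. a nonzero constant -/
theorem eig_pow {X : Type} [MeasurableSpace X] {ν : Measure X} [IsProbabilityMeasure ν] {T : X → X} (hT : Ergodic T ν)
    (w : ℂ) (hw : ‖w‖ = 1) (q : ℕ) (hq : w ^ q = 1) {h : X → ℂ} (hm : AEStronglyMeasurable h ν)
    (he : ∀ᵐ z ∂ν, h (T z) = w * h z) (h0 : ¬ (h =ᵐ[ν] 0)) :
    ∃ c : ℂ, c ≠ 0 ∧ ∀ᵐ z ∂ν, h z ^ q = c := by
  obtain ⟨c, hc⟩ := hT.quasiErgodic.ae_eq_const_of_ae_eq_comp_ae (g := fun z => h z ^ q)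
    (hm.pow q) (by
      filter_upwards [he] with z hz
      change h (T z) ^ q = h z ^ q
      rw [hz, mul_pow, hq, one_mul])
  refine ⟨c, ?_, hc⟩
  rintro rfl
  apply h0
  filter_upwards [hc] with z hz
  exact eq_zero_of_pow_eq_zero hz

end Pool.Agent.Lib.MP_9fe581_an.HD
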