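import Pool.Agent.Lib.MP_9fe581_an.HD.Defs

/-!
# HD, module E1: uniform equidistribution of `(x + p m α, x + q m α)` along `(x + p t, x + q t)`
-/

open Finset MeasureTheory Filter Topology UnitAddTorus
open scoped ComplexConjugate Matrix

namespace Pool.Agent.Lib.MP_9fe581_an.HD

variable {d : ℕ}

theorem eq_mF_add {κ : Type} [Fintype κ] (k : κ → ℤ) (x y : UnitAddTorus κ) :
    mFourier k (x + y) = mFourier k x * mFourier k y := by
  simp only [mFourier, ContinuousMap.coe_mk, Pi.add_apply, ← Finset.prod_mul_distrib]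
  refine Finset.prod_congr rfl fun i _ => ?_
  simp only [fourier_apply, smul_add, AddCircle.toCircle_add, Circle.coe_mul]

theorem eq_mF_zero {κ : Type} [Fintype κ] (k : κ → ℤ) : mFourier k (0 : UnitAddTorus κ) = 1 := by
  simp only [mFourier, ContinuousMap.coe_mk, Pi.zero_apply]
  refine Finset.prod_eq_one fun i _ => ?_
  simp [fourier_eval_zero]

theorem eq_mF_nsmul {κ : Type} [Fintype κ] (k : κ → ℤ) (x : UnitAddTorus κ) (n : ℕ) :
    mFourier k (n • x) = mFourier k x ^ n := by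
  induction n with
  | zero => rw [zero_smul, eq_mF_zero, pow_zero]
  | succ n ih => rw [succ_nsmul, eq_mF_add, ih, pow_succ]

theorem eq_mF_nmul {κ : Type} [Fintype κ] (k : κ → ℤ) (x : UnitAddTorus κ) (n : ℕ) :
    mFourier ((n : ℤ) • k) x = mFourier k x ^ n := by
  induction n with
  | zero => rw [Nat.cast_zero, zero_smul, mFourier_zero, pow_zero]; rfl
  | succ n ih => rw [Nat.cast_succ, add_smul, one_smul, mFourier_add, ih, pow_succ]

theorem eq_mF_norm {κ : Type} [Fintype κ] (k : κ → ℤ) (x : UnitAddTorus κ) : ‖mFourier k x‖ = 1 := by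
  simp only [mFourier, ContinuousMap.coe_mk, fourier_apply, norm_prod, Circle.norm_coe, Finset.prod_const_one]

theorem eq_mF_int (k : Fin d → ℤ) (α : Td d) (hk : mFourier k α ≠ 1) : ∫ t, mFourier k t ∂mT d = 0 := by
  have h1 : ∫ t, mFourier k (t + α) ∂mT d = ∫ t, mFourier k t ∂mT d :=
    integral_add_right_eq_self (fun t => mFourier k t) α
  have h2 : ∫ t, mFourier k (t + α) ∂mT d = (∫ t, mFourier k t ∂mT d) * mFourier k α := by
    rw [← integral_mul_const]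
    exact integral_congr_ae (Eventually.of_forall fun t => eq_mF_add k t α)
  have h3 : (∫ t, mFourier k t ∂mT d) * (mFourier k α - 1) = 0 := by
    rw [mul_sub, mul_one, ← h2, h1, sub_self]
  rcases mul_eq_zero.1 h3 with h | h
  · exact h
  · exact absurd (sub_eq_zero.1 h) hk

theorem eq_geom (c : ℂ) (hc : c ≠ 1) (hn : ‖c‖ = 1) (M : ℕ) : ‖∑ m ∈ Icc 1 M, c ^ m‖ ≤ 2 / ‖c - 1‖ := by
  have h0 : 0 < ‖c - 1‖ := norm_pos_iff.2 (sub_ne_zero.2 hc)
  have h1 : (∑ m ∈ Icc 1 M, c ^ m) * (c - 1) = c ^ (M + 1) - c := by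
    induction M with
    | zero => simp
    | succ M ih => rw [Finset.sum_Icc_succ_top (by omega), add_mul, ih]; ring
  rw [le_div_iff₀ h0, ← norm_mul, h1]
  calc ‖c ^ (M + 1) - c‖ ≤ ‖c ^ (M + 1)‖ + ‖c‖ := norm_sub_le _ _
    _ = 2 := by rw [norm_pow, hn, one_pow]; norm_num

/-- the homeomorphism of the two tori -/
noncomputable def eqH (d : ℕ) : (UnitAddTorus (Fin d ⊕ Fin d)) ≃ₜ Td d × Td d := Homeomorph.sumArrowHomeomorphProdArrow

theorem eq_mF_sum (k : Fin d ⊕ Fin d → ℤ) (u v : Td d) :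
    mFourier k ((eqH d).symm (u, v)) = mFourier (fun i => k (Sum.inl i)) u * mFourier (fun i => k (Sum.inr i)) v := by
  simp only [mFourier, ContinuousMap.coe_mk, Fintype.prod_sum_type]
  rfl

/-- the difference of the average and the integral -/
noncomputable def eqD (α : Td d) (p q : ℕ) (Ψ : C(UnitAddTorus (Fin d ⊕ Fin d), ℂ)) (M : ℕ) (x : Td d) : ℂ :=
  (1 / (M : ℂ)) * ∑ m ∈ Icc 1 M, Ψ ((eqH d).symm (x + (p * m) • α, x + (q * m) • α)) -
    ∫ t, Ψ ((eqH d).symm (x + p • t, x + q • t)) ∂mT d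

theorem eq_cont (p q : ℕ) (Ψ : C(UnitAddTorus (Fin d ⊕ Fin d), ℂ)) (x : Td d) :
    Continuous fun t : Td d => Ψ ((eqH d).symm (x + p • t, x + q • t)) := by
  refine Ψ.continuous.comp ((eqH d).symm.continuous.comp ?_)
  fun_prop

theorem eq_integrable (p q : ℕ) (Ψ : C(UnitAddTorus (Fin d ⊕ Fin d), ℂ)) (x : Td d) :
    Integrable (fun t : Td d => Ψ ((eqH d).symm (x + p • t, x + q • t))) (mT d) :=
  (eq_cont p q Ψ x).integrable_of_hasCompactSupport (HasCompactSupport.of_compactSpace _)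

theorem eqD_add (α : Td d) (p q : ℕ) (Ψ Ψ' : C(UnitAddTorus (Fin d ⊕ Fin d), ℂ)) (M : ℕ) (x : Td d) :
    eqD α p q (Ψ + Ψ') M x = eqD α p q Ψ M x + eqD α p q Ψ' M x := by
  unfold eqD
  simp only [ContinuousMap.add_apply]
  rw [integral_add (eq_integrable p q Ψ x) (eq_integrable p q Ψ' x), Finset.sum_add_distrib]
  ring

theorem eqD_smul (α : Td d) (p q : ℕ) (c : ℂ) (Ψ : C(UnitAddTorus (Fin d ⊕ Fin d), ℂ)) (M : ℕ) (x : Td d) :
    eqD α p q (c • Ψ) M x = c * eqD α p q Ψ M x := by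
  unfold eqD
  simp only [ContinuousMap.smul_apply, smul_eq_mul]
  rw [integral_const_mul, ← Finset.mul_sum]
  ring

theorem eqD_zero (α : Td d) (p q : ℕ) (M : ℕ) (x : Td d) : eqD α p q 0 M x = 0 := by
  unfold eqD
  simp

theorem eqD_le (α : Td d) (p q : ℕ) (Ψ : C(UnitAddTorus (Fin d ⊕ Fin d), ℂ)) (M : ℕ) (x : Td d) :
    ‖eqD α p q Ψ M x‖ ≤ 2 * ‖Ψ‖ := by
  have h1 : ‖(1 / (M : ℂ)) * ∑ m ∈ Icc 1 M, Ψ ((eqH d).symm (x + (p * m) • α, x + (q * m) • α))‖ ≤ ‖Ψ‖ := by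
    rw [norm_mul]
    rcases Nat.eq_zero_or_pos M with rfl | hM
    · simp
    · have h2 : ‖∑ m ∈ Icc 1 M, Ψ ((eqH d).symm (x + (p * m) • α, x + (q * m) • α))‖ ≤ M * ‖Ψ‖ := by
        refine (norm_sum_le _ _).trans ((Finset.sum_le_sum fun m _ => Ψ.norm_coe_le_norm _).trans ?_)
        simp
      have h3 : ‖(1 / (M : ℂ))‖ = 1 / (M : ℝ) := by simp
      have hM' : (0 : ℝ) < M := by exact_mod_cast hM
      rw [h3]
      calc 1 / (M : ℝ) * ‖∑ m ∈ Icc 1 M, Ψ ((eqH d).symm (x + (p * m) • α, x + (q * m) • α))‖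
          ≤ 1 / (M : ℝ) * (M * ‖Ψ‖) := by gcongr
        _ = ‖Ψ‖ := by field_simp
  have h4 : ‖∫ t, Ψ ((eqH d).symm (x + p • t, x + q • t)) ∂mT d‖ ≤ ‖Ψ‖ := by
    have := norm_integral_le_of_norm_le_const (μ := mT d) (C := ‖Ψ‖)
      (f := fun t : Td d => Ψ ((eqH d).symm (x + p • t, x + q • t)))
      (Eventually.of_forall fun t => Ψ.norm_coe_le_norm _)
    simpa using this
  unfold eqD
  exact (norm_sub_le _ _).trans (by linarith)

theorem eqD_mono (α : Td d) (hα : ∀ k : Fin d → ℤ, k ≠ 0 → mFourier k α ≠ 1) (p q : ℕ)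
    (k : Fin d ⊕ Fin d → ℤ) (ε : ℝ) (hε : 0 < ε) :
    ∃ M0 : ℕ, ∀ M ≥ M0, ∀ x : Td d, ‖eqD α p q (mFourier k) M x‖ ≤ ε := by
  set a : Fin d → ℤ := fun i => k (Sum.inl i) with ha
  set b : Fin d → ℤ := fun i => k (Sum.inr i) with hb
  set f : Fin d → ℤ := (p : ℤ) • a + (q : ℤ) • b with hf
  have hsum : ∀ (x : Td d) (t : Td d), mFourier k ((eqH d).symm (x + p • t, x + q • t)) =
      mFourier a x * mFourier b x * mFourier f t := by
    intro x t
    rw [eq_mF_sum, eq_mF_add, eq_mF_add, eq_mF_nsmul, eq_mF_nsmul, hf, mFourier_add, eq_mF_nmul, eq_mF_nmul]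
    ring
  have hterm : ∀ (x : Td d) (m : ℕ), mFourier k ((eqH d).symm (x + (p * m) • α, x + (q * m) • α)) =
      mFourier a x * mFourier b x * mFourier f α ^ m := by
    intro x m
    rw [mul_smul, mul_smul, hsum, eq_mF_nsmul]
  have hint : ∀ x : Td d, ∫ t, mFourier k ((eqH d).symm (x + p • t, x + q • t)) ∂mT d =
      mFourier a x * mFourier b x * ∫ t, mFourier f t ∂mT d := by
    intro x
    rw [← integral_const_mul]
    exact integral_congr_ae (Eventually.of_forall fun t => hsum x t)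
  have hnorm : ∀ x : Td d, ‖mFourier a x * mFourier b x‖ = 1 := by
    intro x
    rw [norm_mul, eq_mF_norm, eq_mF_norm, mul_one]
  have hD : ∀ (M : ℕ) (x : Td d), eqD α p q (mFourier k) M x = mFourier a x * mFourier b x *
      ((1 / (M : ℂ)) * ∑ m ∈ Icc 1 M, mFourier f α ^ m - ∫ t, mFourier f t ∂mT d) := by
    intro M x
    unfold eqD
    rw [hint, Finset.sum_congr rfl (fun m _ => hterm x m), ← Finset.mul_sum]
    ring
  by_cases h0 : f = 0
  · refine ⟨1, fun M hM x => ?_⟩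
    have hM' : (M : ℂ) ≠ 0 := by
      have : M ≠ 0 := by omega
      exact_mod_cast this
    rw [hD, norm_mul, hnorm, one_mul, h0, mFourier_zero]
    have h5 : (1 / (M : ℂ)) * ∑ m ∈ Icc 1 M, ((1 : C(Td d, ℂ)) α) ^ m - ∫ t, (1 : C(Td d, ℂ)) t ∂mT d = 0 := by
      simp only [ContinuousMap.one_apply, one_pow, Finset.sum_const, Nat.card_Icc, Nat.add_sub_cancel, nsmul_eq_mul,
        mul_one, integral_const, smul_eq_mul]
      rw [one_div, inv_mul_cancel₀ hM']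
      simp
    rw [h5, norm_zero]
    exact hε.le
  · have hc : mFourier f α ≠ 1 := hα f h0
    have hpos : 0 < ‖mFourier f α - 1‖ := norm_pos_iff.2 (sub_ne_zero.2 hc)
    obtain ⟨M0, hM0⟩ := exists_nat_gt (2 / ‖mFourier f α - 1‖ / ε)
    refine ⟨M0 + 1, fun M hM x => ?_⟩
    have hM' : (0 : ℝ) < M := by
      have : 0 < M := by omega
      exact_mod_cast this
    have hM2 : 2 / ‖mFourier f α - 1‖ / ε ≤ M := by
      have : (M0 : ℝ) ≤ M := by exact_mod_cast (by omega : M0 ≤ M)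
      linarith
    rw [hD, norm_mul, hnorm, one_mul, eq_mF_int f α hc, sub_zero, norm_mul]
    have h3 : ‖(1 / (M : ℂ))‖ = 1 / (M : ℝ) := by simp
    rw [h3]
    calc 1 / (M : ℝ) * ‖∑ m ∈ Icc 1 M, mFourier f α ^ m‖
        ≤ 1 / (M : ℝ) * (2 / ‖mFourier f α - 1‖) := by
          have := eq_geom (mFourier f α) hc (eq_mF_norm f α) M
          gcongr
      _ ≤ ε := by
          rw [div_le_iff₀ hε] at hM2
          rw [one_div, inv_mul_le_iff₀ hM']
          linarith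

theorem eqD_all (α : Td d) (hα : ∀ k : Fin d → ℤ, k ≠ 0 → mFourier k α ≠ 1) (p q : ℕ)
    (Ψ : C(UnitAddTorus (Fin d ⊕ Fin d), ℂ)) (ε : ℝ) (hε : 0 < ε) :
    ∃ M0 : ℕ, ∀ M ≥ M0, ∀ x : Td d, ‖eqD α p q Ψ M x‖ ≤ ε := by
  have hspan : ∀ Ψ' ∈ Submodule.span ℂ (Set.range (mFourier (d := Fin d ⊕ Fin d))), ∀ ε : ℝ, 0 < ε →
      ∃ M0 : ℕ, ∀ M ≥ M0, ∀ x : Td d, ‖eqD α p q Ψ' M x‖ ≤ ε := by
    intro Ψ' h'
    induction h' using Submodule.span_induction with
    | mem y hy =>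
      obtain ⟨k, rfl⟩ := hy
      intro ε hε
      exact eqD_mono α hα p q k ε hε
    | zero =>
      intro ε hε
      refine ⟨0, fun M _ x => ?_⟩
      rw [eqD_zero, norm_zero]
      exact hε.le
    | add y z _ _ hy hz =>
      intro ε hε
      obtain ⟨M1, h1⟩ := hy (ε / 2) (by linarith)
      obtain ⟨M2, h2⟩ := hz (ε / 2) (by linarith)
      refine ⟨max M1 M2, fun M hM x => ?_⟩
      rw [eqD_add]
      have := h1 M (le_trans (le_max_left _ _) hM) x
      have := h2 M (le_trans (le_max_right _ _) hM) x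
      exact (norm_add_le _ _).trans (by linarith)
    | smul c y _ hy =>
      intro ε hε
      have hc : 0 < ‖c‖ + 1 := by positivity
      obtain ⟨M1, h1⟩ := hy (ε / (‖c‖ + 1)) (by positivity)
      refine ⟨M1, fun M hM x => ?_⟩
      rw [eqD_smul, norm_mul]
      have h2 := h1 M hM x
      calc ‖c‖ * ‖eqD α p q y M x‖ ≤ (‖c‖ + 1) * (ε / (‖c‖ + 1)) := by gcongr; linarith
        _ = ε := by field_simp
  have hmem : Ψ ∈ (Submodule.span ℂ (Set.range (mFourier (d := Fin d ⊕ Fin d)))).topologicalClosure := by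
    rw [span_mFourier_closure_eq_top]
    trivial
  have hmem' : Ψ ∈ closure (Submodule.span ℂ (Set.range (mFourier (d := Fin d ⊕ Fin d))) : Set _) := by
    rw [← Submodule.topologicalClosure_coe]
    exact hmem
  obtain ⟨Ψ', hΨ', hd⟩ := Metric.mem_closure_iff.1 hmem' (ε / 4) (by linarith)
  obtain ⟨M0, h0⟩ := hspan Ψ' hΨ' (ε / 2) (by linarith)
  refine ⟨M0, fun M hM x => ?_⟩
  have e1 : Ψ = Ψ' + (Ψ - Ψ') := by abel
  have e2 : eqD α p q Ψ M x = eqD α p q Ψ' M x + eqD α p q (Ψ - Ψ') M x := by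
    conv_lhs => rw [e1]
    exact eqD_add α p q Ψ' (Ψ - Ψ') M x
  have h1 := h0 M hM x
  have h2 := eqD_le α p q (Ψ - Ψ') M x
  rw [← dist_eq_norm] at h2
  rw [e2]
  exact (norm_add_le _ _).trans (by linarith)

/-- module E1 -/
theorem equi {α : Td d} (hα : ∀ k : Fin d → ℤ, k ≠ 0 → mFourier k α ≠ 1) (p q : ℕ) (Φ : C(Td d × Td d, ℂ)) (ε : ℝ)
    (hε : 0 < ε) : ∃ M0 : ℕ, ∀ M ≥ M0, ∀ x : Td d,
      ‖(1 / (M : ℂ)) * ∑ m ∈ Icc 1 M, Φ (x + (p * m) • α, x + (q * m) • α) -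
        ∫ t, Φ (x + p • t, x + q • t) ∂mT d‖ ≤ ε := by
  obtain ⟨M0, h0⟩ := eqD_all α hα p q (Φ.comp ⟨eqH d, (eqH d).continuous⟩) ε hε
  refine ⟨M0, fun M hM x => ?_⟩
  have h1 := h0 M hM x
  unfold eqD at h1
  simpa only [ContinuousMap.comp_apply, ContinuousMap.coe_mk, Homeomorph.apply_symm_apply] using h1

end Pool.Agent.Lib.MP_9fe581_an.HD
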