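import Pool.Agent.Lib.MP_9fe581_an.HD.GDefs
import Pool.Agent.Lib.MP_9fe581_an.HD.Equi
import Mathlib.Dynamics.Ergodic.Function

/-!
# HD, module R4: an ergodic group extension has a totally irrational base; the scalar cocycle
-/

open Finset MeasureTheory Filter Topology UnitAddTorus
open scoped ComplexConjugate Matrix

namespace Pool.Agent.Lib.MP_9fe581_an.HD

variable {d : ℕ} {ι : Type} [Fintype ι] [DecidableEq ι] {G : Type} [Group G] [TopologicalSpace G] [IsTopologicalGroup G]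
  [CompactSpace G] [T2Space G] [SecondCountableTopology G] [MeasurableSpace G] [BorelSpace G]
  {μ : Measure G} [μ.IsHaarMeasure] [IsProbabilityMeasure μ] {α : Td d} {φ : Td d → G}

/-- a point where a nontrivial character is not 1 -/
theorem bs_point (k : Fin d → ℤ) (hk : k ≠ 0) : ∃ β : Td d, mFourier k β ≠ 1 := by
  obtain ⟨i, hi⟩ : ∃ i, k i ≠ 0 := by
    by_contra h
    push Not at h
    exact hk (funext h)
  have hi' : (k i : ℝ) ≠ 0 := by exact_mod_cast hi
  refine ⟨Pi.single i (((1 / (2 * (k i : ℝ)) : ℝ) : UnitAddCircle)), ?_⟩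
  have h1 : mFourier k (Pi.single i (((1 / (2 * (k i : ℝ)) : ℝ) : UnitAddCircle))) = -1 := by
    simp only [mFourier, ContinuousMap.coe_mk]
    rw [Finset.prod_eq_single i]
    · rw [Pi.single_eq_same, fourier_coe_apply]
      have h2 : (2 * (Real.pi : ℂ) * Complex.I * (k i : ℂ) * ((1 / (2 * (k i : ℝ)) : ℝ) : ℂ) / ((1 : ℝ) : ℂ)) =
          Real.pi * Complex.I := by
        have : (k i : ℂ) ≠ 0 := by exact_mod_cast hi
        push_cast
        field_simp
      rw [h2, Complex.exp_pi_mul_I]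
    · intro j _ hj
      rw [Pi.single_eq_of_ne hj, fourier_eval_zero]
    · intro h
      exact absurd (Finset.mem_univ i) h
  rw [h1]
  norm_num

theorem base_irr (hφ : Continuous φ) (hT : Ergodic (skew α φ) ((mT d).prod μ)) (k : Fin d → ℤ) (hk : k ≠ 0) (q : ℕ)
    (hq : 0 < q) : mFourier k α ^ q ≠ 1 := by
  intro h
  have hqk : ((q : ℤ) • k) ≠ 0 := smul_ne_zero (by exact_mod_cast hq.ne') hk
  set F : Td d × G → ℂ := fun z => mFourier ((q : ℤ) • k) z.1 with hF
  have hFm : Measurable F := ((mFourier ((q : ℤ) • k)).continuous.measurable).comp measurable_fst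
  have hinv : F ∘ (skew α φ) = F := by
    funext z
    simp only [hF, Function.comp_apply, skew]
    rw [eq_mF_add, eq_mF_nmul k α, h, mul_one]
  obtain ⟨c, hc⟩ := hT.quasiErgodic.ae_eq_const_of_ae_eq_comp₀ hFm.nullMeasurable
    (Eventually.of_forall fun z => congrFun hinv z)
  have hnc : ‖c‖ = 1 := by
    obtain ⟨z, hz⟩ := (hc.and (Eventually.of_forall fun _ => trivial)).exists
    have h1 : F z = c := by simpa using hz.1
    rw [← h1]
    exact eq_mF_norm _ _
  have h1 : ∫ z, F z ∂(mT d).prod μ = c := by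
    rw [integral_congr_ae hc]
    simp
  have h2 : ∫ z, F z ∂(mT d).prod μ = ∫ t, mFourier ((q : ℤ) • k) t ∂mT d := by
    rw [hF, integral_fun_fst (f := fun t : Td d => mFourier ((q : ℤ) • k) t)]
    simp
  obtain ⟨β, hβ⟩ := bs_point ((q : ℤ) • k) hqk
  rw [h2, eq_mF_int _ β hβ] at h1
  rw [← h1, norm_zero] at hnc
  exact zero_ne_one hnc

theorem bs_star (k : Fin d → ℤ) : mFourier k α * star (mFourier k α) = 1 := by
  have h := Complex.mul_conj (mFourier k α)
  rw [Complex.normSq_eq_norm_sq, eq_mF_norm] at h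
  simpa using h

/-- the scalar cocycle `mFourier k α` -/
theorem scalar_uc (k : Fin d → ℤ) : UC (fun _ : Td d => (mFourier k α) • (1 : Matrix (Fin 1) (Fin 1) ℂ)) 1 where
  cont := continuous_const
  QH := Matrix.conjTranspose_one
  QQ := one_mul 1
  QA := fun _ => one_mul _
  AQ := fun _ => mul_one _
  AAH := fun _ => by
    rw [Matrix.conjTranspose_smul, Matrix.conjTranspose_one, Matrix.smul_mul, Matrix.mul_smul, one_mul, smul_smul,
      bs_star, one_smul]
  AHA := fun _ => by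
    rw [Matrix.conjTranspose_smul, Matrix.conjTranspose_one, Matrix.smul_mul, Matrix.mul_smul, one_mul, smul_smul,
      mul_comm, bs_star, one_smul]

theorem scalar_cp (k : Fin d → ℤ) (n : ℕ) (x : Td d) :
    cp α (fun _ : Td d => (mFourier k α) • (1 : Matrix (Fin 1) (Fin 1) ℂ)) 1 n x = (mFourier k α) ^ n • 1 := by
  induction n with
  | zero => rw [pow_zero, one_smul]; rfl
  | succ n ih =>
    show (mFourier k α) • (1 : Matrix (Fin 1) (Fin 1) ℂ) *
      cp α (fun _ : Td d => (mFourier k α) • (1 : Matrix (Fin 1) (Fin 1) ℂ)) 1 n x = _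
    rw [ih, Matrix.smul_mul, one_mul, smul_smul, pow_succ, mul_comm]

theorem scalar_aa (k : Fin d → ℤ) (n : ℕ) :
    aa α (fun _ : Td d => (mFourier k α) • (1 : Matrix (Fin 1) (Fin 1) ℂ)) 1 n = (mFourier k α) ^ n := by
  unfold aa
  simp only [scalar_cp]
  simp

/-- geometric sums -/
theorem scalar_noRat (k : Fin d → ℤ) (hk : ∀ q : ℕ, 0 < q → mFourier k α ^ q ≠ 1) :
    NoRat (aa α (fun _ : Td d => (mFourier k α) • (1 : Matrix (Fin 1) (Fin 1) ℂ)) 1) := by
  intro b q hq
  set w : ℂ := mFourier k α * GT.e (-((b : ℝ) / q)) with hw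
  have hq' : (q : ℝ) ≠ 0 := by exact_mod_cast hq.ne'
  have hpow : ∀ n : ℕ, GT.e (-(n * ((b : ℝ) / q))) = GT.e (-((b : ℝ) / q)) ^ n := by
    intro n
    induction n with
    | zero => simp [GT.e_zero]
    | succ n ih =>
      have h1 : (-(((n + 1 : ℕ) : ℝ) * ((b : ℝ) / q))) = -((n : ℝ) * ((b : ℝ) / q)) + (-((b : ℝ) / q)) := by
        push_cast
        ring
      rw [h1, GT.e_add, ih, pow_succ]
  have hterm : ∀ n : ℕ, aa α (fun _ : Td d => (mFourier k α) • (1 : Matrix (Fin 1) (Fin 1) ℂ)) 1 n *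
      GT.e (-(n * ((b : ℝ) / q))) = w ^ n := by
    intro n
    rw [scalar_aa, hpow, hw, mul_pow]
  have hwq : w ^ q = mFourier k α ^ q := by
    rw [hw, mul_pow, ← hpow]
    have h1 : GT.e (-(q * ((b : ℝ) / q))) = 1 := by
      have h2 : (-((q : ℝ) * ((b : ℝ) / q))) = ((-(b : ℤ) : ℤ) : ℝ) := by
        push_cast
        field_simp
      rw [h2, GT.e_int]
    rw [h1, mul_one]
  have hw1 : w ≠ 1 := by
    intro h
    rw [h, one_pow] at hwq
    exact hk q hq hwq.symm
  have hwn : ‖w‖ = 1 := by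
    rw [hw, norm_mul, eq_mF_norm, GT.norm_e, mul_one]
  have hpos : 0 < ‖w - 1‖ := norm_pos_iff.2 (sub_ne_zero.2 hw1)
  simp only [hterm]
  refine squeeze_zero_norm (a := fun N : ℕ => (2 / ‖w - 1‖) * (1 / (N : ℝ))) (fun N => ?_) ?_
  · rw [norm_mul]
    have h3 : ‖(1 / (N : ℂ))‖ = 1 / (N : ℝ) := by simp
    rw [h3, mul_comm]
    have := eq_geom w hw1 hwn N
    gcongr
  · have := tendsto_one_div_atTop_nhds_zero_nat (𝕜 := ℝ)
    simpa using this.const_mul (2 / ‖w - 1‖)

end Pool.Agent.Lib.MP_9fe581_an.HD
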