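import Pool.Agent.Lib.MP_9fe581_an.HD.GDefs

/-!
# HD: Stone - Weierstrass on `Td d × G`

The span of the functions `mFourier k x * tens ρ a b y s t` is a star subalgebra that separates points.
-/

open Finset MeasureTheory Filter Topology UnitAddTorus
open scoped ComplexConjugate Matrix

namespace Pool.Agent.Lib.MP_9fe581_an.HD

variable {d : ℕ} {G : Type} [Group G] [TopologicalSpace G]

/-- the generating functions -/
private noncomputable def dnGen {n : ℕ} (ρ : G → Matrix (Fin n) (Fin n) ℂ) (k : Fin d → ℤ) (a b : ℕ)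
    (s t : (Fin a → Fin n) × (Fin b → Fin n)) (z : Td d × G) : ℂ :=
  mFourier k z.1 * tens ρ a b z.2 s t

private def dnSet (d : ℕ) {n : ℕ} (ρ : G → Matrix (Fin n) (Fin n) ℂ) : Set (Td d × G → ℂ) :=
  {h : Td d × G → ℂ | ∃ (k : Fin d → ℤ) (a b : ℕ) (s t : (Fin a → Fin n) × (Fin b → Fin n)),
    h = fun z => mFourier k z.1 * tens ρ a b z.2 s t}

private theorem dn_gen_mem {n : ℕ} (ρ : G → Matrix (Fin n) (Fin n) ℂ) (k : Fin d → ℤ) (a b : ℕ)
    (s t : (Fin a → Fin n) × (Fin b → Fin n)) : dnGen ρ k a b s t ∈ dnSet d ρ :=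
  ⟨k, a, b, s, t, rfl⟩

private theorem dn_tens_mul {n : ℕ} (ρ : G → Matrix (Fin n) (Fin n) ℂ) (a b a' b' : ℕ)
    (s t : (Fin a → Fin n) × (Fin b → Fin n)) (s' t' : (Fin a' → Fin n) × (Fin b' → Fin n)) (g : G) :
    tens ρ a b g s t * tens ρ a' b' g s' t' =
      tens ρ (a + a') (b + b') g (Fin.append s.1 s'.1, Fin.append s.2 s'.2)
        (Fin.append t.1 t'.1, Fin.append t.2 t'.2) := by
  unfold tens
  simp only [Matrix.of_apply]
  rw [Fin.prod_univ_add, Fin.prod_univ_add]
  simp only [Fin.append_left, Fin.append_right]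
  ring

private theorem dn_tens_conj {n : ℕ} (ρ : G → Matrix (Fin n) (Fin n) ℂ) (a b : ℕ)
    (s t : (Fin a → Fin n) × (Fin b → Fin n)) (g : G) :
    conj (tens ρ a b g s t) = tens ρ b a g (s.2, s.1) (t.2, t.1) := by
  unfold tens
  simp only [Matrix.of_apply]
  rw [map_mul, map_prod, map_prod, mul_comm]
  congr 1
  refine Finset.prod_congr rfl fun i _ => ?_
  exact Complex.conj_conj _

private theorem dn_one {n : ℕ} (ρ : G → Matrix (Fin n) (Fin n) ℂ) :
    (fun _ => 1 : Td d × G → ℂ) ∈ Submodule.span ℂ (dnSet d ρ) := by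
  apply Submodule.subset_span
  refine ⟨0, 0, 0, (fun i => i.elim0, fun i => i.elim0), (fun i => i.elim0, fun i => i.elim0), ?_⟩
  funext z
  unfold tens
  rw [mFourier_zero]
  simp

private theorem dn_mul {n : ℕ} (ρ : G → Matrix (Fin n) (Fin n) ℂ) (f g : Td d × G → ℂ)
    (hf : f ∈ Submodule.span ℂ (dnSet d ρ)) (hg : g ∈ Submodule.span ℂ (dnSet d ρ)) :
    (fun z => f z * g z) ∈ Submodule.span ℂ (dnSet d ρ) := by
  induction hf using Submodule.span_induction with
  | mem f hf =>
    obtain ⟨k, a, b, s, t, rfl⟩ := hf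
    induction hg using Submodule.span_induction with
    | mem g hg =>
      obtain ⟨k', a', b', s', t', rfl⟩ := hg
      apply Submodule.subset_span
      refine ⟨k + k', a + a', b + b', (Fin.append s.1 s'.1, Fin.append s.2 s'.2),
        (Fin.append t.1 t'.1, Fin.append t.2 t'.2), ?_⟩
      funext z
      rw [← dn_tens_mul, mFourier_add]
      ring
    | zero =>
      have e : (fun z => mFourier k z.1 * tens ρ a b z.2 s t * (0 : Td d × G → ℂ) z) = 0 := by
        funext z
        simp
      rw [e]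
      exact Submodule.zero_mem _
    | add g g' _ _ h h' =>
      have e : (fun z => mFourier k z.1 * tens ρ a b z.2 s t * (g + g') z) =
          (fun z => mFourier k z.1 * tens ρ a b z.2 s t * g z) +
            fun z => mFourier k z.1 * tens ρ a b z.2 s t * g' z := by
        funext z
        simp only [Pi.add_apply]
        ring
      rw [e]
      exact Submodule.add_mem _ h h'
    | smul c g _ h =>
      have e : (fun z => mFourier k z.1 * tens ρ a b z.2 s t * (c • g) z) =
          c • fun z => mFourier k z.1 * tens ρ a b z.2 s t * g z := by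
        funext z
        simp only [Pi.smul_apply, smul_eq_mul]
        ring
      rw [e]
      exact Submodule.smul_mem _ c h
  | zero =>
    have e : (fun z => (0 : Td d × G → ℂ) z * g z) = 0 := by
      funext z
      simp
    rw [e]
    exact Submodule.zero_mem _
  | add f f' _ _ h h' =>
    have e : (fun z => (f + f') z * g z) = (fun z => f z * g z) + fun z => f' z * g z := by
      funext z
      simp only [Pi.add_apply]
      ring
    rw [e]
    exact Submodule.add_mem _ h h'
  | smul c f _ h =>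
    have e : (fun z => (c • f) z * g z) = c • fun z => f z * g z := by
      funext z
      simp only [Pi.smul_apply, smul_eq_mul]
      ring
    rw [e]
    exact Submodule.smul_mem _ c h

private theorem dn_star {n : ℕ} (ρ : G → Matrix (Fin n) (Fin n) ℂ) (f : Td d × G → ℂ)
    (hf : f ∈ Submodule.span ℂ (dnSet d ρ)) :
    (fun z => conj (f z)) ∈ Submodule.span ℂ (dnSet d ρ) := by
  induction hf using Submodule.span_induction with
  | mem f hf =>
    obtain ⟨k, a, b, s, t, rfl⟩ := hf
    apply Submodule.subset_span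
    refine ⟨-k, b, a, (s.2, s.1), (t.2, t.1), ?_⟩
    funext z
    rw [map_mul, dn_tens_conj, mFourier_neg]
  | zero =>
    have e : (fun z => conj ((0 : Td d × G → ℂ) z)) = 0 := by
      funext z
      simp
    rw [e]
    exact Submodule.zero_mem _
  | add f f' _ _ h h' =>
    have e : (fun z => conj ((f + f') z)) = (fun z => conj (f z)) + fun z => conj (f' z) := by
      funext z
      simp
    rw [e]
    exact Submodule.add_mem _ h h'
  | smul c f _ h =>
    have e : (fun z => conj ((c • f) z)) = (conj c) • fun z => conj (f z) := by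
      funext z
      simp
    rw [e]
    exact Submodule.smul_mem _ _ h

/-- the star subalgebra -/
private noncomputable def dnAlg (d : ℕ) {n : ℕ} (ρ : G → Matrix (Fin n) (Fin n) ℂ) :
    StarSubalgebra ℂ C(Td d × G, ℂ) where
  carrier := {g | (g : Td d × G → ℂ) ∈ Submodule.span ℂ (dnSet d ρ)}
  mul_mem' := fun {f g} hf hg => dn_mul ρ f g hf hg
  one_mem' := dn_one ρ
  add_mem' := by
    intro f g hf hg
    change ((f + g : C(Td d × G, ℂ)) : Td d × G → ℂ) ∈ Submodule.span ℂ (dnSet d ρ)
    rw [ContinuousMap.coe_add]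
    exact Submodule.add_mem _ hf hg
  zero_mem' := by
    change ((0 : C(Td d × G, ℂ)) : Td d × G → ℂ) ∈ Submodule.span ℂ (dnSet d ρ)
    exact Submodule.zero_mem _
  algebraMap_mem' := by
    intro c
    have h := Submodule.smul_mem _ c (dn_one (d := d) ρ)
    have e : ((algebraMap ℂ C(Td d × G, ℂ) c : C(Td d × G, ℂ)) : Td d × G → ℂ) =
        c • (fun _ => 1 : Td d × G → ℂ) := by
      funext z
      simp
    change ((algebraMap ℂ C(Td d × G, ℂ) c : C(Td d × G, ℂ)) : Td d × G → ℂ) ∈
      Submodule.span ℂ (dnSet d ρ)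
    rw [e]
    exact h
  star_mem' := fun {f} hf => dn_star ρ f hf

private theorem dn_cont {n : ℕ} {ρ : G → Matrix (Fin n) (Fin n) ℂ} (hρ : URep ρ) (k : Fin d → ℤ)
    (a b : ℕ) (s t : (Fin a → Fin n) × (Fin b → Fin n)) : Continuous (dnGen ρ k a b s t) := by
  have h1 : ∀ i j, Continuous fun z : Td d × G => ρ z.2 i j := fun i j =>
    (hρ.cont.matrix_elem i j).comp continuous_snd
  unfold dnGen tens
  simp only [Matrix.of_apply]
  refine ((mFourier k).continuous.comp continuous_fst).mul (Continuous.mul ?_ ?_)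
  · exact continuous_finsetProd _ fun i _ => h1 _ _
  · exact continuous_finsetProd _ fun i _ => Complex.continuous_conj.comp (h1 _ _)

private theorem dn_sep {n : ℕ} {ρ : G → Matrix (Fin n) (Fin n) ℂ} (hρ : URep ρ)
    (hinj : Function.Injective ρ) : (dnAlg d ρ).SeparatesPoints := by
  intro z z' hz
  have hmem : ∀ (k : Fin d → ℤ) (a b : ℕ) (s t : (Fin a → Fin n) × (Fin b → Fin n)),
      dnGen ρ k a b s t z ≠ dnGen ρ k a b s t z' →
      ∃ f ∈ (fun f : C(Td d × G, ℂ) => (f : Td d × G → ℂ)) '' (dnAlg d ρ : Set C(Td d × G, ℂ)),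
        f z ≠ f z' := by
    intro k a b s t h
    refine ⟨dnGen ρ k a b s t, ⟨⟨dnGen ρ k a b s t, dn_cont hρ k a b s t⟩, ?_, rfl⟩, h⟩
    have h3 : dnGen ρ k a b s t ∈ Submodule.span ℂ (dnSet d ρ) :=
      Submodule.subset_span (dn_gen_mem ρ k a b s t)
    exact h3
  by_cases h2 : z.2 = z'.2
  · have h1 : z.1 ≠ z'.1 := fun h => hz (Prod.ext h h2)
    obtain ⟨i, hi⟩ := Function.ne_iff.mp h1
    apply hmem (Pi.single i 1) 0 0 (fun i => i.elim0, fun i => i.elim0)
      (fun i => i.elim0, fun i => i.elim0)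
    unfold dnGen tens
    simp only [Matrix.of_apply, Finset.univ_eq_empty, Finset.prod_empty, mul_one]
    rw [mFourier_single, mFourier_single, fourier_one, fourier_one]
    intro h
    exact hi (AddCircle.injective_toCircle one_ne_zero (Subtype.coe_injective h))
  · have h1 : ρ z.2 ≠ ρ z'.2 := fun h => h2 (hinj h)
    obtain ⟨i, hi⟩ := Function.ne_iff.mp h1
    obtain ⟨j, hj⟩ := Function.ne_iff.mp hi
    apply hmem 0 1 0 (fun _ => i, fun i => i.elim0) (fun _ => j, fun i => i.elim0)
    unfold dnGen tens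
    rw [mFourier_zero]
    simpa using hj

variable [IsTopologicalGroup G] [CompactSpace G] [T2Space G] [SecondCountableTopology G]
  [MeasurableSpace G] [BorelSpace G]

theorem coef_dense {n : ℕ} {ρ : G → Matrix (Fin n) (Fin n) ℂ} (hρ : URep ρ)
    (hinj : Function.Injective ρ) (f : C(Td d × G, ℂ)) (ε : ℝ) (hε : 0 < ε) :
    ∃ g : C(Td d × G, ℂ), (∀ z, ‖f z - g z‖ ≤ ε) ∧
      (g : Td d × G → ℂ) ∈ Submodule.span ℂ {h : Td d × G → ℂ |
        ∃ (k : Fin d → ℤ) (a b : ℕ) (s t : (Fin a → Fin n) × (Fin b → Fin n)),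
          h = fun z => mFourier k z.1 * tens ρ a b z.2 s t} := by
  have h1 := ContinuousMap.starSubalgebra_topologicalClosure_eq_top_of_separatesPoints (dnAlg d ρ)
    (dn_sep hρ hinj)
  have h2 : f ∈ closure ((dnAlg d ρ : StarSubalgebra ℂ C(Td d × G, ℂ)) : Set C(Td d × G, ℂ)) := by
    rw [← StarSubalgebra.topologicalClosure_coe, h1]
    exact Set.mem_univ f
  obtain ⟨g, hg, hd⟩ := Metric.mem_closure_iff.mp h2 ε hε
  have hg' : (g : Td d × G → ℂ) ∈ Submodule.span ℂ (dnSet d ρ) := hg
  refine ⟨g, fun z => ?_, hg'⟩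
  rw [← dist_eq_norm]
  exact (ContinuousMap.dist_apply_le_dist z).trans hd.le

end Pool.Agent.Lib.MP_9fe581_an.HD
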