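import Pool.Agent.Lib.MP_9fe581_an.HD.GDefs

/-!
# HD: the projection on the fixed vectors of a unitary representation of a compact group
-/

set_option autoImplicit false
set_option linter.unusedSectionVars false

open Finset MeasureTheory Filter Topology UnitAddTorus
open scoped ComplexConjugate Matrix

namespace Pool.Agent.Lib.MP_9fe581_an.HD

variable {d : ℕ} {ι : Type} [Fintype ι] [DecidableEq ι] {G : Type} [Group G] [TopologicalSpace G] [IsTopologicalGroup G]
  [CompactSpace G] [T2Space G] [SecondCountableTopology G] [MeasurableSpace G] [BorelSpace G]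
  {μ : Measure G} [μ.IsHaarMeasure] [IsProbabilityMeasure μ] {α : Td d} {φ : Td d → G}

omit [IsTopologicalGroup G] [CompactSpace G] [T2Space G] [SecondCountableTopology G]
  [MeasurableSpace G] [BorelSpace G] in
theorem fx_inv {π : G → Matrix ι ι ℂ} (hπ : URep π) (g : G) : π g⁻¹ = (π g)ᴴ := by
  have h1 : π g⁻¹ * π g = 1 := by rw [← hπ.mul, inv_mul_cancel, hπ.one]
  calc π g⁻¹ = π g⁻¹ * (π g * (π g)ᴴ) := by rw [hπ.uni, mul_one]
    _ = (π g⁻¹ * π g) * (π g)ᴴ := by rw [Matrix.mul_assoc]
    _ = (π g)ᴴ := by rw [h1, one_mul]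

omit [IsTopologicalGroup G] [CompactSpace G] [T2Space G] [SecondCountableTopology G]
  [MeasurableSpace G] [BorelSpace G] in
theorem fx_uni' {π : G → Matrix ι ι ℂ} (hπ : URep π) (g : G) : (π g)ᴴ * π g = 1 := by
  rw [← fx_inv hπ, ← hπ.mul, inv_mul_cancel, hπ.one]

omit [T2Space G] in
theorem fx_int {π : G → Matrix ι ι ℂ} (hπ : URep π) (i j : ι) :
    Integrable (fun g => π g i j) μ :=
  (hπ.cont.matrix_elem i j).integrable_of_hasCompactSupport (HasCompactSupport.of_compactSpace _)

omit [T2Space G] in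
theorem pi_fixP {π : G → Matrix ι ι ℂ} (hπ : URep π) (g : G) : π g * fixP μ π = fixP μ π := by
  ext i j
  rw [Matrix.mul_apply]
  simp only [fixP, Matrix.of_apply]
  rw [show (∑ k, π g i k * ∫ h, π h k j ∂μ) = ∫ h, ∑ k, π g i k * π h k j ∂μ by
    rw [integral_finsetSum _ fun k _ => (fx_int hπ k j).const_mul _]
    exact Finset.sum_congr rfl fun k _ => (integral_const_mul _ _).symm]
  rw [show (fun h => ∑ k, π g i k * π h k j) = fun h => π (g * h) i j by
    funext h; rw [hπ.mul, Matrix.mul_apply]]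
  exact integral_mul_left_eq_self (fun h => π h i j) g

omit [T2Space G] in
theorem fx_HP {π : G → Matrix ι ι ℂ} (hπ : URep π) : (fixP μ π)ᴴ * fixP μ π = fixP μ π := by
  ext i j
  rw [Matrix.mul_apply]
  simp only [Matrix.conjTranspose_apply]
  have h1 : ∀ k, star (fixP μ π k i) * fixP μ π k j =
      ∫ g, star (π g k i) * fixP μ π k j ∂μ := by
    intro k
    rw [integral_mul_const]
    congr 1
    simp only [fixP, Matrix.of_apply]
    exact (integral_conj (𝕜 := ℂ) (f := fun g => π g k i)).symm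
  rw [Finset.sum_congr rfl fun k _ => h1 k, ← integral_finsetSum]
  · rw [show (fun g => ∑ k, star (π g k i) * fixP μ π k j) = fun _ => fixP μ π i j by
      funext g
      have h2 := congrFun (congrFun (pi_fixP (μ := μ) hπ g⁻¹) i) j
      rw [fx_inv hπ, Matrix.mul_apply] at h2
      exact h2]
    simp
  · intro k _
    refine Integrable.mul_const ?_ _
    refine Continuous.integrable_of_hasCompactSupport ?_ (HasCompactSupport.of_compactSpace _)
    exact continuous_star.comp (hπ.cont.matrix_elem k i)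

omit [T2Space G] in
theorem fixP_H {π : G → Matrix ι ι ℂ} (hπ : URep π) : (fixP μ π)ᴴ = fixP μ π := by
  have h := congrArg Matrix.conjTranspose (fx_HP (μ := μ) hπ)
  rw [Matrix.conjTranspose_mul, Matrix.conjTranspose_conjTranspose, fx_HP hπ] at h
  exact h.symm

omit [T2Space G] in
theorem fixP_sq {π : G → Matrix ι ι ℂ} (hπ : URep π) : fixP μ π * fixP μ π = fixP μ π := by
  have h := fx_HP (μ := μ) hπ
  rwa [fixP_H hπ] at h

omit [T2Space G] in
theorem fixP_pi {π : G → Matrix ι ι ℂ} (hπ : URep π) (g : G) : fixP μ π * π g = fixP μ π := by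
  have h := congrArg Matrix.conjTranspose (pi_fixP (μ := μ) hπ g⁻¹)
  rw [Matrix.conjTranspose_mul, fixP_H hπ, fx_inv hπ, Matrix.conjTranspose_conjTranspose] at h
  exact h

omit [T2Space G] in
theorem fx_cut {π : G → Matrix ι ι ℂ} (hπ : URep π) (g : G) :
    (1 - fixP μ π) * π g * (1 - fixP μ π) = (1 - fixP μ π) * π g := by
  rw [Matrix.mul_assoc, mul_sub, mul_one, pi_fixP hπ, mul_sub, sub_mul (1 : Matrix ι ι ℂ) _ (fixP μ π),
    one_mul, fixP_sq hπ, sub_self, sub_zero]

omit [T2Space G] in
theorem fx_QQ {π : G → Matrix ι ι ℂ} (hπ : URep π) :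
    (1 - fixP μ π) * (1 - fixP μ π) = 1 - fixP μ π := by
  rw [mul_sub, mul_one, sub_mul, one_mul, fixP_sq hπ, sub_self, sub_zero]

theorem fx_norm (k : Fin d → ℤ) (x : Td d) : mFourier k x * conj (mFourier k x) = 1 := by
  rw [Complex.mul_conj, Complex.normSq_eq_norm_sq]
  have : ‖mFourier k x‖ = 1 := by
    simp only [mFourier, ContinuousMap.coe_mk, norm_prod]
    exact Finset.prod_eq_one fun i _ => by rw [fourier_apply]; exact Circle.norm_coe _
  rw [this]
  norm_num

omit [T2Space G] in
theorem AG_uc {π : G → Matrix ι ι ℂ} (hπ : URep π) (k : Fin d → ℤ) (hφ : Continuous φ) :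
    UC (AG μ π k α φ) (1 - fixP μ π) where
  cont := by
    have h : Continuous fun x => (1 - fixP μ π) * π (φ x) :=
      Continuous.matrix_mul continuous_const (hπ.cont.comp hφ)
    exact h.const_smul (mFourier k α)
  QH := by rw [Matrix.conjTranspose_sub, Matrix.conjTranspose_one, fixP_H hπ]
  QQ := fx_QQ hπ
  QA x := by
    rw [AG, Matrix.mul_smul, ← Matrix.mul_assoc, fx_QQ hπ]
  AQ x := by
    rw [AG, Matrix.smul_mul, fx_cut hπ]
  AAH x := by
    rw [AG, Matrix.conjTranspose_smul, Matrix.smul_mul, Matrix.mul_smul, smul_smul,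
      Matrix.conjTranspose_mul, Matrix.conjTranspose_sub, Matrix.conjTranspose_one, fixP_H hπ,
      Matrix.mul_assoc, ← Matrix.mul_assoc (π (φ x)), hπ.uni, one_mul, fx_QQ hπ]
    rw [show mFourier k α * star (mFourier k α) = 1 from fx_norm k α, one_smul]
  AHA x := by
    rw [AG, Matrix.conjTranspose_smul, Matrix.smul_mul, Matrix.mul_smul, smul_smul,
      Matrix.conjTranspose_mul, Matrix.conjTranspose_sub, Matrix.conjTranspose_one, fixP_H hπ,
      Matrix.mul_assoc, ← Matrix.mul_assoc (1 - fixP μ π), fx_QQ hπ, sub_mul, one_mul,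
      fixP_pi hπ, mul_sub, fx_uni' hπ, ← fx_inv hπ, pi_fixP hπ]
    rw [mul_comm, show mFourier k α * star (mFourier k α) = 1 from fx_norm k α, one_smul]

end Pool.Agent.Lib.MP_9fe581_an.HD
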