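import Pool.Agent.Lib.MP_9fe581_an.HD.Fix

/-!
# HD: iterates of the skew product and of the cocycle of matrix coefficients
-/

set_option autoImplicit false
set_option linter.unusedSectionVars false

open Finset MeasureTheory Filter Topology UnitAddTorus
open scoped ComplexConjugate Matrix

namespace Pool.Agent.Lib.MP_9fe581_an.HD

theorem skew_iter {d : ℕ} {G : Type} [Group G] (α : Td d) (φ : Td d → G) (n : ℕ) (z : Td d × G) :
    (skew α φ)^[n] z = (z.1 + n • α, pr α φ n z.1 * z.2) := by
  induction n with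
  | zero => simp [pr]
  | succ n ih =>
    rw [Function.iterate_succ_apply', ih]
    simp only [skew, pr]
    rw [add_assoc, ← succ_nsmul, mul_assoc]

variable {d : ℕ} {ι : Type} [Fintype ι] [DecidableEq ι] {G : Type} [Group G] [TopologicalSpace G] [IsTopologicalGroup G]
  [CompactSpace G] [T2Space G] [SecondCountableTopology G] [MeasurableSpace G] [BorelSpace G]
  {μ : Measure G} [μ.IsHaarMeasure] [IsProbabilityMeasure μ] {α : Td d} {φ : Td d → G}

theorem it_mF_add (k : Fin d → ℤ) (x y : Td d) :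
    mFourier k (x + y) = mFourier k x * mFourier k y := by
  simp only [mFourier, ContinuousMap.coe_mk, Pi.add_apply, ← Finset.prod_mul_distrib]
  refine Finset.prod_congr rfl fun i _ => ?_
  rw [fourier_apply, fourier_apply, fourier_apply, smul_add, AddCircle.toCircle_add, Circle.coe_mul]

theorem it_mF_zero (k : Fin d → ℤ) : mFourier k (0 : Td d) = 1 := by
  simp only [mFourier, ContinuousMap.coe_mk, Pi.zero_apply]
  refine Finset.prod_eq_one fun i _ => ?_
  rw [fourier_apply, smul_zero, AddCircle.toCircle_zero, Circle.coe_one]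

theorem cp_AG {π : G → Matrix ι ι ℂ} (hπ : URep π) (k : Fin d → ℤ) (n : ℕ) (x : Td d) :
    cp α (AG μ π k α φ) (1 - fixP μ π) n x =
      mFourier k (n • α) • ((1 - fixP μ π) * π (pr α φ n x)) := by
  induction n with
  | zero =>
    rw [cp, pr, hπ.one, mul_one, zero_nsmul, it_mF_zero, one_smul]
  | succ n ih =>
    rw [cp, ih, AG, pr, Matrix.smul_mul, Matrix.mul_smul, smul_smul, ← Matrix.mul_assoc, fx_cut hπ,
      Matrix.mul_assoc, ← hπ.mul, succ_nsmul, it_mF_add, mul_comm (mFourier k α)]

/-- value along the orbit of the coefficient `mFourier k x * ((1 - P) * π y) i j` -/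
theorem coef_orbit {π : G → Matrix ι ι ℂ} (hπ : URep π) (k : Fin d → ℤ) (n : ℕ) (z : Td d × G) (i j : ι) :
    mFourier k ((skew α φ)^[n] z).1 * ((1 - fixP μ π) * π ((skew α φ)^[n] z).2) i j =
      ∑ a, mFourier k z.1 * π z.2 a j * cp α (AG μ π k α φ) (1 - fixP μ π) n z.1 i a := by
  rw [skew_iter]
  simp only [cp_AG hπ]
  rw [it_mF_add, hπ.mul, ← Matrix.mul_assoc, Matrix.mul_apply, Finset.mul_sum]
  refine Finset.sum_congr rfl fun a _ => ?_
  rw [Matrix.smul_apply, smul_eq_mul]
  ring

/-- same, for the trace: `∑_{i,j} f_ij(T^n z) conj f_ij(z) = tr cp n z.1` with f_ij as above -/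
theorem coef_trace {π : G → Matrix ι ι ℂ} (hπ : URep π) (k : Fin d → ℤ) (n : ℕ) (z : Td d × G) :
    ∑ i, ∑ j, (mFourier k ((skew α φ)^[n] z).1 * ((1 - fixP μ π) * π ((skew α φ)^[n] z).2) i j) *
      conj (mFourier k z.1 * ((1 - fixP μ π) * π z.2) i j) =
        (cp α (AG μ π k α φ) (1 - fixP μ π) n z.1).trace := by
  set F : Matrix ι ι ℂ := (1 - fixP μ π) * π z.2 with hF
  set H : Matrix ι ι ℂ := (1 - fixP μ π) * π ((skew α φ)^[n] z).2 with hH
  have h1 : ∀ i j, (mFourier k ((skew α φ)^[n] z).1 * H i j) * conj (mFourier k z.1 * F i j) =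
      mFourier k (n • α) * (H i j * (Fᴴ) j i) := by
    intro i j
    have e1 : mFourier k ((skew α φ)^[n] z).1 = mFourier k z.1 * mFourier k (n • α) := by
      rw [skew_iter]
      exact it_mF_add _ _ _
    rw [e1, map_mul, Matrix.conjTranspose_apply]
    calc mFourier k z.1 * mFourier k (n • α) * H i j * (conj (mFourier k z.1) * conj (F i j))
        = (mFourier k z.1 * conj (mFourier k z.1)) * (mFourier k (n • α) * (H i j * conj (F i j))) := by
          ring
      _ = _ := by rw [fx_norm, one_mul]; rfl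
  rw [Finset.sum_congr rfl fun i _ => Finset.sum_congr rfl fun j _ => h1 i j]
  have h2 : H * Fᴴ = (1 - fixP μ π) * π (pr α φ n z.1) := by
    rw [hH, hF, skew_iter, hπ.mul, Matrix.conjTranspose_mul, Matrix.conjTranspose_sub,
      Matrix.conjTranspose_one, fixP_H hπ]
    calc (1 - fixP μ π) * (π (pr α φ n z.1) * π z.2) * ((π z.2)ᴴ * (1 - fixP μ π))
        = (1 - fixP μ π) * π (pr α φ n z.1) * (π z.2 * (π z.2)ᴴ) * (1 - fixP μ π) := by
          simp only [Matrix.mul_assoc]
      _ = _ := by rw [hπ.uni, mul_one, fx_cut hπ]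
  rw [cp_AG hπ, ← h2, Matrix.trace_smul, smul_eq_mul, Matrix.trace]
  simp only [Matrix.diag_apply, Matrix.mul_apply, Finset.mul_sum]

end Pool.Agent.Lib.MP_9fe581_an.HD
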