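import Pool.Agent.Lib.MP_9fe581_an.HD.Defs

/-!
# HD, module N1: averages over the points `i / q` are energies on the frequencies divisible by `q`
-/

open Finset MeasureTheory Filter Topology UnitAddTorus
open scoped ComplexConjugate Matrix

namespace Pool.Agent.Lib.MP_9fe581_an.HD

variable {d : ℕ}

noncomputable local instance n1MeasureSpace : MeasureSpace UnitAddCircle := ⟨AddCircle.haarAddCircle⟩

local instance n1Haar : Measure.IsAddHaarMeasure (volume : Measure UnitAddCircle) :=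
  inferInstanceAs (Measure.IsAddHaarMeasure AddCircle.haarAddCircle)

local instance n1Prob : IsProbabilityMeasure (volume : Measure UnitAddCircle) :=
  inferInstanceAs (IsProbabilityMeasure AddCircle.haarAddCircle)

/-- the Fourier coefficient -/
private noncomputable def n1c (F : Td d → ℂ) (a : Fin d → ℤ) : ℂ := ∫ t, mFourier (-a) t * F t ∂mT d

/-- Parseval for inner products of continuous functions -/
private theorem n1_parseval2 {F G : Td d → ℂ} (hF : Continuous F) (hG : Continuous G) :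
    HasSum (fun a => conj (n1c F a) * n1c G a) (∫ t, conj (F t) * G t ∂mT d) := by
  have h := hasSum_prod_mFourierCoeff
    (ContinuousMap.toLp 2 volume ℂ (⟨F, hF⟩ : C(UnitAddTorus (Fin d), ℂ)))
    (ContinuousMap.toLp 2 volume ℂ (⟨G, hG⟩ : C(UnitAddTorus (Fin d), ℂ)))
  simp only [mFourierCoeff_toLp] at h
  have h2 : ∫ t, conj ((ContinuousMap.toLp 2 volume ℂ (⟨F, hF⟩ : C(UnitAddTorus (Fin d), ℂ))) t) *
      (ContinuousMap.toLp 2 volume ℂ (⟨G, hG⟩ : C(UnitAddTorus (Fin d), ℂ))) t =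
      ∫ t, conj (F t) * G t ∂mT d := by
    apply integral_congr_ae
    filter_upwards [ContinuousMap.coeFn_toLp (p := 2) (𝕜 := ℂ) volume (⟨F, hF⟩ : C(UnitAddTorus (Fin d), ℂ)),
      ContinuousMap.coeFn_toLp (p := 2) (𝕜 := ℂ) volume (⟨G, hG⟩ : C(UnitAddTorus (Fin d), ℂ))] with t ht ht'
    rw [ht, ht']
    rfl
  rw [h2] at h
  exact h

/-- Parseval for continuous functions -/
private theorem n1_parseval {F : Td d → ℂ} (hF : Continuous F) :
    HasSum (fun a => ‖n1c F a‖ ^ 2) (∫ t, ‖F t‖ ^ 2 ∂mT d) := by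
  have h := hasSum_sq_mFourierCoeff (ContinuousMap.toLp 2 volume ℂ (⟨F, hF⟩ : C(UnitAddTorus (Fin d), ℂ)))
  simp only [mFourierCoeff_toLp] at h
  have h2 : ∫ t, ‖(ContinuousMap.toLp 2 volume ℂ (⟨F, hF⟩ : C(UnitAddTorus (Fin d), ℂ))) t‖ ^ 2 =
      ∫ t, ‖F t‖ ^ 2 ∂mT d := by
    apply integral_congr_ae
    filter_upwards [ContinuousMap.coeFn_toLp (p := 2) (𝕜 := ℂ) volume (⟨F, hF⟩ : C(UnitAddTorus (Fin d), ℂ))] with t ht
    rw [ht]; rfl
  rw [h2] at h
  exact h

private theorem n1_mul_add (k : Fin d → ℤ) (x y : Td d) : mFourier k (x + y) = mFourier k x * mFourier k y := by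
  simp only [mFourier, ContinuousMap.coe_mk, ← Finset.prod_mul_distrib]
  apply Finset.prod_congr rfl
  intro i _
  simp only [fourier_apply, Pi.add_apply, smul_add, AddCircle.toCircle_add, Circle.coe_mul]

/-- the coefficients of a translate -/
private theorem n1_shift (F : Td d → ℂ) (s : Td d) (a : Fin d → ℤ) :
    n1c (fun u => F (u + s)) a = mFourier a s * n1c F a := by
  unfold n1c
  rw [← integral_const_mul]
  rw [← integral_add_right_eq_self (μ := mT d) (fun t : Td d => mFourier a s * (mFourier (-a) t * F t)) s]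
  apply integral_congr_ae
  refine Eventually.of_forall fun t => ?_
  have h1 : mFourier a s * mFourier (-a) s = 1 := by
    rw [← mFourier_add, add_neg_cancel, mFourier_zero]; rfl
  show mFourier (-a) t * F (t + s) = mFourier a s * (mFourier (-a) (t + s) * F (t + s))
  rw [n1_mul_add]
  calc mFourier (-a) t * F (t + s) = 1 * (mFourier (-a) t * F (t + s)) := by ring
    _ = mFourier a s * (mFourier (-a) t * mFourier (-a) s * F (t + s)) := by rw [← h1]; ring

private theorem n1_auto {F : Td d → ℂ} (hF : Continuous F) (s : Td d) :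
    HasSum (fun a => mFourier a s * ((‖n1c F a‖ ^ 2 : ℝ) : ℂ)) (∫ u, F (u + s) * conj (F u) ∂mT d) := by
  have hG : Continuous fun u : Td d => F (u + s) := hF.comp (continuous_id.add continuous_const)
  have h := n1_parseval2 hF hG
  have e1 : (fun a => conj (n1c F a) * n1c (fun u => F (u + s)) a) =
      fun a => mFourier a s * ((‖n1c F a‖ ^ 2 : ℝ) : ℂ) := by
    funext a
    rw [n1_shift, Complex.ofReal_pow, ← Complex.conj_mul']
    ring
  have e2 : ∫ t, conj (F t) * F (t + s) ∂mT d = ∫ u, F (u + s) * conj (F u) ∂mT d := by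
    apply integral_congr_ae
    exact Eventually.of_forall fun t => mul_comm _ _
  rw [e1, e2] at h
  exact h

/-- orthogonality of the additive characters mod `q` -/
private theorem n1_geom (q : ℕ) (hq : 0 < q) (a : ℤ) :
    ∑ j : Fin q, (fourier a ((((j : ℕ) : ℝ) / (q : ℝ) : ℝ) : UnitAddCircle) : ℂ) = if (q : ℤ) ∣ a then (q : ℂ) else 0 := by
  set ζ : ℂ := Complex.exp (2 * Real.pi * Complex.I * a / q) with hζ
  have hq' : (q : ℂ) ≠ 0 := by exact_mod_cast hq.ne'
  have h1 : ∀ j : ℕ, (fourier a ((((j : ℕ) : ℝ) / (q : ℝ) : ℝ) : UnitAddCircle) : ℂ) = ζ ^ j := by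
    intro j
    rw [fourier_coe_apply, hζ, ← Complex.exp_nat_mul]
    congr 1
    push_cast
    field_simp
  have h2 : ∑ j : Fin q, (fourier a ((((j : ℕ) : ℝ) / (q : ℝ) : ℝ) : UnitAddCircle) : ℂ) = ∑ j ∈ range q, ζ ^ j := by
    rw [← Fin.sum_univ_eq_sum_range]
    exact Finset.sum_congr rfl fun j _ => h1 j
  rw [h2]
  have hpi : (2 * (Real.pi : ℂ) * Complex.I) ≠ 0 := by
    simp [Real.pi_ne_zero]
  have hone : ζ = 1 ↔ (q : ℤ) ∣ a := by
    rw [hζ, Complex.exp_eq_one_iff]
    constructor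
    · rintro ⟨n, hn⟩
      refine ⟨n, ?_⟩
      have h3 : (2 * (Real.pi : ℂ) * Complex.I) * ((a : ℂ) / q) = (2 * (Real.pi : ℂ) * Complex.I) * n := by
        rw [mul_comm (2 * (Real.pi : ℂ) * Complex.I) (n : ℂ), ← hn]
        ring
      have h4 := mul_left_cancel₀ hpi h3
      have h5 : (a : ℂ) = q * n := by
        rw [← h4]; field_simp
      exact_mod_cast h5
    · rintro ⟨n, rfl⟩
      refine ⟨n, ?_⟩
      push_cast
      field_simp
  by_cases h : (q : ℤ) ∣ a
  · rw [if_pos h, hone.mpr h]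
    simp
  · rw [if_neg h]
    have h3 : ζ ≠ 1 := fun h' => h (hone.mp h')
    have h4 : ζ ^ q = 1 := by
      rw [hζ, ← Complex.exp_nat_mul, Complex.exp_eq_one_iff]
      refine ⟨a, ?_⟩
      field_simp
    have h5 := mul_geom_sum ζ q
    rw [h4, sub_self] at h5
    exact (mul_eq_zero.mp h5).resolve_left (sub_ne_zero.mpr h3)

private theorem n1_orth (q : ℕ) (hq : 0 < q) (a : Fin d → ℤ) :
    (1 / (q : ℂ) ^ d) * ∑ i : Fin d → Fin q, mFourier a (ptq q i) = if (∀ i, (q : ℤ) ∣ a i) then 1 else 0 := by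
  have hq' : (q : ℂ) ≠ 0 := by exact_mod_cast hq.ne'
  have h1 : ∑ i : Fin d → Fin q, mFourier a (ptq q i) =
      ∏ k : Fin d, ∑ j : Fin q, (fourier (a k) ((((j : ℕ) : ℝ) / (q : ℝ) : ℝ) : UnitAddCircle) : ℂ) := by
    rw [Finset.prod_univ_sum, Fintype.piFinset_univ]
    rfl
  rw [h1]
  simp only [n1_geom q hq]
  by_cases h : ∀ i, (q : ℤ) ∣ a i
  · rw [if_pos h, Finset.prod_congr rfl fun i _ => if_pos (h i), Finset.prod_const, Finset.card_univ, Fintype.card_fin]
    field_simp
  · rw [if_neg h]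
    push Not at h
    obtain ⟨i, hi⟩ := h
    rw [Finset.prod_eq_zero (Finset.mem_univ i) (if_neg hi), mul_zero]

private theorem n1_term_sum {F : Td d → ℂ} (hF : Continuous F) (q : ℕ) :
    Summable fun a : Fin d → ℤ => if (∀ i, (q : ℤ) ∣ a i) then ‖n1c F a‖ ^ 2 else 0 := by
  refine (n1_parseval hF).summable.of_nonneg_of_le (fun a => ?_) fun a => ?_
  · split_ifs
    · positivity
    · exact le_rfl
  · split_ifs
    · exact le_rfl
    · positivity

private theorem n1_zero (F : Td d → ℂ) : n1c F 0 = ∫ t, F t ∂mT d := by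
  unfold n1c
  rw [neg_zero, mFourier_zero]
  simp

/-- `q^{-d} ∑_i e(a . i/q)` is 1 if q ∣ a and 0 otherwise; Parseval for `u ↦ F (u + s)` and `F` -/
theorem avg_eqf (F : Td d → ℂ) (hc : Continuous F) (q : ℕ) (hq : 0 < q) :
    (1 / (q : ℂ) ^ d) * ∑ i : Fin d → Fin q, ∫ u, F (u + ptq q i) * conj (F u) ∂mT d = ((eqf F q : ℝ) : ℂ) := by
  have h1 : HasSum (fun a => (1 / (q : ℂ) ^ d) * ∑ i : Fin d → Fin q, mFourier a (ptq q i) * ((‖n1c F a‖ ^ 2 : ℝ) : ℂ))
      ((1 / (q : ℂ) ^ d) * ∑ i : Fin d → Fin q, ∫ u, F (u + ptq q i) * conj (F u) ∂mT d) :=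
    (hasSum_sum fun i _ => n1_auto hc (ptq q i)).mul_left _
  have h2 : HasSum (fun a : Fin d → ℤ => (((if (∀ i, (q : ℤ) ∣ a i) then ‖n1c F a‖ ^ 2 else 0 : ℝ)) : ℂ))
      ((eqf F q : ℝ) : ℂ) := by
    have h3 := (n1_term_sum hc q).hasSum
    exact Complex.hasSum_ofReal.mpr h3
  refine h1.unique ?_
  have e : (fun a => (1 / (q : ℂ) ^ d) * ∑ i : Fin d → Fin q, mFourier a (ptq q i) * ((‖n1c F a‖ ^ 2 : ℝ) : ℂ)) =
      fun a : Fin d → ℤ => (((if (∀ i, (q : ℤ) ∣ a i) then ‖n1c F a‖ ^ 2 else 0 : ℝ)) : ℂ) := by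
    funext a
    rw [← Finset.sum_mul, ← mul_assoc, n1_orth q hq a]
    split_ifs
    · rw [one_mul]
    · rw [zero_mul, Complex.ofReal_zero]
  rw [e]
  exact h2

/-- the term a = 0 -/
theorem eqf_ge (F : Td d → ℂ) (hc : Continuous F) (q : ℕ) : ‖∫ t, F t ∂mT d‖ ^ 2 ≤ eqf F q := by
  have h := (n1_term_sum hc q).le_tsum 0 fun a _ => by
    split_ifs
    · positivity
    · exact le_rfl
  have h0 : (∀ i : Fin d, (q : ℤ) ∣ (0 : Fin d → ℤ) i) := fun i => dvd_zero _
  rw [if_pos h0, n1_zero] at h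
  exact h

/-- Parseval -/
theorem eqf_le (F : Td d → ℂ) (hc : Continuous F) (B : ℝ) (hB : ∀ x, ‖F x‖ ≤ B) (q : ℕ) : eqf F q ≤ B ^ 2 := by
  have h1 : eqf F q ≤ ∑' a : Fin d → ℤ, ‖n1c F a‖ ^ 2 := by
    refine (n1_term_sum hc q).tsum_le_tsum (fun a => ?_) (n1_parseval hc).summable
    split_ifs
    · exact le_rfl
    · positivity
  have h2 : ∫ t, ‖F t‖ ^ 2 ∂mT d ≤ B ^ 2 := by
    have h3 : ∫ t, ‖F t‖ ^ 2 ∂mT d ≤ ∫ _t, B ^ 2 ∂mT d := by
      refine integral_mono ?_ (integrable_const _) fun t => ?_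
      · exact (hc.norm.pow 2).integrable_of_hasCompactSupport (HasCompactSupport.of_compactSpace _)
      · exact pow_le_pow_left₀ (norm_nonneg _) (hB t) 2
    refine h3.trans (le_of_eq ?_)
    rw [integral_const, probReal_univ, one_smul]
  rw [(n1_parseval hc).tsum_eq] at h1
  exact h1.trans h2

/-- (6*): dominated convergence in the sum: a fixed a ≠ 0 is not divisible by q for large q -/
theorem eqf_tendsto (F : Td d → ℂ) (hc : Continuous F) :
    Tendsto (fun q : ℕ => eqf F q) atTop (𝓝 (‖∫ t, F t ∂mT d‖ ^ 2)) := by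
  have h1 : Tendsto (fun q : ℕ => ∑' a : Fin d → ℤ, if (∀ i, (q : ℤ) ∣ a i) then ‖n1c F a‖ ^ 2 else 0) atTop
      (𝓝 (∑' a : Fin d → ℤ, if a = 0 then ‖n1c F a‖ ^ 2 else 0)) := by
    refine tendsto_tsum_of_dominated_convergence (n1_parseval hc).summable (fun a => ?_) ?_
    · by_cases ha : a = 0
      · subst ha
        have h0 : ∀ q : ℕ, (∀ i : Fin d, (q : ℤ) ∣ (0 : Fin d → ℤ) i) := fun q i => dvd_zero _
        simp only [if_pos (h0 _), if_true]
        exact tendsto_const_nhds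
      · rw [if_neg ha]
        obtain ⟨i, hi⟩ := Function.ne_iff.mp ha
        have h2 : ∀ᶠ q : ℕ in atTop, (if (∀ i, (q : ℤ) ∣ a i) then ‖n1c F a‖ ^ 2 else 0) = 0 := by
          filter_upwards [eventually_gt_atTop (a i).natAbs] with q hq
          rw [if_neg]
          intro h
          have h3 := Int.natAbs_dvd_natAbs.mpr (h i)
          rw [Int.natAbs_natCast] at h3
          have h4 := Nat.le_of_dvd (Int.natAbs_pos.mpr hi) h3
          omega
        exact tendsto_const_nhds.congr' (h2.mono fun q hq => hq.symm)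
    · refine Eventually.of_forall fun q a => ?_
      split_ifs
      · rw [Real.norm_of_nonneg (by positivity)]
      · rw [norm_zero]
        positivity
  rw [tsum_eq_single (0 : Fin d → ℤ) (fun a ha => if_neg ha), if_pos rfl, n1_zero] at h1
  exact h1

/-- Fubini and translation invariance -/
theorem int_bb (F : Td d → ℂ) (hc : Continuous F) :
    ∫ s, (∫ u, F (u + s) * conj (F u) ∂mT d) ∂mT d = ((‖∫ t, F t ∂mT d‖ ^ 2 : ℝ) : ℂ) := by
  have hcc : Continuous (Function.uncurry fun s u : Td d => F (u + s) * conj (F u)) := by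
    refine Continuous.mul ?_ ?_
    · exact hc.comp (continuous_snd.add continuous_fst)
    · exact Complex.continuous_conj.comp (hc.comp continuous_snd)
  have hint : Integrable (Function.uncurry fun s u : Td d => F (u + s) * conj (F u)) ((mT d).prod (mT d)) :=
    hcc.integrable_of_hasCompactSupport (HasCompactSupport.of_compactSpace _)
  rw [integral_integral_swap hint]
  have h1 : ∀ u : Td d, ∫ s, F (u + s) * conj (F u) ∂mT d = (∫ t, F t ∂mT d) * conj (F u) := by
    intro u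
    rw [integral_mul_const, integral_add_left_eq_self]
  simp only [h1]
  rw [integral_const_mul, integral_conj, Complex.mul_conj', Complex.ofReal_pow]

end Pool.Agent.Lib.MP_9fe581_an.HD
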