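import Pool.Agent.Lib.MP_9fe581_an.HD.CBasic

/-!
# HD, module N2: monotonicity and expansion of the averages of the doubled cocycle, positive definiteness
-/

open Finset MeasureTheory Filter Topology UnitAddTorus
open scoped ComplexConjugate Matrix

namespace Pool.Agent.Lib.MP_9fe581_an.HD

variable {d : ℕ} {ι : Type} [Fintype ι] [DecidableEq ι]
variable {α : Td d} {A : Td d → Matrix ι ι ℂ} {Q : Matrix ι ι ℂ}

/-- `tr (A_l(u) A_{l'}(u)^*)` -/
private noncomputable def n2X (α : Td d) (A : Td d → Matrix ι ι ℂ) (Q : Matrix ι ι ℂ) (l l' : ℕ) (u : Td d) : ℂ :=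
  (cp α A Q l u * (cp α A Q l' u)ᴴ).trace

omit [DecidableEq ι] in
private theorem n2X_eq (l l' : ℕ) (u : Td d) :
    n2X α A Q l l' u = ∑ a, ∑ b, cp α A Q l u a b * conj (cp α A Q l' u a b) := by
  simp [n2X, Matrix.trace, Matrix.mul_apply, Matrix.conjTranspose_apply]

omit [DecidableEq ι] in
private theorem n2_gen (z : ℕ → ℂ) (e : ℕ → ℕ) (M : ℕ) (v u : Td d) :
    ((∑ a, ∑ b, ∑ c, ∑ f, ‖∑ m ∈ range M, z m * (cp α A Q (e m) v a b * conj (cp α A Q (e m) u c f))‖ ^ 2 : ℝ) : ℂ) =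
      ∑ m ∈ range M, ∑ m' ∈ range M, z m * conj (z m') *
        (n2X α A Q (e m) (e m') v * conj (n2X α A Q (e m) (e m') u)) := by
  have h1 : ∀ a b c f : ι, ((‖∑ m ∈ range M, z m * (cp α A Q (e m) v a b * conj (cp α A Q (e m) u c f))‖ : ℂ) ^ 2) =
      ∑ m ∈ range M, ∑ m' ∈ range M, z m * conj (z m') *
        ((cp α A Q (e m) v a b * conj (cp α A Q (e m') v a b)) *
          (conj (cp α A Q (e m) u c f) * cp α A Q (e m') u c f)) := by
    intro a b c f
    rw [← Complex.mul_conj', map_sum, Finset.sum_mul_sum]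
    refine Finset.sum_congr rfl fun m _ => Finset.sum_congr rfl fun m' _ => ?_
    rw [map_mul, map_mul, Complex.conj_conj]; ring
  push_cast
  simp_rw [h1]
  have h4 : ∀ g : ι → ι → ι → ι → ℕ → ℕ → ℂ, (∑ a, ∑ b, ∑ c, ∑ f, ∑ l ∈ range M, ∑ l' ∈ range M, g a b c f l l') =
      ∑ l ∈ range M, ∑ l' ∈ range M, ∑ a, ∑ b, ∑ c, ∑ f, g a b c f l l' := by
    intro g
    have h5 : ∀ h : ι → ι → ι → ι → ℂ, (∑ a, ∑ b, ∑ c, ∑ f, h a b c f) =
        ∑ x : ι × ι × ι × ι, h x.1 x.2.1 x.2.2.1 x.2.2.2 := by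
      intro h; simp [Fintype.sum_prod_type]
    simp_rw [h5]
    rw [Finset.sum_comm]
    exact Finset.sum_congr rfl fun l _ => Finset.sum_comm
  rw [h4]
  refine Finset.sum_congr rfl fun l _ => Finset.sum_congr rfl fun l' _ => ?_
  simp_rw [n2X_eq, map_sum, map_mul, Complex.conj_conj, Finset.sum_mul, Finset.mul_sum]

omit [DecidableEq ι] in
private theorem n2_phi (L : ℕ) (v u : Td d) :
    ((Phi α A Q 1 1 L v u : ℝ) : ℂ) =
      (1 / (L : ℂ) ^ 2) * ∑ l ∈ range L, ∑ l' ∈ range L, n2X α A Q l l' v * conj (n2X α A Q l l' u) := by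
  have h := n2_gen (α := α) (A := A) (Q := Q) (fun _ => 1 / (L : ℂ)) (fun m => m) L v u
  have h1 : Phi α A Q 1 1 L v u = ∑ a, ∑ b, ∑ c, ∑ f,
      ‖∑ m ∈ range L, (1 / (L : ℂ)) * (cp α A Q m v a b * conj (cp α A Q m u c f))‖ ^ 2 := by
    unfold Phi Wt
    simp only [one_mul, Finset.mul_sum]
  rw [h1, h, Finset.mul_sum]
  refine Finset.sum_congr rfl fun l _ => ?_
  rw [Finset.mul_sum]
  refine Finset.sum_congr rfl fun l' _ => ?_
  have : conj (1 / (L : ℂ)) = 1 / (L : ℂ) := by simp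
  rw [this]; ring

private theorem n2X_shift (hU : UC A Q) (l l' k : ℕ) (u : Td d) :
    n2X α A Q (l + k) (l' + k) u = n2X α A Q l l' (u + k • α) := by
  unfold n2X
  rw [cp_add hU l k, cp_add hU l' k, Matrix.conjTranspose_mul, mul_assoc, ← mul_assoc (cp α A Q k u),
    cp_AAH hU, ← mul_assoc, cp_AQ hU]

private theorem n2X_gt (hU : UC A Q) (l l' : ℕ) (h : l' ≤ l) (u : Td d) :
    n2X α A Q l l' u = trc α A Q (l - l') (u + l' • α) := by
  rw [n2X, cp_shift hU _ _ h, trc]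

omit [DecidableEq ι] in
private theorem n2X_symm (l l' : ℕ) (u : Td d) : n2X α A Q l' l u = conj (n2X α A Q l l' u) := by
  simp only [n2X_eq, map_sum, map_mul, Complex.conj_conj]
  exact Finset.sum_congr rfl fun a _ => Finset.sum_congr rfl fun b _ => mul_comm _ _

private theorem n2X_cont (hU : UC A Q) (l l' : ℕ) : Continuous (n2X α A Q l l') := by
  unfold n2X
  exact ((cp_cont hU _).matrix_mul (cp_cont hU _).matrix_conjTranspose).matrix_trace

private theorem n2_intC {f : Td d → ℂ} (hf : Continuous f) : Integrable f (mT d) :=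
  hf.integrable_of_hasCompactSupport (HasCompactSupport.of_compactSpace _)

private theorem n2_int {f : Td d → ℝ} (hf : Continuous f) : Integrable f (mT d) :=
  hf.integrable_of_hasCompactSupport (HasCompactSupport.of_compactSpace _)

private theorem n2_pair_le (hU : UC A Q) (s : Td d) {l l' : ℕ} (h : l' ≤ l) :
    ∫ u, n2X α A Q l l' (u + s) * conj (n2X α A Q l l' u) ∂mT d = bb α A Q s (l - l') := by
  have h1 : ∀ u : Td d, n2X α A Q l l' (u + s) * conj (n2X α A Q l l' u) =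
      (fun w : Td d => trc α A Q (l - l') (w + s) * conj (trc α A Q (l - l') w)) (u + l' • α) := by
    intro u
    simp only
    rw [n2X_gt hU l l' h, n2X_gt hU l l' h, add_right_comm u s]
  simp_rw [h1]
  exact integral_add_right_eq_self (μ := mT d)
    (fun w : Td d => trc α A Q (l - l') (w + s) * conj (trc α A Q (l - l') w)) (l' • α)

private theorem n2_pair (hU : UC A Q) (s : Td d) (l l' : ℕ) :
    ∫ u, n2X α A Q l l' (u + s) * conj (n2X α A Q l l' u) ∂mT d =
      if l' ≤ l then bb α A Q s (l - l') else conj (bb α A Q s (l' - l)) := by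
  split_ifs with h
  · exact n2_pair_le hU s h
  · rw [← n2_pair_le hU s (le_of_not_ge h), ← integral_conj]
    congr 1
    funext u
    rw [n2X_symm l' l (u + s), n2X_symm l' l u, map_mul]

private theorem n2_pair_int (hU : UC A Q) (s : Td d) (l l' : ℕ) :
    Integrable (fun u => n2X α A Q l l' (u + s) * conj (n2X α A Q l l' u)) (mT d) := by
  apply n2_intC
  exact ((n2X_cont hU l l').comp (continuous_id.add continuous_const)).mul
    (Complex.continuous_conj.comp (n2X_cont hU l l'))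

theorem phi_expand (hU : UC A Q) (N : ℕ) (_hN : 0 < N) (s : Td d) :
    ∫ u, Phi α A Q 1 1 N (u + s) u ∂mT d =
      (1 / (N : ℝ) ^ 2) * ∑ n ∈ range N, ∑ n' ∈ range N, (bb α A Q s (if n' ≤ n then n - n' else n' - n)).re := by
  have h1 : ((∫ u, Phi α A Q 1 1 N (u + s) u ∂mT d : ℝ) : ℂ) =
      (1 / (N : ℂ) ^ 2) * ∑ n ∈ range N, ∑ n' ∈ range N,
        (if n' ≤ n then bb α A Q s (n - n') else conj (bb α A Q s (n' - n))) := by
    rw [← integral_complex_ofReal]
    simp_rw [n2_phi]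
    rw [integral_const_mul, integral_finsetSum _ fun l _ => integrable_finsetSum _ fun l' _ => n2_pair_int hU s l l']
    congr 1
    refine Finset.sum_congr rfl fun l _ => ?_
    rw [integral_finsetSum _ fun l' _ => n2_pair_int hU s l l']
    exact Finset.sum_congr rfl fun l' _ => n2_pair hU s l l'
  have h2 : ∫ u, Phi α A Q 1 1 N (u + s) u ∂mT d = (((∫ u, Phi α A Q 1 1 N (u + s) u ∂mT d : ℝ) : ℂ)).re :=
    (Complex.ofReal_re _).symm
  have h3 : (1 / (N : ℂ) ^ 2) = ((1 / (N : ℝ) ^ 2 : ℝ) : ℂ) := by push_cast; rfl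
  rw [h2, h1, h3, Complex.re_ofReal_mul, Complex.re_sum]
  congr 1
  refine Finset.sum_congr rfl fun l _ => ?_
  rw [Complex.re_sum]
  refine Finset.sum_congr rfl fun l' _ => ?_
  split_ifs with h
  · rfl
  · rw [Complex.conj_re]

theorem bb_posDef (hU : UC A Q) (s : Td d) : PosDef (bb α A Q s) := by
  intro M z
  have h1 : (∑ m ∈ range M, ∑ m' ∈ range M, z m * conj (z m') *
      (if m' ≤ m then bb α A Q s (m - m') else conj (bb α A Q s (m' - m)))) =
      ∫ u, (((∑ a, ∑ b, ∑ c, ∑ f, ‖∑ m ∈ range M, z m *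
        (cp α A Q m (u + s) a b * conj (cp α A Q m u c f))‖ ^ 2 : ℝ)) : ℂ) ∂mT d := by
    have h2 : ∀ u : Td d, (((∑ a, ∑ b, ∑ c, ∑ f, ‖∑ m ∈ range M, z m *
        (cp α A Q m (u + s) a b * conj (cp α A Q m u c f))‖ ^ 2 : ℝ)) : ℂ) =
        ∑ m ∈ range M, ∑ m' ∈ range M, z m * conj (z m') *
        (n2X α A Q m m' (u + s) * conj (n2X α A Q m m' u)) := fun u => n2_gen z (fun m => m) M (u + s) u
    simp_rw [h2]
    rw [integral_finsetSum _ fun m _ => integrable_finsetSum _ fun m' _ => (n2_pair_int hU s m m').const_mul _]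
    refine Finset.sum_congr rfl fun m _ => ?_
    rw [integral_finsetSum _ fun m' _ => (n2_pair_int hU s m m').const_mul _]
    refine Finset.sum_congr rfl fun m' _ => ?_
    rw [integral_const_mul, n2_pair hU s m m']
  rw [h1, integral_complex_ofReal, Complex.ofReal_re]
  exact integral_nonneg fun u => Finset.sum_nonneg fun a _ => Finset.sum_nonneg fun b _ =>
    Finset.sum_nonneg fun c _ => Finset.sum_nonneg fun f _ => sq_nonneg _

omit [DecidableEq ι] in
theorem bb_zero_im (_hU : UC A Q) (s : Td d) : (bb α A Q s 0).im = 0 := by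
  have h0 : bb α A Q s 0 = Q.trace * conj Q.trace := by
    unfold bb
    have h2 : ∀ x : Td d, trc α A Q 0 (x + s) * conj (trc α A Q 0 x) = Q.trace * conj Q.trace := fun x => rfl
    simp only [h2]
    simp
  rw [h0, Complex.mul_conj, Complex.ofReal_im]

theorem bb_zero_le (hU : UC A Q) (s : Td d) : (bb α A Q s 0).re ≤ (Fintype.card ι : ℝ) ^ 2 := by
  have h1 : ‖bb α A Q s 0‖ ≤ (Fintype.card ι : ℝ) ^ 2 := by
    unfold bb
    refine (norm_integral_le_of_norm_le_const (C := (Fintype.card ι : ℝ) ^ 2)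
      (ae_of_all _ fun x => ?_)).trans ?_
    · rw [norm_mul, RCLike.norm_conj, sq]
      exact mul_le_mul (cp_trace_le hU 0 _) (cp_trace_le hU 0 _) (norm_nonneg _) (Nat.cast_nonneg _)
    · simp
  exact (Complex.re_le_norm _).trans h1

private theorem n2_blocks (F : ℕ → ℂ) (M R : ℕ) :
    ∑ n ∈ range (M * R), F n = ∑ i ∈ range R, ∑ l ∈ range M, F (l + M * i) := by
  induction R with
  | zero => simp
  | succ R ih =>
    rw [Nat.mul_succ, Finset.sum_range_add, ih, Finset.sum_range_succ]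
    congr 1
    exact Finset.sum_congr rfl fun l _ => by rw [add_comm]

private theorem n2_conv (R : ℕ) (hR : 0 < R) (V : ℕ → ℂ) :
    ‖(1 / (R : ℂ)) * ∑ i ∈ range R, V i‖ ^ 2 ≤ (1 / (R : ℝ)) * ∑ i ∈ range R, ‖V i‖ ^ 2 := by
  have hR' : (0 : ℝ) < R := by exact_mod_cast hR
  have h1 : ‖∑ i ∈ range R, V i‖ ^ 2 ≤ R * ∑ i ∈ range R, ‖V i‖ ^ 2 := by
    calc ‖∑ i ∈ range R, V i‖ ^ 2 ≤ (∑ i ∈ range R, ‖V i‖) ^ 2 :=
          pow_le_pow_left₀ (norm_nonneg _) (norm_sum_le _ _) 2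
      _ ≤ (range R).card * ∑ i ∈ range R, ‖V i‖ ^ 2 := sq_sum_le_card_mul_sum_sq
      _ = _ := by rw [Finset.card_range]
  rw [norm_mul, mul_pow, norm_div, norm_one, Complex.norm_natCast]
  calc (1 / (R : ℝ)) ^ 2 * ‖∑ i ∈ range R, V i‖ ^ 2 ≤ (1 / (R : ℝ)) ^ 2 * (R * ∑ i ∈ range R, ‖V i‖ ^ 2) := by gcongr
    _ = (1 / (R : ℝ)) * ∑ i ∈ range R, ‖V i‖ ^ 2 := by field_simp

private theorem n2_pt (hU : UC A Q) (M R : ℕ) (hM : 0 < M) (hR : 0 < R) (v u : Td d) :
    Phi α A Q 1 1 (M * R) v u ≤ (1 / (R : ℝ)) * ∑ i ∈ range R,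
      Phi α A Q 1 1 M (v + (M * i) • α) (u + (M * i) • α) := by
  set V : ℕ → ι → ι → ι → ι → ℂ := fun i a b c f =>
    ∑ l ∈ range M, (1 / (M : ℂ)) * (cp α A Q (l + M * i) v a b * conj (cp α A Q (l + M * i) u c f)) with hV
  have hM' : (M : ℂ) ≠ 0 := Nat.cast_ne_zero.2 hM.ne'
  have hR' : (R : ℂ) ≠ 0 := Nat.cast_ne_zero.2 hR.ne'
  have h1 : ∀ a b c f, Wt α A Q 1 1 (M * R) v u a b c f = (1 / (R : ℂ)) * ∑ i ∈ range R, V i a b c f := by
    intro a b c f
    unfold Wt
    simp only [one_mul, hV]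
    rw [n2_blocks, Finset.mul_sum, Finset.mul_sum]
    refine Finset.sum_congr rfl fun i _ => ?_
    rw [Finset.mul_sum, Finset.mul_sum]
    refine Finset.sum_congr rfl fun l _ => ?_
    push_cast
    field_simp
  have h2 : ∀ i, ∑ a, ∑ b, ∑ c, ∑ f, ‖V i a b c f‖ ^ 2 = Phi α A Q 1 1 M (v + (M * i) • α) (u + (M * i) • α) := by
    intro i
    have h3 := n2_gen (α := α) (A := A) (Q := Q) (fun _ => 1 / (M : ℂ)) (fun m => m + M * i) M v u
    have h4 : ((∑ a, ∑ b, ∑ c, ∑ f, ‖V i a b c f‖ ^ 2 : ℝ) : ℂ) =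
        ((Phi α A Q 1 1 M (v + (M * i) • α) (u + (M * i) • α) : ℝ) : ℂ) := by
      simp only [hV]
      rw [h3, n2_phi, Finset.mul_sum]
      refine Finset.sum_congr rfl fun l _ => ?_
      rw [Finset.mul_sum]
      refine Finset.sum_congr rfl fun l' _ => ?_
      have : conj (1 / (M : ℂ)) = 1 / (M : ℂ) := by simp
      rw [this, n2X_shift hU, n2X_shift hU]; ring
    exact_mod_cast h4
  have h0 : Phi α A Q 1 1 (M * R) v u =
      ∑ a, ∑ b, ∑ c, ∑ f, ‖(1 / (R : ℂ)) * ∑ i ∈ range R, V i a b c f‖ ^ 2 :=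
    Finset.sum_congr rfl fun a _ => Finset.sum_congr rfl fun b _ => Finset.sum_congr rfl fun c _ =>
      Finset.sum_congr rfl fun f _ => by rw [h1]
  rw [h0]
  calc ∑ a, ∑ b, ∑ c, ∑ f, ‖(1 / (R : ℂ)) * ∑ i ∈ range R, V i a b c f‖ ^ 2
      ≤ ∑ a, ∑ b, ∑ c, ∑ f, (1 / (R : ℝ)) * ∑ i ∈ range R, ‖V i a b c f‖ ^ 2 :=
        Finset.sum_le_sum fun a _ => Finset.sum_le_sum fun b _ => Finset.sum_le_sum fun c _ =>
          Finset.sum_le_sum fun f _ => n2_conv R hR _
    _ = (1 / (R : ℝ)) * ∑ i ∈ range R, ∑ a, ∑ b, ∑ c, ∑ f, ‖V i a b c f‖ ^ 2 := by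
        simp_rw [← Finset.mul_sum]
        congr 1
        have h5 : ∀ h : ι → ι → ι → ι → ℝ, (∑ a, ∑ b, ∑ c, ∑ f, h a b c f) =
            ∑ x : ι × ι × ι × ι, h x.1 x.2.1 x.2.2.1 x.2.2.2 := by
          intro h; simp [Fintype.sum_prod_type]
        simp_rw [h5]
        exact Finset.sum_comm
    _ = (1 / (R : ℝ)) * ∑ i ∈ range R, Phi α A Q 1 1 M (v + (M * i) • α) (u + (M * i) • α) := by
        rw [Finset.sum_congr rfl fun i _ => h2 i]

theorem phi_cont2 (hU : UC A Q) (L : ℕ) {f g : Td d → Td d} (hf : Continuous f) (hg : Continuous g) :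
    Continuous fun u => Phi α A Q 1 1 L (f u) (g u) := by
  have hA := cp_cont (α := α) hU
  unfold Phi Wt
  refine continuous_finsetSum _ fun a _ => continuous_finsetSum _ fun b _ => continuous_finsetSum _ fun c _ =>
    continuous_finsetSum _ fun e _ => ((continuous_const.mul (continuous_finsetSum _ fun l _ => ?_)).norm.pow 2)
  exact ((((hA (1 * l)).comp hf).matrix_elem a b).mul
    (Complex.continuous_conj.comp (((hA (1 * l)).comp hg).matrix_elem c e)))

theorem phi_mono (hU : UC A Q) (M R : ℕ) (hM : 0 < M) (hR : 0 < R) (s : Td d) :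
    ∫ u, Phi α A Q 1 1 (M * R) (u + s) u ∂mT d ≤ ∫ u, Phi α A Q 1 1 M (u + s) u ∂mT d := by
  have hc0 : Continuous fun u : Td d => Phi α A Q 1 1 (M * R) (u + s) u :=
    phi_cont2 hU (M * R) (f := fun u => u + s) (g := fun u => u) (continuous_id.add continuous_const) continuous_id
  have hi : ∀ i : ℕ, Continuous fun u : Td d => Phi α A Q 1 1 M (u + s + (M * i) • α) (u + (M * i) • α) := fun i =>
    phi_cont2 hU M (f := fun u => u + s + (M * i) • α) (g := fun u => u + (M * i) • α)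
      ((continuous_id.add continuous_const).add continuous_const) (continuous_id.add continuous_const)
  have h1 : ∫ u, Phi α A Q 1 1 (M * R) (u + s) u ∂mT d ≤
      ∫ u, (1 / (R : ℝ)) * ∑ i ∈ range R, Phi α A Q 1 1 M (u + s + (M * i) • α) (u + (M * i) • α) ∂mT d := by
    refine integral_mono (n2_int hc0) (n2_int ?_) fun u => n2_pt hU M R hM hR (u + s) u
    exact continuous_const.mul (continuous_finsetSum _ fun i _ => hi i)
  refine h1.trans ?_
  rw [integral_const_mul, integral_finsetSum _ fun i _ => n2_int (hi i)]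
  have h2 : ∀ i : ℕ, ∫ u, Phi α A Q 1 1 M (u + s + (M * i) • α) (u + (M * i) • α) ∂mT d =
      ∫ u, Phi α A Q 1 1 M (u + s) u ∂mT d := by
    intro i
    have h4 := integral_add_right_eq_self (μ := mT d) (fun w : Td d => Phi α A Q 1 1 M (w + s) w) ((M * i) • α)
    rw [← h4]
    refine integral_congr_ae (Eventually.of_forall fun u => ?_)
    simp only
    rw [add_right_comm u s]
  rw [Finset.sum_congr rfl fun i _ => h2 i]
  rw [Finset.sum_const, Finset.card_range, nsmul_eq_mul]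
  have hR' : (0 : ℝ) < R := by exact_mod_cast hR
  apply le_of_eq
  field_simp

end Pool.Agent.Lib.MP_9fe581_an.HD
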