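import Pool.Agent.Lib.MP_9fe581_an.HD.CBasic
import Pool.Agent.Lib.MP_9fe581_an.HD.Avg
import Pool.Agent.Lib.MP_9fe581_an.HD.Mono

/-!
# HD, module N3: the averages of `Dl` over all integers
-/

set_option autoImplicit false
set_option linter.unusedSectionVars false

open Finset MeasureTheory Filter Topology UnitAddTorus
open scoped ComplexConjugate Matrix

namespace Pool.Agent.Lib.MP_9fe581_an.HD

variable {d : ℕ} {ι : Type} [Fintype ι] [DecidableEq ι]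
variable {α : Td d} {A : Td d → Matrix ι ι ℂ} {Q : Matrix ι ι ℂ}


theorem ai_cont (hU : UC A Q) (n : ℕ) : Continuous (trc α A Q n) :=
  (cp_cont hU n).matrix_trace

theorem ai_bb_cont (hU : UC A Q) (n : ℕ) : Continuous fun s => bb α A Q s n := by
  have hF := ai_cont (α := α) hU n
  have h1 : Continuous (Function.uncurry fun (s u : Td d) =>
      trc α A Q n (u + s) * conj (trc α A Q n u)) := by
    refine Continuous.mul ?_ ?_
    · exact hF.comp (continuous_snd.add continuous_fst)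
    · exact Complex.continuous_conj.comp (hF.comp continuous_snd)
  have h2 := continuous_parametric_integral_of_continuous (μ := mT d) h1
    (isCompact_univ (X := Td d))
  simpa [bb, Measure.restrict_univ] using h2

theorem ai_cont_int {f : Td d → ℝ} (hf : Continuous f) : Integrable f (mT d) := by
  have := hf.continuousOn.integrableOn_compact (μ := mT d) (isCompact_univ (X := Td d))
  rwa [integrableOn_univ] at this

theorem ai_cont_intC {f : Td d → ℂ} (hf : Continuous f) : Integrable f (mT d) := by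
  have := hf.continuousOn.integrableOn_compact (μ := mT d) (isCompact_univ (X := Td d))
  rwa [integrableOn_univ] at this

/-- `|n - n'|` -/
def ai_d (n n' : ℕ) : ℕ := if n' ≤ n then n - n' else n' - n

theorem ai_re_avg (hU : UC A Q) (n q : ℕ) (hq : 0 < q) :
    (1 / (q : ℝ) ^ d) * ∑ i : Fin d → Fin q, (bb α A Q (ptq q i) n).re = eqf (trc α A Q n) q := by
  have h := avg_eqf (trc α A Q n) (ai_cont hU n) q hq
  have h2 := congrArg Complex.re h
  rw [Complex.ofReal_re] at h2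
  rw [← h2]
  have e : (1 / (q : ℂ) ^ d) = ((1 / (q : ℝ) ^ d : ℝ) : ℂ) := by
    push_cast
    rfl
  rw [e, Complex.re_ofReal_mul, Complex.re_sum]
  rfl

theorem ai_re_int (hU : UC A Q) (n : ℕ) :
    ∫ s, (bb α A Q s n).re ∂mT d = ‖aa α A Q n‖ ^ 2 := by
  have h := int_bb (trc α A Q n) (ai_cont (α := α) hU n)
  have h2 := congrArg Complex.re h
  rw [Complex.ofReal_re] at h2
  have h3 : ∫ s, (bb α A Q s n).re ∂mT d = (∫ s, bb α A Q s n ∂mT d).re :=
    integral_re (𝕜 := ℂ) (ai_cont_intC (ai_bb_cont (α := α) hU n))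
  rw [h3]
  exact h2

theorem ai_avg (hU : UC A Q) (N q : ℕ) (hN : 0 < N) (hq : 0 < q) :
    (1 / (q : ℝ) ^ d) * ∑ i : Fin d → Fin q, ∫ u, Phi α A Q 1 1 N (u + ptq q i) u ∂mT d =
      (1 / (N : ℝ) ^ 2) * ∑ n ∈ range N, ∑ n' ∈ range N, eqf (trc α A Q (ai_d n n')) q := by
  have h1 : ∀ i : Fin d → Fin q, ∫ u, Phi α A Q 1 1 N (u + ptq q i) u ∂mT d =
      (1 / (N : ℝ) ^ 2) * ∑ n ∈ range N, ∑ n' ∈ range N, (bb α A Q (ptq q i) (ai_d n n')).re :=
    fun i => phi_expand hU N hN _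
  rw [Finset.sum_congr rfl fun i _ => h1 i, ← Finset.mul_sum, mul_left_comm]
  congr 1
  rw [Finset.sum_comm, Finset.mul_sum]
  refine Finset.sum_congr rfl fun n _ => ?_
  rw [Finset.sum_comm, Finset.mul_sum]
  refine Finset.sum_congr rfl fun n' _ => ?_
  exact ai_re_avg hU _ q hq

theorem ai_int (hU : UC A Q) (N : ℕ) (hN : 0 < N) :
    ∫ s, (∫ u, Phi α A Q 1 1 N (u + s) u ∂mT d) ∂mT d =
      (1 / (N : ℝ) ^ 2) * ∑ n ∈ range N, ∑ n' ∈ range N, ‖aa α A Q (ai_d n n')‖ ^ 2 := by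
  have h1 : ∀ s : Td d, ∫ u, Phi α A Q 1 1 N (u + s) u ∂mT d =
      (1 / (N : ℝ) ^ 2) * ∑ n ∈ range N, ∑ n' ∈ range N, (bb α A Q s (ai_d n n')).re :=
    fun s => phi_expand hU N hN s
  have hint : ∀ n : ℕ, Integrable (fun s => (bb α A Q s n).re) (mT d) := fun n =>
    ai_cont_int (Complex.continuous_re.comp (ai_bb_cont hU n))
  rw [integral_congr_ae (ae_of_all _ h1), integral_const_mul]
  congr 1
  rw [integral_finsetSum _ fun n _ => integrable_finsetSum _ fun n' _ => hint _]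
  refine Finset.sum_congr rfl fun n _ => ?_
  rw [integral_finsetSum _ fun n' _ => hint _]
  exact Finset.sum_congr rfl fun n' _ => ai_re_int hU _

theorem ai_Phi_cont (hU : UC A Q) (N : ℕ) (hN : 0 < N) :
    Continuous fun s => ∫ u, Phi α A Q 1 1 N (u + s) u ∂mT d := by
  have h1 : (fun s : Td d => ∫ u, Phi α A Q 1 1 N (u + s) u ∂mT d) =
      fun s => (1 / (N : ℝ) ^ 2) * ∑ n ∈ range N, ∑ n' ∈ range N, (bb α A Q s (ai_d n n')).re :=
    funext fun s => phi_expand hU N hN s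
  rw [h1]
  refine continuous_const.mul ?_
  refine continuous_finsetSum _ fun n _ => continuous_finsetSum _ fun n' _ => ?_
  exact Complex.continuous_re.comp (ai_bb_cont hU _)

/-- the average of the energies of the frequencies divisible by `q` -/
noncomputable def ai_E (α : Td d) (A : Td d → Matrix ι ι ℂ) (Q : Matrix ι ι ℂ) (q N : ℕ) : ℝ :=
  (1 / (N : ℝ) ^ 2) * ∑ n ∈ range N, ∑ n' ∈ range N, eqf (trc α A Q (ai_d n n')) q

/-- the average of the energies of the frequency 0 -/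
noncomputable def ai_I (α : Td d) (A : Td d → Matrix ι ι ℂ) (Q : Matrix ι ι ℂ) (N : ℕ) : ℝ :=
  (1 / (N : ℝ) ^ 2) * ∑ n ∈ range N, ∑ n' ∈ range N, ‖aa α A Q (ai_d n n')‖ ^ 2

theorem ai_E_mono (hU : UC A Q) (q M R : ℕ) (hq : 0 < q) (hM : 0 < M) (hR : 0 < R) :
    ai_E α A Q q (M * R) ≤ ai_E α A Q q M := by
  unfold ai_E
  rw [← ai_avg hU (M * R) q (Nat.mul_pos hM hR) hq, ← ai_avg hU M q hM hq]
  refine mul_le_mul_of_nonneg_left ?_ (by positivity)
  exact Finset.sum_le_sum fun i _ => phi_mono hU M R hM hR _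

theorem ai_I_mono (hU : UC A Q) (M R : ℕ) (hM : 0 < M) (hR : 0 < R) :
    ai_I α A Q (M * R) ≤ ai_I α A Q M := by
  unfold ai_I
  rw [← ai_int hU (M * R) (Nat.mul_pos hM hR), ← ai_int hU M hM]
  exact integral_mono (ai_cont_int (ai_Phi_cont hU _ (Nat.mul_pos hM hR)))
    (ai_cont_int (ai_Phi_cont hU _ hM)) fun s => phi_mono hU M R hM hR s

theorem ai_I_nonneg (N : ℕ) : 0 ≤ ai_I α A Q N := by
  unfold ai_I
  positivity

/-- `|n - n'| = h` has at least `M` solutions for `h < M`, `n, n' < 2 M` -/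
theorem ai_count (f : ℕ → ℝ) (hf : ∀ n, 0 ≤ f n) (M : ℕ) :
    (M : ℝ) * ∑ h ∈ range M, f h ≤
      ∑ n ∈ range (2 * M), ∑ n' ∈ range (2 * M), f (ai_d n n') := by
  rw [← Finset.sum_product']
  have hinj : Set.InjOn (fun y : ℕ × ℕ => (y.2 + y.1, y.2)) (range M ×ˢ range M : Finset (ℕ × ℕ)) := by
    rintro ⟨a, b⟩ _ ⟨a', b'⟩ _ h
    simp only [Prod.mk.injEq] at h
    ext
    · show a = a'
      omega
    · exact h.2
  have h1 : ∑ x ∈ (range M ×ˢ range M).image (fun y : ℕ × ℕ => (y.2 + y.1, y.2)),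
      f (ai_d x.1 x.2) ≤ ∑ x ∈ range (2 * M) ×ˢ range (2 * M), f (ai_d x.1 x.2) := by
    refine Finset.sum_le_sum_of_subset_of_nonneg ?_ fun _ _ _ => hf _
    intro x hx
    rw [Finset.mem_image] at hx
    obtain ⟨y, hy, rfl⟩ := hx
    rw [Finset.mem_product, mem_range, mem_range] at hy ⊢
    constructor
    · show y.2 + y.1 < 2 * M
      omega
    · show y.2 < 2 * M
      omega
  refine le_trans (le_of_eq ?_) h1
  rw [Finset.sum_image hinj, Finset.sum_product, Finset.mul_sum]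
  refine Finset.sum_congr rfl fun a _ => ?_
  have h2 : ∀ b ∈ range M, f (ai_d (b + a) b) = f a := by
    intro b _
    unfold ai_d
    rw [if_pos (by omega)]
    congr 1
    omega
  rw [Finset.sum_congr rfl h2, Finset.sum_const, card_range, nsmul_eq_mul]

theorem ai_term_nonneg (hU : UC A Q) (q n : ℕ) : 0 ≤ eqf (trc α A Q n) q - ‖aa α A Q n‖ ^ 2 :=
  sub_nonneg.2 (eqf_ge (trc α A Q n) (ai_cont hU n) q)

theorem ai_core (hU : UC A Q) (ε : ℝ) (hε : 0 < ε) : ∃ i0 q1 : ℕ, ∀ q ≥ q1, ∀ k ≥ i0,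
    ∑ h ∈ range (2 ^ k), (eqf (trc α A Q h) q - ‖aa α A Q h‖ ^ 2) ≤ ε * 2 ^ k := by
  have hbdd : BddBelow (Set.range fun k : ℕ => ai_I α A Q (2 ^ k)) :=
    ⟨0, by rintro _ ⟨k, rfl⟩; exact ai_I_nonneg _⟩
  obtain ⟨i0, hi0⟩ := exists_lt_of_ciInf_lt (f := fun k : ℕ => ai_I α A Q (2 ^ k))
    (a := (⨅ k : ℕ, ai_I α A Q (2 ^ k)) + ε / 8) (by linarith)
  have hinf : ∀ k : ℕ, ai_I α A Q (2 ^ i0) ≤ ai_I α A Q (2 ^ k) + ε / 8 := by
    intro k
    have := ciInf_le hbdd k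
    linarith
  have hev : ∀ᶠ q : ℕ in atTop, ∀ n ∈ range (2 ^ i0), eqf (trc α A Q n) q ≤
      ‖aa α A Q n‖ ^ 2 + ε / 8 := by
    rw [Filter.eventually_all_finset]
    intro n _
    have h1 := eqf_tendsto (trc α A Q n) (ai_cont (α := α) hU n)
    have h2 : ‖∫ t, trc α A Q n t ∂mT d‖ ^ 2 < ‖aa α A Q n‖ ^ 2 + ε / 8 := by
      have : (∫ t, trc α A Q n t ∂mT d) = aa α A Q n := rfl
      rw [this]
      linarith
    exact (h1.eventually (gt_mem_nhds h2)).mono fun q hq => hq.le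
  obtain ⟨q1, hq1⟩ := Filter.eventually_atTop.1 hev
  refine ⟨i0, max q1 1, fun q hq k hk => ?_⟩
  have hq0 : 0 < q := lt_of_lt_of_le Nat.one_pos ((le_max_right _ _).trans hq)
  have hqq1 : q1 ≤ q := (le_max_left _ _).trans hq
  -- the chain
  have c1 : ai_E α A Q q (2 ^ (k + 1)) ≤ ai_E α A Q q (2 ^ i0) := by
    have h1 := ai_E_mono (α := α) hU q (2 ^ i0) (2 ^ (k + 1 - i0)) hq0 (by positivity)
      (by positivity)
    rwa [← pow_add, show i0 + (k + 1 - i0) = k + 1 by omega] at h1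
  have c2 : ai_E α A Q q (2 ^ i0) ≤ ai_I α A Q (2 ^ i0) + ε / 8 := by
    unfold ai_E ai_I
    have hM : (0 : ℝ) < ((2 ^ i0 : ℕ) : ℝ) := by positivity
    have h1 : ∑ n ∈ range (2 ^ i0), ∑ n' ∈ range (2 ^ i0), eqf (trc α A Q (ai_d n n')) q ≤
        ∑ n ∈ range (2 ^ i0), ∑ n' ∈ range (2 ^ i0), (‖aa α A Q (ai_d n n')‖ ^ 2 + ε / 8) := by
      refine Finset.sum_le_sum fun n hn => Finset.sum_le_sum fun n' hn' => ?_
      refine hq1 q hqq1 _ ?_
      rw [mem_range] at hn hn' ⊢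
      unfold ai_d
      split_ifs <;> omega
    have h2 : ∑ n ∈ range (2 ^ i0), ∑ n' ∈ range (2 ^ i0), (‖aa α A Q (ai_d n n')‖ ^ 2 + ε / 8) =
        (∑ n ∈ range (2 ^ i0), ∑ n' ∈ range (2 ^ i0), ‖aa α A Q (ai_d n n')‖ ^ 2) +
          ((2 ^ i0 : ℕ) : ℝ) ^ 2 * (ε / 8) := by
      simp only [Finset.sum_add_distrib, Finset.sum_const, card_range, nsmul_eq_mul]
      ring
    rw [h2] at h1
    have h3 := mul_le_mul_of_nonneg_left h1
      (show (0 : ℝ) ≤ 1 / ((2 ^ i0 : ℕ) : ℝ) ^ 2 by positivity)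
    refine h3.trans (le_of_eq ?_)
    field_simp
  have c3 := hinf (k + 1)
  have c4 : ai_E α A Q q (2 ^ (k + 1)) - ai_I α A Q (2 ^ (k + 1)) ≤ ε / 4 := by linarith
  -- the double sum
  have hN : (0 : ℝ) < ((2 ^ (k + 1) : ℕ) : ℝ) := by positivity
  have c5 : ∑ n ∈ range (2 ^ (k + 1)), ∑ n' ∈ range (2 ^ (k + 1)),
      (eqf (trc α A Q (ai_d n n')) q - ‖aa α A Q (ai_d n n')‖ ^ 2) ≤
        ε / 4 * ((2 ^ (k + 1) : ℕ) : ℝ) ^ 2 := by
    have e1 : ai_E α A Q q (2 ^ (k + 1)) - ai_I α A Q (2 ^ (k + 1)) =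
        (1 / ((2 ^ (k + 1) : ℕ) : ℝ) ^ 2) * ∑ n ∈ range (2 ^ (k + 1)), ∑ n' ∈ range (2 ^ (k + 1)),
          (eqf (trc α A Q (ai_d n n')) q - ‖aa α A Q (ai_d n n')‖ ^ 2) := by
      unfold ai_E ai_I
      simp only [Finset.sum_sub_distrib]
      ring
    rw [e1, one_div, inv_mul_le_iff₀ (by positivity)] at c4
    linarith
  have c6 := ai_count (fun h => eqf (trc α A Q h) q - ‖aa α A Q h‖ ^ 2)
    (fun n => ai_term_nonneg hU q n) (2 ^ k)
  rw [show 2 * 2 ^ k = 2 ^ (k + 1) by ring] at c6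
  have c7 := c6.trans c5
  have hk0 : (0 : ℝ) < 2 ^ k := by positivity
  have e2 : ε / 4 * ((2 ^ (k + 1) : ℕ) : ℝ) ^ 2 = (2 : ℝ) ^ k * (ε * 2 ^ k) := by
    push_cast
    ring
  rw [e2] at c7
  push_cast at c7
  exact le_of_mul_le_mul_left c7 hk0

theorem Dl_nonneg (hU : UC A Q) (j n : ℕ) : 0 ≤ Dl α A Q j n := by
  unfold Dl
  refine mul_nonneg (by positivity) (Finset.sum_nonneg fun q _ => ?_)
  exact ai_term_nonneg hU q n

theorem Dl_all (hU : UC A Q) (ε : ℝ) (hε : 0 < ε) : ∃ N0 j1 : ℕ, ∀ j ≥ j1, ∀ N ≥ N0,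
    ∑ n ∈ range N, Dl α A Q j n ≤ ε * N := by
  obtain ⟨i0, q1, h⟩ := ai_core (α := α) hU (ε / 2) (by positivity)
  refine ⟨2 ^ i0, q1, fun j hj N hN => ?_⟩
  have hNpos : 0 < N := lt_of_lt_of_le (by positivity) hN
  obtain ⟨k, hk⟩ : ∃ k, k = Nat.clog 2 N := ⟨_, rfl⟩
  have hk1 : N ≤ 2 ^ k := by
    rw [hk]
    exact Nat.le_pow_clog (by norm_num) N
  have hk2 : 2 ^ k ≤ 2 * N := by
    rcases Nat.lt_or_ge 1 N with h1 | h1
    · have h2 := Nat.pow_pred_clog_lt_self (b := 2) (by norm_num) h1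
      have h3 : 0 < Nat.clog 2 N := Nat.clog_pos (by norm_num) h1
      rw [hk]
      have h4 : 2 ^ Nat.clog 2 N = 2 * 2 ^ (Nat.clog 2 N).pred := by
        rw [← pow_succ']
        congr 1
        exact (Nat.succ_pred_eq_of_pos h3).symm
      omega
    · have : N = 1 := by omega
      rw [hk, this]
      simp
  have hki : i0 ≤ k := by
    have h1 : 2 ^ i0 ≤ 2 ^ k := hN.trans hk1
    exact (Nat.pow_le_pow_iff_right (by norm_num)).1 h1
  have hle : ∑ n ∈ range N, Dl α A Q j n ≤ ∑ n ∈ range (2 ^ k), Dl α A Q j n :=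
    Finset.sum_le_sum_of_subset_of_nonneg (Finset.range_subset_range.2 hk1)
      fun n _ _ => Dl_nonneg hU j n
  have hsw : ∑ n ∈ range (2 ^ k), Dl α A Q j n = (1 / ((Qb j).card : ℝ)) * ∑ q ∈ Qb j,
      ∑ n ∈ range (2 ^ k), (eqf (trc α A Q n) q - ‖aa α A Q n‖ ^ 2) := by
    unfold Dl
    rw [← Finset.mul_sum, Finset.sum_comm]
  have hq : ∑ q ∈ Qb j, ∑ n ∈ range (2 ^ k), (eqf (trc α A Q n) q - ‖aa α A Q n‖ ^ 2) ≤
      ((Qb j).card : ℝ) * (ε / 2 * 2 ^ k) := by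
    rw [← nsmul_eq_mul]
    refine Finset.sum_le_card_nsmul _ _ _ fun q hq => h q ?_ k hki
    unfold Qb at hq
    rw [mem_filter, mem_Ico] at hq
    have : j < 2 ^ j := Nat.lt_two_pow_self
    omega
  have hK : (1 / ((Qb j).card : ℝ)) * (((Qb j).card : ℝ) * (ε / 2 * 2 ^ k)) ≤ ε / 2 * 2 ^ k := by
    rcases Nat.eq_zero_or_pos (Qb j).card with h0 | h0
    · rw [h0]
      simp
      positivity
    · have : (0 : ℝ) < ((Qb j).card : ℝ) := by exact_mod_cast h0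
      rw [← mul_assoc, one_div, inv_mul_cancel₀ this.ne', one_mul]
  have hk2' : (2 : ℝ) ^ k ≤ 2 * N := by exact_mod_cast hk2
  calc ∑ n ∈ range N, Dl α A Q j n ≤ _ := hle
    _ = _ := hsw
    _ ≤ (1 / ((Qb j).card : ℝ)) * (((Qb j).card : ℝ) * (ε / 2 * 2 ^ k)) :=
        mul_le_mul_of_nonneg_left hq (by positivity)
    _ ≤ ε / 2 * 2 ^ k := hK
    _ ≤ ε / 2 * (2 * N) := mul_le_mul_of_nonneg_left hk2' (by positivity)
    _ = ε * N := by ring

end Pool.Agent.Lib.MP_9fe581_an.HD
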