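import Pool.Agent.Lib.MP_9fe581_an.HD.CBasic

/-!
# HD, C2: the integrated traces of the cocycle products are a positive definite sequence
-/

open Finset MeasureTheory Filter Topology UnitAddTorus
open scoped ComplexConjugate Matrix

namespace Pool.Agent.Lib.MP_9fe581_an.HD

variable {d : ℕ} {ι : Type} [Fintype ι] [DecidableEq ι]
variable {α : Td d} {A : Td d → Matrix ι ι ℂ} {Q : Matrix ι ι ℂ}

private theorem c2_int {f : Td d → ℂ} (hf : Continuous f) : Integrable f (mT d) :=
  hf.integrable_of_hasCompactSupport (HasCompactSupport.of_compactSpace f)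

private theorem c2_cont (hU : UC A Q) (m m' : ℕ) :
    Continuous fun x => (cp α A Q m x * (cp α A Q m' x)ᴴ).trace := by
  have h1 : Continuous fun x => cp α A Q m x * (cp α A Q m' x)ᴴ :=
    (cp_cont hU m).matrix_mul (cp_cont hU m').matrix_conjTranspose
  exact h1.matrix_trace

private theorem c2_le (hU : UC A Q) {m m' : ℕ} (h : m' ≤ m) :
    ∫ x, (cp α A Q m x * (cp α A Q m' x)ᴴ).trace ∂mT d = aa α A Q (m - m') := by
  have h1 : ∀ x, (cp α A Q m x * (cp α A Q m' x)ᴴ).trace =
      (fun y => (cp α A Q (m - m') y).trace) (x + m' • α) := by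
    intro x
    rw [cp_shift hU m m' h x]
  simp only [h1]
  exact integral_add_right_eq_self (fun y => (cp α A Q (m - m') y).trace) (m' • α)

private theorem c2_eq (hU : UC A Q) (m m' : ℕ) :
    (if m' ≤ m then aa α A Q (m - m') else conj (aa α A Q (m' - m))) =
      ∫ x, (cp α A Q m x * (cp α A Q m' x)ᴴ).trace ∂mT d := by
  split_ifs with h
  · exact (c2_le hU h).symm
  · rw [← c2_le hU (le_of_not_ge h), ← integral_conj]
    congr 1
    funext x
    have h1 : conj ((cp α A Q m' x * (cp α A Q m x)ᴴ).trace) =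
        ((cp α A Q m' x * (cp α A Q m x)ᴴ)ᴴ).trace := by
      rw [Matrix.trace_conjTranspose]
      rfl
    rw [h1, Matrix.conjTranspose_mul, Matrix.conjTranspose_conjTranspose]

theorem aa_posDef (hU : UC A Q) : PosDef (aa α A Q) := by
  intro M z
  have h1 : (∑ m ∈ range M, ∑ m' ∈ range M, z m * conj (z m') *
      (if m' ≤ m then aa α A Q (m - m') else conj (aa α A Q (m' - m)))) =
      ∫ x, (∑ m ∈ range M, ∑ m' ∈ range M, z m * conj (z m') *
        (cp α A Q m x * (cp α A Q m' x)ᴴ).trace) ∂mT d := by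
    rw [integral_finsetSum]
    · refine Finset.sum_congr rfl fun m _ => ?_
      rw [integral_finsetSum]
      · refine Finset.sum_congr rfl fun m' _ => ?_
        rw [c2_eq hU, integral_const_mul]
      · intro m' _
        exact (c2_int (c2_cont hU m m')).const_mul _
    · intro m _
      exact integrable_finsetSum _ fun m' _ => (c2_int (c2_cont hU m m')).const_mul _
  have h2 : ∀ x, (∑ m ∈ range M, ∑ m' ∈ range M, z m * conj (z m') *
      (cp α A Q m x * (cp α A Q m' x)ᴴ).trace) =
      ((∑ i, ∑ j, ‖(∑ m ∈ range M, z m • cp α A Q m x) i j‖ ^ 2 : ℝ) : ℂ) := by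
    intro x
    set B : Matrix ι ι ℂ := ∑ m ∈ range M, z m • cp α A Q m x with hB
    have h3 : (B * Bᴴ).trace = ∑ m ∈ range M, ∑ m' ∈ range M, z m * conj (z m') *
        (cp α A Q m x * (cp α A Q m' x)ᴴ).trace := by
      rw [hB, Matrix.conjTranspose_sum, Finset.sum_mul_sum, Matrix.trace_sum]
      refine Finset.sum_congr rfl fun m _ => ?_
      rw [Matrix.trace_sum]
      refine Finset.sum_congr rfl fun m' _ => ?_
      rw [Matrix.conjTranspose_smul, smul_mul_assoc, mul_smul_comm, Matrix.trace_smul,
        Matrix.trace_smul, smul_eq_mul, smul_eq_mul, ← mul_assoc]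
      rfl
    rw [← h3]
    unfold Matrix.trace
    push_cast
    refine Finset.sum_congr rfl fun i _ => ?_
    rw [Matrix.diag_apply, Matrix.mul_apply]
    refine Finset.sum_congr rfl fun j _ => ?_
    rw [Matrix.conjTranspose_apply]
    exact Complex.mul_conj' _
  rw [h1]
  simp only [h2]
  rw [integral_complex_ofReal]
  rw [Complex.ofReal_re]
  exact integral_nonneg fun x => Finset.sum_nonneg fun i _ => Finset.sum_nonneg fun j _ =>
    sq_nonneg _

theorem aa_zero_re_le (hU : UC A Q) : (aa α A Q 0).re ≤ Fintype.card ι :=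
  (Complex.re_le_norm _).trans (aa_le hU 0)

omit [DecidableEq ι] in
/-- `aa 0` is the trace of the projection, which is real. -/
theorem aa_zero_im (hU : UC A Q) : (aa α A Q 0).im = 0 := by
  have h1 : aa α A Q 0 = Q.trace := by
    unfold aa
    have h2 : ∀ x : Td d, (cp α A Q 0 x).trace = Q.trace := fun x => rfl
    simp only [h2]
    simp
  have h3 : conj Q.trace = Q.trace := by
    have h4 := Matrix.trace_conjTranspose Q
    rw [hU.QH] at h4
    exact h4.symm
  rw [h1]
  exact Complex.conj_eq_iff_im.mp h3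

end Pool.Agent.Lib.MP_9fe581_an.HD
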