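import Pool.Agent.Lib.MP_9fe581_an.HD.Defs

/-!
# HD, module P1: Parseval and the few prime divisors of a frequency
-/

open Finset MeasureTheory Filter Topology UnitAddTorus
open scoped ComplexConjugate Matrix

namespace Pool.Agent.Lib.MP_9fe581_an.HD

variable {d : ℕ}

noncomputable local instance p1MeasureSpace : MeasureSpace UnitAddCircle := ⟨AddCircle.haarAddCircle⟩

private theorem p1_vol : (volume : Measure (Td d)) = mT d := rfl

local instance p1Haar : Measure.IsAddHaarMeasure (volume : Measure UnitAddCircle) :=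
  inferInstanceAs (Measure.IsAddHaarMeasure AddCircle.haarAddCircle)

local instance p1Prob : IsProbabilityMeasure (volume : Measure UnitAddCircle) :=
  inferInstanceAs (IsProbabilityMeasure AddCircle.haarAddCircle)

/-- the Fourier coefficient -/
private noncomputable def p1c (F : Td d → ℂ) (a : Fin d → ℤ) : ℂ := ∫ t, mFourier (-a) t * F t ∂mT d

private theorem p1_int {F : Td d → ℂ} (hF : Continuous F) : Integrable F (mT d) :=
  hF.integrable_of_hasCompactSupport (HasCompactSupport.of_compactSpace F)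

private theorem p1_int' {F : Td d → ℝ} (hF : Continuous F) : Integrable F (mT d) :=
  hF.integrable_of_hasCompactSupport (HasCompactSupport.of_compactSpace F)

/-- Parseval for continuous functions -/
private theorem p1_parseval {F : Td d → ℂ} (hF : Continuous F) :
    HasSum (fun a => ‖p1c F a‖ ^ 2) (∫ t, ‖F t‖ ^ 2 ∂mT d) := by
  have h := hasSum_sq_mFourierCoeff (ContinuousMap.toLp 2 volume ℂ (⟨F, hF⟩ : C(UnitAddTorus (Fin d), ℂ)))
  simp only [mFourierCoeff_toLp] at h
  have h2 : ∫ t, ‖(ContinuousMap.toLp 2 volume ℂ (⟨F, hF⟩ : C(UnitAddTorus (Fin d), ℂ))) t‖ ^ 2 =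
      ∫ t, ‖F t‖ ^ 2 ∂mT d := by
    apply integral_congr_ae
    filter_upwards [ContinuousMap.coeFn_toLp (p := 2) (𝕜 := ℂ) volume (⟨F, hF⟩ : C(UnitAddTorus (Fin d), ℂ))] with t ht
    rw [ht]; rfl
  rw [h2] at h
  exact h

private theorem p1_mul_add (k : Fin d → ℤ) (x y : Td d) : mFourier k (x + y) = mFourier k x * mFourier k y := by
  simp only [mFourier, ContinuousMap.coe_mk, ← Finset.prod_mul_distrib]
  apply Finset.prod_congr rfl
  intro i _
  simp only [fourier_apply, Pi.add_apply, smul_add, AddCircle.toCircle_add, Circle.coe_mul]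

private theorem p1_smul (k : Fin d → ℤ) (p : ℕ) (x : Td d) : mFourier ((p : ℤ) • k) x = mFourier k (p • x) := by
  simp only [mFourier, ContinuousMap.coe_mk]
  apply Finset.prod_congr rfl
  intro i _
  simp only [fourier_apply, Pi.smul_apply, smul_eq_mul]
  rw [mul_comm, mul_zsmul, natCast_zsmul]

private theorem p1_mp (p : ℕ) (hp : p ≠ 0) (x : Td d) : MeasurePreserving (fun t : Td d => x + p • t) (mT d) (mT d) := by
  have h1 : MeasurePreserving (fun t : Td d => p • t) (mT d) (mT d) := by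
    have := Measure.measurePreserving_zsmul (mT d) (n := (p : ℤ)) (by exact_mod_cast hp)
    simpa using this
  exact (measurePreserving_add_left (mT d) x).comp h1

private theorem p1_norm (k : Fin d → ℤ) (x : Td d) : ‖mFourier k x‖ = 1 := by
  simp only [mFourier, ContinuousMap.coe_mk, norm_prod, fourier_apply, Circle.norm_coe, Finset.prod_const_one]

private theorem p1_coeff_mul (p : ℕ) (hp : p ≠ 0) {F : Td d → ℂ} (hF : Continuous F) (x : Td d) (a : Fin d → ℤ) :
    p1c (fun t => F (x + p • t)) ((p : ℤ) • a) = mFourier a x * p1c F a := by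
  unfold p1c
  have h1 : ∀ t : Td d, mFourier (-((p : ℤ) • a)) t * F (x + p • t) =
      mFourier a x * (mFourier (-a) (x + p • t) * F (x + p • t)) := by
    intro t
    rw [← smul_neg, p1_smul, p1_mul_add]
    have : mFourier a x * mFourier (-a) x = 1 := by
      rw [← mFourier_add, add_neg_cancel, mFourier_zero]; rfl
    calc mFourier (-a) (p • t) * F (x + p • t) = 1 * (mFourier (-a) (p • t) * F (x + p • t)) := by ring
      _ = _ := by rw [← this]; ring
  rw [integral_congr_ae (Eventually.of_forall h1), integral_const_mul]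
  congr 1
  have h2 := (p1_mp p hp x).map_eq
  have hc : Continuous fun y : Td d => mFourier (-a) y * F y := (ContinuousMap.continuous _).mul hF
  have h3 := integral_map (μ := mT d) (φ := fun t : Td d => x + p • t) (p1_mp p hp x).measurable.aemeasurable
    (f := fun y : Td d => mFourier (-a) y * F y) hc.aestronglyMeasurable
  rw [h2] at h3
  exact h3.symm

private theorem p1_coeff_ndvd (p : ℕ) (hp : p ≠ 0) {F : Td d → ℂ} (x : Td d) (M : Fin d → ℤ)
    (hM : ¬ ∀ i, (p : ℤ) ∣ M i) : p1c (fun t => F (x + p • t)) M = 0 := by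
  push Not at hM
  obtain ⟨i, hi⟩ := hM
  set s : Td d := Pi.single i (((1 / (p : ℝ) : ℝ)) : UnitAddCircle) with hs
  have hps : p • s = 0 := by
    rw [hs, ← Pi.single_smul]
    have : p • ((1 / (p : ℝ) : ℝ) : UnitAddCircle) = 0 := by
      rw [← AddCircle.coe_nsmul, nsmul_eq_mul, mul_one_div_cancel (by exact_mod_cast hp)]
      exact AddCircle.coe_period 1
    rw [this, Pi.single_zero]
  have hne : mFourier (-M) s ≠ 1 := by
    have h1 : mFourier (-M) s = fourier (-M i) (((1 / (p : ℝ) : ℝ)) : UnitAddCircle) := by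
      simp only [mFourier, ContinuousMap.coe_mk]
      rw [Finset.prod_eq_single i]
      · rw [hs, Pi.single_eq_same]; rfl
      · intro j _ hj
        rw [hs, Pi.single_eq_of_ne hj]
        simp [fourier_apply]
      · intro h; exact absurd (mem_univ i) h
    rw [h1, fourier_coe_apply]
    intro h
    rw [Complex.exp_eq_one_iff] at h
    obtain ⟨n, hn⟩ := h
    apply hi
    have h2 : ((-M i : ℤ) : ℂ) * (1 / (p : ℂ)) = n := by
      have hpi : (2 * (Real.pi : ℂ) * Complex.I) ≠ 0 := by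
        simp [Real.pi_ne_zero]
      have : (2 * (Real.pi : ℂ) * Complex.I) * (((-M i : ℤ) : ℂ) * (1 / (p : ℂ))) = (2 * (Real.pi : ℂ) * Complex.I) * n := by
        rw [mul_comm (2 * (Real.pi : ℂ) * Complex.I) (n : ℂ), ← hn]
        push_cast
        ring
      exact mul_left_cancel₀ hpi this
    have hp' : (p : ℂ) ≠ 0 := by exact_mod_cast hp
    have h3 : ((-M i : ℤ) : ℂ) = n * p := by
      rw [← h2]; field_simp
    have h4 : -M i = n * p := by exact_mod_cast h3
    exact ⟨-n, by linarith [mul_comm n (p : ℤ), neg_mul_eq_mul_neg (p : ℤ) n]⟩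
  have h1 : p1c (fun t => F (x + p • t)) M = mFourier (-M) s * p1c (fun t => F (x + p • t)) M := by
    unfold p1c
    rw [← integral_const_mul]
    rw [← integral_add_right_eq_self (μ := mT d) (fun t : Td d => mFourier (-M) t * F (x + p • t)) s]
    apply integral_congr_ae
    refine Eventually.of_forall fun t => ?_
    show mFourier (-M) (t + s) * F (x + p • (t + s)) = mFourier (-M) s * (mFourier (-M) t * F (x + p • t))
    rw [smul_add, hps, add_zero, p1_mul_add]
    ring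
  have h2 : (mFourier (-M) s - 1) * p1c (fun t => F (x + p • t)) M = 0 := by
    rw [sub_mul, ← h1]; ring
  exact (mul_eq_zero.1 h2).resolve_left (sub_ne_zero.2 hne)

/-- few prime divisors: `w(p a) ≤ 1 + w(a)` -/
private theorem p1_few (P : Finset ℕ) (hP : ∀ p ∈ P, p.Prime) (p : ℕ) (hp : p ∈ P) (a : Fin d → ℤ) :
    (((P.filter fun q : ℕ => ∀ i, (q : ℤ) ∣ (p : ℤ) * a i).card : ℕ) : ℝ) ≤
      1 + (((P.filter fun q : ℕ => ∀ i, (q : ℤ) ∣ a i).card : ℕ) : ℝ) := by
  classical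
  set W := P.filter fun q : ℕ => ∀ i, (q : ℤ) ∣ (p : ℤ) * a i with hW
  have h1 : W.erase p ⊆ P.filter fun q : ℕ => ∀ i, (q : ℤ) ∣ a i := by
    intro q hq
    rw [Finset.mem_erase, hW, Finset.mem_filter] at hq
    obtain ⟨hqp, hqP, hq⟩ := hq
    rw [Finset.mem_filter]
    refine ⟨hqP, fun i => ?_⟩
    have h2 := Int.natAbs_dvd_natAbs.2 (hq i)
    rw [Int.natAbs_natCast, Int.natAbs_mul, Int.natAbs_natCast] at h2
    have h3 := (((Nat.coprime_primes (hP q hqP) (hP p hp)).2 hqp)).dvd_of_dvd_mul_left h2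
    exact Int.natCast_dvd.2 h3
  have h2 : W.card ≤ (W.erase p).card + 1 := by
    have := Finset.pred_card_le_card_erase (s := W) (a := p)
    omega
  have h3 := Finset.card_le_card h1
  have h4 : W.card ≤ (P.filter fun q : ℕ => ∀ i, (q : ℤ) ∣ a i).card + 1 := by omega
  have h5 : (W.card : ℝ) ≤ ((P.filter fun q : ℕ => ∀ i, (q : ℤ) ∣ a i).card : ℝ) + 1 := by exact_mod_cast h4
  linarith

/-- the frequencies of the `p`-th term, spread over the multiples of `p` -/
private theorem p1_spread (p : ℕ) (hp : p ≠ 0) (g : (Fin d → ℤ) → ℝ) (T : ℝ) (hg : HasSum g T) :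
    ∃ G : (Fin d → ℤ) → ℝ, HasSum G T ∧ (∀ a, G ((p : ℤ) • a) = g a) ∧ (∀ M, (¬ ∃ a, M = (p : ℤ) • a) → G M = 0) := by
  classical
  have hinj : Function.Injective fun a : Fin d → ℤ => (p : ℤ) • a := by
    intro a b h
    have hp' : (p : ℤ) ≠ 0 := by exact_mod_cast hp
    exact smul_right_injective _ hp' h
  refine ⟨Function.extend (fun a : Fin d → ℤ => (p : ℤ) • a) g 0, ?_, ?_, ?_⟩
  · rw [← hinj.hasSum_iff]
    · have : Function.extend (fun a : Fin d → ℤ => (p : ℤ) • a) g 0 ∘ (fun a : Fin d → ℤ => (p : ℤ) • a) = g := by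
        funext a
        exact hinj.extend_apply _ _ _
      rw [this]; exact hg
    · intro M hM
      rw [Function.extend_apply' _ _ _ (by simpa using hM)]; rfl
  · intro a; exact hinj.extend_apply _ _ _
  · intro M hM
    rw [Function.extend_apply' _ _ _ (by rintro ⟨a, ha⟩; exact hM ⟨a, ha.symm⟩)]; rfl

theorem divisors (P : Finset ℕ) (hP : ∀ p ∈ P, p.Prime)
    (F : ℕ → Td d → ℂ) (hc : ∀ p ∈ P, Continuous (F p)) (B : ℝ) (hB : 0 ≤ B) (hF : ∀ p ∈ P, ∀ x, ‖F p x‖ ≤ B) (x : Td d) :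
    ∫ t, ‖∑ p ∈ P, F p (x + p • t)‖ ^ 2 ∂mT d ≤ ‖∑ p ∈ P, ∫ t, F p t ∂mT d‖ ^ 2 +
      P.card * B ^ 2 + ∑ p ∈ P, ∑ q ∈ P, (eqf (F p) q - ‖∫ t, F p t ∂mT d‖ ^ 2) := by
  classical
  have hcp : ∀ p ∈ P, Continuous fun t : Td d => F p (x + p • t) := fun p hp =>
    (hc p hp).comp (continuous_const.add (continuous_nsmul p))
  have hG : Continuous fun t : Td d => ∑ p ∈ P, F p (x + p • t) := continuous_finsetSum _ hcp
  have hcoef : ∀ M, p1c (fun t => ∑ p ∈ P, F p (x + p • t)) M = ∑ p ∈ P, p1c (fun t => F p (x + p • t)) M := by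
    intro M
    unfold p1c
    rw [← integral_finsetSum]
    · apply integral_congr_ae
      exact Eventually.of_forall fun t => by simp only [Finset.mul_sum]
    · intro p hp
      exact p1_int ((ContinuousMap.continuous _).mul (hcp p hp))
  have hc0 : ∀ p, p1c (F p) 0 = ∫ t, F p t ∂mT d := by
    intro p
    unfold p1c
    rw [neg_zero, mFourier_zero]
    simp
  let g : ℕ → (Fin d → ℤ) → ℝ := fun p a => ‖p1c (F p) a‖ ^ 2 +
    ∑ q ∈ P, ((if (∀ i, (q : ℤ) ∣ a i) then ‖p1c (F p) a‖ ^ 2 else 0) -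
      (if a = 0 then ‖∫ t, F p t ∂mT d‖ ^ 2 else 0))
  have hsum1 : ∀ p ∈ P, HasSum (fun a => ‖p1c (F p) a‖ ^ 2) (∫ t, ‖F p t‖ ^ 2 ∂mT d) := fun p hp => p1_parseval (hc p hp)
  have hsum2 : ∀ p ∈ P, ∀ q : ℕ, HasSum (fun a : Fin d → ℤ => if (∀ i, (q : ℤ) ∣ a i) then ‖p1c (F p) a‖ ^ 2 else 0)
      (eqf (F p) q) := by
    intro p hp q
    have : Summable (fun a : Fin d → ℤ => if (∀ i, (q : ℤ) ∣ a i) then ‖p1c (F p) a‖ ^ 2 else 0) := by
      refine Summable.of_nonneg_of_le (fun a => ?_) (fun a => ?_) (hsum1 p hp).summable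
      · split_ifs <;> positivity
      · split_ifs
        · exact le_rfl
        · positivity
    exact this.hasSum
  have hsum : ∀ p ∈ P, HasSum (g p) ((∫ t, ‖F p t‖ ^ 2 ∂mT d) +
      ∑ q ∈ P, (eqf (F p) q - ‖∫ t, F p t ∂mT d‖ ^ 2)) := fun p hp =>
    (hsum1 p hp).add (hasSum_sum fun q _ => (hsum2 p hp q).sub (hasSum_ite_eq 0 _))
  have hg : ∀ p a, g p a = ‖p1c (F p) a‖ ^ 2 +
      (if a = 0 then 0 else (((P.filter fun q : ℕ => ∀ i, (q : ℤ) ∣ a i).card : ℕ) : ℝ) * ‖p1c (F p) a‖ ^ 2) := by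
    intro p a
    show ‖p1c (F p) a‖ ^ 2 +
      ∑ q ∈ P, ((if (∀ i, (q : ℤ) ∣ a i) then ‖p1c (F p) a‖ ^ 2 else 0) -
        (if a = 0 then ‖∫ t, F p t ∂mT d‖ ^ 2 else 0)) = _
    congr 1
    by_cases ha : a = 0
    · subst ha
      rw [if_pos rfl, if_pos rfl]
      apply Finset.sum_eq_zero
      intro q _
      have hz : ∀ i : Fin d, (q : ℤ) ∣ (0 : Fin d → ℤ) i := fun i => dvd_zero _
      rw [if_pos hz, hc0, sub_self]
    · rw [if_neg ha, if_neg ha]
      simp only [sub_zero]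
      rw [← Finset.sum_filter, Finset.sum_const, nsmul_eq_mul]
  have hg0 : ∀ p a, 0 ≤ g p a := by
    intro p a
    rw [hg]
    split_ifs <;> positivity
  have hsp : ∀ p ∈ P, ∃ G : (Fin d → ℤ) → ℝ, HasSum G ((∫ t, ‖F p t‖ ^ 2 ∂mT d) +
      ∑ q ∈ P, (eqf (F p) q - ‖∫ t, F p t ∂mT d‖ ^ 2)) ∧
      (∀ a, G ((p : ℤ) • a) = g p a) ∧ (∀ M, (¬ ∃ a, M = (p : ℤ) • a) → G M = 0) := fun p hp =>
    p1_spread p (hP p hp).ne_zero (g p) _ (hsum p hp)
  choose! G hG1 hG2 hG3 using hsp
  have hGnn : ∀ p ∈ P, ∀ M, 0 ≤ G p M := by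
    intro p hp M
    by_cases h : ∃ a, M = (p : ℤ) • a
    · obtain ⟨a, rfl⟩ := h
      rw [hG2 p hp]; exact hg0 p a
    · rw [hG3 p hp M h]
  have hpt : ∀ M, ‖p1c (fun t => ∑ p ∈ P, F p (x + p • t)) M‖ ^ 2 ≤
      (if M = 0 then ‖∑ p ∈ P, ∫ t, F p t ∂mT d‖ ^ 2 else 0) + ∑ p ∈ P, G p M := by
    intro M
    by_cases hM : M = 0
    · subst hM
      rw [if_pos rfl, hcoef]
      have h1 : ∀ p ∈ P, p1c (fun t => F p (x + p • t)) 0 = ∫ t, F p t ∂mT d := by
        intro p hp
        have h2 := p1_coeff_mul p (hP p hp).ne_zero (hc p hp) x 0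
        rw [smul_zero] at h2
        rw [h2, mFourier_zero, hc0]
        simp
      rw [Finset.sum_congr rfl h1]
      have := Finset.sum_nonneg fun p hp => hGnn p hp 0
      linarith
    · rw [if_neg hM, zero_add, hcoef]
      set W := P.filter fun q : ℕ => ∀ i, (q : ℤ) ∣ M i with hW
      have h1 : ∑ p ∈ P, p1c (fun t => F p (x + p • t)) M = ∑ p ∈ W, p1c (fun t => F p (x + p • t)) M := by
        rw [hW, Finset.sum_filter]
        refine Finset.sum_congr rfl fun p hp => ?_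
        split_ifs with h
        · rfl
        · exact p1_coeff_ndvd p (hP p hp).ne_zero x M h
      rw [h1]
      have h2 : ‖∑ p ∈ W, p1c (fun t => F p (x + p • t)) M‖ ^ 2 ≤
          (W.card : ℝ) * ∑ p ∈ W, ‖p1c (fun t => F p (x + p • t)) M‖ ^ 2 := by
        calc ‖∑ p ∈ W, p1c (fun t => F p (x + p • t)) M‖ ^ 2 ≤ (∑ p ∈ W, ‖p1c (fun t => F p (x + p • t)) M‖) ^ 2 := by
              gcongr; exact norm_sum_le _ _
          _ ≤ _ := by
              have := sq_sum_le_card_mul_sum_sq (s := W) (f := fun p => ‖p1c (fun t => F p (x + p • t)) M‖)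
              exact_mod_cast this
      refine h2.trans ?_
      rw [Finset.mul_sum]
      refine (Finset.sum_le_sum fun p hp => ?_).trans
        (Finset.sum_le_sum_of_subset_of_nonneg (Finset.filter_subset _ _) fun p hp _ => hGnn p hp M)
      rw [hW, Finset.mem_filter] at hp
      obtain ⟨hpP, hpM⟩ := hp
      have hp0 : p ≠ 0 := (hP p hpP).ne_zero
      choose a ha using hpM
      have haM : M = (p : ℤ) • a := funext fun i => by rw [ha i]; rfl
      have ha0 : a ≠ 0 := by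
        rintro rfl
        exact hM (by rw [haM, smul_zero])
      rw [haM, hG2 p hpP, hg, if_neg ha0, p1_coeff_mul p hp0 (hc p hpP) x a, norm_mul, p1_norm, one_mul]
      have h3 := p1_few P hP p hpP a
      have h4 : W = P.filter fun q : ℕ => ∀ i, (q : ℤ) ∣ (p : ℤ) * a i := by
        rw [hW]
        refine Finset.filter_congr fun q _ => ?_
        refine forall_congr' fun i => ?_
        rw [ha i]
      rw [← h4] at h3
      have h5 : 0 ≤ ‖p1c (F p) a‖ ^ 2 := by positivity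
      nlinarith
  have hL := p1_parseval hG
  have hR : HasSum (fun M : Fin d → ℤ => (if M = 0 then ‖∑ p ∈ P, ∫ t, F p t ∂mT d‖ ^ 2 else 0) + ∑ p ∈ P, G p M)
      (‖∑ p ∈ P, ∫ t, F p t ∂mT d‖ ^ 2 + ∑ p ∈ P, ((∫ t, ‖F p t‖ ^ 2 ∂mT d) +
      ∑ q ∈ P, (eqf (F p) q - ‖∫ t, F p t ∂mT d‖ ^ 2))) := by
    refine HasSum.add ?_ (hasSum_sum fun p hp => hG1 p hp)
    exact hasSum_ite_eq 0 _
  have h1 := hasSum_le hpt hL hR
  refine h1.trans ?_
  have h2 : ∑ p ∈ P, ((∫ t, ‖F p t‖ ^ 2 ∂mT d) + ∑ q ∈ P, (eqf (F p) q - ‖∫ t, F p t ∂mT d‖ ^ 2)) ≤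
      P.card * B ^ 2 + ∑ p ∈ P, ∑ q ∈ P, (eqf (F p) q - ‖∫ t, F p t ∂mT d‖ ^ 2) := by
    rw [Finset.sum_add_distrib]
    refine add_le_add ?_ le_rfl
    have h3 : ∀ p ∈ P, (∫ t, ‖F p t‖ ^ 2 ∂mT d) ≤ B ^ 2 := by
      intro p hp
      calc ∫ t, ‖F p t‖ ^ 2 ∂mT d ≤ ∫ _t, B ^ 2 ∂mT d := by
            refine integral_mono (p1_int' ((hc p hp).norm.pow 2)) (integrable_const _) fun t => ?_
            exact pow_le_pow_left₀ (norm_nonneg _) (hF p hp t) 2
        _ = B ^ 2 := by simp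
    refine (Finset.sum_le_sum h3).trans ?_
    rw [Finset.sum_const, nsmul_eq_mul]
  linarith

end Pool.Agent.Lib.MP_9fe581_an.HD
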