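import Pool.Agent.Lib.MP_9fe581_an.HD.Defs

/-!
# HD, module C1: algebra of the products of a unitary matrix cocycle
-/

set_option linter.unusedSectionVars false

open Finset MeasureTheory Filter Topology UnitAddTorus
open scoped ComplexConjugate Matrix

namespace Pool.Agent.Lib.MP_9fe581_an.HD

variable {d : ℕ} {ι : Type} [Fintype ι] [DecidableEq ι]
variable {α : Td d} {A : Td d → Matrix ι ι ℂ} {Q : Matrix ι ι ℂ}

theorem cp_cont (hU : UC A Q) (n : ℕ) : Continuous (cp α A Q n) := by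
  induction n with
  | zero => exact continuous_const
  | succ n ih =>
    change Continuous fun x => A (x + n • α) * cp α A Q n x
    exact (hU.cont.comp (continuous_id.add continuous_const)).matrix_mul ih

theorem cp_QA (hU : UC A Q) (n : ℕ) (x : Td d) : Q * cp α A Q n x = cp α A Q n x := by
  cases n with
  | zero => exact hU.QQ
  | succ n =>
    change Q * (A (x + n • α) * cp α A Q n x) = A (x + n • α) * cp α A Q n x
    rw [← mul_assoc, hU.QA]

theorem cp_AQ (hU : UC A Q) (n : ℕ) (x : Td d) : cp α A Q n x * Q = cp α A Q n x := by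
  induction n with
  | zero => exact hU.QQ
  | succ n ih =>
    change (A (x + n • α) * cp α A Q n x) * Q = A (x + n • α) * cp α A Q n x
    rw [mul_assoc, ih]

theorem cp_add (hU : UC A Q) (n m : ℕ) (x : Td d) :
    cp α A Q (n + m) x = cp α A Q n (x + m • α) * cp α A Q m x := by
  induction n with
  | zero =>
    rw [Nat.zero_add]
    exact (cp_QA hU m x).symm
  | succ n ih =>
    have h1 : n + 1 + m = (n + m) + 1 := by ring
    have h2 : x + (n + m) • α = x + m • α + n • α := by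
      rw [add_nsmul, add_comm (n • α) (m • α), add_assoc]
    rw [h1]
    change A (x + (n + m) • α) * cp α A Q (n + m) x =
      (A (x + m • α + n • α) * cp α A Q n (x + m • α)) * cp α A Q m x
    rw [ih, h2, mul_assoc]

theorem cp_AAH (hU : UC A Q) (n : ℕ) (x : Td d) : cp α A Q n x * (cp α A Q n x)ᴴ = Q := by
  induction n with
  | zero =>
    change Q * Qᴴ = Q
    rw [hU.QH, hU.QQ]
  | succ n ih =>
    change (A (x + n • α) * cp α A Q n x) * (A (x + n • α) * cp α A Q n x)ᴴ = Q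
    rw [Matrix.conjTranspose_mul, mul_assoc, ← mul_assoc (cp α A Q n x), ih, ← mul_assoc, hU.AQ,
      hU.AAH]

theorem cp_AHA (hU : UC A Q) (n : ℕ) (x : Td d) : (cp α A Q n x)ᴴ * cp α A Q n x = Q := by
  induction n with
  | zero =>
    change Qᴴ * Q = Q
    rw [hU.QH, hU.QQ]
  | succ n ih =>
    change (A (x + n • α) * cp α A Q n x)ᴴ * (A (x + n • α) * cp α A Q n x) = Q
    rw [Matrix.conjTranspose_mul, mul_assoc, ← mul_assoc (A (x + n • α))ᴴ, hU.AHA, cp_QA hU, ih]

private theorem C1_mul_conj (X : Matrix ι ι ℂ) (i : ι) :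
    (X * Xᴴ) i i = ((∑ j, ‖X i j‖ ^ 2 : ℝ) : ℂ) := by
  rw [Matrix.mul_apply, Complex.ofReal_sum]
  refine Finset.sum_congr rfl fun j _ => ?_
  rw [Matrix.conjTranspose_apply]
  change X i j * conj (X i j) = _
  rw [Complex.mul_conj, Complex.normSq_eq_norm_sq]

private theorem C1_row (hH : Qᴴ = Q) (hQ : Q * Q = Q) (X : Matrix ι ι ℂ) (hX : X * Xᴴ = Q)
    (i : ι) : ∑ j, ‖X i j‖ ^ 2 ≤ 1 := by
  have h1 : Q i i = ((∑ j, ‖X i j‖ ^ 2 : ℝ) : ℂ) := by rw [← C1_mul_conj, hX]
  have h2 : Q i i = ((∑ j, ‖Q i j‖ ^ 2 : ℝ) : ℂ) := by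
    rw [← C1_mul_conj, hH, hQ]
  set s : ℝ := ∑ j, ‖X i j‖ ^ 2 with hs
  have h3 : s = ∑ j, ‖Q i j‖ ^ 2 := by
    rw [h1] at h2
    exact_mod_cast h2
  have h4 : ‖Q i i‖ ^ 2 ≤ s := by
    rw [h3]
    exact Finset.single_le_sum (f := fun j => ‖Q i j‖ ^ 2) (fun j _ => by positivity)
      (Finset.mem_univ i)
  have hs0 : 0 ≤ s := Finset.sum_nonneg fun j _ => by positivity
  rw [h1, Complex.norm_real, Real.norm_eq_abs, abs_of_nonneg hs0] at h4
  nlinarith

theorem cp_row (hU : UC A Q) (n : ℕ) (x : Td d) (i : ι) : ∑ j, ‖cp α A Q n x i j‖ ^ 2 ≤ 1 :=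
  C1_row hU.QH hU.QQ _ (cp_AAH hU n x) i

theorem cp_col (hU : UC A Q) (n : ℕ) (x : Td d) (j : ι) : ∑ i, ‖cp α A Q n x i j‖ ^ 2 ≤ 1 := by
  have h := C1_row hU.QH hU.QQ (cp α A Q n x)ᴴ
    (by rw [Matrix.conjTranspose_conjTranspose]; exact cp_AHA hU n x) j
  simpa [Matrix.conjTranspose_apply] using h

theorem cp_entry (hU : UC A Q) (n : ℕ) (x : Td d) (i j : ι) : ‖cp α A Q n x i j‖ ≤ 1 := by
  have h := (Finset.single_le_sum (f := fun j => ‖cp α A Q n x i j‖ ^ 2)
    (fun j _ => by positivity) (Finset.mem_univ j)).trans (cp_row hU n x i)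
  nlinarith [norm_nonneg (cp α A Q n x i j)]

theorem cp_trace_le (hU : UC A Q) (n : ℕ) (x : Td d) :
    ‖(cp α A Q n x).trace‖ ≤ Fintype.card ι := by
  rw [Matrix.trace]
  refine (norm_sum_le _ _).trans ?_
  refine (Finset.sum_le_sum fun i _ => cp_entry hU n x i i).trans ?_
  simp

theorem aa_le (hU : UC A Q) (n : ℕ) : ‖aa α A Q n‖ ≤ Fintype.card ι := by
  unfold aa
  refine (norm_integral_le_of_norm_le_const (C := (Fintype.card ι : ℝ))
    (ae_of_all _ fun x => cp_trace_le hU n x)).trans ?_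
  simp

/-- `A_l(u) A_{l'}(u)^* = A_{l - l'}(u + l' α)` -/
theorem cp_shift (hU : UC A Q) (l l' : ℕ) (h : l' ≤ l) (u : Td d) :
    cp α A Q l u * (cp α A Q l' u)ᴴ = cp α A Q (l - l') (u + l' • α) := by
  have h1 : cp α A Q l u = cp α A Q (l - l') (u + l' • α) * cp α A Q l' u := by
    rw [← cp_add hU, Nat.sub_add_cancel h]
  rw [h1, mul_assoc, cp_AAH hU, cp_AQ hU]

private theorem C1_trace (P D R : Matrix ι ι ℂ) (κ : ℝ) (hP : ∀ i, ∑ k, ‖P k i‖ ^ 2 ≤ 1)
    (hR : ∀ j, ∑ k, ‖R j k‖ ^ 2 ≤ 1) (hD : ∀ i j, ‖D i j‖ ≤ κ) :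
    ‖(P * D * R).trace‖ ≤ (Fintype.card ι : ℝ) ^ 2 * κ := by
  have hRP : ∀ j i, ‖(R * P) j i‖ ≤ 1 := by
    intro j i
    rw [Matrix.mul_apply]
    refine (norm_sum_le _ _).trans ?_
    have h1 : ∀ k ∈ (Finset.univ : Finset ι), ‖R j k * P k i‖ ≤
        (‖R j k‖ ^ 2 + ‖P k i‖ ^ 2) / 2 := by
      intro k _
      rw [norm_mul]
      nlinarith [sq_nonneg (‖R j k‖ - ‖P k i‖)]
    refine (Finset.sum_le_sum h1).trans ?_
    rw [← Finset.sum_div, Finset.sum_add_distrib]
    linarith [hR j, hP i]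
  rw [mul_assoc, Matrix.trace_mul_comm, mul_assoc, Matrix.trace]
  have h2 : ∀ i ∈ (Finset.univ : Finset ι), ‖(D * (R * P)).diag i‖ ≤
      (Fintype.card ι : ℝ) * κ := by
    intro i _
    rw [Matrix.diag_apply, Matrix.mul_apply]
    refine (norm_sum_le _ _).trans ?_
    have h3 : ∀ j ∈ (Finset.univ : Finset ι), ‖D i j * (R * P) j i‖ ≤ κ := by
      intro j _
      rw [norm_mul]
      have := mul_le_mul (hD i j) (hRP j i) (norm_nonneg _) ((norm_nonneg _).trans (hD i j))
      linarith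
    refine (Finset.sum_le_sum h3).trans ?_
    simp
  refine (norm_sum_le _ _).trans ((Finset.sum_le_sum h2).trans ?_)
  rw [Finset.sum_const, Finset.card_univ, nsmul_eq_mul]
  apply le_of_eq
  ring

/-- modulus of continuity of the trace -/
theorem cp_trace_mod (hU : UC A Q) (δ κ : ℝ)
    (h : ∀ x y : Td d, dist x y ≤ δ → ∀ i j, ‖A x i j - A y i j‖ ≤ κ) (n : ℕ) (x y : Td d)
    (hxy : dist x y ≤ δ) :
    ‖(cp α A Q n x).trace - (cp α A Q n y).trace‖ ≤ n * (Fintype.card ι) ^ 2 * κ := by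
  have key : ∀ n m : ℕ, ‖(cp α A Q m (x + n • α) * cp α A Q n x).trace -
      (cp α A Q m (x + n • α) * cp α A Q n y).trace‖ ≤ n * (Fintype.card ι) ^ 2 * κ := by
    intro n
    induction n with
    | zero =>
      intro m
      change ‖(cp α A Q m (x + 0 • α) * Q).trace - (cp α A Q m (x + 0 • α) * Q).trace‖ ≤ _
      rw [sub_self, norm_zero]
      simp
    | succ n ih =>
      intro m
      have hA1 : cp α A Q 1 (x + n • α) = A (x + n • α) := by
        change A (x + n • α + 0 • α) * Q = A (x + n • α)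
        rw [hU.AQ, zero_nsmul, add_zero]
      have h1 : cp α A Q m (x + (n + 1) • α) * A (x + n • α) = cp α A Q (m + 1) (x + n • α) := by
        rw [cp_add hU m 1, hA1, one_nsmul, add_nsmul, one_nsmul, add_assoc]
      have h2 : (cp α A Q m (x + (n + 1) • α) * cp α A Q (n + 1) x).trace -
          (cp α A Q m (x + (n + 1) • α) * cp α A Q (n + 1) y).trace =
          ((cp α A Q (m + 1) (x + n • α) * cp α A Q n x).trace -
            (cp α A Q (m + 1) (x + n • α) * cp α A Q n y).trace) +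
          (cp α A Q m (x + (n + 1) • α) * (A (x + n • α) - A (y + n • α)) *
            cp α A Q n y).trace := by
        change (cp α A Q m (x + (n + 1) • α) * (A (x + n • α) * cp α A Q n x)).trace -
          (cp α A Q m (x + (n + 1) • α) * (A (y + n • α) * cp α A Q n y)).trace = _
        rw [← h1, mul_sub, sub_mul, Matrix.trace_sub]
        simp only [mul_assoc]
        ring
      rw [h2]
      refine (norm_add_le _ _).trans ?_
      have h3 := ih (m + 1)
      have h4 := C1_trace (cp α A Q m (x + (n + 1) • α)) (A (x + n • α) - A (y + n • α))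
        (cp α A Q n y) κ (fun i => cp_col hU _ _ i) (fun j => cp_row hU _ _ j)
        (fun i j => by
          rw [Matrix.sub_apply]
          exact h _ _ (by rw [dist_add_right]; exact hxy) i j)
      push_cast
      nlinarith
  have h0 := key n 0
  change ‖(Q * cp α A Q n x).trace - (Q * cp α A Q n y).trace‖ ≤ _ at h0
  rwa [cp_QA hU, cp_QA hU] at h0

end Pool.Agent.Lib.MP_9fe581_an.HD
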