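import Pool.Agent.Lib.MP_9fe581_an.HD.Model

/-!
# HD: the passage to primes (9*) for nonnegative sequences

Nonnegative sequences `D j` with a uniform von Neumann bound and small averages over all integers
(uniformly in `j >= j1`) have small averages over the primes of `Qb j`, dilated by `r`.
-/

open Finset MeasureTheory Filter Topology UnitAddTorus
open scoped ComplexConjugate Matrix

namespace Pool.Agent.Lib.MP_9fe581_an.HD

/-- (9*); `hcheb` is the statement of `Qb_card` -/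
theorem nonneg_prime_avg_of
    (hcheb : ∃ c : ℝ, 0 < c ∧ ∃ j0 : ℕ, ∀ j ≥ j0, c * 2 ^ j / j ≤ ((Qb j).card : ℝ))
    (D : ℕ → ℕ → ℝ) (C : ℝ) (hD : ∀ j n, 0 ≤ D j n) (hV : ∀ j, VN (fun n => ((D j n : ℝ) : ℂ)) C)
    (hall : ∀ ε : ℝ, 0 < ε → ∃ N0 j1 : ℕ, ∀ j ≥ j1, ∀ N ≥ N0, ∑ n ∈ range N, D j n ≤ ε * N)
    (r : ℕ) (hr : 1 ≤ r) (ε : ℝ) (hε : 0 < ε) :
    ∃ j0 : ℕ, ∀ j ≥ j0, ∑ p ∈ Qb j, D j (p * r) ≤ ε * ((Qb j).card : ℝ) := by
  obtain ⟨c, hc, jc, hjc⟩ := hcheb
  set C' : ℝ := |C| + 1 with hC'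
  have hC'0 : 0 < C' := by positivity
  have hl2 : 0 < Real.log 2 := Real.log_pos (by norm_num)
  set δ : ℝ := ε * c * Real.log 2 / 4 with hδ
  have hδ0 : 0 < δ := by positivity
  obtain ⟨Q0, N0, hm⟩ := model (δ / C') (by positivity)
  obtain ⟨N1, j1, h8'⟩ := hall (δ / ((2 * r) * (Q0 + 1))) (by positivity)
  refine ⟨max (max jc j1) (max (max N1 N0) 1), fun j hj => ?_⟩
  have hj1 : jc ≤ j := le_trans (le_trans (le_max_left _ _) (le_max_left _ _)) hj
  have hj2 : j1 ≤ j := le_trans (le_trans (le_max_right _ _) (le_max_left _ _)) hj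
  have hj3 : N1 ≤ j := le_trans (le_trans (le_trans (le_max_left _ _) (le_max_left _ _)) (le_max_right _ _)) hj
  have hj4 : N0 ≤ j := le_trans (le_trans (le_trans (le_max_right _ _) (le_max_left _ _)) (le_max_right _ _)) hj
  have hj5 : 1 ≤ j := le_trans (le_trans (le_max_right _ _) (le_max_right _ _)) hj
  set N : ℕ := 2 ^ (j + 1) with hN
  have hjN : j < N := lt_trans (Nat.lt_succ_self j) Nat.lt_two_pow_self
  have hNN : N0 ≤ N := by omega
  -- the von Neumann part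
  have hvn : |∑ n ∈ Icc 1 N, (GT.lam n - SW.LQ ((Icc 1 Q0).filter Squarefree) n) * D j (r * n)| ≤ δ * N := by
    have h1 := hV j (fun n => ((GT.lam n - SW.LQ ((Icc 1 Q0).filter Squarefree) n : ℝ) : ℂ)) N r
      (δ / C' * N) (hm N hNN)
    have h3 : ((∑ n ∈ Icc 1 N, (GT.lam n - SW.LQ ((Icc 1 Q0).filter Squarefree) n) * D j (r * n) : ℝ) : ℂ) =
        ∑ n ∈ Icc 1 N, ((GT.lam n - SW.LQ ((Icc 1 Q0).filter Squarefree) n : ℝ) : ℂ) *
          ((D j (r * n) : ℝ) : ℂ) := by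
      push_cast
      rfl
    have h4 : |∑ n ∈ Icc 1 N, (GT.lam n - SW.LQ ((Icc 1 Q0).filter Squarefree) n) * D j (r * n)| =
        ‖((∑ n ∈ Icc 1 N, (GT.lam n - SW.LQ ((Icc 1 Q0).filter Squarefree) n) * D j (r * n) : ℝ) : ℂ)‖ := by
      rw [Complex.norm_real, Real.norm_eq_abs]
    rw [h4, h3]
    refine h1.trans ?_
    have h6 : C ≤ C' := by
      rw [hC']
      linarith [le_abs_self C]
    have h7 : (0 : ℝ) ≤ δ / C' * N := by positivity
    calc C * (δ / C' * N) ≤ C' * (δ / C' * N) := mul_le_mul_of_nonneg_right h6 h7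
      _ = δ * N := by field_simp
  -- the model part
  have hmod : |∑ n ∈ Icc 1 N, SW.LQ ((Icc 1 Q0).filter Squarefree) n * D j (r * n)| ≤ δ * N := by
    refine (Finset.abs_sum_le_sum_abs _ _).trans ?_
    have h1 : ∀ n ∈ Icc 1 N, |SW.LQ ((Icc 1 Q0).filter Squarefree) n * D j (r * n)| ≤
        (Q0 : ℝ) * D j (r * n) := by
      intro n _
      rw [abs_mul, abs_of_nonneg (hD _ _)]
      refine mul_le_mul_of_nonneg_right ?_ (hD _ _)
      refine (SW.FourierSW_abs_LQ_le _ _).trans ?_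
      exact_mod_cast (Finset.card_filter_le _ _).trans (by simp)
    refine (Finset.sum_le_sum h1).trans ?_
    rw [← Finset.mul_sum]
    have hrN : N ≤ r * N := Nat.le_mul_of_pos_left _ hr
    have h2 := h8' j hj2 (r * N + 1) (by omega)
    have h3 : ∑ n ∈ Icc 1 N, D j (r * n) ≤ ∑ n ∈ range (r * N + 1), D j n := by
      have h4 : ∑ n ∈ Icc 1 N, D j (r * n) = ∑ m ∈ (Icc 1 N).image (fun n => r * n), D j m := by
        rw [Finset.sum_image]
        intro a _ b _ hab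
        exact Nat.eq_of_mul_eq_mul_left hr hab
      rw [h4]
      refine Finset.sum_le_sum_of_subset_of_nonneg ?_ fun m _ _ => hD j m
      intro m hm'
      simp only [Finset.mem_image, Finset.mem_Icc, Finset.mem_range] at hm' ⊢
      obtain ⟨n, ⟨_, hn⟩, rfl⟩ := hm'
      exact Nat.lt_succ_of_le (Nat.mul_le_mul_left r hn)
    have h5 : ((r * N + 1 : ℕ) : ℝ) ≤ 2 * (r * N) := by
      have : r * N + 1 ≤ 2 * (r * N) := by
        have : 1 ≤ N := Nat.one_le_two_pow
        omega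
      exact_mod_cast this
    have h6 : (0 : ℝ) < r := by exact_mod_cast hr
    have h7 : (0 : ℝ) ≤ δ / ((2 * r) * (Q0 + 1)) := by positivity
    have h8 : ∑ n ∈ Icc 1 N, D j (r * n) ≤ δ / ((2 * r) * (Q0 + 1)) * (2 * (r * N)) :=
      (h3.trans h2).trans (mul_le_mul_of_nonneg_left h5 h7)
    have h9 : δ / ((2 * r) * (Q0 + 1)) * (2 * (r * N)) = δ * N / (Q0 + 1) := by
      have : ((Q0 : ℝ) + 1) ≠ 0 := by positivity
      field_simp
    rw [h9] at h8
    have h10 : (0 : ℝ) ≤ Q0 := Nat.cast_nonneg _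
    calc (Q0 : ℝ) * ∑ n ∈ Icc 1 N, D j (r * n) ≤ Q0 * (δ * N / (Q0 + 1)) :=
          mul_le_mul_of_nonneg_left h8 h10
      _ = δ * N * (Q0 / (Q0 + 1)) := by ring
      _ ≤ δ * N * 1 := by
          refine mul_le_mul_of_nonneg_left ?_ (by positivity)
          rw [div_le_one (by positivity)]
          linarith
      _ = δ * N := by ring
  have hlam : ∑ n ∈ Icc 1 N, GT.lam n * D j (r * n) ≤ 2 * δ * N := by
    have h1 : ∑ n ∈ Icc 1 N, GT.lam n * D j (r * n) =
        ∑ n ∈ Icc 1 N, (GT.lam n - SW.LQ ((Icc 1 Q0).filter Squarefree) n) * D j (r * n) +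
        ∑ n ∈ Icc 1 N, SW.LQ ((Icc 1 Q0).filter Squarefree) n * D j (r * n) := by
      rw [← Finset.sum_add_distrib]
      refine Finset.sum_congr rfl fun n _ => ?_
      ring
    rw [h1]
    have h2 := (abs_le.1 hvn).2
    have h3 := (abs_le.1 hmod).2
    linarith
  -- the primes of the block
  have hprime : (j * Real.log 2) * ∑ p ∈ Qb j, D j (p * r) ≤ ∑ n ∈ Icc 1 N, GT.lam n * D j (r * n) := by
    have h1 : (j * Real.log 2) * ∑ p ∈ Qb j, D j (p * r) ≤ ∑ p ∈ Qb j, GT.lam p * D j (r * p) := by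
      rw [Finset.mul_sum]
      refine Finset.sum_le_sum fun p hp => ?_
      simp only [Qb, Finset.mem_filter, Finset.mem_Ico] at hp
      rw [mul_comm p r]
      refine mul_le_mul_of_nonneg_right ?_ (hD _ _)
      rw [GT.lam, if_pos hp.2, ← Real.log_pow]
      exact Real.log_le_log (by positivity) (by exact_mod_cast hp.1.1)
    refine h1.trans ?_
    refine Finset.sum_le_sum_of_subset_of_nonneg ?_ fun n _ _ => mul_nonneg (GT.lam_nonneg n) (hD _ _)
    intro p hp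
    simp only [Qb, Finset.mem_filter, Finset.mem_Ico] at hp
    rw [Finset.mem_Icc]
    exact ⟨hp.2.one_lt.le, by omega⟩
  have hcard := hjc j hj1
  have hj6 : (0 : ℝ) < j := by exact_mod_cast hj5
  have h1 : (j * Real.log 2) * ∑ p ∈ Qb j, D j (p * r) ≤ 2 * δ * N := hprime.trans hlam
  have h2 : ∑ p ∈ Qb j, D j (p * r) ≤ 2 * δ * N / (j * Real.log 2) := by
    rw [le_div_iff₀ (by positivity)]
    linarith
  have h3 : 2 * δ * N / (j * Real.log 2) = ε * (c * 2 ^ j / j) := by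
    have h4 : (N : ℝ) = 2 * 2 ^ j := by
      rw [hN]
      push_cast
      rw [pow_succ]
      ring
    rw [h4, hδ]
    field_simp
    ring
  have h5 : ε * (c * 2 ^ j / j) ≤ ε * ((Qb j).card : ℝ) := mul_le_mul_of_nonneg_left hcard hε.le
  calc ∑ p ∈ Qb j, D j (p * r) ≤ 2 * δ * N / (j * Real.log 2) := h2
    _ = ε * (c * 2 ^ j / j) := h3
    _ ≤ ε * ((Qb j).card : ℝ) := h5

end Pool.Agent.Lib.MP_9fe581_an.HD
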