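import Pool.Agent.Lib.MP_9fe581_an.HD.Defs

/-!
# A1. Von Neumann's inequality for positive definite sequences
-/

set_option autoImplicit false

open Finset MeasureTheory Filter Topology
open scoped ComplexConjugate

namespace Pool.Agent.Lib.MP_9fe581_an.HD

/-- `e(m t)` -/
noncomputable def vnE (m : ℤ) (t : ℝ) : ℂ := GT.e (m * t)

theorem vnE_add (m k : ℤ) (t : ℝ) : vnE (m + k) t = vnE m t * vnE k t := by
  unfold vnE
  rw [← GT.e_add]
  congr 1
  push_cast
  ring

theorem vnE_conj (m : ℤ) (t : ℝ) : conj (vnE m t) = vnE (-m) t := by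
  unfold vnE GT.e
  rw [← Complex.exp_conj]
  congr 1
  simp only [map_mul, Complex.conj_I, Complex.conj_ofReal, map_ofNat]
  push_cast
  ring

theorem vnE_continuous (m : ℤ) : Continuous (vnE m) := by
  unfold vnE GT.e
  fun_prop

theorem vnE_integral (m : ℤ) : ∫ t in (0 : ℝ)..1, vnE m t = if m = 0 then 1 else 0 := by
  split_ifs with h
  · subst h
    simp [vnE, GT.e]
  · have hc : (2 * Real.pi * Complex.I * m : ℂ) ≠ 0 := by
      have := Real.pi_ne_zero
      simp [h, this, Complex.I_ne_zero]
    have h0 : ∀ t : ℝ, vnE m t = Complex.exp (2 * Real.pi * Complex.I * m * t) := by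
      intro t
      unfold vnE GT.e
      congr 1
      push_cast
      ring
    simp only [h0]
    rw [integral_exp_mul_complex hc]
    have h1 : Complex.exp (2 * Real.pi * Complex.I * m * (1 : ℝ)) = 1 := by
      rw [Complex.exp_eq_one_iff]
      exact ⟨m, by push_cast; ring⟩
    rw [h1]
    simp

/-- the Hermitian matrix of the sequence `b` -/
noncomputable def vnD (b : ℕ → ℂ) (m m' : ℕ) : ℂ :=
  if m' < m then b (m - m') else if m' = m then (((b 0).re : ℝ) : ℂ) else conj (b (m' - m))

theorem vnD_conj (b : ℕ → ℂ) (m m' : ℕ) : conj (vnD b m m') = vnD b m' m := by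
  unfold vnD
  rcases lt_trichotomy m' m with h | h | h
  · rw [if_pos h, if_neg (by omega), if_neg (by omega)]
  · subst h
    simp
  · rw [if_neg (by omega), if_neg (by omega), if_pos h, Complex.conj_conj]

/-- the double sum -/
noncomputable def vnS (b : ℕ → ℂ) (M : ℕ) (t : ℝ) : ℂ :=
  ∑ m ∈ range M, ∑ m' ∈ range M, vnE ((m' : ℤ) - m) t * vnD b m m'

theorem vnS_conj (b : ℕ → ℂ) (M : ℕ) (t : ℝ) : conj (vnS b M t) = vnS b M t := by
  unfold vnS
  rw [map_sum, sum_comm]
  simp only [map_sum, map_mul, vnE_conj, vnD_conj]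
  rw [sum_comm]
  refine (sum_comm).trans ?_
  refine sum_congr rfl fun m _ => sum_congr rfl fun m' _ => ?_
  rw [neg_sub]

theorem vnS_re (b : ℕ → ℂ) (M : ℕ) (t : ℝ) : (((vnS b M t).re : ℝ) : ℂ) = vnS b M t :=
  (Complex.conj_eq_iff_re.1 (vnS_conj b M t))

theorem vnS_nonneg {b : ℕ → ℂ} (hb : PosDef b) (M : ℕ) (t : ℝ) : 0 ≤ (vnS b M t).re := by
  have h1 := hb M (fun m => vnE (-(m : ℤ)) t)
  convert h1 using 1
  unfold vnS
  rw [Complex.re_sum, Complex.re_sum]
  refine sum_congr rfl fun m _ => ?_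
  rw [Complex.re_sum, Complex.re_sum]
  refine sum_congr rfl fun m' _ => ?_
  rw [vnE_conj, ← vnE_add, neg_neg, neg_add_eq_sub]
  unfold vnD
  rcases lt_trichotomy m' m with h | h | h
  · rw [if_pos h, if_pos h.le]
  · subst h
    rw [if_neg (lt_irrefl _), if_pos rfl, if_pos le_rfl, sub_self, Nat.sub_self]
    simp [vnE, GT.e]
  · rw [if_neg (by omega), if_neg (by omega), if_neg (by omega)]

theorem vnS_continuous (b : ℕ → ℂ) (M : ℕ) : Continuous (vnS b M) := by
  unfold vnS
  exact continuous_finsetSum _ fun m _ => continuous_finsetSum _ fun m' _ =>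
    (vnE_continuous _).mul continuous_const

theorem vnS_int (b : ℕ → ℂ) (M n : ℕ) (hn : n ≤ M) :
    ∫ t in (0 : ℝ)..1, vnS b M t * vnE n t = ((M - n : ℕ) : ℂ) * vnD b n 0 := by
  have h1 : ∀ t : ℝ, vnS b M t * vnE n t =
      ∑ m' ∈ range M, ∑ m ∈ range M, vnD b m m' * vnE ((m' : ℤ) - m + n) t := by
    intro t
    unfold vnS
    rw [sum_comm, sum_mul]
    refine sum_congr rfl fun l _ => ?_
    rw [sum_mul]
    refine sum_congr rfl fun k _ => ?_
    rw [vnE_add ((l : ℤ) - k) n]
    ring
  simp only [h1]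
  rw [intervalIntegral.integral_finsetSum]
  · have h2 : ∀ l ∈ range M, ∫ t in (0 : ℝ)..1, ∑ k ∈ range M, vnD b k l * vnE ((l : ℤ) - k + n) t =
        if l < M - n then vnD b n 0 else 0 := by
      intro l hl
      rw [intervalIntegral.integral_finsetSum]
      · have h3 : ∀ k ∈ range M, ∫ t in (0 : ℝ)..1, vnD b k l * vnE ((l : ℤ) - k + n) t =
            if k = l + n then vnD b n 0 else 0 := by
          intro k _
          rw [intervalIntegral.integral_const_mul, vnE_integral]
          by_cases hk : k = l + n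
          · rw [if_pos hk, if_pos (by rw [hk]; push_cast; ring), mul_one, hk]
            unfold vnD
            by_cases hn0 : n = 0
            · subst hn0
              simp
            · rw [if_pos (by omega), if_pos (by omega)]
              congr 1
              omega
          · rw [if_neg hk, if_neg (by omega), mul_zero]
        rw [sum_congr rfl h3, sum_ite_eq' (range M) (l + n) (fun _ => vnD b n 0)]
        have hl' := mem_range.1 hl
        by_cases h4 : l < M - n
        · rw [if_pos (mem_range.2 (by omega)), if_pos h4]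
        · rw [if_neg (by rw [mem_range]; omega), if_neg h4]
      · intro k _
        exact (continuous_const.mul (vnE_continuous _)).intervalIntegrable _ _
    rw [sum_congr rfl h2, ← sum_filter]
    have h5 : (range M).filter (fun l => l < M - n) = range (M - n) := by
      ext l
      simp only [mem_filter, mem_range]
      omega
    rw [h5, sum_const, card_range, nsmul_eq_mul]
  · intro l _
    refine Continuous.intervalIntegrable ?_ _ _
    exact continuous_finsetSum _ fun k _ => continuous_const.mul (vnE_continuous _)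

theorem vn_core {b : ℕ → ℂ} (hb : PosDef b) (c : ℕ → ℂ) (N : ℕ) (B : ℝ)
    (hB : ∀ t : ℝ, ‖∑ n ∈ Icc 1 N, c n * GT.e (n * t)‖ ≤ B) :
    ‖∑ n ∈ Icc 1 N, c n * b n‖ ≤ (b 0).re * B := by
  have hB0 : 0 ≤ B := (norm_nonneg _).trans (hB 0)
  have hcontn : ∀ M, Continuous fun t : ℝ => (vnS b M t).re :=
    fun M => Complex.continuous_re.comp (vnS_continuous b M)
  have hmass : ∀ M : ℕ, ∫ t in (0 : ℝ)..1, (vnS b M t).re = M * (b 0).re := by
    intro M
    have h2 := vnS_int b M 0 (Nat.zero_le M)
    have h3 : ∀ t : ℝ, vnS b M t * vnE (0 : ℕ) t = (((vnS b M t).re : ℝ) : ℂ) := by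
      intro t
      rw [vnS_re]
      simp [vnE, GT.e]
    simp only [h3] at h2
    rw [intervalIntegral.integral_ofReal, Nat.sub_zero] at h2
    have h4 : vnD b 0 0 = (((b 0).re : ℝ) : ℂ) := by simp [vnD]
    rw [h4] at h2
    exact_mod_cast h2
  have hmain : ∀ M : ℕ, N ≤ M → ‖∑ n ∈ Icc 1 N, c n * (((M - n : ℕ) : ℂ) * b n)‖ ≤ (b 0).re * B * M := by
    intro M hM
    have h2 : ∑ n ∈ Icc 1 N, c n * (((M - n : ℕ) : ℂ) * b n) =
        ∫ t in (0 : ℝ)..1, vnS b M t * ∑ n ∈ Icc 1 N, c n * vnE n t := by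
      have h3 : ∀ t : ℝ, vnS b M t * ∑ n ∈ Icc 1 N, c n * vnE n t =
          ∑ n ∈ Icc 1 N, c n * (vnS b M t * vnE n t) := by
        intro t
        rw [mul_sum]
        refine sum_congr rfl fun n _ => ?_
        ring
      simp only [h3]
      rw [intervalIntegral.integral_finsetSum]
      · refine sum_congr rfl fun n hn => ?_
        have hn' := mem_Icc.1 hn
        rw [intervalIntegral.integral_const_mul, vnS_int b M n (by omega)]
        have h4 : vnD b n 0 = b n := by
          unfold vnD
          rw [if_pos (by omega), Nat.sub_zero]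
        rw [h4]
      · intro n _
        refine Continuous.intervalIntegrable ?_ _ _
        exact continuous_const.mul ((vnS_continuous b M).mul (vnE_continuous _))
    rw [h2]
    have h4 : ∀ t : ℝ, ‖vnS b M t * ∑ n ∈ Icc 1 N, c n * vnE n t‖ ≤ B * (vnS b M t).re := by
      intro t
      rw [norm_mul, ← vnS_re, Complex.norm_real, Complex.ofReal_re,
        Real.norm_of_nonneg (vnS_nonneg hb M t), mul_comm]
      refine mul_le_mul_of_nonneg_right ?_ (vnS_nonneg hb M t)
      have := hB t
      have h5 : ∑ n ∈ Icc 1 N, c n * vnE n t = ∑ n ∈ Icc 1 N, c n * GT.e (n * t) := by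
        refine sum_congr rfl fun n _ => ?_
        unfold vnE
        push_cast
        rfl
      rw [h5]
      exact this
    calc ‖∫ t in (0 : ℝ)..1, vnS b M t * ∑ n ∈ Icc 1 N, c n * vnE n t‖
        ≤ ∫ t in (0 : ℝ)..1, B * (vnS b M t).re := by
          refine intervalIntegral.norm_integral_le_of_norm_le zero_le_one ?_ ?_
          · exact Filter.Eventually.of_forall fun t _ => h4 t
          · exact (continuous_const.mul (hcontn M)).intervalIntegrable _ _
      _ = B * ∫ t in (0 : ℝ)..1, (vnS b M t).re := by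
          rw [intervalIntegral.integral_const_mul]
      _ = (b 0).re * B * M := by rw [hmass]; ring
  have hlim : Tendsto (fun M : ℕ => ‖∑ n ∈ Icc 1 N, c n * ((1 - (n : ℂ) / M) * b n)‖) atTop
      (𝓝 ‖∑ n ∈ Icc 1 N, c n * b n‖) := by
    refine Tendsto.norm ?_
    refine tendsto_finsetSum _ fun n _ => ?_
    have h2 : Tendsto (fun M : ℕ => (n : ℂ) / (M : ℂ)) atTop (𝓝 0) :=
      tendsto_const_div_atTop_nhds_zero_nat (n : ℂ)
    have h3 := ((h2.const_sub 1).mul_const (b n)).const_mul (c n)
    simpa using h3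
  refine le_of_tendsto hlim ?_
  filter_upwards [eventually_ge_atTop (max N 1)] with M hM
  have hMN : N ≤ M := (le_max_left _ _).trans hM
  have hM1 : 1 ≤ M := (le_max_right _ _).trans hM
  have hM0 : (0 : ℝ) < M := by exact_mod_cast hM1
  have h2 := hmain M hMN
  have h3 : ∑ n ∈ Icc 1 N, c n * (((M - n : ℕ) : ℂ) * b n) =
      (M : ℂ) * ∑ n ∈ Icc 1 N, c n * ((1 - (n : ℂ) / M) * b n) := by
    rw [mul_sum]
    refine sum_congr rfl fun n hn => ?_
    have hn' : n ≤ M := by have := mem_Icc.1 hn; omega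
    rw [Nat.cast_sub hn']
    have hMc : (M : ℂ) ≠ 0 := by exact_mod_cast hM0.ne'
    field_simp
  rw [h3, norm_mul, Complex.norm_natCast, mul_comm] at h2
  exact le_of_mul_le_mul_right h2 hM0

/-- dilates of positive definite sequences -/
theorem posDef_dilate {a : ℕ → ℂ} (ha : PosDef a) {r : ℕ} (hr : 1 ≤ r) : PosDef fun n => a (r * n) := by
  intro M z
  have h1 := ha (r * M) (fun m => if r ∣ m then z (m / r) else 0)
  convert h1 using 1
  congr 1
  have key : ∀ F : ℕ → ℂ, (∀ m, ¬ r ∣ m → F m = 0) → ∑ m ∈ range (r * M), F m = ∑ m ∈ range M, F (r * m) := by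
    intro F hF
    have h2 : ∑ m ∈ range M, F (r * m) = ∑ m ∈ (range M).image (fun m => r * m), F m := by
      rw [sum_image]
      intro x _ y _ hxy
      exact Nat.eq_of_mul_eq_mul_left hr hxy
    rw [h2]
    symm
    refine sum_subset ?_ ?_
    · intro m hm
      obtain ⟨k, hk, rfl⟩ := mem_image.1 hm
      rw [mem_range] at hk ⊢
      exact Nat.mul_lt_mul_of_pos_left hk hr
    · intro m hm hm'
      refine hF m fun hd => hm' ?_
      obtain ⟨k, rfl⟩ := hd
      rw [mem_range] at hm
      exact mem_image.2 ⟨k, mem_range.2 (Nat.lt_of_mul_lt_mul_left hm), rfl⟩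
  have hr0 : 0 < r := hr
  rw [key]
  · refine sum_congr rfl fun m _ => ?_
    rw [key]
    · refine sum_congr rfl fun m' _ => ?_
      rw [if_pos (Dvd.intro _ rfl), if_pos (Dvd.intro _ rfl), Nat.mul_div_cancel_left _ hr0,
        Nat.mul_div_cancel_left _ hr0]
      simp only [Nat.mul_sub, Nat.mul_le_mul_left_iff hr0]
    · intro m' hm'
      rw [if_neg hm']
      simp
  · intro m hm
    refine sum_eq_zero fun m' _ => ?_
    rw [if_neg hm]
    simp

theorem vn_of_posDef (a : ℕ → ℂ) (ha : PosDef a) (h0 : (a 0).im = 0) : VN a (a 0).re := by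
  intro c N r B hB
  rcases Nat.eq_zero_or_pos r with hr | hr
  · subst hr
    have h1 : 0 ≤ (a 0).re := by
      have := ha 1 (fun _ => 1)
      simpa using this
    have h2 : a 0 = (((a 0).re : ℝ) : ℂ) := by
      apply Complex.ext <;> simp [h0]
    have h3 := hB 0
    have h4 : ∑ n ∈ Icc 1 N, c n * GT.e (n * 0) = ∑ n ∈ Icc 1 N, c n := by
      refine sum_congr rfl fun n _ => ?_
      rw [mul_zero, GT.e_zero, mul_one]
    rw [h4] at h3
    have h5 : ∑ n ∈ Icc 1 N, c n * a (0 * n) = (∑ n ∈ Icc 1 N, c n) * a 0 := by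
      rw [sum_mul]
      refine sum_congr rfl fun n _ => ?_
      rw [zero_mul]
    rw [h5, norm_mul, mul_comm, h2, Complex.norm_real, Complex.ofReal_re, Real.norm_of_nonneg h1]
    exact mul_le_mul_of_nonneg_left h3 h1
  · have h1 := vn_core (posDef_dilate ha hr) c N B hB
    simpa using h1

end Pool.Agent.Lib.MP_9fe581_an.HD
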