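import Pool.Agent.Lib.MP_9fe581_an.HD.Avg
import Pool.Agent.Lib.MP_9fe581_an.HD.Mono
import Pool.Agent.Lib.MP_9fe581_an.HD.VonNeumann
import Pool.Agent.Lib.MP_9fe581_an.HD.CBasic
import Pool.Agent.Lib.MP_9fe581_an.HD.PrimeNonneg
import Pool.Agent.Lib.MP_9fe581_an.HD.Cheb

/-!
# HD, module N4: the sequences `Dl j` satisfy von Neumann's inequality; averages over the primes
-/

open Finset MeasureTheory Filter Topology UnitAddTorus
open scoped ComplexConjugate Matrix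

namespace Pool.Agent.Lib.MP_9fe581_an.HD

variable {d : ℕ} {ι : Type} [Fintype ι] [DecidableEq ι]
variable {α : Td d} {A : Td d → Matrix ι ι ℂ} {Q : Matrix ι ι ℂ}


theorem DlPrimes_trc_cont (hU : UC A Q) (n : ℕ) : Continuous (trc α A Q n) := by
  unfold trc
  exact (cp_cont hU n).matrix_trace

theorem DlPrimes_bb_cont (hU : UC A Q) (n : ℕ) : Continuous fun s : Td d => bb α A Q s n := by
  have hc := DlPrimes_trc_cont (α := α) hU n
  have h := continuous_parametric_integral_of_continuous (μ := mT d)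
    (f := fun (s u : Td d) => trc α A Q n (u + s) * conj (trc α A Q n u)) (s := Set.univ)
    (by
      unfold Function.uncurry
      exact (hc.comp (continuous_snd.add continuous_fst)).mul (Complex.continuous_conj.comp (hc.comp continuous_snd)))
    isCompact_univ
  unfold bb
  simpa only [Measure.restrict_univ] using h

theorem DlPrimes_vn_bb (hU : UC A Q) (s : Td d) (c : ℕ → ℂ) (N r : ℕ) (B : ℝ)
    (hB : ∀ θ : ℝ, ‖∑ n ∈ Icc 1 N, c n * GT.e (n * θ)‖ ≤ B) :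
    ‖∑ n ∈ Icc 1 N, c n * bb α A Q s (r * n)‖ ≤ (Fintype.card ι : ℝ) ^ 2 * B := by
  have hB0 : 0 ≤ B := (norm_nonneg _).trans (hB 0)
  refine (vn_of_posDef _ (bb_posDef hU s) (bb_zero_im hU s) c N r B hB).trans ?_
  exact mul_le_mul_of_nonneg_right (bb_zero_le hU s) hB0

theorem DlPrimes_vn_eqf (hU : UC A Q) (q : ℕ) (hq : 0 < q) (c : ℕ → ℂ) (N r : ℕ) (B : ℝ)
    (hB : ∀ θ : ℝ, ‖∑ n ∈ Icc 1 N, c n * GT.e (n * θ)‖ ≤ B) :
    ‖∑ n ∈ Icc 1 N, c n * ((eqf (trc α A Q (r * n)) q : ℝ) : ℂ)‖ ≤ (Fintype.card ι : ℝ) ^ 2 * B := by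
  have h1 : ∑ n ∈ Icc 1 N, c n * ((eqf (trc α A Q (r * n)) q : ℝ) : ℂ) =
      (1 / (q : ℂ) ^ d) * ∑ i : Fin d → Fin q, ∑ n ∈ Icc 1 N, c n * bb α A Q (ptq q i) (r * n) := by
    rw [Finset.sum_comm, Finset.mul_sum]
    refine Finset.sum_congr rfl fun n _ => ?_
    rw [← avg_eqf _ (DlPrimes_trc_cont hU _) q hq, ← Finset.mul_sum]
    unfold bb
    ring
  rw [h1, norm_mul, norm_div, norm_one, norm_pow, Complex.norm_natCast]
  have hqd : (0 : ℝ) < (q : ℝ) ^ d := by positivity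
  rw [one_div, inv_mul_le_iff₀ hqd]
  calc _ ≤ ∑ i : Fin d → Fin q, ‖∑ n ∈ Icc 1 N, c n * bb α A Q (ptq q i) (r * n)‖ := norm_sum_le _ _
    _ ≤ ∑ i : Fin d → Fin q, (Fintype.card ι : ℝ) ^ 2 * B :=
      Finset.sum_le_sum fun i _ => DlPrimes_vn_bb hU _ c N r B hB
    _ = (q : ℝ) ^ d * ((Fintype.card ι : ℝ) ^ 2 * B) := by
      rw [Finset.sum_const, nsmul_eq_mul, Finset.card_univ, Fintype.card_fun, Fintype.card_fin, Fintype.card_fin]
      push_cast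
      ring

theorem DlPrimes_vn_aa (hU : UC A Q) (c : ℕ → ℂ) (N r : ℕ) (B : ℝ)
    (hB : ∀ θ : ℝ, ‖∑ n ∈ Icc 1 N, c n * GT.e (n * θ)‖ ≤ B) :
    ‖∑ n ∈ Icc 1 N, c n * ((‖aa α A Q (r * n)‖ ^ 2 : ℝ) : ℂ)‖ ≤ (Fintype.card ι : ℝ) ^ 2 * B := by
  have hint : ∀ n, Integrable (fun s : Td d => bb α A Q s n) (mT d) := by
    intro n
    have h := DlPrimes_bb_cont (α := α) hU n
    exact h.integrable_of_hasCompactSupport (HasCompactSupport.of_compactSpace _)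
  have h1 : ∑ n ∈ Icc 1 N, c n * ((‖aa α A Q (r * n)‖ ^ 2 : ℝ) : ℂ) =
      ∫ s, ∑ n ∈ Icc 1 N, c n * bb α A Q s (r * n) ∂mT d := by
    rw [integral_finsetSum _ fun n _ => (hint _).const_mul _]
    refine Finset.sum_congr rfl fun n _ => ?_
    rw [integral_const_mul]
    congr 1
    have := int_bb _ (DlPrimes_trc_cont (α := α) hU (r * n))
    unfold aa bb
    rw [this]
    rfl
  rw [h1]
  have h2 := norm_integral_le_of_norm_le_const (μ := mT d) (C := (Fintype.card ι : ℝ) ^ 2 * B)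
    (f := fun s => ∑ n ∈ Icc 1 N, c n * bb α A Q s (r * n))
    (Eventually.of_forall fun s => DlPrimes_vn_bb hU s c N r B hB)
  simpa using h2

theorem Dl_vn (hU : UC A Q) (j : ℕ) : VN (fun n => ((Dl α A Q j n : ℝ) : ℂ)) (2 * (Fintype.card ι : ℝ) ^ 2) := by
  intro c N r B hB
  have hB0 : 0 ≤ B := (norm_nonneg _).trans (hB 0)
  have h1 : ∑ n ∈ Icc 1 N, c n * ((Dl α A Q j (r * n) : ℝ) : ℂ) =
      (1 / ((Qb j).card : ℂ)) * ∑ q ∈ Qb j,
        (∑ n ∈ Icc 1 N, c n * ((eqf (trc α A Q (r * n)) q : ℝ) : ℂ) -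
          ∑ n ∈ Icc 1 N, c n * ((‖aa α A Q (r * n)‖ ^ 2 : ℝ) : ℂ)) := by
    unfold Dl
    simp only [← Finset.sum_sub_distrib]
    rw [Finset.sum_comm, Finset.mul_sum]
    refine Finset.sum_congr rfl fun n _ => ?_
    push_cast
    simp only [← mul_sub]
    rw [← Finset.mul_sum]
    ring
  show ‖∑ n ∈ Icc 1 N, c n * ((Dl α A Q j (r * n) : ℝ) : ℂ)‖ ≤ _
  rw [h1, norm_mul, norm_div, norm_one, Complex.norm_natCast]
  rcases Nat.eq_zero_or_pos (Qb j).card with h0 | h0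
  · rw [h0]
    simp only [Nat.cast_zero, div_zero, zero_mul]
    positivity
  have h0' : (0 : ℝ) < (Qb j).card := by exact_mod_cast h0
  rw [one_div, inv_mul_le_iff₀ h0']
  calc _ ≤ ∑ q ∈ Qb j, ‖∑ n ∈ Icc 1 N, c n * ((eqf (trc α A Q (r * n)) q : ℝ) : ℂ) -
          ∑ n ∈ Icc 1 N, c n * ((‖aa α A Q (r * n)‖ ^ 2 : ℝ) : ℂ)‖ := norm_sum_le _ _
    _ ≤ ∑ q ∈ Qb j, (2 * (Fintype.card ι : ℝ) ^ 2 * B) := by
      refine Finset.sum_le_sum fun q hq => ?_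
      have hq0 : 0 < q := by
        unfold Qb at hq
        exact (mem_filter.1 hq).2.pos
      calc _ ≤ _ := norm_sub_le _ _
        _ ≤ (Fintype.card ι : ℝ) ^ 2 * B + (Fintype.card ι : ℝ) ^ 2 * B :=
          add_le_add (DlPrimes_vn_eqf hU q hq0 c N r B hB) (DlPrimes_vn_aa hU c N r B hB)
        _ = _ := by ring
    _ = _ := by rw [Finset.sum_const, nsmul_eq_mul]

theorem nonneg_prime_avg (D : ℕ → ℕ → ℝ) (C : ℝ) (hD : ∀ j n, 0 ≤ D j n) (hV : ∀ j, VN (fun n => ((D j n : ℝ) : ℂ)) C)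
    (hall : ∀ ε : ℝ, 0 < ε → ∃ N0 j1 : ℕ, ∀ j ≥ j1, ∀ N ≥ N0, ∑ n ∈ range N, D j n ≤ ε * N) (r : ℕ) (hr : 1 ≤ r)
    (ε : ℝ) (hε : 0 < ε) : ∃ j0 : ℕ, ∀ j ≥ j0, ∑ p ∈ Qb j, D j (p * r) ≤ ε * ((Qb j).card : ℝ) :=
  nonneg_prime_avg_of Qb_card D C hD hV hall r hr ε hε

end Pool.Agent.Lib.MP_9fe581_an.HD
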