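import Pool.Agent.Lib.MP_9fe581_an.HD.CBasic

/-!
# HD, module S1: the sum over all pairs of primes is an L2 norm
-/

open Finset MeasureTheory Filter Topology UnitAddTorus
open scoped ComplexConjugate Matrix

namespace Pool.Agent.Lib.MP_9fe581_an.HD

variable {d : ℕ} {ι : Type} [Fintype ι] [DecidableEq ι]
variable {α : Td d} {A : Td d → Matrix ι ι ℂ} {Q : Matrix ι ι ℂ}

/-- `tr (A_{pl}(u) A_{pl'}(u)^*)` -/
private noncomputable def s1X (α : Td d) (A : Td d → Matrix ι ι ℂ) (Q : Matrix ι ι ℂ) (p l l' : ℕ) (u : Td d) : ℂ :=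
  (cp α A Q (p * l) u * (cp α A Q (p * l') u)ᴴ).trace

omit [DecidableEq ι] in
private theorem s1X_eq (p l l' : ℕ) (u : Td d) :
    s1X α A Q p l l' u = ∑ a, ∑ b, cp α A Q (p * l) u a b * conj (cp α A Q (p * l') u a b) := by
  simp [s1X, Matrix.trace, Matrix.mul_apply, Matrix.conjTranspose_apply]

omit [DecidableEq ι] in
private theorem s1_phi (p q L : ℕ) (u v : Td d) :
    ((Phi α A Q p q L u v : ℝ) : ℂ) =
      (1 / (L : ℂ) ^ 2) * ∑ l ∈ range L, ∑ l' ∈ range L, s1X α A Q p l l' u * conj (s1X α A Q q l l' v) := by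
  have h1 : ∀ a b c f : ι, ((‖Wt α A Q p q L u v a b c f‖ ^ 2 : ℝ) : ℂ) =
      (1 / (L : ℂ) ^ 2) * ∑ l ∈ range L, ∑ l' ∈ range L,
        (cp α A Q (p * l) u a b * conj (cp α A Q (p * l') u a b)) *
          (conj (cp α A Q (q * l) v c f) * cp α A Q (q * l') v c f) := by
    intro a b c f
    rw [Complex.ofReal_pow, ← Complex.mul_conj', Wt, map_mul, map_sum]
    have : conj (1 / (L : ℂ)) = 1 / (L : ℂ) := by simp
    rw [this]
    have h2 : (∑ l ∈ range L, cp α A Q (p * l) u a b * conj (cp α A Q (q * l) v c f)) *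
        (∑ l ∈ range L, conj (cp α A Q (p * l) u a b * conj (cp α A Q (q * l) v c f))) =
        ∑ l ∈ range L, ∑ l' ∈ range L,
        (cp α A Q (p * l) u a b * conj (cp α A Q (p * l') u a b)) *
          (conj (cp α A Q (q * l) v c f) * cp α A Q (q * l') v c f) := by
      rw [Finset.sum_mul_sum]
      refine Finset.sum_congr rfl fun l _ => Finset.sum_congr rfl fun l' _ => ?_
      rw [map_mul, Complex.conj_conj]; ring
    rw [← h2]; ring
  unfold Phi
  push_cast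
  have h3 : ∀ a b c f : ι, ((‖Wt α A Q p q L u v a b c f‖ : ℂ) ^ 2) =
      (1 / (L : ℂ) ^ 2) * ∑ l ∈ range L, ∑ l' ∈ range L,
        (cp α A Q (p * l) u a b * conj (cp α A Q (p * l') u a b)) *
          (conj (cp α A Q (q * l) v c f) * cp α A Q (q * l') v c f) := by
    intro a b c f
    rw [← h1 a b c f]; push_cast; rfl
  simp_rw [h3, ← Finset.mul_sum]
  congr 1
  simp_rw [s1X_eq, map_sum, map_mul, Complex.conj_conj]
  -- move the sums over l, l' outside
  have h4 : ∀ g : ι → ι → ι → ι → ℕ → ℕ → ℂ, (∑ a, ∑ b, ∑ c, ∑ f, ∑ l ∈ range L, ∑ l' ∈ range L, g a b c f l l') =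
      ∑ l ∈ range L, ∑ l' ∈ range L, ∑ a, ∑ b, ∑ c, ∑ f, g a b c f l l' := by
    intro g
    have h5 : ∀ h : ι → ι → ι → ι → ℂ, (∑ a, ∑ b, ∑ c, ∑ f, h a b c f) =
        ∑ x : ι × ι × ι × ι, h x.1 x.2.1 x.2.2.1 x.2.2.2 := by
      intro h; simp [Fintype.sum_prod_type]
    simp_rw [h5]
    rw [Finset.sum_comm]
    exact Finset.sum_congr rfl fun l _ => Finset.sum_comm
  rw [h4]
  refine Finset.sum_congr rfl fun l _ => Finset.sum_congr rfl fun l' _ => ?_
  simp_rw [Finset.sum_mul, Finset.mul_sum]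

omit [DecidableEq ι] in
private theorem s1_sum_phi (P : Finset ℕ) (L : ℕ) (u : ℕ → Td d) :
    ∑ p ∈ P, ∑ q ∈ P, Phi α A Q p q L (u p) (u q) =
      (1 / (L : ℝ) ^ 2) * ∑ l ∈ range L, ∑ l' ∈ range L, ‖∑ p ∈ P, s1X α A Q p l l' (u p)‖ ^ 2 := by
  have h : ((∑ p ∈ P, ∑ q ∈ P, Phi α A Q p q L (u p) (u q) : ℝ) : ℂ) =
      (((1 / (L : ℝ) ^ 2) * ∑ l ∈ range L, ∑ l' ∈ range L, ‖∑ p ∈ P, s1X α A Q p l l' (u p)‖ ^ 2 : ℝ) : ℂ) := by
    push_cast
    simp_rw [s1_phi, ← Finset.mul_sum, ← Complex.mul_conj', map_sum, Finset.sum_mul_sum]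
    congr 1
    have h6 : ∀ g : ℕ → ℕ → ℕ → ℕ → ℂ, (∑ p ∈ P, ∑ q ∈ P, ∑ l ∈ range L, ∑ l' ∈ range L, g p q l l') =
        ∑ l ∈ range L, ∑ l' ∈ range L, ∑ p ∈ P, ∑ q ∈ P, g p q l l' := by
      intro g
      have h5 : ∀ h : ℕ → ℕ → ℂ, (∑ p ∈ P, ∑ q ∈ P, h p q) = ∑ x ∈ P ×ˢ P, h x.1 x.2 := by
        intro h; rw [Finset.sum_product]
      simp_rw [h5]
      rw [Finset.sum_comm]
      exact Finset.sum_congr rfl fun l _ => Finset.sum_comm
    exact h6 _
  exact_mod_cast h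

omit [DecidableEq ι] in
private theorem s1X_cont (hA : ∀ n, Continuous (cp α A Q n)) (p l l' : ℕ) : Continuous (s1X α A Q p l l') := by
  unfold s1X
  exact ((hA _).matrix_mul (hA _).matrix_conjTranspose).matrix_trace

private theorem s1X_gt (hU : UC A Q) (p l l' : ℕ) (h : l' ≤ l) (u : Td d) :
    s1X α A Q p l l' u = (cp α A Q (p * (l - l')) (u + (p * l') • α)).trace := by
  rw [s1X, cp_shift hU _ _ (Nat.mul_le_mul_left p h), Nat.mul_sub]

omit [DecidableEq ι] in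
private theorem s1X_symm (p l l' : ℕ) (u : Td d) : s1X α A Q p l' l u = conj (s1X α A Q p l l' u) := by
  simp only [s1X_eq, map_sum, map_mul, Complex.conj_conj]
  exact Finset.sum_congr rfl fun a _ => Finset.sum_congr rfl fun b _ => mul_comm _ _

private theorem s1_int {f : Td d → ℝ} (hf : Continuous f) : Integrable f (mT d) :=
  hf.integrable_of_hasCompactSupport (HasCompactSupport.of_compactSpace _)

private theorem s1_int_gt (hU : UC A Q) (P : Finset ℕ) (l l' : ℕ) (h : l' ≤ l) (x : Td d) :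
    ∫ t, ‖∑ p ∈ P, s1X α A Q p l l' (x + p • t)‖ ^ 2 ∂mT d =
      ∫ t, ‖∑ p ∈ P, (cp α A Q (p * (l - l')) (x + p • t)).trace‖ ^ 2 ∂mT d := by
  have h1 : ∀ t : Td d, ‖∑ p ∈ P, s1X α A Q p l l' (x + p • t)‖ ^ 2 =
      (fun s : Td d => ‖∑ p ∈ P, (cp α A Q (p * (l - l')) (x + p • s)).trace‖ ^ 2) (t + l' • α) := by
    intro t
    simp only
    congr 2
    refine Finset.sum_congr rfl fun p _ => ?_
    rw [s1X_gt hU p l l' h, smul_add, smul_smul, add_assoc]
  simp_rw [h1]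
  exact integral_add_right_eq_self (μ := mT d)
    (fun s : Td d => ‖∑ p ∈ P, (cp α A Q (p * (l - l')) (x + p • s)).trace‖ ^ 2) (l' • α)

private theorem s1_int_lt (hU : UC A Q) (P : Finset ℕ) (l l' : ℕ) (h : l' ≤ l) (x : Td d) :
    ∫ t, ‖∑ p ∈ P, s1X α A Q p l' l (x + p • t)‖ ^ 2 ∂mT d =
      ∫ t, ‖∑ p ∈ P, (cp α A Q (p * (l - l')) (x + p • t)).trace‖ ^ 2 ∂mT d := by
  rw [← s1_int_gt hU P l l' h x]
  refine integral_congr_ae (Eventually.of_forall fun t => ?_)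
  simp only
  rw [show (∑ p ∈ P, s1X α A Q p l' l (x + p • t)) = conj (∑ p ∈ P, s1X α A Q p l l' (x + p • t)) by
    rw [map_sum]; exact Finset.sum_congr rfl fun p _ => s1X_symm p l l' _]
  rw [RCLike.norm_conj]

private theorem s1_comb (J : ℕ → ℝ) (hJ : ∀ r, 0 ≤ J r) (L l : ℕ) (hl : l < L) :
    ∑ l' ∈ range L, J (if l' ≤ l then l - l' else l' - l) ≤ J 0 + 2 * ∑ r ∈ Ico 1 L, J r := by
  rw [← Finset.sum_range_add_sum_Ico _ (show l + 1 ≤ L by omega)]
  have h1 : ∑ l' ∈ range (l + 1), J (if l' ≤ l then l - l' else l' - l) = J 0 + ∑ r ∈ Ico 1 (l + 1), J r := by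
    have h2 : ∑ l' ∈ range (l + 1), J (if l' ≤ l then l - l' else l' - l) = ∑ l' ∈ range (l + 1), J (l + 1 - 1 - l') := by
      refine Finset.sum_congr rfl fun l' h' => ?_
      rw [Finset.mem_range] at h'
      rw [if_pos (by omega)]; rfl
    rw [h2, Finset.sum_range_reflect J (l + 1), ← Finset.sum_range_add_sum_Ico _ (show 1 ≤ l + 1 by omega),
      Finset.sum_range_one]
  have h3 : ∑ l' ∈ Ico (l + 1) L, J (if l' ≤ l then l - l' else l' - l) = ∑ r ∈ Ico 1 (L - l), J r := by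
    rw [Finset.sum_Ico_eq_sum_range, Finset.sum_Ico_eq_sum_range, show L - (l + 1) = L - l - 1 by omega]
    refine Finset.sum_congr rfl fun i _ => ?_
    rw [if_neg (by omega), show l + 1 + i - l = 1 + i by omega]
  have h4 : ∑ r ∈ Ico 1 (l + 1), J r ≤ ∑ r ∈ Ico 1 L, J r :=
    Finset.sum_le_sum_of_subset_of_nonneg (Finset.Ico_subset_Ico_right (by omega)) fun i _ _ => hJ i
  have h5 : ∑ r ∈ Ico 1 (L - l), J r ≤ ∑ r ∈ Ico 1 L, J r :=
    Finset.sum_le_sum_of_subset_of_nonneg (Finset.Ico_subset_Ico_right (by omega)) fun i _ _ => hJ i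
  rw [h1, h3]; linarith

omit [DecidableEq ι] in
private theorem s1_phi_cont (hA : ∀ n, Continuous (cp α A Q n)) (p q L : ℕ) (x : Td d) :
    Continuous fun t : Td d => Phi α A Q p q L (x + p • t) (x + q • t) := by
  have hp : Continuous fun t : Td d => x + p • t := continuous_const.add (continuous_nsmul p)
  have hq : Continuous fun t : Td d => x + q • t := continuous_const.add (continuous_nsmul q)
  unfold Phi Wt
  refine continuous_finsetSum _ fun a _ => continuous_finsetSum _ fun b _ =>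
    continuous_finsetSum _ fun c _ => continuous_finsetSum _ fun f _ => ?_
  refine (Continuous.norm (continuous_const.mul (continuous_finsetSum _ fun l _ => ?_))).pow 2
  exact (((hA _).comp hp).matrix_elem a b).mul (Complex.continuous_conj.comp (((hA _).comp hq).matrix_elem c f))

theorem sum_pairs (hU : UC A Q) (P : Finset ℕ) (L : ℕ) (hL : 0 < L) (x : Td d) :
    ∑ p ∈ P, ∑ q ∈ P, ∫ t, Phi α A Q p q L (x + p • t) (x + q • t) ∂mT d ≤
      (Fintype.card ι : ℝ) ^ 2 * (P.card : ℝ) ^ 2 / L +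
        (2 / L) * ∑ r ∈ Ico 1 L, ∫ t, ‖∑ p ∈ P, (cp α A Q (p * r) (x + p • t)).trace‖ ^ 2 ∂mT d := by
  have hA := cp_cont (α := α) hU
  set J : ℕ → ℝ := fun r => ∫ t, ‖∑ p ∈ P, (cp α A Q (p * r) (x + p • t)).trace‖ ^ 2 ∂mT d with hJdef
  have hJ : ∀ r, 0 ≤ J r := fun r => integral_nonneg fun t => by positivity
  have hpc : ∀ p : ℕ, Continuous fun t : Td d => x + p • t := fun p => continuous_const.add (continuous_nsmul p)
  have hJ0 : J 0 ≤ (Fintype.card ι : ℝ) ^ 2 * (P.card : ℝ) ^ 2 := by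
    have hb : ∀ t : Td d, ‖∑ p ∈ P, (cp α A Q (p * 0) (x + p • t)).trace‖ ^ 2 ≤
        (Fintype.card ι : ℝ) ^ 2 * (P.card : ℝ) ^ 2 := by
      intro t
      have h1 : ‖∑ p ∈ P, (cp α A Q (p * 0) (x + p • t)).trace‖ ≤ P.card * Fintype.card ι := by
        refine (norm_sum_le _ _).trans ?_
        refine (Finset.sum_le_sum fun p _ => cp_trace_le hU _ _).trans ?_
        rw [Finset.sum_const, nsmul_eq_mul]
      calc ‖∑ p ∈ P, (cp α A Q (p * 0) (x + p • t)).trace‖ ^ 2 ≤ (P.card * Fintype.card ι : ℝ) ^ 2 :=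
            pow_le_pow_left₀ (norm_nonneg _) h1 2
        _ = _ := by ring
    have hc : Continuous fun t : Td d => ‖∑ p ∈ P, (cp α A Q (p * 0) (x + p • t)).trace‖ ^ 2 :=
      (continuous_finsetSum _ fun p _ => ((hA _).comp (hpc p)).matrix_trace).norm.pow 2
    calc J 0 ≤ ∫ _t : Td d, (Fintype.card ι : ℝ) ^ 2 * (P.card : ℝ) ^ 2 ∂mT d :=
          integral_mono (s1_int hc) (integrable_const _) hb
      _ = _ := by simp
  have h1 : ∑ p ∈ P, ∑ q ∈ P, ∫ t, Phi α A Q p q L (x + p • t) (x + q • t) ∂mT d =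
      (1 / (L : ℝ) ^ 2) * ∑ l ∈ range L, ∑ l' ∈ range L, J (if l' ≤ l then l - l' else l' - l) := by
    have h2 : ∑ p ∈ P, ∑ q ∈ P, ∫ t, Phi α A Q p q L (x + p • t) (x + q • t) ∂mT d =
        ∫ t, ∑ p ∈ P, ∑ q ∈ P, Phi α A Q p q L (x + p • t) (x + q • t) ∂mT d := by
      rw [integral_finsetSum _ fun p _ => integrable_finsetSum _ fun q _ => s1_int (s1_phi_cont hA p q L x)]
      exact Finset.sum_congr rfl fun p _ =>
        (integral_finsetSum _ fun q _ => s1_int (s1_phi_cont hA p q L x)).symm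
    have h3 : ∀ t : Td d, ∑ p ∈ P, ∑ q ∈ P, Phi α A Q p q L (x + p • t) (x + q • t) =
        (1 / (L : ℝ) ^ 2) * ∑ l ∈ range L, ∑ l' ∈ range L, ‖∑ p ∈ P, s1X α A Q p l l' (x + p • t)‖ ^ 2 :=
      fun t => s1_sum_phi P L fun p => x + p • t
    have hX : ∀ l l' : ℕ, Continuous fun t : Td d => ‖∑ p ∈ P, s1X α A Q p l l' (x + p • t)‖ ^ 2 := fun l l' =>
      (continuous_finsetSum _ fun p _ => (s1X_cont hA p l l').comp (hpc p)).norm.pow 2
    rw [h2]
    simp_rw [h3]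
    rw [integral_const_mul, integral_finsetSum _ fun l _ => integrable_finsetSum _ fun l' _ => s1_int (hX l l')]
    congr 1
    refine Finset.sum_congr rfl fun l _ => ?_
    rw [integral_finsetSum _ fun l' _ => s1_int (hX l l')]
    refine Finset.sum_congr rfl fun l' _ => ?_
    split_ifs with h
    · exact s1_int_gt hU P l l' h x
    · exact s1_int_lt hU P l' l (by omega) x
  have hL' : (0 : ℝ) < L := by exact_mod_cast hL
  have h4 : ∑ l ∈ range L, ∑ l' ∈ range L, J (if l' ≤ l then l - l' else l' - l) ≤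
      L * (J 0 + 2 * ∑ r ∈ Ico 1 L, J r) := by
    refine (Finset.sum_le_sum fun l hl => s1_comb J hJ L l (Finset.mem_range.1 hl)).trans ?_
    rw [Finset.sum_const, Finset.card_range, nsmul_eq_mul]
  rw [h1]
  calc (1 / (L : ℝ) ^ 2) * ∑ l ∈ range L, ∑ l' ∈ range L, J (if l' ≤ l then l - l' else l' - l)
      ≤ (1 / (L : ℝ) ^ 2) * (L * (J 0 + 2 * ∑ r ∈ Ico 1 L, J r)) := by gcongr
    _ = J 0 / L + (2 / L) * ∑ r ∈ Ico 1 L, J r := by field_simp
    _ ≤ _ := by gcongr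

end Pool.Agent.Lib.MP_9fe581_an.HD
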