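import Pool.Agent.Lib.MP_9fe581_an.HD.Corr
import Pool.Agent.Lib.MP_9fe581_an.HD.Kbsz
import Pool.Agent.Lib.MP_9fe581_an.HD.Pairs
import Pool.Agent.Lib.MP_9fe581_an.HD.CPosDef
import Pool.Agent.Lib.MP_9fe581_an.HD.VonNeumann
import Pool.Agent.Lib.MP_9fe581_an.HD.Divisors
import Pool.Agent.Lib.MP_9fe581_an.HD.AllInt
import Pool.Agent.Lib.MP_9fe581_an.HD.DlPrimes
import Pool.Agent.Lib.MP_9fe581_an.HD.Cheb
import Pool.Agent.Lib.MP_9fe581_an.HD.PrimeAvg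

/-! M1: the uniform orthogonality theorem for unitary cocycles over a totally irrational rotation. -/

open Finset MeasureTheory Filter Topology UnitAddTorus
open scoped ComplexConjugate Matrix

namespace Pool.Agent.Lib.MP_9fe581_an.HD

variable {d : ℕ} {ι : Type} [Fintype ι] [DecidableEq ι]
variable {α : Td d} {A : Td d → Matrix ι ι ℂ} {Q : Matrix ι ι ℂ}

theorem main_card_large (R : ℝ) : ∃ j0 : ℕ, ∀ j ≥ j0, R ≤ ((Qb j).card : ℝ) := by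
  obtain ⟨c, hc, j0, h⟩ := Qb_card
  obtain ⟨j1, hj1⟩ := exists_nat_ge (R / c)
  refine ⟨max j0 (max j1 4), fun j hj => ?_⟩
  have h1 : j0 ≤ j := (le_max_left _ _).trans hj
  have h2 : j1 ≤ j := (le_max_left _ _).trans ((le_max_right _ _).trans hj)
  have h3 : 4 ≤ j := (le_max_right _ _).trans ((le_max_right _ _).trans hj)
  have h4 : ∀ k : ℕ, 4 ≤ k → k ^ 2 ≤ 2 ^ k := by
    intro k hk
    induction k, hk using Nat.le_induction with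
    | base => norm_num
    | succ k hk ih => rw [pow_succ 2 k]; nlinarith
  have h5 : ((j : ℝ)) ^ 2 ≤ 2 ^ j := by exact_mod_cast h4 j h3
  have hjp : (0 : ℝ) < j := by exact_mod_cast (by omega : 0 < j)
  refine le_trans ?_ (h j h1)
  rw [le_div_iff₀ hjp]
  have h6 : R ≤ c * j := by
    have h7 : (j1 : ℝ) ≤ j := by exact_mod_cast h2
    have h8 := hj1.trans h7
    rw [div_le_iff₀ hc] at h8
    linarith
  calc R * j ≤ (c * j) * j := by gcongr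
    _ = c * j ^ 2 := by ring
    _ ≤ c * 2 ^ j := by gcongr

/-- the energy estimate: uniform in `x` -/
theorem energy (hU : UC A Q) (hR : NoRat (aa α A Q)) (r : ℕ) (hr : 1 ≤ r) (η : ℝ) (hη : 0 < η) :
    ∃ j0 : ℕ, ∀ j ≥ j0, ∀ x : Td d,
      ∫ t, ‖∑ p ∈ Qb j, (cp α A Q (p * r) (x + p • t)).trace‖ ^ 2 ∂mT d ≤ η * ((Qb j).card : ℝ) ^ 2 := by
  set B : ℝ := ((Fintype.card ι : ℕ) : ℝ) with hB
  have hB0 : 0 ≤ B := Nat.cast_nonneg _
  have hV : VN (aa α A Q) B := by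
    have h1 := vn_of_posDef _ (aa_posDef (α := α) hU) (aa_zero_im hU)
    intro c N r' Bd hBd
    have h2 := h1 c N r' Bd hBd
    have h3 : 0 ≤ Bd := (norm_nonneg _).trans (hBd 0)
    exact h2.trans (mul_le_mul_of_nonneg_right (aa_zero_re_le hU) h3)
  have hs : 0 < Real.sqrt (η / 4) := Real.sqrt_pos.2 (by positivity)
  obtain ⟨j1, h1⟩ := prime_avg (aa α A Q) B (aa_le hU) hV hR r hr _ hs
  obtain ⟨j2, h2⟩ := nonneg_prime_avg (Dl α A Q) (2 * B ^ 2) (Dl_nonneg hU) (Dl_vn hU) (Dl_all hU) r hr (η / 4) (by positivity)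
  obtain ⟨j3, h3⟩ := main_card_large (4 * B ^ 2 / η + 1)
  refine ⟨max j1 (max j2 j3), fun j hj x => ?_⟩
  have k1 := h1 j ((le_max_left _ _).trans hj)
  have k2 := h2 j ((le_max_left _ _).trans ((le_max_right _ _).trans hj))
  have k3 := h3 j ((le_max_right _ _).trans ((le_max_right _ _).trans hj))
  set K : ℝ := ((Qb j).card : ℝ) with hK
  have hKpos : 0 < K := by
    have : 0 ≤ 4 * B ^ 2 / η := by positivity
    linarith
  have k4 := divisors (Qb j) (fun p hp => (mem_filter.1 hp).2) (fun p => trc α A Q (p * r))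
    (fun p _ => by
      unfold trc
      exact (cp_cont hU (p * r)).matrix_trace) B hB0
    (fun p _ y => cp_trace_le hU _ _) x
  have k5 : ∑ p ∈ Qb j, ∑ q ∈ Qb j, (eqf (trc α A Q (p * r)) q - ‖∫ t, trc α A Q (p * r) t ∂mT d‖ ^ 2) =
      K * ∑ p ∈ Qb j, Dl α A Q j (p * r) := by
    rw [Finset.mul_sum]
    refine Finset.sum_congr rfl fun p _ => ?_
    unfold Dl
    rw [← mul_assoc, mul_one_div_cancel hKpos.ne', one_mul]
    rfl
  have k6 : ‖∑ p ∈ Qb j, ∫ t, trc α A Q (p * r) t ∂mT d‖ ^ 2 ≤ η / 4 * K ^ 2 := by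
    have e : ∑ p ∈ Qb j, ∫ t, trc α A Q (p * r) t ∂mT d = ∑ p ∈ Qb j, aa α A Q (p * r) := rfl
    rw [e]
    calc _ ≤ (Real.sqrt (η / 4) * K) ^ 2 := pow_le_pow_left₀ (norm_nonneg _) k1 2
      _ = η / 4 * K ^ 2 := by rw [mul_pow, Real.sq_sqrt (by positivity)]
  have k7 : K * B ^ 2 ≤ η / 4 * K ^ 2 := by
    have : 4 * B ^ 2 / η ≤ K := by linarith
    rw [div_le_iff₀ hη] at this
    nlinarith
  calc ∫ t, ‖∑ p ∈ Qb j, (cp α A Q (p * r) (x + p • t)).trace‖ ^ 2 ∂mT d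
      ≤ _ := k4
    _ ≤ η / 4 * K ^ 2 + η / 4 * K ^ 2 + K * (η / 4 * K) := by
        rw [k5]
        refine add_le_add (add_le_add k6 k7) (mul_le_mul_of_nonneg_left k2 hKpos.le)
    _ ≤ η * K ^ 2 := by nlinarith [sq_nonneg K, mul_pos hη hKpos]

/-- `∑_{p, q} √B_{pq} ≤ K √(∑ B_{pq})` -/
theorem main_sum_sqrt (P : Finset ℕ) (b : ℕ → ℕ → ℝ) (hb : ∀ p q, 0 ≤ b p q) (S : ℝ) (hS : 0 ≤ S)
    (h : ∑ p ∈ P, ∑ q ∈ P, b p q ≤ S ^ 2 * (P.card : ℝ) ^ 2) :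
    ∑ p ∈ P, ∑ q ∈ P, Real.sqrt (b p q) ≤ S * (P.card : ℝ) ^ 2 := by
  have h1 : (∑ x ∈ P ×ˢ P, Real.sqrt (b x.1 x.2)) ^ 2 ≤ ((P ×ˢ P).card : ℝ) * ∑ x ∈ P ×ˢ P, Real.sqrt (b x.1 x.2) ^ 2 :=
    sq_sum_le_card_mul_sum_sq
  have h2 : ∑ x ∈ P ×ˢ P, Real.sqrt (b x.1 x.2) ^ 2 = ∑ p ∈ P, ∑ q ∈ P, b p q := by
    rw [Finset.sum_product]
    refine Finset.sum_congr rfl fun p _ => Finset.sum_congr rfl fun q _ => Real.sq_sqrt (hb p q)
  rw [h2, Finset.card_product] at h1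
  have h3 : ∑ x ∈ P ×ˢ P, Real.sqrt (b x.1 x.2) = ∑ p ∈ P, ∑ q ∈ P, Real.sqrt (b p q) := Finset.sum_product _ _ _
  rw [h3] at h1
  push_cast at h1
  refine le_of_sq_le_sq (?_ : _ ≤ (S * (P.card : ℝ) ^ 2) ^ 2) (by positivity)
  calc (∑ p ∈ P, ∑ q ∈ P, Real.sqrt (b p q)) ^ 2 ≤ (P.card : ℝ) * P.card * ∑ p ∈ P, ∑ q ∈ P, b p q := h1
    _ ≤ (P.card : ℝ) * P.card * (S ^ 2 * (P.card : ℝ) ^ 2) := by gcongr
    _ = _ := by ring

theorem mst (hU : UC A Q) (hα : ∀ k : Fin d → ℤ, k ≠ 0 → mFourier k α ≠ 1) (hR : NoRat (aa α A Q))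
    {u : ℕ → ℂ} (hu : BMult u) (ε : ℝ) (hε : 0 < ε) :
    ∃ N0 : ℕ, ∀ N ≥ N0, ∀ (x : Td d) (i j : ι), ‖∑ n ∈ Icc 1 N, u n * cp α A Q n x i j‖ ≤ ε * N := by
  have key : ∀ ε : ℝ, 0 < ε → ∃ N0 : ℕ, ∀ N ≥ N0, ∀ z : Td d × ι × ι,
      ‖∑ n ∈ Icc 1 N, u n * (fun (z : Td d × ι × ι) (n : ℕ) => cp α A Q n z.1 z.2.1 z.2.2) z n‖ ≤ ε * N := by
    refine kbsz_avg hu _ (fun z n => cp_entry hU n _ _ _) ?_
    intro η hη
    set B : ℝ := ((Fintype.card ι : ℕ) : ℝ) with hB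
    obtain ⟨L, hL⟩ := exists_nat_ge (8 * B ^ 2 / η ^ 2 + 1)
    have hL0 : (0 : ℝ) < L := by
      have : 0 ≤ 8 * B ^ 2 / η ^ 2 := by positivity
      linarith
    have hLn : 0 < L := by exact_mod_cast hL0
    have hen : ∀ᶠ j in atTop, ∀ r ∈ Ico 1 L, ∀ x : Td d,
        ∫ t, ‖∑ p ∈ Qb j, (cp α A Q (p * r) (x + p • t)).trace‖ ^ 2 ∂mT d ≤ η ^ 2 / 16 * ((Qb j).card : ℝ) ^ 2 := by
      rw [Filter.eventually_all_finset]
      intro r hr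
      obtain ⟨j0, h0⟩ := energy hU hR r (mem_Ico.1 hr).1 (η ^ 2 / 16) (by positivity)
      exact eventually_atTop.2 ⟨j0, h0⟩
    obtain ⟨J0, hJ0⟩ := eventually_atTop.1 hen
    refine ⟨J0, fun j hj => ?_⟩
    have hc : ∀ p q : ℕ, ∃ M0 : ℕ, ∀ M ≥ M0, ∀ (x : Td d) (i j : ι),
      ‖∑ m ∈ Icc 1 M, cp α A Q (p * m) x i j * conj (cp α A Q (q * m) x i j)‖ ≤
        (Real.sqrt (∫ t, Phi α A Q p q L (x + p • t) (x + q • t) ∂mT d) + η / 2) * M := fun p q =>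
      corr_le hU hα p q L hLn (η / 2) (by positivity)
    choose M0 hM0 using hc
    refine ⟨(Qb j ×ˢ Qb j).sup fun x => M0 x.1 x.2, fun z => ?_⟩
    refine ⟨fun p q => Real.sqrt (∫ t, Phi α A Q p q L (z.1 + p • t) (z.1 + q • t) ∂mT d) + η / 2, ?_, ?_, ?_⟩
    · intro p _ q _
      positivity
    · intro p hp q hq _ M hM
      refine hM0 p q M (le_trans ?_ hM) z.1 z.2.1 z.2.2
      exact Finset.le_sup (f := fun x : ℕ × ℕ => M0 x.1 x.2) (b := (p, q)) (mem_product.2 ⟨hp, hq⟩)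
    · have h1 := sum_pairs (α := α) hU (Qb j) L hLn z.1
      have h2 : ∑ r ∈ Ico 1 L, ∫ t, ‖∑ p ∈ Qb j, (cp α A Q (p * r) (z.1 + p • t)).trace‖ ^ 2 ∂mT d ≤
          L * (η ^ 2 / 16 * ((Qb j).card : ℝ) ^ 2) := by
        refine (Finset.sum_le_card_nsmul _ _ _ fun r hr => hJ0 j hj r hr z.1).trans ?_
        rw [nsmul_eq_mul]
        refine mul_le_mul_of_nonneg_right ?_ (by positivity)
        rw [Nat.card_Ico]
        exact_mod_cast Nat.sub_le _ _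
      have h3 : ∑ p ∈ Qb j, ∑ q ∈ Qb j, ∫ t, Phi α A Q p q L (z.1 + p • t) (z.1 + q • t) ∂mT d ≤
          (η / 2) ^ 2 * ((Qb j).card : ℝ) ^ 2 := by
        refine h1.trans ?_
        have h4 : B ^ 2 * ((Qb j).card : ℝ) ^ 2 / L ≤ η ^ 2 / 8 * ((Qb j).card : ℝ) ^ 2 := by
          rw [div_le_iff₀ hL0]
          have h5 : 8 * B ^ 2 / η ^ 2 ≤ L := by linarith
          rw [div_le_iff₀ (by positivity)] at h5
          have h6 : (0 : ℝ) ≤ ((Qb j).card : ℝ) ^ 2 := by positivity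
          nlinarith
        have h7 : 2 / (L : ℝ) * ∑ r ∈ Ico 1 L, ∫ t, ‖∑ p ∈ Qb j, (cp α A Q (p * r) (z.1 + p • t)).trace‖ ^ 2 ∂mT d ≤
            η ^ 2 / 8 * ((Qb j).card : ℝ) ^ 2 := by
          refine (mul_le_mul_of_nonneg_left h2 (by positivity)).trans_eq ?_
          field_simp
          ring
        calc _ ≤ η ^ 2 / 8 * ((Qb j).card : ℝ) ^ 2 + η ^ 2 / 8 * ((Qb j).card : ℝ) ^ 2 := add_le_add h4 h7
          _ = _ := by ring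
      have h8 := main_sum_sqrt (Qb j) (fun p q => ∫ t, Phi α A Q p q L (z.1 + p • t) (z.1 + q • t) ∂mT d)
        (fun p q => integral_nonneg fun t => phi_nonneg _ _ _ _ _) (η / 2) (by positivity) h3
      simp_rw [Finset.sum_add_distrib]
      have h9 : ∑ p ∈ Qb j, ∑ q ∈ Qb j, η / 2 = η / 2 * ((Qb j).card : ℝ) ^ 2 := by
        simp only [Finset.sum_const, nsmul_eq_mul]
        ring
      rw [h9]
      calc _ ≤ η / 2 * ((Qb j).card : ℝ) ^ 2 + η / 2 * ((Qb j).card : ℝ) ^ 2 := add_le_add h8 le_rfl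
        _ = _ := by ring
  obtain ⟨N0, hN0⟩ := key ε hε
  exact ⟨N0, fun N hN x i j => hN0 N hN (x, i, j)⟩

end Pool.Agent.Lib.MP_9fe581_an.HD
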