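import Pool.Agent.Lib.MP_9fe581_an.HD.GDefs

/-!
# HD: the tensor representations are unitary representations
-/

set_option autoImplicit false

open Finset MeasureTheory Filter Topology UnitAddTorus
open scoped ComplexConjugate Matrix

namespace Pool.Agent.Lib.MP_9fe581_an.HD

variable {G : Type} [Group G] {n : ℕ}

namespace Tens

omit [Group G] in
theorem tens_apply (ρ : G → Matrix (Fin n) (Fin n) ℂ) (a b : ℕ) (g : G)
    (s t : (Fin a → Fin n) × (Fin b → Fin n)) :
    tens ρ a b g s t = (∏ k, ρ g (s.1 k) (t.1 k)) * ∏ k, conj (ρ g (s.2 k) (t.2 k)) := rfl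

theorem prod_one (a : ℕ) (s t : Fin a → Fin n) :
    ∏ k, (1 : Matrix (Fin n) (Fin n) ℂ) (s k) (t k) = if s = t then 1 else 0 := by
  simp only [Matrix.one_apply]
  rw [Fintype.prod_ite_zero]
  simp only [prod_const_one, funext_iff]

theorem prod_mul (a : ℕ) (A B : Matrix (Fin n) (Fin n) ℂ) (s t : Fin a → Fin n) :
    ∏ k, (A * B) (s k) (t k) = ∑ u : Fin a → Fin n, ∏ k, A (s k) (u k) * B (u k) (t k) := by
  simp only [Matrix.mul_apply]
  rw [Finset.prod_univ_sum, Fintype.piFinset_univ]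

variable [TopologicalSpace G] {ρ : G → Matrix (Fin n) (Fin n) ℂ}

theorem one (hρ : URep ρ) (a b : ℕ) : tens ρ a b 1 = 1 := by
  ext s t
  rw [tens_apply, hρ.one, prod_one]
  have h : ∏ k, conj ((1 : Matrix (Fin n) (Fin n) ℂ) (s.2 k) (t.2 k)) =
      conj (∏ k, (1 : Matrix (Fin n) (Fin n) ℂ) (s.2 k) (t.2 k)) := (map_prod _ _ _).symm
  rw [h, prod_one, Matrix.one_apply]
  by_cases h1 : s.1 = t.1
  · by_cases h2 : s.2 = t.2
    · rw [if_pos h1, if_pos h2, if_pos (Prod.ext h1 h2)]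
      simp
    · rw [if_neg h2, if_neg (fun h => h2 (congrArg Prod.snd h))]
      simp
  · rw [if_neg h1, if_neg (fun h => h1 (congrArg Prod.fst h))]
    simp

theorem mul (hρ : URep ρ) (a b : ℕ) (g h : G) :
    tens ρ a b (g * h) = tens ρ a b g * tens ρ a b h := by
  ext s t
  rw [tens_apply, hρ.mul, prod_mul]
  have h1 : ∏ k, conj ((ρ g * ρ h) (s.2 k) (t.2 k)) =
      ∑ u : Fin b → Fin n, ∏ k, conj (ρ g (s.2 k) (u k)) * conj (ρ h (u k) (t.2 k)) := by
    rw [← map_prod, prod_mul, map_sum]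
    refine sum_congr rfl fun u _ => ?_
    rw [map_prod]
    exact prod_congr rfl fun k _ => map_mul _ _ _
  rw [h1, Matrix.mul_apply, Fintype.sum_prod_type, sum_mul_sum]
  refine sum_congr rfl fun u _ => sum_congr rfl fun v _ => ?_
  rw [tens_apply, tens_apply]
  simp only [prod_mul_distrib]
  ring

theorem inv_eq (hρ : URep ρ) (g : G) : (ρ g)ᴴ = ρ g⁻¹ := by
  have h1 := hρ.uni g
  have h2 : ρ g * ρ g⁻¹ = 1 := by rw [← hρ.mul, mul_inv_cancel, hρ.one]
  have h3 : ρ g⁻¹ * ρ g = 1 := by rw [← hρ.mul, inv_mul_cancel, hρ.one]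
  calc (ρ g)ᴴ = (ρ g⁻¹ * ρ g) * (ρ g)ᴴ := by rw [h3, one_mul]
    _ = ρ g⁻¹ * (ρ g * (ρ g)ᴴ) := by rw [mul_assoc]
    _ = ρ g⁻¹ := by rw [h1, mul_one]

theorem conj_eq (hρ : URep ρ) (a b : ℕ) (g : G) : (tens ρ a b g)ᴴ = tens ρ a b g⁻¹ := by
  ext s t
  rw [Matrix.conjTranspose_apply, tens_apply, tens_apply, ← inv_eq hρ g]
  simp only [Matrix.conjTranspose_apply, starRingEnd_apply, star_mul', star_prod, star_star]

end Tens

variable [TopologicalSpace G] {ρ : G → Matrix (Fin n) (Fin n) ℂ}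

/-- The tensor representation `ρ^{⊗ a} ⊗ conj ρ^{⊗ b}` is a unitary representation. -/
theorem tens_urep (hρ : URep ρ) (a b : ℕ) : URep (tens ρ a b) where
  cont := by
    refine continuous_matrix fun s t => ?_
    have h : ∀ i j, Continuous fun g => ρ g i j := fun i j =>
      (continuous_apply_apply i j).comp hρ.cont
    show Continuous fun g => (∏ k, ρ g (s.1 k) (t.1 k)) * ∏ k, conj (ρ g (s.2 k) (t.2 k))
    exact (continuous_finsetProd _ fun k _ => h _ _).mul
      (continuous_finsetProd _ fun k _ => Complex.continuous_conj.comp (h _ _))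
  one := Tens.one hρ a b
  mul := Tens.mul hρ a b
  uni := fun g => by
    rw [Tens.conj_eq hρ, ← Tens.mul hρ, mul_inv_cancel, Tens.one hρ]

end Pool.Agent.Lib.MP_9fe581_an.HD
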