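import Pool.Agent.Lib.MP_9fe581_an.HD.Fix
import Pool.Agent.Lib.MP_9fe581_an.HD.Iter
import Pool.Agent.Lib.MP_9fe581_an.HD.Base
import Pool.Agent.Lib.MP_9fe581_an.HD.Tensor
import Pool.Agent.Lib.MP_9fe581_an.HD.Dense
import Pool.Agent.Lib.MP_9fe581_an.HD.ErgRep
import Pool.Agent.Lib.MP_9fe581_an.HD.Main

/-!
# HD: the final theorem for group extensions

Uniform orthogonality of all continuous functions of an ergodic extension of a rotation by a compact connected
linear group, with any continuous cocycle, to all bounded multiplicative functions.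
-/

open Finset MeasureTheory Filter Topology UnitAddTorus
open scoped ComplexConjugate Matrix

namespace Pool.Agent.Lib.MP_9fe581_an.HD

/-! ### closure properties of uniform orthogonality -/

section closure

variable {X : Type} {T : X → X}

theorem uo_zero : UnifOrth T (fun _ => (0 : ℂ)) := by
  intro u hu ε hε
  refine ⟨0, fun N _ z => ?_⟩
  simp only [mul_zero, sum_const_zero, norm_zero]
  positivity

theorem uo_add {f g : X → ℂ} (hf : UnifOrth T f) (hg : UnifOrth T g) : UnifOrth T (fun z => f z + g z) := by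
  intro u hu ε hε
  obtain ⟨N1, h1⟩ := hf u hu (ε / 2) (half_pos hε)
  obtain ⟨N2, h2⟩ := hg u hu (ε / 2) (half_pos hε)
  refine ⟨max N1 N2, fun N hN z => ?_⟩
  have e : ∑ n ∈ Icc 1 N, u n * (f (T^[n] z) + g (T^[n] z)) =
      ∑ n ∈ Icc 1 N, u n * f (T^[n] z) + ∑ n ∈ Icc 1 N, u n * g (T^[n] z) := by
    rw [← sum_add_distrib]
    exact sum_congr rfl fun n _ => mul_add _ _ _
  rw [e]
  have a1 := h1 N (le_trans (le_max_left _ _) hN) z
  have a2 := h2 N (le_trans (le_max_right _ _) hN) z
  calc _ ≤ _ := norm_add_le _ _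
    _ ≤ ε / 2 * N + ε / 2 * N := add_le_add a1 a2
    _ = ε * N := by ring

/-- multiplication by a bounded function that is constant along the orbit (uniformly bounded family of scalars) -/
theorem uo_smul {f : X → ℂ} (hf : UnifOrth T f) (c : ℂ) : UnifOrth T (fun z => c * f z) := by
  intro u hu ε hε
  obtain ⟨N1, h1⟩ := hf u hu (ε / (‖c‖ + 1)) (by positivity)
  refine ⟨N1, fun N hN z => ?_⟩
  have e : ∑ n ∈ Icc 1 N, u n * (c * f (T^[n] z)) = c * ∑ n ∈ Icc 1 N, u n * f (T^[n] z) := by
    rw [mul_sum]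
    exact sum_congr rfl fun n _ => by ring
  rw [e, norm_mul]
  have a1 := h1 N hN z
  have hc : (0 : ℝ) < ‖c‖ + 1 := by positivity
  calc ‖c‖ * _ ≤ (‖c‖ + 1) * (ε / (‖c‖ + 1) * N) := by
        apply mul_le_mul (by linarith) a1 (norm_nonneg _) hc.le
    _ = ε * N := by field_simp

theorem uo_approx {f : X → ℂ} (h : ∀ ε : ℝ, 0 < ε → ∃ g : X → ℂ, (∀ z, ‖f z - g z‖ ≤ ε) ∧ UnifOrth T g) :
    UnifOrth T f := by
  intro u hu ε hε
  obtain ⟨g, hg, hgo⟩ := h (ε / 2) (half_pos hε)
  obtain ⟨N1, h1⟩ := hgo u hu (ε / 2) (half_pos hε)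
  refine ⟨N1, fun N hN z => ?_⟩
  have e : ∑ n ∈ Icc 1 N, u n * f (T^[n] z) =
      ∑ n ∈ Icc 1 N, u n * (f (T^[n] z) - g (T^[n] z)) + ∑ n ∈ Icc 1 N, u n * g (T^[n] z) := by
    rw [← sum_add_distrib]
    exact sum_congr rfl fun n _ => by ring
  rw [e]
  have a1 := h1 N hN z
  have a2 : ‖∑ n ∈ Icc 1 N, u n * (f (T^[n] z) - g (T^[n] z))‖ ≤ ε / 2 * N := by
    calc _ ≤ ∑ n ∈ Icc 1 N, ‖u n * (f (T^[n] z) - g (T^[n] z))‖ := norm_sum_le _ _
      _ ≤ ∑ n ∈ Icc 1 N, ε / 2 := by
          refine sum_le_sum fun n _ => ?_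
          rw [norm_mul]
          calc ‖u n‖ * _ ≤ 1 * (ε / 2) := mul_le_mul (hu.le_one n) (hg _) (norm_nonneg _) zero_le_one
            _ = ε / 2 := one_mul _
      _ = ε / 2 * N := by
          rw [sum_const, Nat.card_Icc, nsmul_eq_mul]
          simp only [Nat.add_sub_cancel]
          ring
  calc _ ≤ _ := norm_add_le _ _
    _ ≤ ε / 2 * N + ε / 2 * N := add_le_add a2 a1
    _ = ε * N := by ring

end closure

/-! ### characters of the torus -/

theorem fin_mF_norm {d : ℕ} (k : Fin d → ℤ) (x : Td d) : ‖mFourier k x‖ ≤ 1 := by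
  have := (mFourier k).norm_coe_le_norm x
  rwa [mFourier_norm] at this

theorem fin_mF_add {d : ℕ} (k : Fin d → ℤ) (x y : Td d) : mFourier k (x + y) = mFourier k x * mFourier k y := by
  simp only [mFourier, ContinuousMap.coe_mk]
  rw [← prod_mul_distrib]
  refine prod_congr rfl fun i _ => ?_
  simp only [Pi.add_apply, fourier_apply, smul_add, AddCircle.toCircle_add, Circle.coe_mul]

theorem fin_mF_nsmul {d : ℕ} (k : Fin d → ℤ) (x : Td d) (n : ℕ) : mFourier k (n • x) = mFourier k x ^ n := by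
  induction n with
  | zero =>
    simp only [zero_smul, pow_zero]
    simp [mFourier]
  | succ n ih => rw [succ_nsmul, fin_mF_add, ih, pow_succ]

theorem fin_int_mF {d : ℕ} (k : Fin d → ℤ) {α : Td d} (hα : mFourier k α ≠ 1) : ∫ x, mFourier k x ∂mT d = 0 := by
  have h1 : ∫ x, mFourier k (x + α) ∂mT d = ∫ x, mFourier k x ∂mT d := integral_add_right_eq_self (fun x => mFourier k x) α
  have h2 : ∫ x, mFourier k (x + α) ∂mT d = (∫ x, mFourier k x ∂mT d) * mFourier k α := by
    rw [← integral_mul_const]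
    exact integral_congr_ae (Eventually.of_forall fun x => fin_mF_add k x α)
  rw [h1] at h2
  have h3 : (∫ x, mFourier k x ∂mT d) * (mFourier k α - 1) = 0 := by rw [mul_sub, mul_one, ← h2, sub_self]
  rcases mul_eq_zero.1 h3 with h | h
  · exact h
  · exact absurd (sub_eq_zero.1 h) hα

/-! ### the generators -/

section gens

variable {d : ℕ} {ι : Type} [Fintype ι] [DecidableEq ι] {G : Type} [Group G] [TopologicalSpace G] [IsTopologicalGroup G]
  [CompactSpace G] [T2Space G] [SecondCountableTopology G] [MeasurableSpace G] [BorelSpace G]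
  {μ : Measure G} [μ.IsHaarMeasure] [IsProbabilityMeasure μ] {α : Td d} {φ : Td d → G}

theorem fin_entry {π : G → Matrix ι ι ℂ} (hπ : URep π) (y : G) (i j : ι) : ‖π y i j‖ ≤ 1 := by
  have h := congrFun (congrFun (hπ.uni y) i) i
  rw [Matrix.mul_apply, Matrix.one_apply_eq] at h
  have h2 : ∑ j, ‖π y i j‖ ^ 2 = 1 := by
    have : ((∑ j, ‖π y i j‖ ^ 2 : ℝ) : ℂ) = 1 := by
      rw [← h]
      push_cast
      refine sum_congr rfl fun j _ => ?_
      rw [Matrix.conjTranspose_apply]
      have : π y i j * star (π y i j) = ((‖π y i j‖ ^ 2 : ℝ) : ℂ) := by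
        rw [← Complex.normSq_eq_norm_sq, Complex.normSq_eq_conj_mul_self, mul_comm]; rfl
      rw [this]; push_cast; rfl
    exact_mod_cast this
  have h3 : ‖π y i j‖ ^ 2 ≤ 1 := by
    rw [← h2]
    exact single_le_sum (f := fun j => ‖π y i j‖ ^ 2) (fun _ _ => sq_nonneg _) (mem_univ j)
  nlinarith [norm_nonneg (π y i j)]

/-- the part off the fixed vectors -/
theorem fin_off [ConnectedSpace G] {π : G → Matrix ι ι ℂ} (hπ : URep π) (k : Fin d → ℤ) (hφ : Continuous φ)
    (hT : Ergodic (skew α φ) ((mT d).prod μ)) (i j : ι) :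
    UnifOrth (skew α φ) (fun z => mFourier k z.1 * ((1 - fixP μ π) * π z.2) i j) := by
  intro u hu ε hε
  have hα : ∀ k : Fin d → ℤ, k ≠ 0 → mFourier k α ≠ 1 := by
    intro k hk
    have := base_irr hφ hT k hk 1 one_pos
    rwa [pow_one] at this
  have hc : (0 : ℝ) < Fintype.card ι + 1 := by positivity
  obtain ⟨N0, hN0⟩ := mst (AG_uc (μ := μ) (α := α) hπ k hφ) hα (noRat_AG hπ k hφ hT) hu
    (ε / (Fintype.card ι + 1)) (by positivity)
  refine ⟨N0, fun N hN z => ?_⟩
  have e : ∑ n ∈ Icc 1 N, u n * (mFourier k ((skew α φ)^[n] z).1 * ((1 - fixP μ π) * π ((skew α φ)^[n] z).2) i j) =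
      ∑ a, mFourier k z.1 * π z.2 a j * ∑ n ∈ Icc 1 N, u n * cp α (AG μ π k α φ) (1 - fixP μ π) n z.1 i a := by
    simp_rw [mul_sum]
    rw [sum_comm]
    refine sum_congr rfl fun n _ => ?_
    rw [coef_orbit hπ k n z i j, mul_sum]
    exact sum_congr rfl fun a _ => by ring
  rw [e]
  calc _ ≤ ∑ a, ‖mFourier k z.1 * π z.2 a j * ∑ n ∈ Icc 1 N, u n * cp α (AG μ π k α φ) (1 - fixP μ π) n z.1 i a‖ :=
        norm_sum_le _ _
    _ ≤ ∑ _a : ι, ε / (Fintype.card ι + 1) * N := by
        refine sum_le_sum fun a _ => ?_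
        rw [norm_mul, norm_mul]
        have h1 := fin_mF_norm k z.1
        have h2 := fin_entry hπ z.2 a j
        have h3 := hN0 N hN z.1 i a
        calc _ ≤ 1 * 1 * (ε / (Fintype.card ι + 1) * N) := by gcongr
          _ = _ := by ring
    _ = Fintype.card ι * (ε / (Fintype.card ι + 1) * N) := by
        rw [sum_const, card_univ, nsmul_eq_mul]
    _ ≤ (Fintype.card ι + 1) * (ε / (Fintype.card ι + 1) * N) := by
        have : 0 ≤ ε / (Fintype.card ι + 1) * N := by positivity
        nlinarith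
    _ = ε * N := by field_simp

/-- characters of the base -/
theorem fin_char (k : Fin d → ℤ) (hk : k ≠ 0) (hφ : Continuous φ) (hT : Ergodic (skew α φ) ((mT d).prod μ)) :
    UnifOrth (skew α φ) (fun z => mFourier k z.1) := by
  intro u hu ε hε
  have hα : ∀ k : Fin d → ℤ, k ≠ 0 → mFourier k α ≠ 1 := by
    intro k hk
    have := base_irr hφ hT k hk 1 one_pos
    rwa [pow_one] at this
  obtain ⟨N0, hN0⟩ := mst (scalar_uc (α := α) k) hα
    (scalar_noRat k fun q hq => base_irr hφ hT k hk q hq) hu ε hε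
  refine ⟨N0, fun N hN z => ?_⟩
  have e : ∑ n ∈ Icc 1 N, u n * mFourier k ((skew α φ)^[n] z).1 = mFourier k z.1 *
      ∑ n ∈ Icc 1 N, u n * cp α (fun _ : Td d => (mFourier k α) • (1 : Matrix (Fin 1) (Fin 1) ℂ)) 1 n z.1 0 0 := by
    rw [mul_sum]
    refine sum_congr rfl fun n _ => ?_
    rw [scalar_cp, skew_iter]
    simp only [Matrix.smul_apply, Matrix.one_apply_eq, smul_eq_mul, mul_one]
    rw [fin_mF_add, fin_mF_nsmul]
    ring
  rw [e, norm_mul]
  calc _ ≤ 1 * (ε * N) := mul_le_mul (fin_mF_norm k z.1) (hN0 N hN z.1 0 0) (norm_nonneg _) zero_le_one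
    _ = ε * N := one_mul _

/-- a matrix coefficient minus its integral -/
theorem fin_gen [ConnectedSpace G] {π : G → Matrix ι ι ℂ} (hπ : URep π) (k : Fin d → ℤ) (hφ : Continuous φ)
    (hT : Ergodic (skew α φ) ((mT d).prod μ)) (i j : ι) :
    UnifOrth (skew α φ) (fun z => mFourier k z.1 * π z.2 i j - ∫ w, mFourier k w.1 * π w.2 i j ∂(mT d).prod μ) := by
  have hI : ∫ w, mFourier k w.1 * π w.2 i j ∂(mT d).prod μ = (∫ x, mFourier k x ∂mT d) * fixP μ π i j := by
    have := integral_prod_mul (μ := mT d) (ν := μ) (fun x => mFourier k x) (fun y => π y i j)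
    rw [this]
    rfl
  have hdec : ∀ y : G, π y i j = ((1 - fixP μ π) * π y) i j + fixP μ π i j := by
    intro y
    rw [Matrix.sub_mul, Matrix.one_mul, fixP_pi hπ y, Matrix.sub_apply]
    ring
  have h1 := fin_off (μ := μ) hπ k hφ hT i j
  by_cases hk : k = 0
  · subst hk
    have e : (fun z : Td d × G => mFourier 0 z.1 * π z.2 i j - ∫ w, mFourier 0 w.1 * π w.2 i j ∂(mT d).prod μ) =
        fun z => mFourier 0 z.1 * ((1 - fixP μ π) * π z.2) i j := by
      funext z
      rw [hI, hdec z.2]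
      simp only [mFourier_zero, ContinuousMap.one_apply, one_mul, integral_const, probReal_univ, one_smul]
      ring
    rw [e]
    exact h1
  · have hα : mFourier k α ≠ 1 := by
      have := base_irr hφ hT k hk 1 one_pos
      rwa [pow_one] at this
    have e : (fun z : Td d × G => mFourier k z.1 * π z.2 i j - ∫ w, mFourier k w.1 * π w.2 i j ∂(mT d).prod μ) =
        fun z => mFourier k z.1 * ((1 - fixP μ π) * π z.2) i j + fixP μ π i j * mFourier k z.1 := by
      funext z
      rw [hI, hdec z.2, fin_int_mF k hα]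
      ring
    rw [e]
    exact uo_add h1 (uo_smul (fin_char k hk hφ hT) _)

end gens

variable {d : ℕ} {ι : Type} [Fintype ι] [DecidableEq ι] {G : Type} [Group G] [TopologicalSpace G] [IsTopologicalGroup G]
  [CompactSpace G] [T2Space G] [SecondCountableTopology G] [MeasurableSpace G] [BorelSpace G]
  {μ : Measure G} [μ.IsHaarMeasure] [IsProbabilityMeasure μ] {α : Td d} {φ : Td d → G}

/-- **Theorem HD, compact connected linear fibres** -/
theorem unifOrth_final {n : ℕ} {ρ : G → Matrix (Fin n) (Fin n) ℂ} [ConnectedSpace G] (hρ : URep ρ) (hinj : Function.Injective ρ)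
    (hφ : Continuous φ) (hT : Ergodic (skew α φ) ((mT d).prod μ)) (f : C(Td d × G, ℂ)) :
    UnifOrth (skew α φ) (fun z => f z - ∫ w, f w ∂(mT d).prod μ) := by
  have key : ∀ g : Td d × G → ℂ, g ∈ Submodule.span ℂ {h : Td d × G → ℂ | ∃ (k : Fin d → ℤ) (a b : ℕ)
      (s t : (Fin a → Fin n) × (Fin b → Fin n)), h = fun z => mFourier k z.1 * tens ρ a b z.2 s t} →
      Continuous g ∧ UnifOrth (skew α φ) (fun z => g z - ∫ w, g w ∂(mT d).prod μ) := by
    intro g hg
    induction hg using Submodule.span_induction with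
    | mem h hh =>
      obtain ⟨k, a, b, s, t, rfl⟩ := hh
      have hπ := tens_urep hρ a b
      refine ⟨?_, fin_gen hπ k hφ hT s t⟩
      have hc : Continuous fun y => tens ρ a b y s t := (hπ.cont.matrix_elem s t)
      exact ((mFourier k).continuous.comp continuous_fst).mul (hc.comp continuous_snd)
    | zero =>
      refine ⟨continuous_const, ?_⟩
      simp only [Pi.zero_apply, integral_zero, sub_zero]
      exact uo_zero
    | add x y _ _ hx hy =>
      refine ⟨hx.1.add hy.1, ?_⟩
      have ix : Integrable x ((mT d).prod μ) := hx.1.integrable_of_hasCompactSupport (HasCompactSupport.of_compactSpace x)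
      have iy : Integrable y ((mT d).prod μ) := hy.1.integrable_of_hasCompactSupport (HasCompactSupport.of_compactSpace y)
      have e : (fun z : Td d × G => (x + y) z - ∫ w, (x + y) w ∂(mT d).prod μ) =
          fun z => (x z - ∫ w, x w ∂(mT d).prod μ) + (y z - ∫ w, y w ∂(mT d).prod μ) := by
        funext z
        have : ∫ w, (x + y) w ∂(mT d).prod μ = ∫ w, x w ∂(mT d).prod μ + ∫ w, y w ∂(mT d).prod μ :=
          integral_add ix iy
        rw [this]
        simp only [Pi.add_apply]
        ring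
      rw [e]
      exact uo_add hx.2 hy.2
    | smul c x _ hx =>
      refine ⟨hx.1.const_smul c, ?_⟩
      have e : (fun z : Td d × G => (c • x) z - ∫ w, (c • x) w ∂(mT d).prod μ) =
          fun z => c * (x z - ∫ w, x w ∂(mT d).prod μ) := by
        funext z
        have : ∫ w, (c • x) w ∂(mT d).prod μ = c * ∫ w, x w ∂(mT d).prod μ := by
          have := integral_const_mul (μ := (mT d).prod μ) c x
          exact this
        rw [this]
        simp only [Pi.smul_apply, smul_eq_mul]
        ring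
      rw [e]
      exact uo_smul hx.2 c
  refine uo_approx fun ε hε => ?_
  obtain ⟨g, hg1, hg2⟩ := coef_dense hρ hinj f (ε / 2) (half_pos hε)
  obtain ⟨hc, hu⟩ := key _ hg2
  refine ⟨_, fun z => ?_, hu⟩
  have hfi : Integrable (fun w => f w) ((mT d).prod μ) :=
    f.continuous.integrable_of_hasCompactSupport (HasCompactSupport.of_compactSpace _)
  have hgi : Integrable (fun w => g w) ((mT d).prod μ) :=
    g.continuous.integrable_of_hasCompactSupport (HasCompactSupport.of_compactSpace _)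
  have h1 : ‖∫ w, f w ∂(mT d).prod μ - ∫ w, g w ∂(mT d).prod μ‖ ≤ ε / 2 := by
    rw [← integral_sub hfi hgi]
    have := norm_integral_le_of_norm_le_const (μ := (mT d).prod μ) (f := fun w => f w - g w) (C := ε / 2)
      (Eventually.of_forall hg1)
    simpa using this
  have e : (f z - ∫ w, f w ∂(mT d).prod μ) - (g z - ∫ w, g w ∂(mT d).prod μ) =
      (f z - g z) - (∫ w, f w ∂(mT d).prod μ - ∫ w, g w ∂(mT d).prod μ) := by ring
  rw [e]
  calc _ ≤ _ := norm_sub_le _ _
    _ ≤ ε / 2 + ε / 2 := add_le_add (hg1 z) h1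
    _ = ε := by ring

end Pool.Agent.Lib.MP_9fe581_an.HD
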