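import Pool.Agent.Lib.MRT.ShortMu
import Pool.Agent.Lib.DN.Exc

/-!
# HD: the Möbius function is orthogonal to every rational phase in almost all bounded intervals
-/

set_option autoImplicit false

namespace Pool.Agent.Lib.MP_9fe581_an.HD

theorem mu_short (w : ℂ) (q : ℕ) (hq : 0 < q) (hw : w ^ q = 1) :
    ShortOrth (fun n => ((ArithmeticFunction.moebius n : ℤ) : ℂ)) w :=
  Pool.Agent.Lib.MRT.short_mu_of (fun _ _ χ => Pool.Agent.Lib.DN.excP0 χ) hq hw

end Pool.Agent.Lib.MP_9fe581_an.HD
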