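import Pool.Agent.Lib.MP_9fe581_an.HD.GDefs
import Pool.Agent.Lib.SW.Davenport

/-!
# HD, module R8: the Moebius function

The Moebius function is a bounded multiplicative function with `∑_{n ≤ N} μ(n) = o(N)` (from
`SW.davenport` with the frequency 0), so uniform orthogonality of `f - c` gives it for `f`.
-/

open Finset MeasureTheory Filter Topology UnitAddTorus
open scoped ComplexConjugate Matrix

namespace Pool.Agent.Lib.MP_9fe581_an.HD

theorem moeb_bmult : BMult fun n => ((ArithmeticFunction.moebius n : ℤ) : ℂ) := by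
  refine ⟨fun n => ?_, fun m n h => ?_⟩
  · rw [Complex.norm_intCast]
    exact_mod_cast ArithmeticFunction.abs_moebius_le_one
  · rw [ArithmeticFunction.isMultiplicative_moebius.map_mul_of_coprime h]
    push_cast
    rfl

theorem moeb_sum (ε : ℝ) (hε : 0 < ε) :
    ∃ N0 : ℕ, ∀ N ≥ N0, ‖∑ n ∈ Icc 1 N, ((ArithmeticFunction.moebius n : ℤ) : ℂ)‖ ≤ ε * N := by
  obtain ⟨C, hC, h⟩ := Pool.Agent.Lib.SW.davenport 1
  have hlog : Tendsto (fun N : ℕ => Real.log (N : ℝ)) atTop atTop :=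
    Real.tendsto_log_atTop.comp tendsto_natCast_atTop_atTop
  obtain ⟨N1, hN1⟩ := (hlog.eventually (eventually_ge_atTop (C / ε + 1))).exists_forall_of_atTop
  refine ⟨max 2 N1, fun N hN => ?_⟩
  have h2 : 2 ≤ N := le_trans (le_max_left _ _) hN
  have h3 : C / ε + 1 ≤ Real.log N := hN1 N (le_trans (le_max_right _ _) hN)
  have h4 := h N h2 N le_rfl 0
  have h5 : ∑ n ∈ Icc 1 N, (((ArithmeticFunction.moebius n : ℤ) : ℝ) : ℂ) *
      Pool.Agent.Lib.GT.e (n * 0) = ∑ n ∈ Icc 1 N, ((ArithmeticFunction.moebius n : ℤ) : ℂ) := by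
    refine Finset.sum_congr rfl fun n _ => ?_
    simp [Pool.Agent.Lib.GT.e]
  rw [h5, pow_one] at h4
  refine h4.trans ?_
  have h6 : 0 < C / ε := div_pos hC hε
  have h7 : 0 < Real.log N := by linarith
  rw [div_le_iff₀ h7]
  have h8 : C ≤ ε * Real.log N := by
    have : C / ε ≤ Real.log N := by linarith
    rw [div_le_iff₀ hε] at this
    linarith
  have h9 : (0 : ℝ) ≤ N := Nat.cast_nonneg N
  nlinarith [mul_le_mul_of_nonneg_right h8 h9]

theorem moeb_unif {X : Type} [TopologicalSpace X] [CompactSpace X] (T : X → X) (f : C(X, ℂ)) (c : ℂ)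
    (h : UnifOrth T fun z => f z - c) (ε : ℝ) (hε : 0 < ε) :
    ∃ N0 : ℕ, ∀ N ≥ N0, ∀ z : X,
      ‖∑ n ∈ Icc 1 N, f (T^[n] z) * ((ArithmeticFunction.moebius n : ℤ) : ℂ)‖ ≤ ε * N := by
  obtain ⟨N1, h1⟩ := h _ moeb_bmult (ε / 2) (by positivity)
  obtain ⟨N2, h2⟩ := moeb_sum (ε / (2 * (‖c‖ + 1))) (by positivity)
  refine ⟨max N1 N2, fun N hN z => ?_⟩
  have h3 := h1 N (le_trans (le_max_left _ _) hN) z
  have h4 := h2 N (le_trans (le_max_right _ _) hN)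
  have h5 : ∑ n ∈ Icc 1 N, f (T^[n] z) * ((ArithmeticFunction.moebius n : ℤ) : ℂ) =
      ∑ n ∈ Icc 1 N, ((ArithmeticFunction.moebius n : ℤ) : ℂ) * (f (T^[n] z) - c) +
        c * ∑ n ∈ Icc 1 N, ((ArithmeticFunction.moebius n : ℤ) : ℂ) := by
    rw [Finset.mul_sum, ← Finset.sum_add_distrib]
    refine Finset.sum_congr rfl fun n _ => ?_
    ring
  rw [h5]
  refine (norm_add_le _ _).trans ?_
  rw [norm_mul]
  have h6 : ‖c‖ * ‖∑ n ∈ Icc 1 N, ((ArithmeticFunction.moebius n : ℤ) : ℂ)‖ ≤ ε / 2 * N := by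
    have h7 : ‖c‖ * ‖∑ n ∈ Icc 1 N, ((ArithmeticFunction.moebius n : ℤ) : ℂ)‖ ≤
        ‖c‖ * (ε / (2 * (‖c‖ + 1)) * N) := mul_le_mul_of_nonneg_left h4 (norm_nonneg c)
    refine h7.trans ?_
    have h8 : 0 ≤ ‖c‖ := norm_nonneg c
    have h9 : (0 : ℝ) ≤ N := Nat.cast_nonneg N
    have h10 : ‖c‖ * (ε / (2 * (‖c‖ + 1))) ≤ ε / 2 := by
      rw [← mul_div_assoc, div_le_div_iff₀ (by positivity) (by norm_num)]
      nlinarith [mul_nonneg h8 hε.le]
    calc ‖c‖ * (ε / (2 * (‖c‖ + 1)) * N) = ‖c‖ * (ε / (2 * (‖c‖ + 1))) * N := by ring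
      _ ≤ ε / 2 * N := mul_le_mul_of_nonneg_right h10 h9
  linarith

end Pool.Agent.Lib.MP_9fe581_an.HD
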