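import Mathlib

/-!
# HD: the monotonicity argument (8*), abstract form

`E j n -> E0 n` for each fixed `n`, `E0 <= E j`, and the quadratic averages of `E j` and of `E0` over
`|n - n'|`, `n, n' < 2^k`, do not increase with `k`. Then the averages of `E j - E0` over `n < 2^k` are small
for all large `k` and `j`, independently.
-/

open Finset Filter Topology

namespace Pool.Agent.Lib.MP_9fe581_an.HD

/-- quadratic average over the differences -/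
noncomputable def avg2 (F : ℕ → ℝ) (N : ℕ) : ℝ :=
  (1 / (N : ℝ) ^ 2) * ∑ n ∈ range N, ∑ m ∈ range N, F ((n - m) + (m - n))

theorem avg2_sub (F G : ℕ → ℝ) (N : ℕ) :
    avg2 (fun n => F n - G n) N = avg2 F N - avg2 G N := by
  simp only [avg2, Finset.sum_sub_distrib]
  ring

theorem avg2_tendsto (E : ℕ → ℕ → ℝ) (E0 : ℕ → ℝ)
    (hlim : ∀ n, Tendsto (fun j => E j n) atTop (𝓝 (E0 n))) (N : ℕ) :
    Tendsto (fun j => avg2 (E j) N) atTop (𝓝 (avg2 E0 N)) := by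
  unfold avg2
  refine Tendsto.const_mul _ ?_
  exact tendsto_finsetSum _ fun n _ => tendsto_finsetSum _ fun m _ => hlim _

/-- the average over the differences controls the sum over the first half -/
theorem sum_le_avg2 (D : ℕ → ℝ) (hD : ∀ n, 0 ≤ D n) (k : ℕ) :
    ∑ n ∈ range (2 ^ k), D n ≤ 4 * 2 ^ k * avg2 D (2 ^ (k + 1)) := by
  have h1 : (2 : ℝ) ^ k * ∑ n ∈ range (2 ^ k), D n ≤
      ∑ n ∈ range (2 ^ (k + 1)), ∑ m ∈ range (2 ^ (k + 1)), D ((n - m) + (m - n)) := by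
    have h2 : (2 : ℝ) ^ k * ∑ n ∈ range (2 ^ k), D n =
        ∑ p ∈ range (2 ^ k) ×ˢ range (2 ^ k), D p.1 := by
      rw [Finset.sum_product]
      simp only [Finset.sum_const, Finset.card_range, nsmul_eq_mul]
      rw [Finset.mul_sum]
      push_cast
      rfl
    rw [h2, ← Finset.sum_product']
    have h3 : ∑ p ∈ range (2 ^ k) ×ˢ range (2 ^ k), D p.1 =
        ∑ p ∈ (range (2 ^ k) ×ˢ range (2 ^ k)).image (fun p : ℕ × ℕ => (p.1 + p.2, p.2)),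
          D ((p.1 - p.2) + (p.2 - p.1)) := by
      rw [Finset.sum_image]
      · refine Finset.sum_congr rfl fun p _ => ?_
        congr 1
        simp only
        omega
      · rintro ⟨a, b⟩ _ ⟨c, d⟩ _ h
        simp only [Prod.mk.injEq] at h ⊢
        omega
    rw [h3]
    refine Finset.sum_le_sum_of_subset_of_nonneg ?_ fun p _ _ => hD _
    intro p hp
    simp only [Finset.mem_image, Finset.mem_product, Finset.mem_range] at hp ⊢
    obtain ⟨q, ⟨h4, h5⟩, rfl⟩ := hp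
    simp only
    rw [pow_succ]
    omega
  have h6 : (0 : ℝ) < 2 ^ k := by positivity
  have h7 : avg2 D (2 ^ (k + 1)) = (1 / (4 * (2 ^ k) ^ 2)) *
      ∑ n ∈ range (2 ^ (k + 1)), ∑ m ∈ range (2 ^ (k + 1)), D ((n - m) + (m - n)) := by
    unfold avg2
    congr 1
    push_cast
    rw [pow_succ]
    ring
  rw [h7]
  have h8 : 4 * 2 ^ k * ((1 / (4 * (2 ^ k) ^ 2)) *
      ∑ n ∈ range (2 ^ (k + 1)), ∑ m ∈ range (2 ^ (k + 1)), D ((n - m) + (m - n))) =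
      (1 / 2 ^ k) * ∑ n ∈ range (2 ^ (k + 1)), ∑ m ∈ range (2 ^ (k + 1)), D ((n - m) + (m - n)) := by
    field_simp
  rw [h8, ← sub_nonneg]
  have h9 : (1 / 2 ^ k) * ∑ n ∈ range (2 ^ (k + 1)), ∑ m ∈ range (2 ^ (k + 1)),
      D ((n - m) + (m - n)) - ∑ n ∈ range (2 ^ k), D n = (1 / 2 ^ k) *
      (∑ n ∈ range (2 ^ (k + 1)), ∑ m ∈ range (2 ^ (k + 1)), D ((n - m) + (m - n)) -
        2 ^ k * ∑ n ∈ range (2 ^ k), D n) := by
    field_simp
  rw [h9]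
  exact mul_nonneg (by positivity) (by linarith)

/-- (8*) -/
theorem mono_abs (E : ℕ → ℕ → ℝ) (E0 : ℕ → ℝ) (hD : ∀ j n, E0 n ≤ E j n)
    (hlim : ∀ n, Tendsto (fun j => E j n) atTop (𝓝 (E0 n)))
    (hmono : ∀ j k, avg2 (E j) (2 ^ (k + 1)) ≤ avg2 (E j) (2 ^ k))
    (hmono0 : ∀ k, avg2 E0 (2 ^ (k + 1)) ≤ avg2 E0 (2 ^ k))
    (hnn : ∀ k, 0 ≤ avg2 E0 (2 ^ k)) (ε : ℝ) (hε : 0 < ε) :
    ∃ i j1 : ℕ, ∀ k ≥ i, ∀ j ≥ j1, ∑ n ∈ range (2 ^ k), (E j n - E0 n) ≤ ε * 2 ^ k := by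
  have ha : Antitone fun k => avg2 E0 (2 ^ k) := antitone_nat_of_succ_le hmono0
  have hb : BddBelow (Set.range fun k => avg2 E0 (2 ^ k)) := ⟨0, by
    rintro _ ⟨k, rfl⟩
    exact hnn k⟩
  have hc := tendsto_atTop_ciInf ha hb
  have hL : ∀ k, (⨅ k, avg2 E0 (2 ^ k)) ≤ avg2 E0 (2 ^ k) := fun k => ciInf_le hb k
  obtain ⟨i, hi⟩ := (hc.eventually (gt_mem_nhds (show (⨅ k, avg2 E0 (2 ^ k)) <
    (⨅ k, avg2 E0 (2 ^ k)) + ε / 8 by linarith))).exists
  have hd := avg2_tendsto E E0 hlim (2 ^ i)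
  obtain ⟨j1, hj1⟩ := (hd.eventually (gt_mem_nhds (show avg2 E0 (2 ^ i) <
    avg2 E0 (2 ^ i) + ε / 8 by linarith))).exists_forall_of_atTop
  refine ⟨i, j1, fun k hk j hj => ?_⟩
  have he : Antitone fun k => avg2 (E j) (2 ^ k) := antitone_nat_of_succ_le (hmono j)
  have h1 : avg2 (E j) (2 ^ (k + 1)) ≤ avg2 (E j) (2 ^ i) := he (by omega : i ≤ k + 1)
  have h2 := hj1 j hj
  have h3 := hL (k + 1)
  have h4 : avg2 (fun n => E j n - E0 n) (2 ^ (k + 1)) ≤ ε / 4 := by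
    rw [avg2_sub]
    linarith
  have h5 := sum_le_avg2 (fun n => E j n - E0 n) (fun n => by linarith [hD j n]) k
  refine h5.trans ?_
  have h6 : (0 : ℝ) ≤ 4 * 2 ^ k := by positivity
  calc 4 * 2 ^ k * avg2 (fun n => E j n - E0 n) (2 ^ (k + 1)) ≤ 4 * 2 ^ k * (ε / 4) :=
        mul_le_mul_of_nonneg_left h4 h6
    _ = ε * 2 ^ k := by ring

end Pool.Agent.Lib.MP_9fe581_an.HD
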