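import Pool.Agent.Lib.MP_9fe581_an.HD.Defs

/-!
# Rational spectrum of an isometry, abstract form

`V` an isometry of a Hilbert space, `f` a vector.  There are finitely many eigenvectors `h_s` of `V` whose eigenvalues are roots
of unity such that for every `c` close to their sum the correlations of `f - c` are, up to a small error, those of a vector
without rational spectrum.
-/

open Finset MeasureTheory Filter Topology
open scoped ComplexConjugate

namespace Pool.Agent.Lib.MP_9fe581_an.HD

set_option linter.unusedSectionVars false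

variable {H : Type*} [NormedAddCommGroup H] [InnerProductSpace ℂ H] [CompleteSpace H]

/-- the eigenvectors with a root of unity as eigenvalue -/
def ratEig (V : H →ₗᵢ[ℂ] H) : Set H := {h | ∃ q : ℕ, 0 < q ∧ ∃ w : ℂ, w ^ q = 1 ∧ V h = w • h}

/-- the closed span of the rational eigenvectors -/
def Hrat (V : H →ₗᵢ[ℂ] H) : Submodule ℂ H := (Submodule.span ℂ (ratEig V)).topologicalClosure

instance (V : H →ₗᵢ[ℂ] H) : CompleteSpace (Hrat V) :=
  (Submodule.isClosed_topologicalClosure (Submodule.span ℂ (ratEig V))).completeSpace_coe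

/-- the correlations -/
noncomputable def cor (V : H →ₗᵢ[ℂ] H) (b : H) (n : ℕ) : ℂ := inner ℂ b (V^[n] b)

theorem as_iter_inner (V : H →ₗᵢ[ℂ] H) (b : H) (m k : ℕ) :
    inner ℂ (V^[m] b) (V^[m + k] b) = cor V b k := by
  induction m with
  | zero => simp [cor]
  | succ m ih =>
    rw [Function.iterate_succ_apply', show m + 1 + k = (m + k) + 1 by ring, Function.iterate_succ_apply',
      LinearIsometry.inner_map_map, ih]

theorem as_iter_norm (V : H →ₗᵢ[ℂ] H) (b : H) (m : ℕ) : ‖V^[m] b‖ = ‖b‖ := by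
  induction m with
  | zero => rfl
  | succ m ih => rw [Function.iterate_succ_apply', LinearIsometry.norm_map, ih]

theorem cor_posDef (V : H →ₗᵢ[ℂ] H) (b : H) : PosDef (cor V b) := by
  intro M z
  have h1 : (∑ m ∈ range M, ∑ m' ∈ range M, z m * conj (z m') *
      (if m' ≤ m then cor V b (m - m') else conj (cor V b (m' - m)))) =
      inner ℂ (∑ m ∈ range M, z m • V^[m] b) (∑ m ∈ range M, z m • V^[m] b) := by
    rw [sum_inner, Finset.sum_comm]
    refine Finset.sum_congr rfl fun m' _ => ?_
    rw [inner_sum]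
    refine Finset.sum_congr rfl fun m _ => ?_
    rw [inner_smul_left, inner_smul_right]
    have h2 : (if m' ≤ m then cor V b (m - m') else conj (cor V b (m' - m))) = inner ℂ (V^[m'] b) (V^[m] b) := by
      split_ifs with h
      · have := as_iter_inner V b m' (m - m')
        rw [Nat.add_sub_cancel' h] at this
        exact this.symm
      · have := as_iter_inner V b m (m' - m)
        rw [Nat.add_sub_cancel' (le_of_not_ge h)] at this
        rw [← this, inner_conj_symm]
    rw [h2]; ring
  rw [h1]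
  exact inner_self_nonneg (𝕜 := ℂ)

theorem cor_zero_im (V : H →ₗᵢ[ℂ] H) (b : H) : (cor V b 0).im = 0 := by
  unfold cor
  rw [Function.iterate_zero, id]
  exact inner_self_im (𝕜 := ℂ) b

theorem cor_le (V : H →ₗᵢ[ℂ] H) (b : H) (n : ℕ) : ‖cor V b n‖ ≤ ‖b‖ ^ 2 := by
  unfold cor
  refine (norm_inner_le_norm _ _).trans (le_of_eq ?_)
  rw [as_iter_norm, sq]

theorem cor_noRat (V : H →ₗᵢ[ℂ] H) (b : H) (hb : b ∈ (Hrat V)ᗮ) : NoRat (cor V b) := by
  intro k q hq
  set z : ℂ := GT.e (-((k : ℝ) / q)) with hz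
  have hpow : ∀ n : ℕ, GT.e (-(n * ((k : ℝ) / q))) = z ^ n := by
    intro n
    induction n with
    | zero => simp [GT.e_zero]
    | succ n ih =>
      have h1 : (-(((n + 1 : ℕ) : ℝ) * ((k : ℝ) / q))) = -((n : ℝ) * ((k : ℝ) / q)) + (-((k : ℝ) / q)) := by
        push_cast
        ring
      rw [h1, GT.e_add, ih, pow_succ]
  have hq' : (q : ℝ) ≠ 0 := by exact_mod_cast hq.ne'
  have hzq : z ^ q = 1 := by
    rw [← hpow]
    have h2 : (-((q : ℝ) * ((k : ℝ) / q))) = ((-(k : ℤ) : ℤ) : ℝ) := by
      push_cast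
      field_simp
    rw [h2, GT.e_int]
  have hz1 : ‖z‖ = 1 := by
    have := congrArg norm hzq
    rw [norm_pow, norm_one] at this
    exact (pow_eq_one_iff_of_nonneg (norm_nonneg _) hq.ne').1 this
  have hz0 : z ≠ 0 := fun h => by rw [h, norm_zero] at hz1; exact zero_ne_one hz1
  set W : H →L[ℂ] H := z • V.toContinuousLinearMap with hW
  have hWa : ∀ g, W g = z • V g := fun g => rfl
  have hWn : ‖W‖ ≤ 1 := by
    refine ContinuousLinearMap.opNorm_le_bound _ zero_le_one fun g => ?_
    rw [hWa, norm_smul, hz1, LinearIsometry.norm_map]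
  have hlim := ContinuousLinearMap.tendsto_birkhoffAverage_orthogonalProjection W hWn b
  have hzero : ((W.eqLocus (1 : H →L[ℂ] H)).orthogonalProjectionOnto b : H) = 0 := by
    have hmem : b ∈ (W.eqLocus (1 : H →L[ℂ] H))ᗮ := by
      refine Submodule.orthogonal_le ?_ hb
      intro h hh
      have h1 : W h = h := by simpa using hh
      rw [hWa] at h1
      refine Submodule.le_topologicalClosure _ (Submodule.subset_span ⟨q, hq, z⁻¹, ?_, ?_⟩)
      · rw [inv_pow, hzq, inv_one]
      · conv_rhs => rw [← h1]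
        rw [smul_smul, inv_mul_cancel₀ hz0, one_smul]
    rw [Submodule.orthogonalProjectionOnto_apply_of_mem_orthogonal hmem]
    rfl
  rw [hzero] at hlim
  have hit : ∀ n, W^[n] b = z ^ n • V^[n] b := by
    intro n
    induction n with
    | zero => simp
    | succ n ih =>
      rw [Function.iterate_succ_apply', hWa, ih, map_smul, smul_smul, Function.iterate_succ_apply', ← pow_succ']
  have hin : Tendsto (fun N : ℕ => inner ℂ b (birkhoffAverage ℂ W _root_.id N b)) atTop (𝓝 0) := by
    have hc : Continuous fun y : H => (inner ℂ b y : ℂ) := continuous_const.inner continuous_id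
    have := (hc.tendsto (0 : H)).comp hlim
    simpa [Function.comp_def] using this
  have hav : ∀ N : ℕ, inner ℂ b (birkhoffAverage ℂ W _root_.id N b) =
      (N : ℂ)⁻¹ * ∑ n ∈ range N, z ^ n * cor V b n := by
    intro N
    simp only [birkhoffAverage, birkhoffSum, _root_.id]
    rw [inner_smul_right, inner_sum]
    congr 1
    refine Finset.sum_congr rfl fun n _ => ?_
    rw [hit, inner_smul_right]
    rfl
  simp only [hav] at hin
  -- from `range N` to `Icc 1 N`
  have hdiff : Tendsto (fun N : ℕ => (N : ℂ)⁻¹ * (z ^ N * cor V b N - cor V b 0)) atTop (𝓝 0) := by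
    have h1 : Tendsto (fun N : ℕ => (N : ℝ)⁻¹ * (2 * ‖b‖ ^ 2)) atTop (𝓝 0) := by
      have := tendsto_inv_atTop_nhds_zero_nat (𝕜 := ℝ)
      simpa using this.mul_const (2 * ‖b‖ ^ 2)
    refine squeeze_zero_norm (fun N => ?_) h1
    rw [norm_mul, norm_inv, Complex.norm_natCast]
    refine mul_le_mul_of_nonneg_left ?_ (by positivity)
    refine (norm_sub_le _ _).trans ?_
    rw [norm_mul, norm_pow, hz1, one_pow, one_mul]
    linarith [cor_le V b N, cor_le V b 0]
  have hsum := hin.add hdiff
  rw [add_zero] at hsum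
  refine hsum.congr fun N => ?_
  have h3 : ∑ n ∈ Icc 1 N, cor V b n * GT.e (-(n * ((k : ℝ) / q))) =
      ∑ n ∈ range N, z ^ n * cor V b n + (z ^ N * cor V b N - cor V b 0) := by
    have h4 : ∑ n ∈ range (N + 1), z ^ n * cor V b n = z ^ 0 * cor V b 0 + ∑ n ∈ Icc 1 N, z ^ n * cor V b n := by
      rw [Finset.range_eq_Ico, Finset.sum_eq_sum_Ico_succ_bot (by omega)]
      rfl
    have h5 : ∑ n ∈ Icc 1 N, cor V b n * GT.e (-(n * ((k : ℝ) / q))) = ∑ n ∈ Icc 1 N, z ^ n * cor V b n :=
      Finset.sum_congr rfl fun n _ => by rw [hpow]; ring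
    rw [Finset.sum_range_succ] at h4
    rw [h5, pow_zero, one_mul] at *
    linear_combination (-1 : ℂ) * h4
  rw [h3, one_div]
  ring

/-- finite sums of rational eigenvectors -/
theorem as_span (V : H →ₗᵢ[ℂ] H) {g : H} (hg : g ∈ Submodule.span ℂ (ratEig V)) :
    ∃ (m : ℕ) (w : Fin m → ℂ) (h : Fin m → H), (∀ s, ∃ q : ℕ, 0 < q ∧ w s ^ q = 1) ∧ (∀ s, V (h s) = w s • h s) ∧
      g = ∑ s, h s := by
  induction hg using Submodule.span_induction with
  | mem y hy =>
    obtain ⟨q, hq, w, hw, hV⟩ := hy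
    exact ⟨1, fun _ => w, fun _ => y, fun _ => ⟨q, hq, hw⟩, fun _ => hV, by simp⟩
  | zero => exact ⟨0, Fin.elim0, Fin.elim0, fun s => s.elim0, fun s => s.elim0, by simp⟩
  | add y z _ _ hy hz =>
    obtain ⟨m1, w1, h1, a1, b1, c1⟩ := hy
    obtain ⟨m2, w2, h2, a2, b2, c2⟩ := hz
    refine ⟨m1 + m2, Fin.append w1 w2, Fin.append h1 h2, ?_, ?_, ?_⟩
    · intro s
      refine Fin.addCases (fun i => ?_) (fun i => ?_) s
      · rw [Fin.append_left]; exact a1 i
      · rw [Fin.append_right]; exact a2 i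
    · intro s
      refine Fin.addCases (fun i => ?_) (fun i => ?_) s
      · rw [Fin.append_left, Fin.append_left]; exact b1 i
      · rw [Fin.append_right, Fin.append_right]; exact b2 i
    · rw [Fin.sum_univ_add]
      simp only [Fin.append_left, Fin.append_right]
      rw [← c1, ← c2]
  | smul c y _ hy =>
    obtain ⟨m1, w1, h1, a1, b1, c1⟩ := hy
    refine ⟨m1, w1, fun s => c • h1 s, a1, fun s => ?_, ?_⟩
    · rw [map_smul, b1, smul_comm]
    · rw [c1, Finset.smul_sum]

/-- the abstract splitting -/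
theorem as_split (V : H →ₗᵢ[ℂ] H) (f : H) (ε : ℝ) (hε : 0 < ε) (hε1 : ε ≤ 1) :
    ∃ (m : ℕ) (w : Fin m → ℂ) (h : Fin m → H), (∀ s, ∃ q : ℕ, 0 < q ∧ w s ^ q = 1) ∧ (∀ s, V (h s) = w s • h s) ∧
      ∀ c : H, ‖c - ∑ s, h s‖ ≤ ε → ∃ a' : ℕ → ℂ, PosDef a' ∧ (a' 0).im = 0 ∧ (∀ n, ‖a' n‖ ≤ (2 * ‖f‖ + 2) ^ 2) ∧
        NoRat a' ∧ ∀ n, ‖cor V (f - c) n - a' n‖ ≤ 4 * (2 * ‖f‖ + 2) * ε := by
  set K := Hrat V with hK
  have hcl : K.starProjection f ∈ closure (Submodule.span ℂ (ratEig V) : Set H) := by
    rw [← Submodule.topologicalClosure_coe]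
    exact Submodule.starProjection_apply_mem K f
  obtain ⟨g, hg, hd⟩ := Metric.mem_closure_iff.1 hcl ε hε
  rw [dist_eq_norm] at hd
  obtain ⟨m, w, h, hw, hV, hgs⟩ := as_span V hg
  refine ⟨m, w, h, hw, hV, fun c hc => ?_⟩
  rw [← hgs] at hc
  have hgK : g ∈ K := Submodule.le_topologicalClosure _ hg
  set b : H := f - c with hb
  set e : H := K.starProjection b with he
  set b' : H := b - e with hb'
  have hb'K : b' ∈ Kᗮ := Submodule.sub_starProjection_mem_orthogonal b
  have hen : ‖e‖ ≤ 2 * ε := by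
    have h1 : e = (K.starProjection f - g) + K.starProjection (g - c) := by
      rw [he, hb, map_sub, map_sub, Submodule.starProjection_eq_self_iff.2 hgK]
      abel
    rw [h1]
    refine (norm_add_le _ _).trans ?_
    have h2 : ‖K.starProjection (g - c)‖ ≤ ε := by
      refine (Submodule.norm_starProjection_apply_le K _).trans ?_
      rw [norm_sub_rev]; exact hc
    linarith
  have hfn : ‖K.starProjection f‖ ≤ ‖f‖ := Submodule.norm_starProjection_apply_le K f
  have hgn : ‖g‖ ≤ ‖f‖ + ε := by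
    have : g = K.starProjection f - (K.starProjection f - g) := by abel
    rw [this]
    exact (norm_sub_le _ _).trans (by linarith)
  have hcn : ‖c‖ ≤ ‖f‖ + 2 * ε := by
    have : c = g + (c - g) := by abel
    rw [this]
    exact (norm_add_le _ _).trans (by linarith)
  have hbn : ‖b‖ ≤ 2 * ‖f‖ + 2 := (norm_sub_le _ _).trans (by linarith)
  have hb'n : ‖b'‖ ≤ 2 * ‖f‖ + 2 := by
    have : b' = Kᗮ.starProjection b := by
      rw [hb', he]
      exact (Submodule.starProjection_orthogonal_val b).symm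
    rw [this]
    exact (Submodule.norm_starProjection_apply_le _ _).trans hbn
  have hR0 : 0 ≤ 2 * ‖f‖ + 2 := by positivity
  refine ⟨cor V b', cor_posDef V b', cor_zero_im V b', fun n => ?_, cor_noRat V b' hb'K, fun n => ?_⟩
  · exact (cor_le V b' n).trans (pow_le_pow_left₀ (norm_nonneg _) hb'n 2)
  · have h1 : cor V b n - cor V b' n = inner ℂ e (V^[n] b) + inner ℂ b' (V^[n] e) := by
      unfold cor
      have h2 : ∀ x y : H, V^[n] (x + y) = V^[n] x + V^[n] y := by
        intro x y
        induction n with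
        | zero => rfl
        | succ n ih =>
          rw [Function.iterate_succ_apply', Function.iterate_succ_apply', Function.iterate_succ_apply', ih, map_add]
      have h3 : b = b' + e := by rw [hb']; abel
      have h4 : V^[n] b = V^[n] b' + V^[n] e := by conv_lhs => rw [h3, h2]
      have h5 : ∀ y : H, inner ℂ b y = inner ℂ b' y + inner ℂ e y := by
        intro y
        rw [← inner_add_left, ← h3]
      rw [h5 (V^[n] b), h4, inner_add_right, inner_add_right]
      ring
    rw [h1]
    refine (norm_add_le _ _).trans ?_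
    have h2 : ‖inner ℂ e (V^[n] b)‖ ≤ 2 * ε * (2 * ‖f‖ + 2) := by
      refine (norm_inner_le_norm _ _).trans ?_
      rw [as_iter_norm]
      exact mul_le_mul hen hbn (norm_nonneg _) (by positivity)
    have h3 : ‖inner ℂ b' (V^[n] e)‖ ≤ (2 * ‖f‖ + 2) * (2 * ε) := by
      refine (norm_inner_le_norm _ _).trans ?_
      rw [as_iter_norm]
      exact mul_le_mul hb'n hen (norm_nonneg _) hR0
    linarith

end Pool.Agent.Lib.MP_9fe581_an.HD
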