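import Pool.Agent.Lib.MP_9fe581_an.HD.Vdc
import Pool.Agent.Lib.MP_9fe581_an.HD.Equi

/-!
# HD, module V2: the correlations are bounded by an integral, uniformly in the point
-/

open Finset MeasureTheory Filter Topology UnitAddTorus
open scoped ComplexConjugate Matrix

namespace Pool.Agent.Lib.MP_9fe581_an.HD

variable {d : ℕ} {ι : Type} [Fintype ι] [DecidableEq ι]
variable {α : Td d} {A : Td d → Matrix ι ι ℂ} {Q : Matrix ι ι ℂ}

theorem phi_cont (hU : UC A Q) (p q L : ℕ) :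
    Continuous fun z : Td d × Td d => Phi α A Q p q L z.1 z.2 := by
  have h1 : ∀ (n : ℕ) (a b : ι), Continuous fun z : Td d × Td d => cp α A Q n z.1 a b :=
    fun n a b => ((cp_cont hU n).matrix_elem a b).comp continuous_fst
  have h2 : ∀ (n : ℕ) (a b : ι), Continuous fun z : Td d × Td d => cp α A Q n z.2 a b :=
    fun n a b => ((cp_cont hU n).matrix_elem a b).comp continuous_snd
  unfold Phi Wt
  refine continuous_finsetSum _ fun a _ => continuous_finsetSum _ fun b _ =>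
    continuous_finsetSum _ fun c _ => continuous_finsetSum _ fun f _ => ?_
  refine Continuous.pow (Continuous.norm ?_) 2
  refine continuous_const.mul (continuous_finsetSum _ fun l _ => ?_)
  exact (h1 _ a b).mul (Complex.continuous_conj.comp (h2 _ c f))

theorem phi_nonneg (p q L : ℕ) (u v : Td d) : 0 ≤ Phi α A Q p q L u v := by
  unfold Phi
  exact Finset.sum_nonneg fun a _ => Finset.sum_nonneg fun b _ => Finset.sum_nonneg fun c _ =>
    Finset.sum_nonneg fun f _ => by positivity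

theorem corr_sqrt_sum (f : ℕ → ℝ) (hf : ∀ m, 0 ≤ f m) (M : ℕ) (hM : 0 < M) :
    ∑ m ∈ Icc 1 M, Real.sqrt (f m) ≤ M * Real.sqrt ((1 / M) * ∑ m ∈ Icc 1 M, f m) := by
  have hM' : (0 : ℝ) < M := Nat.cast_pos.2 hM
  have h1 := Real.sum_mul_le_sqrt_mul_sqrt (Icc 1 M) (fun _ => (1 : ℝ)) (fun m => Real.sqrt (f m))
  simp only [one_mul, one_pow, Finset.sum_const, Nat.card_Icc, Nat.add_sub_cancel,
    nsmul_eq_mul, mul_one] at h1
  have h2 : ∑ m ∈ Icc 1 M, Real.sqrt (f m) ^ 2 = ∑ m ∈ Icc 1 M, f m :=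
    Finset.sum_congr rfl fun m _ => Real.sq_sqrt (hf m)
  rw [h2] at h1
  refine h1.trans (le_of_eq ?_)
  have h3 : Real.sqrt ((1 / M) * ∑ m ∈ Icc 1 M, f m) =
      Real.sqrt (∑ m ∈ Icc 1 M, f m) / Real.sqrt M := by
    rw [one_div, inv_mul_eq_div, Real.sqrt_div (Finset.sum_nonneg fun m _ => hf m)]
  rw [h3]
  have h4 : Real.sqrt (M : ℝ) ≠ 0 := (Real.sqrt_pos.2 hM').ne'
  field_simp
  rw [Real.sq_sqrt hM'.le, mul_comm]

theorem corr_le (hU : UC A Q) (hα : ∀ k : Fin d → ℤ, k ≠ 0 → mFourier k α ≠ 1) (p q L : ℕ) (hL : 0 < L)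
    (ε : ℝ) (hε : 0 < ε) : ∃ M0 : ℕ, ∀ M ≥ M0, ∀ (x : Td d) (i j : ι),
      ‖∑ m ∈ Icc 1 M, cp α A Q (p * m) x i j * conj (cp α A Q (q * m) x i j)‖ ≤
        (Real.sqrt (∫ t, Phi α A Q p q L (x + p • t) (x + q • t) ∂mT d) + ε) * M := by
  let Φ : C(Td d × Td d, ℂ) :=
    ⟨fun z => ((Phi α A Q p q L z.1 z.2 : ℝ) : ℂ), Complex.continuous_ofReal.comp (phi_cont hU p q L)⟩
  obtain ⟨M1, hM1⟩ := equi hα p q Φ ((ε / 2) ^ 2) (by positivity)
  obtain ⟨M2, hM2⟩ := exists_nat_ge (4 * L / ε)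
  refine ⟨max (max M1 M2) 1, fun M hM x i j => ?_⟩
  have hMM1 : M1 ≤ M := (le_max_left M1 M2).trans ((le_max_left _ _).trans hM)
  have hMM2 : M2 ≤ M := (le_max_right M1 M2).trans ((le_max_left _ _).trans hM)
  have hM0 : 0 < M := (le_max_right _ _).trans hM
  have hM' : (0 : ℝ) < M := Nat.cast_pos.2 hM0
  set I : ℝ := ∫ t, Phi α A Q p q L (x + p • t) (x + q • t) ∂mT d with hI
  set S : ℝ := (1 / M) * ∑ m ∈ Icc 1 M,
    Phi α A Q p q L (x + (p * m) • α) (x + (q * m) • α) with hS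
  have hI0 : 0 ≤ I := integral_nonneg fun t => phi_nonneg p q L _ _
  have h1 : |S - I| ≤ (ε / 2) ^ 2 := by
    have h2 := hM1 M hMM1 x
    have h3 : (1 / (M : ℂ)) * ∑ m ∈ Icc 1 M, Φ (x + (p * m) • α, x + (q * m) • α) -
        ∫ t, Φ (x + p • t, x + q • t) ∂mT d = ((S - I : ℝ) : ℂ) := by
      have h4 : ∫ t, Φ (x + p • t, x + q • t) ∂mT d = ((I : ℝ) : ℂ) := by
        rw [hI, ← integral_complex_ofReal]
        rfl
      rw [h4, hS]
      push_cast
      rfl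
    rw [h3, Complex.norm_real] at h2
    exact h2
  have h2 : S ≤ I + (ε / 2) ^ 2 := by
    have := (abs_le.1 h1).2
    linarith
  have h3 : Real.sqrt S ≤ Real.sqrt I + ε / 2 := by
    rw [← Real.sqrt_sq (show 0 ≤ Real.sqrt I + ε / 2 by positivity)]
    refine Real.sqrt_le_sqrt (h2.trans ?_)
    have h4 := Real.sq_sqrt hI0
    have h5 := Real.sqrt_nonneg I
    nlinarith
  have h4 := vdc (α := α) hU p q L M hL x i j
  have h5 : ∑ m ∈ Icc 1 M, Real.sqrt (Phi α A Q p q L (x + (p * m) • α) (x + (q * m) • α)) ≤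
      M * Real.sqrt S := corr_sqrt_sum
    (fun m => Phi α A Q p q L (x + (p * m) • α) (x + (q * m) • α))
    (fun m => phi_nonneg (α := α) (A := A) (Q := Q) p q L (x + (p * m) • α) (x + (q * m) • α)) M hM0
  have h6 : 2 * (L : ℝ) ≤ ε / 2 * M := by
    have h7 : 4 * L / ε ≤ (M : ℝ) := hM2.trans (by exact_mod_cast hMM2)
    rw [div_le_iff₀ hε] at h7
    linarith
  calc ‖∑ m ∈ Icc 1 M, cp α A Q (p * m) x i j * conj (cp α A Q (q * m) x i j)‖
      ≤ (∑ m ∈ Icc 1 M, Real.sqrt (Phi α A Q p q L (x + (p * m) • α) (x + (q * m) • α))) + 2 * L := h4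
    _ ≤ M * Real.sqrt S + 2 * L := by linarith
    _ ≤ M * (Real.sqrt I + ε / 2) + ε / 2 * M :=
        add_le_add (mul_le_mul_of_nonneg_left h3 hM'.le) h6
    _ = (Real.sqrt I + ε) * M := by ring

end Pool.Agent.Lib.MP_9fe581_an.HD
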