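import Pool.Agent.Lib.MP_9fe581_an.HD.GDefs

/-!
# HD: Stone - Weierstrass on `Td d × G`, all coefficients of finite dimensional unitary representations

If the continuous finite dimensional unitary representations of the compact group `G` separate points, the functions
`mFourier k x * π y i j` span a dense subspace of `C(Td d × G, ℂ)`.
-/

open Finset MeasureTheory Filter Topology UnitAddTorus
open scoped ComplexConjugate Matrix Kronecker

namespace Pool.Agent.Lib.MP_9fe581_an.HD

variable {d : ℕ} {G : Type} [Group G] [TopologicalSpace G]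

/-- the generating functions -/
def dgSet (d : ℕ) (G : Type) [Group G] [TopologicalSpace G] : Set (Td d × G → ℂ) :=
  {h : Td d × G → ℂ | ∃ (k : Fin d → ℤ) (m : ℕ) (π : G → Matrix (Fin m) (Fin m) ℂ), URep π ∧
    ∃ i j : Fin m, h = fun z => mFourier k z.1 * π z.2 i j}

/-- reindexing a representation -/
theorem urep_reindex {ι : Type} [Fintype ι] [DecidableEq ι] {m : ℕ} (e : ι ≃ Fin m) {π : G → Matrix ι ι ℂ} (hπ : URep π) :
    URep fun g => (π g).submatrix e.symm e.symm where
  cont := hπ.cont.matrix_submatrix _ _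
  one := by rw [hπ.one, Matrix.submatrix_one_equiv]
  mul g h := by rw [hπ.mul, Matrix.submatrix_mul_equiv]
  uni g := by rw [Matrix.conjTranspose_submatrix, Matrix.submatrix_mul_equiv, hπ.uni, Matrix.submatrix_one_equiv]

theorem urep_kron {ι κ : Type} [Fintype ι] [DecidableEq ι] [Fintype κ] [DecidableEq κ] {π : G → Matrix ι ι ℂ}
    {σ : G → Matrix κ κ ℂ} (hπ : URep π) (hσ : URep σ) : URep fun g => π g ⊗ₖ σ g where
  cont := by
    refine continuous_matrix fun s t => ?_
    exact (hπ.cont.matrix_elem _ _).mul (hσ.cont.matrix_elem _ _)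
  one := by rw [hπ.one, hσ.one, Matrix.one_kronecker_one]
  mul g h := by rw [hπ.mul, hσ.mul, Matrix.mul_kronecker_mul]
  uni g := by rw [Matrix.conjTranspose_kronecker, ← Matrix.mul_kronecker_mul, hπ.uni, hσ.uni, Matrix.one_kronecker_one]

theorem urep_conj {ι : Type} [Fintype ι] [DecidableEq ι] {π : G → Matrix ι ι ℂ} (hπ : URep π) :
    URep fun g => (π g).map conj where
  cont := by
    refine continuous_matrix fun s t => ?_
    exact Complex.continuous_conj.comp (hπ.cont.matrix_elem _ _)
  one := by
    rw [hπ.one]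
    ext i j
    simp [Matrix.one_apply, apply_ite conj]
  mul g h := by rw [hπ.mul, Matrix.map_mul]
  uni g := by
    have h := congrArg (fun M : Matrix ι ι ℂ => M.map conj) (hπ.uni g)
    simp only [Matrix.map_mul] at h
    have e1 : ((π g).map conj)ᴴ = ((π g)ᴴ).map conj := by
      ext i j
      simp [Matrix.conjTranspose_apply]
    have e2 : (1 : Matrix ι ι ℂ).map conj = 1 := by
      ext i j
      simp [Matrix.one_apply, apply_ite conj]
    rw [e1, h, e2]

/-- a coefficient of a representation on any finite type -/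
theorem dg_mem {ι : Type} [Fintype ι] [DecidableEq ι] {π : G → Matrix ι ι ℂ} (hπ : URep π) (k : Fin d → ℤ) (i j : ι) :
    (fun z : Td d × G => mFourier k z.1 * π z.2 i j) ∈ dgSet d G := by
  refine ⟨k, Fintype.card ι, _, urep_reindex (Fintype.equivFin ι) hπ, Fintype.equivFin ι i, Fintype.equivFin ι j, ?_⟩
  funext z
  simp

theorem urep_triv : URep (fun _ : G => (1 : Matrix (Fin 1) (Fin 1) ℂ)) where
  cont := continuous_const
  one := rfl
  mul _ _ := by rw [Matrix.one_mul]
  uni _ := by rw [Matrix.conjTranspose_one, Matrix.one_mul]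

private theorem dg_one : (fun _ => 1 : Td d × G → ℂ) ∈ Submodule.span ℂ (dgSet d G) := by
  apply Submodule.subset_span
  refine ⟨0, 1, _, urep_triv, 0, 0, ?_⟩
  funext z
  rw [mFourier_zero]
  simp

private theorem dg_mul (f g : Td d × G → ℂ)
    (hf : f ∈ Submodule.span ℂ (dgSet d G)) (hg : g ∈ Submodule.span ℂ (dgSet d G)) :
    (fun z => f z * g z) ∈ Submodule.span ℂ (dgSet d G) := by
  induction hf using Submodule.span_induction with
  | mem f hf =>
    obtain ⟨k, m, π, hπ, i, j, rfl⟩ := hf
    induction hg using Submodule.span_induction with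
    | mem g hg =>
      obtain ⟨k', m', σ, hσ, i', j', rfl⟩ := hg
      apply Submodule.subset_span
      have h := dg_mem (d := d) (urep_kron hπ hσ) (k + k') (i, i') (j, j')
      convert h using 1
      funext z
      rw [Matrix.kroneckerMap_apply, mFourier_add]
      ring
    | zero =>
      have e : (fun z => mFourier k z.1 * π z.2 i j * (0 : Td d × G → ℂ) z) = 0 := by
        funext z
        simp
      rw [e]
      exact Submodule.zero_mem _
    | add g g' _ _ h h' =>
      have e : (fun z => mFourier k z.1 * π z.2 i j * (g + g') z) =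
          (fun z => mFourier k z.1 * π z.2 i j * g z) + fun z => mFourier k z.1 * π z.2 i j * g' z := by
        funext z
        simp only [Pi.add_apply]
        ring
      rw [e]
      exact Submodule.add_mem _ h h'
    | smul c g _ h =>
      have e : (fun z => mFourier k z.1 * π z.2 i j * (c • g) z) =
          c • fun z => mFourier k z.1 * π z.2 i j * g z := by
        funext z
        simp only [Pi.smul_apply, smul_eq_mul]
        ring
      rw [e]
      exact Submodule.smul_mem _ c h
  | zero =>
    have e : (fun z => (0 : Td d × G → ℂ) z * g z) = 0 := by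
      funext z
      simp
    rw [e]
    exact Submodule.zero_mem _
  | add f f' _ _ h h' =>
    have e : (fun z => (f + f') z * g z) = (fun z => f z * g z) + fun z => f' z * g z := by
      funext z
      simp only [Pi.add_apply]
      ring
    rw [e]
    exact Submodule.add_mem _ h h'
  | smul c f _ h =>
    have e : (fun z => (c • f) z * g z) = c • fun z => f z * g z := by
      funext z
      simp only [Pi.smul_apply, smul_eq_mul]
      ring
    rw [e]
    exact Submodule.smul_mem _ c h

private theorem dg_star (f : Td d × G → ℂ) (hf : f ∈ Submodule.span ℂ (dgSet d G)) :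
    (fun z => conj (f z)) ∈ Submodule.span ℂ (dgSet d G) := by
  induction hf using Submodule.span_induction with
  | mem f hf =>
    obtain ⟨k, m, π, hπ, i, j, rfl⟩ := hf
    apply Submodule.subset_span
    have h := dg_mem (d := d) (urep_conj hπ) (-k) i j
    convert h using 1
    funext z
    rw [map_mul, mFourier_neg, Matrix.map_apply]
  | zero =>
    have e : (fun z => conj ((0 : Td d × G → ℂ) z)) = 0 := by
      funext z
      simp
    rw [e]
    exact Submodule.zero_mem _
  | add f f' _ _ h h' =>
    have e : (fun z => conj ((f + f') z)) = (fun z => conj (f z)) + fun z => conj (f' z) := by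
      funext z
      simp
    rw [e]
    exact Submodule.add_mem _ h h'
  | smul c f _ h =>
    have e : (fun z => conj ((c • f) z)) = (conj c) • fun z => conj (f z) := by
      funext z
      simp
    rw [e]
    exact Submodule.smul_mem _ _ h

/-- the star subalgebra -/
private noncomputable def dgAlg (d : ℕ) (G : Type) [Group G] [TopologicalSpace G] :
    StarSubalgebra ℂ C(Td d × G, ℂ) where
  carrier := {g | (g : Td d × G → ℂ) ∈ Submodule.span ℂ (dgSet d G)}
  mul_mem' := fun {f g} hf hg => dg_mul f g hf hg
  one_mem' := dg_one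
  add_mem' := by
    intro f g hf hg
    change ((f + g : C(Td d × G, ℂ)) : Td d × G → ℂ) ∈ Submodule.span ℂ (dgSet d G)
    rw [ContinuousMap.coe_add]
    exact Submodule.add_mem _ hf hg
  zero_mem' := by
    change ((0 : C(Td d × G, ℂ)) : Td d × G → ℂ) ∈ Submodule.span ℂ (dgSet d G)
    exact Submodule.zero_mem _
  algebraMap_mem' := by
    intro c
    have h := Submodule.smul_mem _ c (dg_one (d := d) (G := G))
    have e : ((algebraMap ℂ C(Td d × G, ℂ) c : C(Td d × G, ℂ)) : Td d × G → ℂ) =
        c • (fun _ => 1 : Td d × G → ℂ) := by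
      funext z
      simp
    change ((algebraMap ℂ C(Td d × G, ℂ) c : C(Td d × G, ℂ)) : Td d × G → ℂ) ∈
      Submodule.span ℂ (dgSet d G)
    rw [e]
    exact h
  star_mem' := fun {f} hf => dg_star f hf

/-- finite dimensional unitary representations separate the points of `G` -/
def Sep (G : Type) [Group G] [TopologicalSpace G] : Prop :=
  ∀ g : G, g ≠ 1 → ∃ (n : ℕ) (π : G → Matrix (Fin n) (Fin n) ℂ), URep π ∧ π g ≠ 1

private theorem dg_sep (hs : Sep G) : (dgAlg d G).SeparatesPoints := by
  intro z z' hz
  have hmem : ∀ (k : Fin d → ℤ) (m : ℕ) (π : G → Matrix (Fin m) (Fin m) ℂ) (_ : URep π) (i j : Fin m),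
      mFourier k z.1 * π z.2 i j ≠ mFourier k z'.1 * π z'.2 i j →
      ∃ f ∈ (fun f : C(Td d × G, ℂ) => (f : Td d × G → ℂ)) '' (dgAlg d G : Set C(Td d × G, ℂ)),
        f z ≠ f z' := by
    intro k m π hπ i j h
    have hc : Continuous fun w : Td d × G => mFourier k w.1 * π w.2 i j :=
      ((mFourier k).continuous.comp continuous_fst).mul ((hπ.cont.matrix_elem i j).comp continuous_snd)
    refine ⟨fun w : Td d × G => mFourier k w.1 * π w.2 i j, ⟨⟨fun w : Td d × G => mFourier k w.1 * π w.2 i j, hc⟩, ?_, rfl⟩, h⟩
    exact Submodule.subset_span ⟨k, m, π, hπ, i, j, rfl⟩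
  by_cases h2 : z.2 = z'.2
  · have h1 : z.1 ≠ z'.1 := fun h => hz (Prod.ext h h2)
    obtain ⟨i, hi⟩ := Function.ne_iff.mp h1
    apply hmem (Pi.single i 1) 1 _ urep_triv 0 0
    rw [Matrix.one_apply_eq, mul_one, mul_one, mFourier_single, mFourier_single, fourier_one, fourier_one]
    intro h
    exact hi (AddCircle.injective_toCircle one_ne_zero (Subtype.coe_injective h))
  · have h3 : z.2 * z'.2⁻¹ ≠ 1 := fun h => h2 (mul_inv_eq_one.mp h)
    obtain ⟨m, π, hπ, h4⟩ := hs _ h3
    have h1 : π z.2 ≠ π z'.2 := by
      intro h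
      apply h4
      rw [hπ.mul, h, ← hπ.mul, mul_inv_cancel, hπ.one]
    obtain ⟨i, hi⟩ := Function.ne_iff.mp h1
    obtain ⟨j, hj⟩ := Function.ne_iff.mp hi
    apply hmem 0 m π hπ i j
    rw [mFourier_zero]
    simpa using hj

variable [CompactSpace G]

theorem coef_dense_G (hs : Sep G) (f : C(Td d × G, ℂ)) (ε : ℝ) (hε : 0 < ε) :
    ∃ g : C(Td d × G, ℂ), (∀ z, ‖f z - g z‖ ≤ ε) ∧ (g : Td d × G → ℂ) ∈ Submodule.span ℂ (dgSet d G) := by
  have h1 := ContinuousMap.starSubalgebra_topologicalClosure_eq_top_of_separatesPoints (dgAlg d G) (dg_sep hs)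
  have h2 : f ∈ closure ((dgAlg d G : StarSubalgebra ℂ C(Td d × G, ℂ)) : Set C(Td d × G, ℂ)) := by
    rw [← StarSubalgebra.topologicalClosure_coe, h1]
    exact Set.mem_univ f
  obtain ⟨g, hg, hd⟩ := Metric.mem_closure_iff.mp h2 ε hε
  refine ⟨g, fun z => ?_, hg⟩
  rw [← dist_eq_norm]
  exact (ContinuousMap.dist_apply_le_dist z).trans hd.le

omit [CompactSpace G] in
/-- a faithful representation separates points -/
theorem sep_of_faithful {n : ℕ} {ρ : G → Matrix (Fin n) (Fin n) ℂ} (hρ : URep ρ) (hinj : Function.Injective ρ) : Sep G := by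
  intro g hg
  exact ⟨n, ρ, hρ, fun h => hg (hinj (h.trans hρ.one.symm))⟩

end Pool.Agent.Lib.MP_9fe581_an.HD
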