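import Mathlib

/-!
# Ergodicity kills rational correlations

`T` ergodic, `V` measure preserving and commuting with `T`, `f ∘ V = s f` with `s ^ q ≠ 1`, `z ^ q = 1`: then
`(1/N) ∑_{n < N} z ^ n ∫ conj f * f ∘ T^n → 0` (mean ergodic theorem).
-/

set_option autoImplicit false

namespace Pool.Agent.Lib.MP_9fe581_an.HD

open MeasureTheory Filter Topology Finset
open scoped ComplexConjugate ENNReal

variable {X : Type*} [MeasurableSpace X] {μ : Measure X} [IsProbabilityMeasure μ]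

/-- an eigenvector for a root of unity which is multiplied by `s`, `s ^ q ≠ 1`, under a commuting map, is zero -/
theorem er_zero {T V : X → X} (hT : Ergodic T μ) (hV : MeasurePreserving V μ μ)
    {h : X → ℂ} (hm : AEStronglyMeasurable h μ) {z s : ℂ} {q : ℕ} (hz : z ^ q = 1) (hs : s ^ q ≠ 1)
    (h1 : ∀ᵐ x ∂μ, z * h (T x) = h x) (h2 : ∀ᵐ x ∂μ, h (V x) = s * h x) : h =ᵐ[μ] 0 := by
  have h3 : (fun x => h x ^ q) ∘ T =ᵐ[μ] fun x => h x ^ q := by
    filter_upwards [h1] with x hx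
    simp only [Function.comp]
    rw [← hx, mul_pow, hz, one_mul]
  obtain ⟨c, hc⟩ := hT.ae_eq_const_of_ae_eq_comp_ae (g := fun x => h x ^ q) (hm.pow q) h3
  have h4 : ∀ᵐ x ∂μ, h (V x) ^ q = c := hV.quasiMeasurePreserving.ae hc
  have h5 : c = 0 := by
    have h6 : ∀ᵐ x ∂μ, c = s ^ q * c := by
      filter_upwards [hc, h4, h2] with x a1 a2 a3
      rw [a3, mul_pow] at a2
      have a1' : h x ^ q = c := a1
      rw [a1'] at a2
      exact a2.symm
    obtain ⟨x, hx⟩ := h6.exists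
    by_contra hne
    exact hs (mul_right_cancel₀ hne (by rw [one_mul]; exact hx.symm))
  filter_upwards [hc] with x hx
  have hx' : h x ^ q = c := hx
  rw [h5] at hx'
  exact eq_zero_of_pow_eq_zero hx'

/-- **Ergodic ⇒ (R)** -/
theorem er_tendsto {T V : X → X} (hT : Ergodic T μ) (hV : MeasurePreserving V μ μ)
    (hTV : ∀ x, V (T x) = T (V x)) {f : X → ℂ} (hf : Measurable f) {C : ℝ} (hf1 : ∀ x, ‖f x‖ ≤ C)
    {z s : ℂ} {q : ℕ} (hq0 : 0 < q) (hz : z ^ q = 1) (hsf : ∀ x, f (V x) = s * f x) (hs : s ^ q ≠ 1) :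
    Tendsto (fun N : ℕ => (N : ℂ)⁻¹ * ∑ n ∈ range N, z ^ n * ∫ x, conj (f x) * f (T^[n] x) ∂μ) atTop (𝓝 0) := by
  have hTm := hT.toMeasurePreserving
  have hfm : MemLp f 2 μ := by
    refine MemLp.of_bound hf.aestronglyMeasurable C ?_
    exact Eventually.of_forall hf1
  set F : Lp ℂ 2 μ := hfm.toLp f with hF
  set U : Lp ℂ 2 μ →ₗᵢ[ℂ] Lp ℂ 2 μ := Lp.compMeasurePreservingₗᵢ ℂ T hTm with hU
  set UV : Lp ℂ 2 μ →ₗᵢ[ℂ] Lp ℂ 2 μ := Lp.compMeasurePreservingₗᵢ ℂ V hV with hUV
  have hz1 : ‖z‖ = 1 := by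
    have := congrArg norm hz
    rw [norm_pow, norm_one] at this
    exact (pow_eq_one_iff_of_nonneg (norm_nonneg _) hq0.ne').1 this
  set W : Lp ℂ 2 μ →L[ℂ] Lp ℂ 2 μ := z • U.toContinuousLinearMap with hW
  have hWn : ‖W‖ ≤ 1 := by
    refine ContinuousLinearMap.opNorm_le_bound _ zero_le_one fun g => ?_
    rw [hW]
    rw [smul_apply, LinearIsometry.coe_toContinuousLinearMap]
    rw [norm_smul, hz1, LinearIsometry.norm_map]
  have hWa : ∀ g, W g = z • U g := fun g => rfl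
  have hlim := ContinuousLinearMap.tendsto_birkhoffAverage_orthogonalProjection W hWn F
  obtain ⟨h, hh⟩ : ∃ h : Lp ℂ 2 μ,
      h = ((W.eqLocus (1 : Lp ℂ 2 μ →L[ℂ] Lp ℂ 2 μ)).orthogonalProjectionOnto F : Lp ℂ 2 μ) := ⟨_, rfl⟩
  rw [← hh] at hlim
  have hfix : W h = h := by
    have := ((W.eqLocus (1 : Lp ℂ 2 μ →L[ℂ] Lp ℂ 2 μ)).orthogonalProjectionOnto F).2
    rw [← hh] at this
    simpa using this
  -- pointwise forms
  have hUa : ∀ g : Lp ℂ 2 μ, (U g : X → ℂ) =ᵐ[μ] g ∘ T := fun g => Lp.coeFn_compMeasurePreserving g hTm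
  have hUVa : ∀ g : Lp ℂ 2 μ, (UV g : X → ℂ) =ᵐ[μ] g ∘ V := fun g => Lp.coeFn_compMeasurePreserving g hV
  have hcomm : ∀ g, UV (U g) = U (UV g) := by
    intro g
    apply Lp.ext
    filter_upwards [hUVa (U g), hV.quasiMeasurePreserving.ae_eq_comp (hUa g), hUa (UV g),
      hTm.quasiMeasurePreserving.ae_eq_comp (hUVa g)] with x a1 a2 a3 a4
    rw [a1, a3]
    simp only [Function.comp] at a2 a4 ⊢
    rw [a2, a4, hTV]
  have hF1 : UV F = s • F := by
    apply Lp.ext
    have hFf : (F : X → ℂ) =ᵐ[μ] f := hfm.coeFn_toLp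
    filter_upwards [hUVa F, hV.quasiMeasurePreserving.ae_eq_comp hFf, hFf, Lp.coeFn_smul s F]
      with x a1 a2 a3 a4
    rw [a1, a4]
    simp only [Function.comp, Pi.smul_apply, smul_eq_mul] at a2 ⊢
    rw [a2, a3, hsf]
  have hit : ∀ n, UV (W^[n] F) = s • W^[n] F := by
    intro n
    induction n with
    | zero => exact hF1
    | succ n ih =>
      rw [Function.iterate_succ_apply', hWa, map_smul, hcomm, ih, map_smul, smul_comm]
  have hav : ∀ N, UV (birkhoffAverage ℂ W _root_.id N F) = s • birkhoffAverage ℂ W _root_.id N F := by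
    intro N
    simp only [birkhoffAverage, birkhoffSum, _root_.id]
    rw [map_smul, map_sum, sum_congr rfl fun n _ => hit n, ← smul_sum, smul_comm]
  have hUVh : UV h = s • h := by
    have a1 : Tendsto (fun N => UV (birkhoffAverage ℂ W _root_.id N F)) atTop (𝓝 (UV h)) :=
      (UV.continuous.tendsto h).comp hlim
    have a2 : Tendsto (fun N => s • birkhoffAverage ℂ W _root_.id N F) atTop (𝓝 (s • h)) :=
      hlim.const_smul s
    simp only [hav] at a1
    exact tendsto_nhds_unique a1 a2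
  have hz0 : h = 0 := by
    apply Lp.ext
    have b1 : ∀ᵐ x ∂μ, z * h (T x) = h x := by
      have a0 : ((z • U h : Lp ℂ 2 μ) : X → ℂ) =ᵐ[μ] h := by rw [← hWa, hfix]
      filter_upwards [a0, Lp.coeFn_smul z (U h), hUa h] with x a1 a2 a3
      rw [← a1, a2]
      simp only [Pi.smul_apply, smul_eq_mul, a3, Function.comp]
    have b2 : ∀ᵐ x ∂μ, h (V x) = s * h x := by
      have a0 : (UV h : X → ℂ) =ᵐ[μ] (s • h : Lp ℂ 2 μ) := by rw [hUVh]
      filter_upwards [a0, Lp.coeFn_smul s h, hUVa h] with x a1 a2 a3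
      rw [a3] at a1
      simp only [Function.comp] at a1
      rw [a1, a2]
      rfl
    exact (er_zero hT hV (Lp.aestronglyMeasurable h) hz hs b1 b2).trans (Lp.coeFn_zero ℂ 2 μ).symm
  rw [hz0] at hlim
  -- the coefficients
  have hrep : ∀ n, (W^[n] F : X → ℂ) =ᵐ[μ] fun x => z ^ n * f (T^[n] x) := by
    intro n
    induction n with
    | zero =>
      filter_upwards [hfm.coeFn_toLp] with x hx
      simpa using hx
    | succ n ih =>
      rw [Function.iterate_succ_apply', hWa]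
      filter_upwards [Lp.coeFn_smul z (U (W^[n] F)), hUa (W^[n] F),
        hTm.quasiMeasurePreserving.ae_eq_comp ih] with x a1 a2 a3
      rw [a1]
      simp only [Pi.smul_apply, smul_eq_mul, a2, Function.comp] at a3 ⊢
      rw [a3, Function.iterate_succ_apply, pow_succ']
      ring
  have hin : ∀ n, inner ℂ F (W^[n] F) = z ^ n * ∫ x, conj (f x) * f (T^[n] x) ∂μ := by
    intro n
    rw [L2.inner_def, ← integral_const_mul]
    refine integral_congr_ae ?_
    filter_upwards [hfm.coeFn_toLp, hrep n] with x a1 a2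
    rw [a2]
    have a1' : F x = f x := a1
    rw [a1', RCLike.inner_apply]
    ring
  have hfin : Tendsto (fun N => inner ℂ F (birkhoffAverage ℂ W _root_.id N F)) atTop (𝓝 (inner ℂ F (0 : Lp ℂ 2 μ))) :=
    (Continuous.tendsto (by fun_prop) (0 : Lp ℂ 2 μ)).comp hlim
  rw [inner_zero_right] at hfin
  refine hfin.congr fun N => ?_
  simp only [birkhoffAverage, birkhoffSum, _root_.id]
  rw [inner_smul_right, inner_sum, sum_congr rfl fun n _ => hin n]

end Pool.Agent.Lib.MP_9fe581_an.HD
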