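import Pool.Agent.Lib.MP_9fe581_an.HD.Defs

/-!
# HD: group extensions of rotations, definitions

`skew α φ (x, y) = (x + α, φ x * y)` on `Td d × G`, `G` a compact group; `pr α φ n x` the products
`φ (x + (n-1) α) ... φ x`; unitary representations; `fixP μ π` the projection on the fixed vectors;
`AG` the unitary cocycle of the matrix coefficients of `π` (times a character of the base) off the fixed vectors.
-/

open Finset MeasureTheory Filter Topology UnitAddTorus
open scoped ComplexConjugate Matrix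

namespace Pool.Agent.Lib.MP_9fe581_an.HD

variable {d : ℕ} {ι : Type} [Fintype ι] [DecidableEq ι] {G : Type} [Group G]

/-- the skew product -/
def skew (α : Td d) (φ : Td d → G) (z : Td d × G) : Td d × G := (z.1 + α, φ z.1 * z.2)

/-- the products of the cocycle -/
def pr (α : Td d) (φ : Td d → G) : ℕ → Td d → G
  | 0, _ => 1
  | n + 1, x => φ (x + n • α) * pr α φ n x

/-- continuous finite dimensional unitary representation -/
structure URep [TopologicalSpace G] (π : G → Matrix ι ι ℂ) : Prop where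
  cont : Continuous π
  one : π 1 = 1
  mul : ∀ g h, π (g * h) = π g * π h
  uni : ∀ g, π g * (π g)ᴴ = 1

/-- the projection onto the fixed vectors -/
noncomputable def fixP [MeasurableSpace G] (μ : Measure G) (π : G → Matrix ι ι ℂ) : Matrix ι ι ℂ :=
  Matrix.of fun i j => ∫ g, π g i j ∂μ

/-- the cocycle of `mFourier k x * ((1 - fixP) * π y) i j` -/
noncomputable def AG [MeasurableSpace G] (μ : Measure G) (π : G → Matrix ι ι ℂ) (k : Fin d → ℤ) (α : Td d)
    (φ : Td d → G) (x : Td d) : Matrix ι ι ℂ :=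
  mFourier k α • ((1 - fixP μ π) * π (φ x))

/-- tensor representation `ρ^{⊗ a} ⊗ conj ρ^{⊗ b}` -/
noncomputable def tens {n : ℕ} (ρ : G → Matrix (Fin n) (Fin n) ℂ) (a b : ℕ) (g : G) :
    Matrix ((Fin a → Fin n) × (Fin b → Fin n)) ((Fin a → Fin n) × (Fin b → Fin n)) ℂ :=
  Matrix.of fun s t => (∏ k, ρ g (s.1 k) (t.1 k)) * ∏ k, conj (ρ g (s.2 k) (t.2 k))

/-- the conclusion: uniform orthogonality of `f` along all orbits to every bounded multiplicative function -/
def UnifOrth {X : Type} (T : X → X) (f : X → ℂ) : Prop :=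
  ∀ u : ℕ → ℂ, BMult u → ∀ ε : ℝ, 0 < ε → ∃ N0 : ℕ, ∀ N ≥ N0, ∀ z : X,
    ‖∑ n ∈ Icc 1 N, u n * f (T^[n] z)‖ ≤ ε * N

end Pool.Agent.Lib.MP_9fe581_an.HD
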