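import Pool.Agent.Lib.MP_9fe581_an.HD.Model

/-!
# HD, module A3, first part: averages of `a (r n)` against `GT.lam`
-/

open Finset MeasureTheory Filter Topology UnitAddTorus
open scoped ComplexConjugate Matrix

namespace Pool.Agent.Lib.MP_9fe581_an.HD

theorem PrimeAvg_C_nonneg {a : ℕ → ℂ} {C : ℝ} (hV : VN a C) : 0 ≤ C := by
  have h := hV (fun _ => 0) 0 0 1 (fun θ => by simp)
  simpa using h

/-- `e` of a nonnegative fraction as in `NoRat` -/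
theorem PrimeAvg_e_neg (b q m : ℕ) (hq : 0 < q) :
    GT.e (-((m : ℝ) * (((b * (q - 1) : ℕ) : ℝ) / (q : ℝ)))) = GT.e ((m : ℝ) * ((b : ℝ) / (q : ℝ))) := by
  have hq' : (q : ℝ) ≠ 0 := by positivity
  have h1 : ((b * (q - 1) : ℕ) : ℝ) = (b : ℝ) * ((q : ℝ) - 1) := by
    rw [Nat.cast_mul, Nat.cast_sub hq, Nat.cast_one]
  have h2 : (m : ℝ) * ((b : ℝ) / (q : ℝ)) =
      -((m : ℝ) * (((b * (q - 1) : ℕ) : ℝ) / (q : ℝ))) + (((m * b : ℕ) : ℤ) : ℝ) := by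
    rw [h1]
    push_cast
    field_simp
    ring
  rw [h2, GT.e_add_int]

theorem PrimeAvg_noRat {a : ℕ → ℂ} (hR : NoRat a) (b q : ℕ) (hq : 0 < q) :
    Tendsto (fun N : ℕ => (1 / (N : ℂ)) * ∑ n ∈ Icc 1 N, a n * GT.e ((n : ℝ) * ((b : ℝ) / q)))
      atTop (𝓝 0) := by
  have h := hR (b * (q - 1)) q hq
  refine h.congr fun N => ?_
  congr 1
  refine Finset.sum_congr rfl fun n _ => ?_
  rw [PrimeAvg_e_neg b q n hq]

/-- detection of the multiples of `r` -/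
theorem PrimeAvg_detect (r : ℕ) (hr : 0 < r) (m : ℕ) :
    ∑ c ∈ range r, GT.e ((m : ℝ) * ((c : ℝ) / r)) = if r ∣ m then (r : ℂ) else 0 := by
  have h := SW.rm_complete r hr (m : ℤ)
  rw [SW.rmG_apply] at h
  rw [← if_congr (Int.natCast_dvd_natCast (m := r) (n := m)) rfl rfl, ← h]
  refine Finset.sum_congr rfl fun c _ => ?_
  congr 1
  push_cast
  ring

/-- the multiples of `r` up to `r N` -/
theorem PrimeAvg_mult (r : ℕ) (hr : 0 < r) (N : ℕ) (f : ℕ → ℂ) :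
    ∑ n ∈ Icc 1 N, f (r * n) = ∑ m ∈ Icc 1 (r * N), if r ∣ m then f m else 0 := by
  rw [← Finset.sum_filter]
  refine Finset.sum_bij (fun n _ => r * n) ?_ ?_ ?_ ?_
  · intro n hn
    rw [mem_Icc] at hn
    rw [mem_filter, mem_Icc]
    exact ⟨⟨Nat.mul_pos hr hn.1, Nat.mul_le_mul_left r hn.2⟩, dvd_mul_right r n⟩
  · intro n _ m _ h
    exact Nat.eq_of_mul_eq_mul_left hr h
  · intro m hm
    rw [mem_filter, mem_Icc] at hm
    obtain ⟨⟨h1, h2⟩, k, rfl⟩ := hm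
    refine ⟨k, ?_, rfl⟩
    rw [mem_Icc]
    refine ⟨?_, Nat.le_of_mul_le_mul_left h2 hr⟩
    rcases Nat.eq_zero_or_pos k with h0 | h0
    · rw [h0, mul_zero] at h1
      omega
    · exact h0
  · intro n _
    rfl

theorem PrimeAvg_rat {a : ℕ → ℂ} (hR : NoRat a) (r b q : ℕ) (hr : 0 < r) (hq : 0 < q) :
    Tendsto (fun N : ℕ => (1 / (N : ℂ)) * ∑ n ∈ Icc 1 N, GT.e ((b : ℝ) / q * n) * a (r * n))
      atTop (𝓝 0) := by
  have hqr : 0 < q * r := Nat.mul_pos hq hr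
  have hrC : (r : ℂ) ≠ 0 := by exact_mod_cast hr.ne'
  have hqR : (q : ℝ) ≠ 0 := by exact_mod_cast hq.ne'
  have hrR : (r : ℝ) ≠ 0 := by exact_mod_cast hr.ne'
  have h1 : ∀ N : ℕ, (1 / (N : ℂ)) * ∑ n ∈ Icc 1 N, GT.e ((b : ℝ) / q * n) * a (r * n) =
      ∑ c ∈ range r, (1 / ((r * N : ℕ) : ℂ)) * ∑ m ∈ Icc 1 (r * N),
        a m * GT.e ((m : ℝ) * (((c * q + b : ℕ) : ℝ) / (q * r : ℕ))) := by
    intro N
    have h2 : ∀ n : ℕ, GT.e ((b : ℝ) / q * n) * a (r * n) =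
        (fun m : ℕ => GT.e ((b : ℝ) / (q * r) * m) * a m) (r * n) := by
      intro n
      simp only
      congr 2
      push_cast
      field_simp
    rw [Finset.sum_congr rfl fun n _ => h2 n,
      PrimeAvg_mult r hr N (fun m : ℕ => GT.e ((b : ℝ) / (q * r) * m) * a m)]
    have h3 : ∀ m : ℕ, (if r ∣ m then GT.e ((b : ℝ) / (q * r) * m) * a m else 0) =
        (1 / (r : ℂ)) * ∑ c ∈ range r, a m * GT.e ((m : ℝ) * (((c * q + b : ℕ) : ℝ) / (q * r : ℕ))) := by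
      intro m
      have h4 : ∀ c ∈ range r, a m * GT.e ((m : ℝ) * (((c * q + b : ℕ) : ℝ) / (q * r : ℕ))) =
          (GT.e ((b : ℝ) / (q * r) * m) * a m) * GT.e ((m : ℝ) * ((c : ℝ) / r)) := by
        intro c _
        have h5 : (m : ℝ) * (((c * q + b : ℕ) : ℝ) / (q * r : ℕ)) =
            (b : ℝ) / (q * r) * m + (m : ℝ) * ((c : ℝ) / r) := by
          push_cast
          field_simp
          ring
        rw [h5, GT.e_add]
        ring
      rw [Finset.sum_congr rfl h4, ← Finset.mul_sum, PrimeAvg_detect r hr m]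
      split_ifs
      · field_simp
      · simp
    rw [Finset.sum_congr rfl fun m _ => h3 m, ← Finset.mul_sum, Finset.sum_comm, ← mul_assoc,
      Finset.mul_sum]
    refine Finset.sum_congr rfl fun c _ => ?_
    congr 1
    push_cast
    rw [one_div_mul_one_div, mul_comm (N : ℂ)]
  rw [show (fun N : ℕ => (1 / (N : ℂ)) * ∑ n ∈ Icc 1 N, GT.e ((b : ℝ) / q * n) * a (r * n)) =
    fun N : ℕ => ∑ c ∈ range r, (1 / ((r * N : ℕ) : ℂ)) * ∑ m ∈ Icc 1 (r * N),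
        a m * GT.e ((m : ℝ) * (((c * q + b : ℕ) : ℝ) / (q * r : ℕ))) from funext h1]
  rw [← Finset.sum_const_zero (s := range r)]
  refine tendsto_finsetSum _ fun c _ => ?_
  have h6 := PrimeAvg_noRat hR (c * q + b) (q * r) hqr
  have h7 : Tendsto (fun N : ℕ => r * N) atTop atTop := Filter.tendsto_id.const_mul_atTop' hr
  exact h6.comp h7

theorem PrimeAvg_gq {a : ℕ → ℂ} (hR : NoRat a) (r q : ℕ) (hr : 0 < r) (hq : Squarefree q) :
    Tendsto (fun N : ℕ => (1 / (N : ℂ)) * ∑ n ∈ Icc 1 N, ((SW.gq q n : ℝ) : ℂ) * a (r * n))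
      atTop (𝓝 0) := by
  have hq0 : 0 < q := Nat.pos_of_ne_zero hq.ne_zero
  have h1 : ∀ N : ℕ, (1 / (N : ℂ)) * ∑ n ∈ Icc 1 N, ((SW.gq q n : ℝ) : ℂ) * a (r * n) =
      ∑ b ∈ (range q).filter (fun b => Nat.Coprime b q),
        (((ArithmeticFunction.moebius q : ℤ) : ℂ) / (q.totient : ℂ)) *
          ((1 / (N : ℂ)) * ∑ n ∈ Icc 1 N, GT.e ((b : ℝ) / q * n) * a (r * n)) := by
    intro N
    rw [← Finset.mul_sum, ← Finset.mul_sum, Finset.sum_comm, Finset.mul_sum, Finset.mul_sum,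
      Finset.mul_sum]
    refine Finset.sum_congr rfl fun n _ => ?_
    rw [SW.gq_eq_exp q hq n, ← Finset.sum_mul]
    push_cast
    ring
  rw [show (fun N : ℕ => (1 / (N : ℂ)) * ∑ n ∈ Icc 1 N, ((SW.gq q n : ℝ) : ℂ) * a (r * n)) =
    fun N : ℕ => ∑ b ∈ (range q).filter (fun b => Nat.Coprime b q),
        (((ArithmeticFunction.moebius q : ℤ) : ℂ) / (q.totient : ℂ)) *
          ((1 / (N : ℂ)) * ∑ n ∈ Icc 1 N, GT.e ((b : ℝ) / q * n) * a (r * n)) from funext h1]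
  rw [← Finset.sum_const_zero (s := (range q).filter (fun b => Nat.Coprime b q))]
  refine tendsto_finsetSum _ fun b _ => ?_
  have h2 := (PrimeAvg_rat hR r b q hr hq0).const_mul
    (((ArithmeticFunction.moebius q : ℤ) : ℂ) / (q.totient : ℂ))
  rwa [mul_zero] at h2

theorem PrimeAvg_LQ {a : ℕ → ℂ} (hR : NoRat a) (r Q0 : ℕ) (hr : 0 < r) :
    Tendsto (fun N : ℕ => (1 / (N : ℂ)) * ∑ n ∈ Icc 1 N,
      ((SW.LQ ((Icc 1 Q0).filter Squarefree) n : ℝ) : ℂ) * a (r * n)) atTop (𝓝 0) := by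
  have h1 : ∀ N : ℕ, (1 / (N : ℂ)) * ∑ n ∈ Icc 1 N,
      ((SW.LQ ((Icc 1 Q0).filter Squarefree) n : ℝ) : ℂ) * a (r * n) =
      ∑ q ∈ (Icc 1 Q0).filter Squarefree,
        (1 / (N : ℂ)) * ∑ n ∈ Icc 1 N, ((SW.gq q n : ℝ) : ℂ) * a (r * n) := by
    intro N
    rw [← Finset.mul_sum, Finset.sum_comm]
    congr 1
    refine Finset.sum_congr rfl fun n _ => ?_
    rw [← Finset.sum_mul]
    congr 1
    unfold SW.LQ
    push_cast
    rfl
  rw [show (fun N : ℕ => (1 / (N : ℂ)) * ∑ n ∈ Icc 1 N,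
      ((SW.LQ ((Icc 1 Q0).filter Squarefree) n : ℝ) : ℂ) * a (r * n)) =
      fun N : ℕ => ∑ q ∈ (Icc 1 Q0).filter Squarefree,
        (1 / (N : ℂ)) * ∑ n ∈ Icc 1 N, ((SW.gq q n : ℝ) : ℂ) * a (r * n) from funext h1]
  rw [← Finset.sum_const_zero (s := (Icc 1 Q0).filter Squarefree)]
  refine tendsto_finsetSum _ fun q hq => ?_
  exact PrimeAvg_gq hR r q hr (mem_filter.1 hq).2

theorem lam_avg (a : ℕ → ℂ) (C : ℝ) (hV : VN a C) (hR : NoRat a) (r : ℕ) (hr : 1 ≤ r) (ε : ℝ) (hε : 0 < ε) :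
    ∃ N0 : ℕ, ∀ N ≥ N0, ‖∑ n ∈ Icc 1 N, ((GT.lam n : ℝ) : ℂ) * a (r * n)‖ ≤ ε * N := by
  have hC := PrimeAvg_C_nonneg hV
  obtain ⟨Q0, N1, h1⟩ := model (ε / (2 * (C + 1))) (by positivity)
  have h2 := PrimeAvg_LQ hR r Q0 hr
  rw [Metric.tendsto_atTop] at h2
  obtain ⟨N2, h2⟩ := h2 (ε / 2) (by positivity)
  refine ⟨max N1 (max N2 1), fun N hN => ?_⟩
  have hN1 : N1 ≤ N := (le_max_left _ _).trans hN
  have hN2 : N2 ≤ N := ((le_max_left _ _).trans (le_max_right _ _)).trans hN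
  have hN3 : 1 ≤ N := ((le_max_right _ _).trans (le_max_right _ _)).trans hN
  have hNR : (0 : ℝ) < N := by exact_mod_cast hN3
  have h3 := hV (fun n => ((GT.lam n - SW.LQ ((Icc 1 Q0).filter Squarefree) n : ℝ) : ℂ)) N r
    (ε / (2 * (C + 1)) * N) (fun θ => h1 N hN1 θ)
  have h4 := h2 N hN2
  rw [dist_zero_right, norm_mul, norm_div, norm_one, Complex.norm_natCast] at h4
  have h5 : ‖∑ n ∈ Icc 1 N, ((SW.LQ ((Icc 1 Q0).filter Squarefree) n : ℝ) : ℂ) * a (r * n)‖ ≤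
      ε / 2 * N := by
    rw [one_div, inv_mul_lt_iff₀ hNR] at h4
    linarith
  have h6 : ∑ n ∈ Icc 1 N, ((GT.lam n : ℝ) : ℂ) * a (r * n) =
      ∑ n ∈ Icc 1 N, ((GT.lam n - SW.LQ ((Icc 1 Q0).filter Squarefree) n : ℝ) : ℂ) * a (r * n) +
      ∑ n ∈ Icc 1 N, ((SW.LQ ((Icc 1 Q0).filter Squarefree) n : ℝ) : ℂ) * a (r * n) := by
    rw [← Finset.sum_add_distrib]
    refine Finset.sum_congr rfl fun n _ => ?_
    push_cast
    ring
  have h7 : C * (ε / (2 * (C + 1)) * N) ≤ ε / 2 * N := by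
    have h8 : C * (ε / (2 * (C + 1)) * N) = C / (C + 1) * (ε / 2 * N) := by
      field_simp
    rw [h8]
    have h9 : C / (C + 1) ≤ 1 := by
      rw [div_le_one (by linarith)]
      linarith
    have h10 : 0 ≤ ε / 2 * N := by positivity
    nlinarith
  rw [h6]
  calc _ ≤ _ := norm_add_le _ _
    _ ≤ C * (ε / (2 * (C + 1)) * N) + ε / 2 * N := add_le_add h3 h5
    _ ≤ ε / 2 * N + ε / 2 * N := by linarith
    _ = ε * N := by ring

end Pool.Agent.Lib.MP_9fe581_an.HD
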