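import Pool.Agent.Lib.MP_9fe581_an.HD.Equi
import Pool.Agent.Lib.MP_9fe581_an.HD.CBasic

/-!
# HD, non-ergodic case: reduction to short exponential sums

`ShortOrth u w`: the averages `(1/L) |∑_{l < L} u (n + l) w^l|` are small for most n (L large, then N large).
`ne_core`: if continuous functions `T l` are, up to `δ` in `L^1`, of the form `∑_s w_s^l a_s(y + l α) b_s(y)` with bounded
measurable `a_s, b_s`, then `∑_{l < L} u (n + l) T_l(x + n α)` is small on average, uniformly in `x`.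
-/

open Finset MeasureTheory Filter Topology UnitAddTorus
open scoped ComplexConjugate Matrix

namespace Pool.Agent.Lib.MP_9fe581_an.HD

variable {d : ℕ} {α : Td d}

/-- orthogonality to `w^n` on short intervals -/
def ShortOrth (u : ℕ → ℂ) (w : ℂ) : Prop := ∀ η : ℝ, 0 < η → ∃ L0 : ℕ, ∀ L ≥ L0, ∃ N0 : ℕ, ∀ N ≥ N0,
  ∑ n ∈ Icc 1 N, ‖∑ l ∈ range L, u (n + l) * w ^ l‖ ≤ η * L * N

/-- same with a continuous function on the torus along the orbit, uniformly in the point -/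
def ContShort (u : ℕ → ℂ) (α : Td d) (w : ℂ) (a : C(Td d, ℂ)) : Prop := ∀ η : ℝ, 0 < η → ∃ L0 : ℕ, ∀ L ≥ L0,
  ∃ N0 : ℕ, ∀ N ≥ N0, ∀ x : Td d,
    ∑ n ∈ Icc 1 N, ‖∑ l ∈ range L, u (n + l) * (w ^ l * a (x + (n + l) • α))‖ ≤ η * L * N

theorem cs_mono {u : ℕ → ℂ} (w : ℂ) (k : Fin d → ℤ) (hS : ShortOrth u (w * mFourier k α)) :
    ContShort u α w (mFourier k) := by
  intro η hη
  obtain ⟨L0, h0⟩ := hS η hη
  refine ⟨L0, fun L hL => ?_⟩
  obtain ⟨N0, h1⟩ := h0 L hL
  refine ⟨N0, fun N hN x => (le_of_eq ?_).trans (h1 N hN)⟩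
  refine Finset.sum_congr rfl fun n _ => ?_
  have h2 : ∑ l ∈ range L, u (n + l) * (w ^ l * mFourier k (x + (n + l) • α)) =
      mFourier k (x + n • α) * ∑ l ∈ range L, u (n + l) * (w * mFourier k α) ^ l := by
    rw [Finset.mul_sum]
    refine Finset.sum_congr rfl fun l _ => ?_
    rw [add_smul, ← add_assoc, eq_mF_add, eq_mF_nsmul k α l, mul_pow]
    ring
  rw [h2, norm_mul, eq_mF_norm, one_mul]

theorem cs_add {u : ℕ → ℂ} {w : ℂ} {a b : C(Td d, ℂ)} (ha : ContShort u α w a) (hb : ContShort u α w b) :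
    ContShort u α w (a + b) := by
  intro η hη
  obtain ⟨L1, h1⟩ := ha (η / 2) (by linarith)
  obtain ⟨L2, h2⟩ := hb (η / 2) (by linarith)
  refine ⟨max L1 L2, fun L hL => ?_⟩
  obtain ⟨N1, g1⟩ := h1 L (le_trans (le_max_left _ _) hL)
  obtain ⟨N2, g2⟩ := h2 L (le_trans (le_max_right _ _) hL)
  refine ⟨max N1 N2, fun N hN x => ?_⟩
  have e1 := g1 N (le_trans (le_max_left _ _) hN) x
  have e2 := g2 N (le_trans (le_max_right _ _) hN) x
  have e3 : ∀ n ∈ Icc 1 N, ‖∑ l ∈ range L, u (n + l) * (w ^ l * (a + b) (x + (n + l) • α))‖ ≤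
      ‖∑ l ∈ range L, u (n + l) * (w ^ l * a (x + (n + l) • α))‖ +
      ‖∑ l ∈ range L, u (n + l) * (w ^ l * b (x + (n + l) • α))‖ := by
    intro n _
    have : ∑ l ∈ range L, u (n + l) * (w ^ l * (a + b) (x + (n + l) • α)) =
        ∑ l ∈ range L, u (n + l) * (w ^ l * a (x + (n + l) • α)) +
        ∑ l ∈ range L, u (n + l) * (w ^ l * b (x + (n + l) • α)) := by
      rw [← Finset.sum_add_distrib]
      refine Finset.sum_congr rfl fun l _ => ?_
      rw [ContinuousMap.add_apply]; ring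
    rw [this]; exact norm_add_le _ _
  refine (Finset.sum_le_sum e3).trans ?_
  rw [Finset.sum_add_distrib]
  linarith

theorem cs_smul {u : ℕ → ℂ} {w : ℂ} (c : ℂ) {a : C(Td d, ℂ)} (ha : ContShort u α w a) :
    ContShort u α w (c • a) := by
  intro η hη
  have hc : 0 < ‖c‖ + 1 := by positivity
  obtain ⟨L1, h1⟩ := ha (η / (‖c‖ + 1)) (by positivity)
  refine ⟨L1, fun L hL => ?_⟩
  obtain ⟨N1, g1⟩ := h1 L hL
  refine ⟨N1, fun N hN x => ?_⟩
  have e1 := g1 N hN x
  have e3 : ∑ n ∈ Icc 1 N, ‖∑ l ∈ range L, u (n + l) * (w ^ l * (c • a) (x + (n + l) • α))‖ =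
      ‖c‖ * ∑ n ∈ Icc 1 N, ‖∑ l ∈ range L, u (n + l) * (w ^ l * a (x + (n + l) • α))‖ := by
    rw [Finset.mul_sum]
    refine Finset.sum_congr rfl fun n _ => ?_
    rw [← norm_mul, Finset.mul_sum]
    congr 1
    refine Finset.sum_congr rfl fun l _ => ?_
    rw [ContinuousMap.smul_apply, smul_eq_mul]; ring
  rw [e3]
  have h0 : 0 ≤ ∑ n ∈ Icc 1 N, ‖∑ l ∈ range L, u (n + l) * (w ^ l * a (x + (n + l) • α))‖ :=
    Finset.sum_nonneg fun _ _ => norm_nonneg _
  calc ‖c‖ * ∑ n ∈ Icc 1 N, ‖∑ l ∈ range L, u (n + l) * (w ^ l * a (x + (n + l) • α))‖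
      ≤ (‖c‖ + 1) * (η / (‖c‖ + 1) * L * N) := by
        apply mul_le_mul (by linarith) e1 h0 hc.le
    _ = η * L * N := by field_simp

theorem cs_zero {u : ℕ → ℂ} {w : ℂ} : ContShort u α w (0 : C(Td d, ℂ)) := by
  intro η hη
  refine ⟨0, fun L _ => ⟨0, fun N _ x => ?_⟩⟩
  simp only [ContinuousMap.zero_apply, mul_zero, Finset.sum_const_zero, norm_zero]
  positivity

theorem cs_all {u : ℕ → ℂ} (hu : ∀ n, ‖u n‖ ≤ 1) (hS : ∀ w : ℂ, ‖w‖ = 1 → ShortOrth u w) (w : ℂ) (hw : ‖w‖ = 1)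
    (a : C(Td d, ℂ)) : ContShort u α w a := by
  have hspan : ∀ a' ∈ Submodule.span ℂ (Set.range (mFourier (d := Fin d))), ContShort u α w a' := by
    intro a' h'
    induction h' using Submodule.span_induction with
    | mem y hy =>
      obtain ⟨k, rfl⟩ := hy
      exact cs_mono w k (hS _ (by rw [norm_mul, hw, eq_mF_norm, one_mul]))
    | zero => exact cs_zero
    | add y z _ _ hy hz => exact cs_add hy hz
    | smul c y _ hy => exact cs_smul c hy
  have hmem' : a ∈ closure (Submodule.span ℂ (Set.range (mFourier (d := Fin d))) : Set _) := by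
    rw [← Submodule.topologicalClosure_coe, span_mFourier_closure_eq_top]
    trivial
  intro η hη
  obtain ⟨a', ha', hd⟩ := Metric.mem_closure_iff.1 hmem' (η / 2) (by linarith)
  obtain ⟨L1, h1⟩ := hspan a' ha' (η / 2) (by linarith)
  refine ⟨L1, fun L hL => ?_⟩
  obtain ⟨N1, g1⟩ := h1 L hL
  refine ⟨N1, fun N hN x => ?_⟩
  have e1 := g1 N hN x
  have e3 : ∀ n ∈ Icc 1 N, ‖∑ l ∈ range L, u (n + l) * (w ^ l * a (x + (n + l) • α))‖ ≤
      ‖∑ l ∈ range L, u (n + l) * (w ^ l * a' (x + (n + l) • α))‖ + (η / 2) * L := by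
    intro n _
    have e4 : ∑ l ∈ range L, u (n + l) * (w ^ l * a (x + (n + l) • α)) =
        ∑ l ∈ range L, u (n + l) * (w ^ l * a' (x + (n + l) • α)) +
        ∑ l ∈ range L, u (n + l) * (w ^ l * (a - a') (x + (n + l) • α)) := by
      rw [← Finset.sum_add_distrib]
      refine Finset.sum_congr rfl fun l _ => ?_
      rw [ContinuousMap.sub_apply]; ring
    have e5 : ‖∑ l ∈ range L, u (n + l) * (w ^ l * (a - a') (x + (n + l) • α))‖ ≤ (η / 2) * L := by
      refine (norm_sum_le _ _).trans ?_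
      have : ∀ l ∈ range L, ‖u (n + l) * (w ^ l * (a - a') (x + (n + l) • α))‖ ≤ η / 2 := by
        intro l _
        rw [norm_mul, norm_mul, norm_pow, hw, one_pow, one_mul]
        have h6 : ‖(a - a') (x + (n + l) • α)‖ ≤ η / 2 := by
          refine ((a - a').norm_coe_le_norm _).trans ?_
          rw [← dist_eq_norm]; exact hd.le
        calc ‖u (n + l)‖ * ‖(a - a') (x + (n + l) • α)‖ ≤ 1 * (η / 2) :=
              mul_le_mul (hu _) h6 (norm_nonneg _) zero_le_one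
          _ = η / 2 := one_mul _
      refine (Finset.sum_le_sum this).trans (le_of_eq ?_)
      rw [Finset.sum_const, Finset.card_range, nsmul_eq_mul]; ring
    rw [e4]
    exact (norm_add_le _ _).trans (by linarith)
  refine (Finset.sum_le_sum e3).trans ?_
  rw [Finset.sum_add_distrib, Finset.sum_const, Nat.card_Icc, Nat.add_sub_cancel, nsmul_eq_mul]
  linarith [e1]

/-- approximation of a bounded measurable function by a continuous one with the same bound -/
theorem ne_approx {a : Td d → ℂ} (ha : AEStronglyMeasurable a (mT d)) (ha1 : ∀ y, ‖a y‖ ≤ 1) (ε : ℝ) (hε : 0 < ε) :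
    ∃ b : C(Td d, ℂ), (∀ y, ‖b y‖ ≤ 1) ∧ ∫ y, ‖a y - b y‖ ∂mT d ≤ ε := by
  have hint : Integrable a (mT d) := (MemLp.of_bound ha 1 (Eventually.of_forall ha1)).integrable le_rfl
  obtain ⟨g, hg, hgi⟩ := hint.exists_boundedContinuous_integral_sub_le (ε := ε / 2) (by linarith)
  have hcont : Continuous fun y => (((max 1 ‖g y‖ : ℝ) : ℂ))⁻¹ * g y := by
    refine Continuous.mul (Continuous.inv₀ ?_ ?_) g.continuous
    · exact Complex.continuous_ofReal.comp (continuous_const.max g.continuous.norm)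
    · intro y
      have : (0 : ℝ) < max 1 ‖g y‖ := lt_of_lt_of_le one_pos (le_max_left _ _)
      exact_mod_cast this.ne'
  refine ⟨⟨_, hcont⟩, fun y => ?_, ?_⟩
  · have h0 : (0 : ℝ) < max 1 ‖g y‖ := lt_of_lt_of_le one_pos (le_max_left _ _)
    rw [ContinuousMap.coe_mk, norm_mul, norm_inv, Complex.norm_real, Real.norm_of_nonneg h0.le, inv_mul_le_iff₀ h0, mul_one]
    exact le_max_right _ _
  · have hb : ∀ y, ‖a y - (((max 1 ‖g y‖ : ℝ) : ℂ))⁻¹ * g y‖ ≤ 2 * ‖a y - g y‖ := by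
      intro y
      have h0 : (0 : ℝ) < max 1 ‖g y‖ := lt_of_lt_of_le one_pos (le_max_left _ _)
      have h1 : ‖g y - (((max 1 ‖g y‖ : ℝ) : ℂ))⁻¹ * g y‖ ≤ ‖a y - g y‖ := by
        have h2 : g y - (((max 1 ‖g y‖ : ℝ) : ℂ))⁻¹ * g y = ((1 - (max 1 ‖g y‖)⁻¹ : ℝ) : ℂ) * g y := by
          push_cast; ring
        have h3 : 0 ≤ 1 - (max 1 ‖g y‖)⁻¹ := by
          have : (max 1 ‖g y‖)⁻¹ ≤ 1 := inv_le_one_of_one_le₀ (le_max_left _ _)
          linarith
        rw [h2, norm_mul, Complex.norm_real, Real.norm_of_nonneg h3]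
        rcases le_total ‖g y‖ 1 with h4 | h4
        · rw [max_eq_left h4]; simp
        · rw [max_eq_right h4]
          have h5 : (1 - ‖g y‖⁻¹) * ‖g y‖ = ‖g y‖ - 1 := by
            have : ‖g y‖ ≠ 0 := by positivity
            field_simp
          rw [h5]
          have h6 : ‖g y‖ ≤ ‖a y‖ + ‖a y - g y‖ := by
            have := norm_sub_le (a y) (a y - g y)
            rwa [sub_sub_cancel] at this
          linarith [ha1 y]
      calc ‖a y - (((max 1 ‖g y‖ : ℝ) : ℂ))⁻¹ * g y‖ = ‖(a y - g y) + (g y - (((max 1 ‖g y‖ : ℝ) : ℂ))⁻¹ * g y)‖ := by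
            congr 1; ring
        _ ≤ ‖a y - g y‖ + ‖g y - (((max 1 ‖g y‖ : ℝ) : ℂ))⁻¹ * g y‖ := norm_add_le _ _
        _ ≤ 2 * ‖a y - g y‖ := by linarith
    have hi1 : Integrable (fun y => 2 * ‖a y - g y‖) (mT d) := (hint.sub hgi).norm.const_mul 2
    calc ∫ y, ‖a y - (((max 1 ‖g y‖ : ℝ) : ℂ))⁻¹ * g y‖ ∂mT d ≤ ∫ y, 2 * ‖a y - g y‖ ∂mT d :=
          integral_mono_of_nonneg (Eventually.of_forall fun y => norm_nonneg _) hi1 (Eventually.of_forall hb)
      _ = 2 * ∫ y, ‖a y - g y‖ ∂mT d := integral_const_mul _ _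
      _ ≤ ε := by linarith

/-- uniform averages of a nonnegative continuous function -/
theorem ne_equi (hα : ∀ k : Fin d → ℤ, k ≠ 0 → mFourier k α ≠ 1) (E : Td d → ℝ) (hE : Continuous E) (ε : ℝ) (hε : 0 < ε) :
    ∃ N0 : ℕ, ∀ N ≥ N0, ∀ x : Td d, ∑ n ∈ Icc 1 N, E (x + n • α) ≤ (∫ t, E t ∂mT d + ε) * N := by
  have hc : Continuous fun z : Td d × Td d => ((E z.1 : ℝ) : ℂ) :=
    Complex.continuous_ofReal.comp (hE.comp continuous_fst)
  obtain ⟨M0, h0⟩ := equi hα 1 0 ⟨_, hc⟩ ε hε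
  refine ⟨max M0 1, fun N hN x => ?_⟩
  have hN0 : M0 ≤ N := le_trans (le_max_left _ _) hN
  have hN1 : (0 : ℝ) < N := by
    have : 1 ≤ N := le_trans (le_max_right _ _) hN
    exact_mod_cast this
  have h1 := h0 N hN0 x
  simp only [ContinuousMap.coe_mk, one_mul, one_smul] at h1
  have h2 : ∫ t, ((E (x + t) : ℝ) : ℂ) ∂mT d = ((∫ t, E t ∂mT d : ℝ) : ℂ) := by
    rw [integral_complex_ofReal, integral_add_left_eq_self (μ := mT d) E x]
  rw [h2] at h1
  have h3 : (1 / (N : ℂ)) * ∑ m ∈ Icc 1 N, ((E (x + m • α) : ℝ) : ℂ) - ((∫ t, E t ∂mT d : ℝ) : ℂ) =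
      (((1 / (N : ℝ)) * ∑ m ∈ Icc 1 N, E (x + m • α) - ∫ t, E t ∂mT d : ℝ) : ℂ) := by
    push_cast; ring
  rw [h3, Complex.norm_real] at h1
  have h4 := (abs_le.1 h1).2
  have h5 : (1 / (N : ℝ)) * ∑ m ∈ Icc 1 N, E (x + m • α) ≤ ∫ t, E t ∂mT d + ε := by linarith
  have h6 : ∑ m ∈ Icc 1 N, E (x + m • α) = N * ((1 / (N : ℝ)) * ∑ m ∈ Icc 1 N, E (x + m • α)) := by
    field_simp
  rw [h6, mul_comm]
  exact mul_le_mul_of_nonneg_right h5 hN1.le

/-- core of the non-ergodic case -/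
theorem ne_core (hα : ∀ k : Fin d → ℤ, k ≠ 0 → mFourier k α ≠ 1) {u : ℕ → ℂ} (hu : ∀ n, ‖u n‖ ≤ 1)
    (hS : ∀ w : ℂ, ‖w‖ = 1 → ShortOrth u w) {S : Type} [Fintype S] (w : S → ℂ) (hw : ∀ s, ‖w s‖ = 1)
    (a b : S → Td d → ℂ) (ha : ∀ s, AEStronglyMeasurable (a s) (mT d)) (hb : ∀ s, AEStronglyMeasurable (b s) (mT d))
    (ha1 : ∀ s y, ‖a s y‖ ≤ 1) (hb1 : ∀ s y, ‖b s y‖ ≤ 1)
    (T : ℕ → Td d → ℂ) (hT : ∀ l, Continuous (T l)) (δ : ℝ)
    (hδ : ∀ l, ∫ y, ‖T l y - ∑ s, w s ^ l * a s (y + l • α) * b s y‖ ∂mT d ≤ δ) (ε : ℝ) (hε : 0 < ε) :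
    ∃ L0 : ℕ, ∀ L ≥ L0, ∃ N0 : ℕ, ∀ N ≥ N0, ∀ x : Td d,
      ∑ n ∈ Icc 1 N, ‖∑ l ∈ range L, u (n + l) * T l (x + n • α)‖ ≤ (δ + ε) * L * N := by
  classical
  set K : ℝ := (Fintype.card S : ℝ) with hK
  have hK0 : 0 ≤ K := Nat.cast_nonneg _
  set ε1 : ℝ := ε / (4 * (K + 1)) with hε1
  have hε1p : 0 < ε1 := by positivity
  choose a' ha'1 ha' using fun s => ne_approx (ha s) (ha1 s) ε1 hε1p
  choose b' hb'1 hb' using fun s => ne_approx (hb s) (hb1 s) ε1 hε1p
  choose L0 hL0 using fun s => cs_all (α := α) hu hS (w s) (hw s) (a' s) ε1 hε1p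
  refine ⟨∑ s, L0 s + 1, fun L hL => ?_⟩
  have hLs : ∀ s, L0 s ≤ L := fun s => by
    have := Finset.single_le_sum (fun i _ => Nat.zero_le (L0 i)) (Finset.mem_univ s)
    omega
  have hL1 : (1 : ℝ) ≤ L := by
    have : 1 ≤ L := by omega
    exact_mod_cast this
  choose N0 hN0 using fun s => hL0 s L (hLs s)
  -- the error function
  set E : Td d → ℝ := fun y => ∑ l ∈ range L, ‖T l y - ∑ s, w s ^ l * a' s (y + l • α) * b' s y‖ with hEdef
  have hEc : Continuous E := by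
    refine continuous_finsetSum _ fun l _ => Continuous.norm ((hT l).sub (continuous_finsetSum _ fun s _ => ?_))
    exact (continuous_const.mul ((a' s).continuous.comp (continuous_id.add continuous_const))).mul (b' s).continuous
  have hint : ∀ {f : Td d → ℂ}, AEStronglyMeasurable f (mT d) → ∀ C : ℝ, (∀ y, ‖f y‖ ≤ C) → Integrable f (mT d) :=
    fun hf C hC => (MemLp.of_bound hf C (Eventually.of_forall hC)).integrable le_rfl
  have hshift : ∀ (f : Td d → ℂ) (l : ℕ), AEStronglyMeasurable f (mT d) → AEStronglyMeasurable (fun y => f (y + l • α)) (mT d) :=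
    fun f l hf => hf.comp_quasiMeasurePreserving (measurePreserving_add_right (mT d) (l • α)).quasiMeasurePreserving
  have hTi : ∀ l, Integrable (T l) (mT d) := fun l =>
    (hT l).integrable_of_hasCompactSupport (HasCompactSupport.of_compactSpace _)
  have hai : ∀ s, Integrable (fun y => a s y - a' s y) (mT d) := fun s =>
    (hint (ha s) 1 (ha1 s)).sub (hint (a' s).continuous.aestronglyMeasurable 1 (ha'1 s))
  have hbi : ∀ s, Integrable (fun y => b s y - b' s y) (mT d) := fun s =>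
    (hint (hb s) 1 (hb1 s)).sub (hint (b' s).continuous.aestronglyMeasurable 1 (hb'1 s))
  have hprod : ∀ s l, Integrable (fun y => w s ^ l * a s (y + l • α) * b s y) (mT d) := by
    intro s l
    refine hint (((hshift (a s) l (ha s)).const_mul _).mul (hb s)) 1 fun y => ?_
    rw [norm_mul, norm_mul, norm_pow, hw s, one_pow, one_mul]
    exact mul_le_one₀ (ha1 s _) (norm_nonneg _) (hb1 s _)
  have hterm : ∀ l, ∫ y, ‖T l y - ∑ s, w s ^ l * a' s (y + l • α) * b' s y‖ ∂mT d ≤ δ + K * (2 * ε1) := by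
    intro l
    have hpt : ∀ y, ‖T l y - ∑ s, w s ^ l * a' s (y + l • α) * b' s y‖ ≤
        ‖T l y - ∑ s, w s ^ l * a s (y + l • α) * b s y‖ +
          ∑ s, (‖(fun z => a s z - a' s z) (y + l • α)‖ + ‖b s y - b' s y‖) := by
      intro y
      have e1 : T l y - ∑ s, w s ^ l * a' s (y + l • α) * b' s y =
          (T l y - ∑ s, w s ^ l * a s (y + l • α) * b s y) +
          ∑ s, w s ^ l * ((a s (y + l • α) - a' s (y + l • α)) * b s y + a' s (y + l • α) * (b s y - b' s y)) := by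
        have : ∑ s, w s ^ l * ((a s (y + l • α) - a' s (y + l • α)) * b s y + a' s (y + l • α) * (b s y - b' s y)) =
            ∑ s, w s ^ l * a s (y + l • α) * b s y - ∑ s, w s ^ l * a' s (y + l • α) * b' s y := by
          rw [← Finset.sum_sub_distrib]
          exact Finset.sum_congr rfl fun s _ => by ring
        rw [this]; ring
      rw [e1]
      refine (norm_add_le _ _).trans (add_le_add le_rfl ((norm_sum_le _ _).trans (Finset.sum_le_sum fun s _ => ?_)))
      rw [norm_mul, norm_pow, hw s, one_pow, one_mul]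
      refine (norm_add_le _ _).trans (add_le_add ?_ ?_)
      · rw [norm_mul]
        exact mul_le_of_le_one_right (norm_nonneg _) (hb1 s y)
      · rw [norm_mul]
        exact mul_le_of_le_one_left (norm_nonneg _) (ha'1 s _)
    have hi1 : Integrable (fun y => ‖T l y - ∑ s, w s ^ l * a s (y + l • α) * b s y‖) (mT d) :=
      ((hTi l).sub (integrable_finsetSum _ fun s _ => hprod s l)).norm
    have hi2 : ∀ s, Integrable (fun y => ‖(fun z => a s z - a' s z) (y + l • α)‖) (mT d) := fun s =>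
      ((hai s).comp_add_right (l • α)).norm
    have hi3 : ∀ s, Integrable (fun y => ‖b s y - b' s y‖) (mT d) := fun s => (hbi s).norm
    have hi4 : Integrable (fun y => ∑ s, (‖(fun z => a s z - a' s z) (y + l • α)‖ + ‖b s y - b' s y‖)) (mT d) :=
      integrable_finsetSum _ fun s _ => (hi2 s).add (hi3 s)
    calc ∫ y, ‖T l y - ∑ s, w s ^ l * a' s (y + l • α) * b' s y‖ ∂mT d
        ≤ ∫ y, (‖T l y - ∑ s, w s ^ l * a s (y + l • α) * b s y‖ +
          ∑ s, (‖(fun z => a s z - a' s z) (y + l • α)‖ + ‖b s y - b' s y‖)) ∂mT d :=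
          integral_mono_of_nonneg (Eventually.of_forall fun y => norm_nonneg _) (hi1.add hi4) (Eventually.of_forall hpt)
      _ = ∫ y, ‖T l y - ∑ s, w s ^ l * a s (y + l • α) * b s y‖ ∂mT d +
          ∑ s, (∫ y, ‖a s y - a' s y‖ ∂mT d + ∫ y, ‖b s y - b' s y‖ ∂mT d) := by
          have hi5 : ∫ y, ∑ s, (‖(fun z => a s z - a' s z) (y + l • α)‖ + ‖b s y - b' s y‖) ∂mT d =
              ∑ s, ∫ y, (‖(fun z => a s z - a' s z) (y + l • α)‖ + ‖b s y - b' s y‖) ∂mT d :=
            integral_finsetSum _ fun s _ => (hi2 s).add (hi3 s)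
          rw [integral_add hi1 hi4, hi5]
          congr 1
          refine Finset.sum_congr rfl fun s _ => ?_
          rw [integral_add (hi2 s) (hi3 s)]
          congr 1
          exact integral_add_right_eq_self (μ := mT d) (fun z => ‖a s z - a' s z‖) (l • α)
      _ ≤ δ + ∑ _s : S, (ε1 + ε1) := by
          gcongr with s
          · exact hδ l
          · exact ha' s
          · exact hb' s
      _ = δ + K * (2 * ε1) := by
          rw [Finset.sum_const, Finset.card_univ, nsmul_eq_mul]; ring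
  have hEint : ∫ y, E y ∂mT d ≤ L * (δ + K * (2 * ε1)) := by
    rw [hEdef, integral_finsetSum _ fun l _ => ?_]
    · refine (Finset.sum_le_sum fun l _ => hterm l).trans (le_of_eq ?_)
      rw [Finset.sum_const, Finset.card_range, nsmul_eq_mul]
    · refine Continuous.integrable_of_hasCompactSupport ?_ (HasCompactSupport.of_compactSpace _)
      refine Continuous.norm ((hT l).sub (continuous_finsetSum _ fun s _ => ?_))
      exact (continuous_const.mul ((a' s).continuous.comp (continuous_id.add continuous_const))).mul (b' s).continuous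
  obtain ⟨N1, hN1⟩ := ne_equi hα E hEc (ε1 / 1) (by positivity)
  refine ⟨N1 + ∑ s, N0 s, fun N hN x => ?_⟩
  have hNs : ∀ s, N0 s ≤ N := fun s => by
    have := Finset.single_le_sum (fun i _ => Nat.zero_le (N0 i)) (Finset.mem_univ s)
    omega
  have hEN := hN1 N (by omega) x
  have hn : ∀ n ∈ Icc 1 N, ‖∑ l ∈ range L, u (n + l) * T l (x + n • α)‖ ≤ E (x + n • α) +
      ∑ s, ‖∑ l ∈ range L, u (n + l) * (w s ^ l * a' s (x + (n + l) • α))‖ := by
    intro n _
    set y := x + n • α with hy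
    have hyl : ∀ l : ℕ, x + (n + l) • α = y + l • α := fun l => by rw [hy, add_smul, add_assoc]
    simp_rw [hyl]
    have e1 : ∑ l ∈ range L, u (n + l) * T l y =
        ∑ l ∈ range L, u (n + l) * (T l y - ∑ s, w s ^ l * a' s (y + l • α) * b' s y) +
        ∑ s, (∑ l ∈ range L, u (n + l) * (w s ^ l * a' s (y + l • α))) * b' s y := by
      have e2 : ∑ s, (∑ l ∈ range L, u (n + l) * (w s ^ l * a' s (y + l • α))) * b' s y =
          ∑ l ∈ range L, u (n + l) * ∑ s, w s ^ l * a' s (y + l • α) * b' s y := by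
        simp_rw [Finset.sum_mul, Finset.mul_sum]
        rw [Finset.sum_comm]
        exact Finset.sum_congr rfl fun l _ => Finset.sum_congr rfl fun s _ => by ring
      rw [e2, ← Finset.sum_add_distrib]
      exact Finset.sum_congr rfl fun l _ => by ring
    rw [e1]
    refine (norm_add_le _ _).trans (add_le_add ((norm_sum_le _ _).trans (Finset.sum_le_sum fun l _ => ?_))
      ((norm_sum_le _ _).trans (Finset.sum_le_sum fun s _ => ?_)))
    · rw [norm_mul]
      exact mul_le_of_le_one_left (norm_nonneg _) (hu _)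
    · rw [norm_mul]
      exact mul_le_of_le_one_right (norm_nonneg _) (hb'1 s y)
  refine (Finset.sum_le_sum hn).trans ?_
  rw [Finset.sum_add_distrib]
  have h6 : ∑ n ∈ Icc 1 N, ∑ s, ‖∑ l ∈ range L, u (n + l) * (w s ^ l * a' s (x + (n + l) • α))‖ =
      ∑ s, ∑ n ∈ Icc 1 N, ‖∑ l ∈ range L, u (n + l) * (w s ^ l * a' s (x + (n + l) • α))‖ := Finset.sum_comm
  rw [h6]
  have h7 : ∑ s, ∑ n ∈ Icc 1 N, ‖∑ l ∈ range L, u (n + l) * (w s ^ l * a' s (x + (n + l) • α))‖ ≤ K * (ε1 * L * N) := by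
    refine (Finset.sum_le_sum fun s _ => hN0 s N (hNs s) x).trans (le_of_eq ?_)
    rw [Finset.sum_const, Finset.card_univ, nsmul_eq_mul]
  have hN' : (0 : ℝ) ≤ N := Nat.cast_nonneg _
  have h8 : (∫ t, E t ∂mT d + ε1 / 1) * N ≤ (L * (δ + K * (2 * ε1)) + ε1 * L) * N := by
    apply mul_le_mul_of_nonneg_right _ hN'
    rw [div_one]
    nlinarith [hEint]
  have h9 : (3 * K + 1) * ε1 ≤ ε := by
    rw [hε1, mul_div_assoc', div_le_iff₀ (by positivity)]
    nlinarith
  have h10 : 0 ≤ (L : ℝ) * N := by positivity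
  have h11 := mul_le_mul_of_nonneg_right h9 h10
  calc _ ≤ (L * (δ + K * (2 * ε1)) + ε1 * L) * N + K * (ε1 * L * N) := add_le_add (hEN.trans h8) h7
    _ = δ * (L * N) + (3 * K + 1) * ε1 * (L * N) := by ring
    _ ≤ δ * (L * N) + ε * (L * N) := by linarith
    _ = (δ + ε) * L * N := by ring

/-- averaging over blocks -/
theorem ne_block (a : ℕ → ℂ) (B : ℝ) (ha : ∀ n, ‖a n‖ ≤ B) (L N : ℕ) :
    L * ‖∑ n ∈ Icc 1 N, a n‖ ≤ ∑ n ∈ Icc 1 N, ‖∑ l ∈ range L, a (n + l)‖ + L * (2 * B * L) := by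
  have hB : 0 ≤ B := (norm_nonneg _).trans (ha 0)
  have htel : ∀ (b : ℕ → ℂ) (N : ℕ), ∑ n ∈ Icc 1 N, (b (n + 1) - b n) = b (N + 1) - b 1 := by
    intro b N
    induction N with
    | zero => simp
    | succ N ih => rw [Finset.sum_Icc_succ_top (by omega), ih]; ring
  have hstep : ∀ l : ℕ, ‖∑ n ∈ Icc 1 N, a (n + l) - ∑ n ∈ Icc 1 N, a n‖ ≤ 2 * B * l := by
    intro l
    induction l with
    | zero => simp
    | succ l ih =>
      have e1 : ∑ n ∈ Icc 1 N, a (n + (l + 1)) - ∑ n ∈ Icc 1 N, a n =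
          (a (N + 1 + l) - a (1 + l)) + (∑ n ∈ Icc 1 N, a (n + l) - ∑ n ∈ Icc 1 N, a n) := by
        rw [← htel (fun n => a (n + l)) N, Finset.sum_sub_distrib]
        have : ∀ n, a (n + 1 + l) = a (n + (l + 1)) := fun n => by congr 1; ring
        simp_rw [this]
        ring
      rw [e1]
      refine (norm_add_le _ _).trans ?_
      have e2 : ‖a (N + 1 + l) - a (1 + l)‖ ≤ 2 * B :=
        (norm_sub_le _ _).trans (by linarith [ha (N + 1 + l), ha (1 + l)])
      push_cast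
      linarith
  have h1 : (L : ℂ) * ∑ n ∈ Icc 1 N, a n = ∑ n ∈ Icc 1 N, ∑ l ∈ range L, a (n + l) -
      ∑ l ∈ range L, (∑ n ∈ Icc 1 N, a (n + l) - ∑ n ∈ Icc 1 N, a n) := by
    rw [Finset.sum_sub_distrib, Finset.sum_const, Finset.card_range, nsmul_eq_mul, Finset.sum_comm]
    ring
  have h2 : L * ‖∑ n ∈ Icc 1 N, a n‖ = ‖(L : ℂ) * ∑ n ∈ Icc 1 N, a n‖ := by
    rw [norm_mul, Complex.norm_natCast]
  rw [h2, h1]
  refine (norm_sub_le _ _).trans (add_le_add (norm_sum_le _ _) ((norm_sum_le _ _).trans ?_))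
  have h3 : ∀ l ∈ range L, ‖∑ n ∈ Icc 1 N, a (n + l) - ∑ n ∈ Icc 1 N, a n‖ ≤ 2 * B * L := by
    intro l hl
    refine (hstep l).trans ?_
    have : (l : ℝ) ≤ L := by exact_mod_cast (Finset.mem_range.1 hl).le
    exact mul_le_mul_of_nonneg_left this (by linarith)
  refine (Finset.sum_le_sum h3).trans (le_of_eq ?_)
  rw [Finset.sum_const, Finset.card_range, nsmul_eq_mul]

variable {ι : Type} [Fintype ι] [DecidableEq ι] {A : Td d → Matrix ι ι ℂ} {Q : Matrix ι ι ℂ}

/-- the part of a unitary cocycle with discrete spectrum, cut out by a continuous function `C` -/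
theorem ne_part (hU : UC A Q) (hα : ∀ k : Fin d → ℤ, k ≠ 0 → mFourier k α ≠ 1) {u : ℕ → ℂ} (hu : ∀ n, ‖u n‖ ≤ 1)
    (hS : ∀ w : ℂ, ‖w‖ = 1 → ShortOrth u w) {S : Type} [Fintype S] (w : S → ℂ) (hw : ∀ s, ‖w s‖ = 1)
    (h : S → Td d → ι → ℂ) (hm : ∀ s i, AEStronglyMeasurable (fun y => h s y i) (mT d)) (hb : ∀ s y i, ‖h s y i‖ ≤ 1)
    (C : Td d → Matrix ι ι ℂ) (hC : Continuous C) (δ : ℝ)
    (hδ : ∀ l i k, ∫ y, ‖(C (y + l • α) * cp α A Q l y) i k - ∑ s, w s ^ l * h s (y + l • α) i * conj (h s y k)‖ ∂mT d ≤ δ)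
    (ε : ℝ) (hε : 0 < ε) :
    ∃ N0 : ℕ, ∀ N ≥ N0, ∀ (x : Td d) (i j : ι),
      ‖∑ n ∈ Icc 1 N, u n * (C (x + n • α) * cp α A Q n x) i j‖ ≤ (Fintype.card ι * δ + ε) * N := by
  classical
  set K : ℝ := (Fintype.card ι : ℝ) with hK
  have hK0 : 0 ≤ K := Nat.cast_nonneg _
  set T : ι → ι → ℕ → Td d → ℂ := fun i k l y => (C (y + l • α) * cp α A Q l y) i k with hT
  have hTc : ∀ i k l, Continuous (T i k l) := fun i k l =>
    ((hC.comp (continuous_id.add continuous_const)).matrix_mul (cp_cont hU l)).matrix_elem i k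
  have hshift : ∀ (f : Td d → ℂ) (l : ℕ), AEStronglyMeasurable f (mT d) → AEStronglyMeasurable (fun y => f (y + l • α)) (mT d) :=
    fun f l hf => hf.comp_quasiMeasurePreserving (measurePreserving_add_right (mT d) (l • α)).quasiMeasurePreserving
  set ε1 : ℝ := ε / (2 * (K + 1)) with hε1
  have hε1p : 0 < ε1 := by positivity
  have hcore : ∀ i k : ι, ∃ L0 : ℕ, ∀ L ≥ L0, ∃ N0 : ℕ, ∀ N ≥ N0, ∀ x : Td d,
      ∑ n ∈ Icc 1 N, ‖∑ l ∈ range L, u (n + l) * T i k l (x + n • α)‖ ≤ (δ + ε1) * L * N := fun i k =>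
    ne_core hα hu hS w hw (fun s y => h s y i) (fun s y => conj (h s y k)) (fun s => hm s i)
      (fun s => Complex.continuous_conj.comp_aestronglyMeasurable (hm s k)) (fun s y => hb s y i)
      (fun s y => by rw [RCLike.norm_conj]; exact hb s y k) (T i k) (hTc i k) δ (fun l => hδ l i k) ε1 hε1p
  choose L0 hL0 using hcore
  set L : ℕ := ∑ i, ∑ k, L0 i k + 1 with hL
  have hLs : ∀ i k, L0 i k ≤ L := fun i k => by
    have e1 := Finset.single_le_sum (fun k _ => Nat.zero_le (L0 i k)) (Finset.mem_univ k)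
    have e2 := Finset.single_le_sum (fun i _ => Nat.zero_le (∑ k, L0 i k)) (Finset.mem_univ i)
    omega
  choose N0 hN0 using fun i k => hL0 i k L (hLs i k)
  -- bound for C
  obtain ⟨B, hB⟩ : ∃ B : ℝ, ∀ (y : Td d) (i k : ι), ‖C y i k‖ ≤ B := by
    have hc : ∀ i k : ι, ∃ B : ℝ, ∀ y : Td d, ‖C y i k‖ ≤ B := fun i k =>
      ⟨‖(⟨fun y => C y i k, hC.matrix_elem i k⟩ : C(Td d, ℂ))‖, fun y =>
        (⟨fun y => C y i k, hC.matrix_elem i k⟩ : C(Td d, ℂ)).norm_coe_le_norm y⟩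
    choose B hB using hc
    refine ⟨∑ i, ∑ k, |B i k|, fun y i k => (hB i k y).trans ((le_abs_self _).trans ?_)⟩
    exact (Finset.single_le_sum (f := fun k => |B i k|) (fun k _ => abs_nonneg _) (Finset.mem_univ k)).trans
      (Finset.single_le_sum (f := fun i => ∑ k, |B i k|) (fun i _ => Finset.sum_nonneg fun k _ => abs_nonneg _) (Finset.mem_univ i))
  have hLpos : (0 : ℝ) < L := by
    have : 0 < L := by omega
    exact_mod_cast this
  obtain ⟨N1, hN1⟩ := exists_nat_ge (4 * (K * B) * L / ε)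
  refine ⟨N1 + ∑ i, ∑ k, N0 i k, fun N hN x i j => ?_⟩
  have hNs : ∀ i k, N0 i k ≤ N := fun i k => by
    have e1 := Finset.single_le_sum (fun k _ => Nat.zero_le (N0 i k)) (Finset.mem_univ k)
    have e2 := Finset.single_le_sum (fun i _ => Nat.zero_le (∑ k, N0 i k)) (Finset.mem_univ i)
    omega
  have hNN : 4 * (K * B) * L / ε ≤ N := hN1.trans (by exact_mod_cast (show N1 ≤ N by omega))
  have hB0 : 0 ≤ B := (norm_nonneg _).trans (hB x i j)
  have hbound : ∀ n : ℕ, ‖u n * (C (x + n • α) * cp α A Q n x) i j‖ ≤ K * B := by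
    intro n
    rw [norm_mul, Matrix.mul_apply]
    have e1 : ‖∑ k, C (x + n • α) i k * cp α A Q n x k j‖ ≤ K * B := by
      refine (norm_sum_le _ _).trans ?_
      have : ∀ k ∈ Finset.univ, ‖C (x + n • α) i k * cp α A Q n x k j‖ ≤ B := by
        intro k _
        rw [norm_mul]
        calc ‖C (x + n • α) i k‖ * ‖cp α A Q n x k j‖ ≤ B * 1 :=
              mul_le_mul (hB _ i k) (cp_entry hU n x k j) (norm_nonneg _) hB0
          _ = B := mul_one _
      refine (Finset.sum_le_sum this).trans (le_of_eq ?_)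
      rw [Finset.sum_const, Finset.card_univ, nsmul_eq_mul]
    calc ‖u n‖ * ‖∑ k, C (x + n • α) i k * cp α A Q n x k j‖ ≤ 1 * (K * B) :=
          mul_le_mul (hu n) e1 (norm_nonneg _) zero_le_one
      _ = K * B := one_mul _
  have hblk := ne_block (fun n => u n * (C (x + n • α) * cp α A Q n x) i j) (K * B) hbound L N
  have hsum : ∑ n ∈ Icc 1 N, ‖∑ l ∈ range L, u (n + l) * (C (x + (n + l) • α) * cp α A Q (n + l) x) i j‖ ≤
      K * ((δ + ε1) * L * N) := by
    have hpt : ∀ n ∈ Icc 1 N, ‖∑ l ∈ range L, u (n + l) * (C (x + (n + l) • α) * cp α A Q (n + l) x) i j‖ ≤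
        ∑ k, ‖∑ l ∈ range L, u (n + l) * T i k l (x + n • α)‖ := by
      intro n _
      have e1 : ∑ l ∈ range L, u (n + l) * (C (x + (n + l) • α) * cp α A Q (n + l) x) i j =
          ∑ k, (∑ l ∈ range L, u (n + l) * T i k l (x + n • α)) * cp α A Q n x k j := by
        simp_rw [Finset.sum_mul]
        rw [Finset.sum_comm]
        refine Finset.sum_congr rfl fun l _ => ?_
        rw [add_comm n l, cp_add hU l n x, ← Matrix.mul_assoc, Matrix.mul_apply, Finset.mul_sum]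
        refine Finset.sum_congr rfl fun k _ => ?_
        rw [hT]
        simp only
        rw [show x + (l + n) • α = x + n • α + l • α by rw [add_smul, add_comm (l • α), add_assoc]]
        ring
      rw [e1]
      refine (norm_sum_le _ _).trans (Finset.sum_le_sum fun k _ => ?_)
      rw [norm_mul]
      exact mul_le_of_le_one_right (norm_nonneg _) (cp_entry hU n x k j)
    refine (Finset.sum_le_sum hpt).trans ?_
    rw [Finset.sum_comm]
    refine (Finset.sum_le_sum fun k _ => hN0 i k N (hNs i k) x).trans (le_of_eq ?_)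
    rw [Finset.sum_const, Finset.card_univ, nsmul_eq_mul]
  have h1 : L * ‖∑ n ∈ Icc 1 N, u n * (C (x + n • α) * cp α A Q n x) i j‖ ≤
      L * (K * ((δ + ε1) * N) + 2 * (K * B) * L) := by
    refine hblk.trans (le_trans (add_le_add hsum le_rfl) (le_of_eq (by ring)))
  have h2 := le_of_mul_le_mul_left h1 hLpos
  refine h2.trans ?_
  have h3 : 2 * (K * B) * L ≤ ε / 2 * N := by
    rw [div_le_iff₀ hε] at hNN
    linarith
  have h4 : K * ε1 ≤ ε / 2 := by
    rw [hε1, mul_div_assoc', div_le_div_iff₀ (by positivity) (by norm_num)]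
    nlinarith
  have h5 : K * ε1 * N ≤ ε / 2 * N := mul_le_mul_of_nonneg_right h4 (Nat.cast_nonneg _)
  calc K * ((δ + ε1) * N) + 2 * (K * B) * L = K * δ * N + K * ε1 * N + 2 * (K * B) * L := by ring
    _ ≤ K * δ * N + ε / 2 * N + ε / 2 * N := by linarith
    _ = (K * δ + ε) * N := by ring

end Pool.Agent.Lib.MP_9fe581_an.HD
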