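import Pool.Agent.Lib.MP_9fe581_an.HD.AbsSpec

/-!
# The rational spectrum of a continuous unitary cocycle

`S` a measure preserving continuous map of a compact probability space `Y`, `A` a continuous unitary matrix function.
`cpS S A n x = A(S^{n-1} x) ... A(x)`.  The isometry `(V f)(x) = f(S x) A(x)` of the space of matrix valued `L^2` functions and the
splitting of the identity matrix: `1 = C + B`, `C` continuous and close to a finite sum of eigenfunctions with roots of unity as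
eigenvalues, `B` almost without rational spectrum.
-/

set_option linter.unusedSectionVars false

open Finset MeasureTheory Filter Topology
open scoped ComplexConjugate Matrix ENNReal

namespace Pool.Agent.Lib.MP_9fe581_an.HD

variable {ι : Type} [Fintype ι] [DecidableEq ι]

/-- matrices as a Hilbert space -/
abbrev EM (ι : Type) [Fintype ι] : Type := EuclideanSpace ℂ (ι × ι)

/-- right multiplication by a matrix -/
noncomputable def thm (M : Matrix ι ι ℂ) (v : EM ι) : EM ι := WithLp.toLp 2 fun p => ∑ k, v (p.1, k) * M k p.2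

theorem thm_apply (M : Matrix ι ι ℂ) (v : EM ι) (i j : ι) : thm M v (i, j) = ∑ k, v (i, k) * M k j := rfl

theorem thm_add (M : Matrix ι ι ℂ) (v w : EM ι) : thm M (v + w) = thm M v + thm M w := by
  ext p
  obtain ⟨i, j⟩ := p
  rw [PiLp.add_apply, thm_apply, thm_apply, thm_apply, ← Finset.sum_add_distrib]
  exact Finset.sum_congr rfl fun k _ => by rw [PiLp.add_apply]; ring

theorem thm_smul (M : Matrix ι ι ℂ) (c : ℂ) (v : EM ι) : thm M (c • v) = c • thm M v := by
  ext p
  obtain ⟨i, j⟩ := p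
  rw [PiLp.smul_apply, thm_apply, thm_apply, smul_eq_mul, Finset.mul_sum]
  exact Finset.sum_congr rfl fun k _ => by rw [PiLp.smul_apply, smul_eq_mul]; ring

theorem thm_norm (M : Matrix ι ι ℂ) (hM : M * Mᴴ = 1) (v : EM ι) : ‖thm M v‖ = ‖v‖ := by
  have h1 : ‖thm M v‖ ^ 2 = ‖v‖ ^ 2 := by
    rw [EuclideanSpace.norm_sq_eq, EuclideanSpace.norm_sq_eq, Fintype.sum_prod_type, Fintype.sum_prod_type]
    refine Finset.sum_congr rfl fun i _ => ?_
    have h2 : ((∑ j, ‖thm M v (i, j)‖ ^ 2 : ℝ) : ℂ) = ((∑ j, ‖v (i, j)‖ ^ 2 : ℝ) : ℂ) := by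
      push_cast
      have h3 : ∀ z : ℂ, ((‖z‖ : ℂ)) ^ 2 = z * conj z := fun z => by
        rw [Complex.mul_conj, Complex.normSq_eq_norm_sq]; push_cast; rfl
      simp_rw [h3]
      have h4 : ∀ j, thm M v (i, j) * conj (thm M v (i, j)) =
          ∑ k, ∑ k', v (i, k) * conj (v (i, k')) * (M k j * star (M k' j)) := by
        intro j
        rw [thm_apply, map_sum, Finset.sum_mul_sum]
        refine Finset.sum_congr rfl fun k _ => Finset.sum_congr rfl fun k' _ => ?_
        rw [map_mul]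
        have : star (M k' j) = conj (M k' j) := rfl
        rw [this]; ring
      rw [Finset.sum_congr rfl fun j _ => h4 j, Finset.sum_comm]
      refine Finset.sum_congr rfl fun k _ => ?_
      rw [Finset.sum_comm]
      have h5 : ∀ k', ∑ j, v (i, k) * conj (v (i, k')) * (M k j * star (M k' j)) =
          v (i, k) * conj (v (i, k')) * (1 : Matrix ι ι ℂ) k k' := by
        intro k'
        rw [← Finset.mul_sum, ← hM, Matrix.mul_apply]
        rfl
      rw [Finset.sum_congr rfl fun k' _ => h5 k', Finset.sum_eq_single k]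
      · rw [Matrix.one_apply_eq, mul_one]
      · intro k' _ hk
        rw [Matrix.one_apply_ne (Ne.symm hk), mul_zero]
      · intro h; exact absurd (Finset.mem_univ k) h
    exact_mod_cast h2
  exact (pow_left_inj₀ (norm_nonneg _) (norm_nonneg _) two_ne_zero).1 h1

theorem thm_cont : Continuous fun p : (ι → ι → ℂ) × EM ι => thm (Matrix.of p.1) p.2 := by
  unfold thm
  refine (PiLp.continuous_toLp 2 _).comp (continuous_pi fun p => continuous_finsetSum _ fun k _ => ?_)
  refine Continuous.mul ?_ ?_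
  · exact (PiLp.continuous_apply 2 _ (p.1, k)).comp continuous_snd
  · exact (continuous_apply p.2).comp ((continuous_apply k).comp continuous_fst)

variable {Y : Type} [TopologicalSpace Y] [CompactSpace Y] [TopologicalSpace.MetrizableSpace Y] [MeasurableSpace Y] [BorelSpace Y]
  {ν : Measure Y} [IsProbabilityMeasure ν] {S : Y → Y} {A : Y → Matrix ι ι ℂ}

/-- the cocycle products over a general base -/
noncomputable def cpS (S : Y → Y) (A : Y → Matrix ι ι ℂ) : ℕ → Y → Matrix ι ι ℂ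
  | 0, _ => 1
  | n + 1, x => A (S^[n] x) * cpS S A n x

theorem cpS_succ' (S : Y → Y) (A : Y → Matrix ι ι ℂ) (n : ℕ) (x : Y) : cpS S A (n + 1) x = cpS S A n (S x) * A x := by
  induction n with
  | zero => simp [cpS]
  | succ n ih =>
    rw [cpS, ih, cpS, Function.iterate_succ_apply, Matrix.mul_assoc]

theorem cpS_cont (hSc : Continuous S) (hA : Continuous A) (n : ℕ) : Continuous (cpS S A n) := by
  induction n with
  | zero => exact continuous_const
  | succ n ih => exact (hA.comp (hSc.iterate n)).matrix_mul ih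

variable (hS : MeasurePreserving S ν ν) (hSc : Continuous S) (hA : Continuous A) (hAA : ∀ x, A x * (A x)ᴴ = 1)

include hS hA in
theorem vop_meas {f : Y → EM ι} (hf : AEStronglyMeasurable f ν) : AEStronglyMeasurable (fun x => thm (A x) (f (S x))) ν := by
  have h1 : AEStronglyMeasurable (fun x => f (S x)) ν := hf.comp_quasiMeasurePreserving hS.quasiMeasurePreserving
  have h2 : AEStronglyMeasurable (fun x => (fun i j => A x i j : ι → ι → ℂ)) ν :=
    (continuous_pi fun i => continuous_pi fun j => hA.matrix_elem i j).aestronglyMeasurable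
  exact thm_cont.comp_aestronglyMeasurable (h2.prodMk h1)

include hS hA hAA in
theorem vop_eLp {f : Y → EM ι} (hf : AEStronglyMeasurable f ν) :
    eLpNorm (fun x => thm (A x) (f (S x))) 2 ν = eLpNorm f 2 ν := by
  rw [eLpNorm_congr_norm_ae (g := f ∘ S) (Eventually.of_forall fun x => thm_norm (A x) (hAA x) (f (S x)))]
  exact eLpNorm_comp_measurePreserving hf hS

include hS hA hAA in
theorem vop_mem {f : Y → EM ι} (hf : MemLp f 2 ν) : MemLp (fun x => thm (A x) (f (S x))) 2 ν :=
  ⟨vop_meas hS hA hf.1, by rw [vop_eLp hS hA hAA hf.1]; exact hf.2⟩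

/-- the isometry -/
noncomputable def vop : Lp (EM ι) 2 ν →ₗᵢ[ℂ] Lp (EM ι) 2 ν where
  toFun f := (vop_mem hS hA hAA (Lp.memLp f)).toLp _
  map_add' f g := by
    rw [← MemLp.toLp_add]
    refine MemLp.toLp_congr _ _ ?_
    have h1 := hS.quasiMeasurePreserving.ae_eq_comp (Lp.coeFn_add f g)
    filter_upwards [h1] with x hx
    simp only [Function.comp_apply, Pi.add_apply] at hx
    rw [hx, thm_add]
    rfl
  map_smul' c f := by
    rw [RingHom.id_apply, ← MemLp.toLp_const_smul]
    refine MemLp.toLp_congr _ _ ?_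
    have h1 := hS.quasiMeasurePreserving.ae_eq_comp (Lp.coeFn_smul c f)
    filter_upwards [h1] with x hx
    simp only [Function.comp_apply, Pi.smul_apply] at hx
    rw [hx, thm_smul]
    rfl
  norm_map' f := by
    change ‖(vop_mem hS hA hAA (Lp.memLp f)).toLp _‖ = ‖f‖
    rw [Lp.norm_toLp, vop_eLp hS hA hAA (Lp.memLp f).1, Lp.norm_def]

/-- continuous matrix functions as elements of `L^2` -/
noncomputable def cmE {D : Y → Matrix ι ι ℂ} (hD : Continuous D) : C(Y, EM ι) :=
  ⟨fun x => WithLp.toLp 2 fun p => D x p.1 p.2,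
    (PiLp.continuous_toLp 2 _).comp (continuous_pi fun p => hD.matrix_elem p.1 p.2)⟩

theorem cmE_apply {D : Y → Matrix ι ι ℂ} (hD : Continuous D) (x : Y) (i j : ι) : cmE hD x (i, j) = D x i j := rfl

noncomputable def emb (ν : Measure Y) [IsProbabilityMeasure ν] {D : Y → Matrix ι ι ℂ} (hD : Continuous D) : Lp (EM ι) 2 ν :=
  ContinuousMap.toLp 2 ν ℂ (cmE hD)

theorem emb_ae {D : Y → Matrix ι ι ℂ} (hD : Continuous D) : (emb ν hD : Y → EM ι) =ᵐ[ν] cmE hD :=
  ContinuousMap.coeFn_toLp ν (cmE hD)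

include hSc in
theorem vop_emb {D : Y → Matrix ι ι ℂ} (hD : Continuous D) :
    vop hS hA hAA (emb ν hD) = emb ν (D := fun x => D (S x) * A x) ((hD.comp hSc).matrix_mul hA) := by
  refine Lp.ext ?_
  have h1 : (vop hS hA hAA (emb ν hD) : Y → EM ι) =ᵐ[ν] fun x => thm (A x) ((emb ν hD : Y → EM ι) (S x)) :=
    MemLp.coeFn_toLp (vop_mem hS hA hAA (Lp.memLp (emb ν hD)))
  have h2 := hS.quasiMeasurePreserving.ae_eq_comp (emb_ae (ν := ν) hD)
  refine h1.trans (Filter.EventuallyEq.trans ?_ (emb_ae _).symm)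
  filter_upwards [h2] with x hx
  simp only [Function.comp_apply] at hx
  rw [hx]
  ext p
  obtain ⟨i, j⟩ := p
  rw [thm_apply, cmE_apply, Matrix.mul_apply]
  rfl

theorem orb_cont (hSc : Continuous S) (hA : Continuous A) {D : Y → Matrix ι ι ℂ} (hD : Continuous D) (n : ℕ) :
    Continuous fun x => D (S^[n] x) * cpS S A n x := (hD.comp (hSc.iterate n)).matrix_mul (cpS_cont hSc hA n)

include hSc in
theorem vop_iter {D : Y → Matrix ι ι ℂ} (hD : Continuous D) (n : ℕ) :
    (vop hS hA hAA)^[n] (emb ν hD) = emb ν (orb_cont hSc hA hD n) := by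
  induction n with
  | zero =>
    rw [Function.iterate_zero, _root_.id]
    congr 1
    funext x
    simp [cpS]
  | succ n ih =>
    rw [Function.iterate_succ_apply', ih, vop_emb hS hSc hA hAA]
    congr 1
    funext x
    rw [cpS_succ', Function.iterate_succ_apply, Matrix.mul_assoc]

theorem emb_inner {D D' : Y → Matrix ι ι ℂ} (hD : Continuous D) (hD' : Continuous D') :
    inner ℂ (emb ν hD) (emb ν hD') = ∫ x, (D' x * (D x)ᴴ).trace ∂ν := by
  rw [L2.inner_def]
  refine integral_congr_ae ?_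
  filter_upwards [emb_ae (ν := ν) hD, emb_ae (ν := ν) hD'] with x h1 h2
  rw [h1, h2, PiLp.inner_apply, Matrix.trace, Fintype.sum_prod_type]
  refine Finset.sum_congr rfl fun i _ => ?_
  rw [Matrix.diag_apply, Matrix.mul_apply]
  refine Finset.sum_congr rfl fun j _ => ?_
  rw [cmE_apply, cmE_apply, Matrix.conjTranspose_apply]
  simp [RCLike.inner_apply]

theorem emb_norm_one : ‖emb ν (D := fun _ => (1 : Matrix ι ι ℂ)) continuous_const‖ ≤ Fintype.card ι := by
  have h1 : ‖emb ν (D := fun _ => (1 : Matrix ι ι ℂ)) continuous_const‖ ^ 2 = Fintype.card ι := by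
    rw [@norm_sq_eq_re_inner ℂ, emb_inner]
    simp
  have h3 : (Fintype.card ι : ℝ) ≤ (Fintype.card ι : ℝ) ^ 2 := by
    have : (Fintype.card ι) ≤ (Fintype.card ι) ^ 2 := Nat.le_self_pow two_ne_zero _
    exact_mod_cast this
  refine le_of_sq_le_sq ?_ (Nat.cast_nonneg _)
  rw [h1]; exact h3

theorem emb_sub {D D' : Y → Matrix ι ι ℂ} (hD : Continuous D) (hD' : Continuous D') :
    emb ν hD - emb ν hD' = emb ν (D := fun x => D x - D' x) (hD.sub hD') := by
  unfold emb
  rw [← map_sub]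
  rfl

include hSc in
theorem cor_emb {D : Y → Matrix ι ι ℂ} (hD : Continuous D) (n : ℕ) :
    cor (vop hS hA hAA) (emb ν hD) n = ∫ x, (D (S^[n] x) * cpS S A n x * (D x)ᴴ).trace ∂ν := by
  unfold cor
  rw [vop_iter hS hSc hA hAA, emb_inner]

theorem lp_int_le (G : Lp (EM ι) 2 ν) (i j : ι) : ∫ y, ‖(G : Y → EM ι) y (i, j)‖ ∂ν ≤ ‖G‖ := by
  have hG := Lp.memLp G
  have h1 : Integrable (G : Y → EM ι) ν := hG.integrable (by norm_num)
  calc ∫ y, ‖(G : Y → EM ι) y (i, j)‖ ∂ν ≤ ∫ y, ‖(G : Y → EM ι) y‖ ∂ν :=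
        integral_mono_of_nonneg (Eventually.of_forall fun y => norm_nonneg _) h1.norm
          (Eventually.of_forall fun y => PiLp.norm_apply_le _ _)
    _ = (eLpNorm (G : Y → EM ι) 1 ν).toReal := by
        rw [integral_norm_eq_lintegral_enorm hG.1, eLpNorm_one_eq_lintegral_enorm]
    _ ≤ (eLpNorm (G : Y → EM ι) 2 ν).toReal :=
        ENNReal.toReal_mono hG.2.ne (eLpNorm_le_eLpNorm_of_exponent_le (by norm_num) hG.1)
    _ = ‖G‖ := (Lp.norm_def G).symm

include hS hSc hA hAA in
/-- the splitting of the identity matrix -/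
theorem spec_split (ε : ℝ) (hε : 0 < ε) (hε1 : ε ≤ 1) :
    ∃ (m : ℕ) (w : Fin m → ℂ) (F : Fin m → Y → Matrix ι ι ℂ) (C : Y → Matrix ι ι ℂ), Continuous C ∧
      (∀ s, ∃ q : ℕ, 0 < q ∧ w s ^ q = 1) ∧ (∀ s i j, Integrable (fun y => F s y i j) ν) ∧
      (∀ l i j, ∫ y, ‖(C (S^[l] y) * cpS S A l y) i j - ∑ s, w s ^ l * F s y i j‖ ∂ν ≤ ε) ∧
      ∃ a' : ℕ → ℂ, PosDef a' ∧ (a' 0).im = 0 ∧ (∀ n, ‖a' n‖ ≤ (2 * (Fintype.card ι : ℝ) + 2) ^ 2) ∧ NoRat a' ∧
        ∀ n, ‖∫ x, ((1 - C (S^[n] x)) * cpS S A n x * (1 - C x)ᴴ).trace ∂ν - a' n‖ ≤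
          4 * (2 * (Fintype.card ι : ℝ) + 2) * ε := by
  set V := vop hS hA hAA with hVdef
  set f : Lp (EM ι) 2 ν := emb ν (D := fun _ => (1 : Matrix ι ι ℂ)) continuous_const with hf
  have hfn : ‖f‖ ≤ Fintype.card ι := emb_norm_one
  obtain ⟨m, w, h, hw, hV, hc⟩ := as_split V f ε hε hε1
  obtain ⟨c, hcd⟩ := (ContinuousMap.toLp_denseRange (EM ι) ν ℂ (p := 2) (by norm_num)).exists_dist_lt (∑ s, h s) hε
  set C : Y → Matrix ι ι ℂ := fun x => Matrix.of fun i j => c x (i, j) with hCdef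
  have hC : Continuous C := continuous_matrix fun i j => (PiLp.continuous_apply 2 _ (i, j)).comp c.continuous
  have hCc : emb ν hC = ContinuousMap.toLp 2 ν ℂ c := by
    unfold emb
    congr 1
  have hcn : ‖emb ν hC - ∑ s, h s‖ ≤ ε := by
    rw [hCc, ← dist_eq_norm, dist_comm]; exact hcd.le
  obtain ⟨a', ha1, ha2, ha3, ha4, ha5⟩ := hc (emb ν hC) hcn
  have hmono : (2 * ‖f‖ + 2) ≤ (2 * (Fintype.card ι : ℝ) + 2) := by linarith
  refine ⟨m, w, fun s y => Matrix.of fun i j => (h s : Y → EM ι) y (i, j), C, hC, hw, fun s i j => ?_, fun l i j => ?_,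
    a', ha1, ha2, fun n => (ha3 n).trans (pow_le_pow_left₀ (by positivity) hmono 2), ha4, fun n => ?_⟩
  · have h1 : MemLp (fun y => (EuclideanSpace.proj (i, j) : EM ι →L[ℂ] ℂ) ((h s : Y → EM ι) y)) 2 ν :=
      (EuclideanSpace.proj (i, j) : EM ι →L[ℂ] ℂ).comp_memLp' (Lp.memLp (h s))
    exact h1.integrable (by norm_num)
  · set W : Lp (EM ι) 2 ν →ₗ[ℂ] Lp (EM ι) 2 ν := (V.toLinearMap : Module.End ℂ (Lp (EM ι) 2 ν)) ^ l with hW
    have hWa : ∀ g, W g = V^[l] g := fun g => Module.End.pow_apply _ _ _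
    have hVh : ∀ s, W (h s) = w s ^ l • h s := by
      intro s
      rw [hWa]
      clear hWa hW
      induction l with
      | zero => simp
      | succ l ih => rw [Function.iterate_succ_apply', ih, map_smul, hV, smul_smul, pow_succ]
    set G : Lp (EM ι) 2 ν := W (emb ν hC - ∑ s, h s) with hG
    have hGn : ‖G‖ ≤ ε := by rw [hG, hWa, as_iter_norm]; exact hcn
    have hG2 : G = emb ν (orb_cont hSc hA hC l) - ∑ s, w s ^ l • h s := by
      rw [hG, map_sub, map_sum, hWa, vop_iter hS hSc hA hAA]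
      congr 1
      exact Finset.sum_congr rfl fun s _ => hVh s
    have hae : (fun y => (G : Y → EM ι) y (i, j)) =ᵐ[ν] fun y => (C (S^[l] y) * cpS S A l y) i j - ∑ s, w s ^ l *
        (h s : Y → EM ι) y (i, j) := by
      have h1 := Lp.coeFn_sub (emb ν (orb_cont hSc hA hC l)) (∑ s, w s ^ l • h s)
      have h2 := Lp.coeFn_finsetSum Finset.univ fun s => w s ^ l • h s
      have h3 : ∀ᵐ y ∂ν, ∀ s, ((w s ^ l • h s : Lp (EM ι) 2 ν) : Y → EM ι) y = w s ^ l • (h s : Y → EM ι) y :=
        ae_all_iff.2 fun s => Lp.coeFn_smul (w s ^ l) (h s)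
      filter_upwards [h1, h2, h3, emb_ae (ν := ν) (orb_cont hSc hA hC l)] with y e1 e2 e3 e4
      rw [hG2, e1, Pi.sub_apply, e2, e4, PiLp.sub_apply, cmE_apply]
      congr 1
      rw [Finset.sum_apply]
      have e5 : ∀ (t : Finset (Fin m)) (g : Fin m → EM ι), (∑ s ∈ t, g s) (i, j) = ∑ s ∈ t, g s (i, j) := fun t g => by
        simp
      rw [e5]
      exact Finset.sum_congr rfl fun s _ => by rw [e3 s]; rfl
    have h4 := lp_int_le G i j
    have h5 := integral_congr_ae (hae.fun_comp norm)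
    simp only [Function.comp_def] at h5
    rw [h5] at h4
    exact h4.trans hGn
  · have h1 := ha5 n
    rw [hf, emb_sub, hVdef, cor_emb hS hSc hA hAA] at h1
    exact h1.trans (by gcongr)

end Pool.Agent.Lib.MP_9fe581_an.HD
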