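import Pool.Agent.Lib.MP_9fe581_an.HD.ObsX
import Pool.Agent.Lib.MP_9fe581_an.HD.NonErg
import Pool.Agent.Lib.MP_9fe581_an.HD.Spec

/-!
# Unitary cocycles over totally irrational rotations, no ergodicity

`mne`: for a bounded multiplicative `u` with `∑_{l < L} u (n + l) w^l = o(L)` on average over `n` for all roots of unity `w` and every
continuous unitary matrix cocycle over a totally irrational rotation, `∑_{n ≤ N} u n A_n(x)_{ij} = o(N)` uniformly in `x`.
-/

set_option linter.unusedSectionVars false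

open Finset MeasureTheory Filter Topology UnitAddTorus
open scoped ComplexConjugate Matrix

namespace Pool.Agent.Lib.MP_9fe581_an.HD

variable {d : ℕ} {α : Td d}

/-- core of the part with rational discrete spectrum -/
theorem ne_core1 (hα : ∀ k : Fin d → ℤ, k ≠ 0 → mFourier k α ≠ 1) {u : ℕ → ℂ} (hu : ∀ n, ‖u n‖ ≤ 1)
    {S : Type} [Fintype S] (w : S → ℂ) (hw : ∀ s, ‖w s‖ = 1) (hS : ∀ s, ShortOrth u (w s))
    (b : S → Td d → ℂ) (hb : ∀ s, Integrable (b s) (mT d))
    (T : ℕ → Td d → ℂ) (hT : ∀ l, Continuous (T l)) (δ : ℝ)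
    (hδ : ∀ l, ∫ y, ‖T l y - ∑ s, w s ^ l * b s y‖ ∂mT d ≤ δ) (ε : ℝ) (hε : 0 < ε) :
    ∃ L0 : ℕ, ∀ L ≥ L0, ∃ N0 : ℕ, ∀ N ≥ N0, ∀ x : Td d,
      ∑ n ∈ Icc 1 N, ‖∑ l ∈ range L, u (n + l) * T l (x + n • α)‖ ≤ (δ + ε) * L * N := by
  classical
  set K : ℝ := (Fintype.card S : ℝ) with hK
  have hK0 : 0 ≤ K := Nat.cast_nonneg _
  set ε1 : ℝ := ε / (4 * (K + 1)) with hε1
  have hε1p : 0 < ε1 := by positivity
  choose b' hb' hbi' using fun s => (hb s).exists_boundedContinuous_integral_sub_le (ε := ε1) hε1p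
  set M : ℝ := ∑ s, ‖b' s‖ + 1 with hM
  have hM0 : 0 < M := by
    have : 0 ≤ ∑ s, ‖b' s‖ := Finset.sum_nonneg fun s _ => norm_nonneg _
    linarith
  have hbM : ∀ s y, ‖b' s y‖ ≤ M := by
    intro s y
    have e1 := (b' s).norm_coe_le_norm y
    have e2 := Finset.single_le_sum (f := fun s => ‖b' s‖) (fun s _ => norm_nonneg _) (Finset.mem_univ s)
    linarith
  choose L0 hL0 using fun s => hS s (ε1 / M) (by positivity)
  refine ⟨∑ s, L0 s + 1, fun L hL => ?_⟩
  have hLs : ∀ s, L0 s ≤ L := fun s => by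
    have := Finset.single_le_sum (fun i _ => Nat.zero_le (L0 i)) (Finset.mem_univ s)
    omega
  have hL1 : (1 : ℝ) ≤ L := by
    have : 1 ≤ L := by omega
    exact_mod_cast this
  choose N0 hN0 using fun s => hL0 s L (hLs s)
  set E : Td d → ℝ := fun y => ∑ l ∈ range L, ‖T l y - ∑ s, w s ^ l * b' s y‖ with hEdef
  have hEl : ∀ l, Continuous fun y => ‖T l y - ∑ s, w s ^ l * b' s y‖ := fun l =>
    Continuous.norm ((hT l).sub (continuous_finsetSum _ fun s _ => continuous_const.mul (b' s).continuous))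
  have hEc : Continuous E := continuous_finsetSum _ fun l _ => hEl l
  have hTi : ∀ l, Integrable (T l) (mT d) := fun l =>
    (hT l).integrable_of_hasCompactSupport (HasCompactSupport.of_compactSpace _)
  have hterm : ∀ l, ∫ y, ‖T l y - ∑ s, w s ^ l * b' s y‖ ∂mT d ≤ δ + K * ε1 := by
    intro l
    have hpt : ∀ y, ‖T l y - ∑ s, w s ^ l * b' s y‖ ≤
        ‖T l y - ∑ s, w s ^ l * b s y‖ + ∑ s, ‖b s y - b' s y‖ := by
      intro y
      have e1 : T l y - ∑ s, w s ^ l * b' s y =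
          (T l y - ∑ s, w s ^ l * b s y) + ∑ s, w s ^ l * (b s y - b' s y) := by
        have : ∑ s, w s ^ l * (b s y - b' s y) = ∑ s, w s ^ l * b s y - ∑ s, w s ^ l * b' s y := by
          rw [← Finset.sum_sub_distrib]
          exact Finset.sum_congr rfl fun s _ => by ring
        rw [this]; ring
      rw [e1]
      refine (norm_add_le _ _).trans (add_le_add le_rfl ((norm_sum_le _ _).trans (Finset.sum_le_sum fun s _ => ?_)))
      rw [norm_mul, norm_pow, hw s, one_pow, one_mul]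
    have hi1 : Integrable (fun y => ‖T l y - ∑ s, w s ^ l * b s y‖) (mT d) :=
      ((hTi l).sub (integrable_finsetSum _ fun s _ => (hb s).const_mul _)).norm
    have hi3 : ∀ s, Integrable (fun y => ‖b s y - b' s y‖) (mT d) := fun s => ((hb s).sub (hbi' s)).norm
    have hi4 : Integrable (fun y => ∑ s, ‖b s y - b' s y‖) (mT d) := integrable_finsetSum _ fun s _ => hi3 s
    calc ∫ y, ‖T l y - ∑ s, w s ^ l * b' s y‖ ∂mT d
        ≤ ∫ y, (‖T l y - ∑ s, w s ^ l * b s y‖ + ∑ s, ‖b s y - b' s y‖) ∂mT d :=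
          integral_mono_of_nonneg (Eventually.of_forall fun y => norm_nonneg _) (hi1.add hi4) (Eventually.of_forall hpt)
      _ = ∫ y, ‖T l y - ∑ s, w s ^ l * b s y‖ ∂mT d + ∑ s, ∫ y, ‖b s y - b' s y‖ ∂mT d := by
          rw [integral_add hi1 hi4, integral_finsetSum _ fun s _ => hi3 s]
      _ ≤ δ + ∑ _s : S, ε1 := by
          gcongr with s
          · exact hδ l
          · exact hb' s
      _ = δ + K * ε1 := by
          rw [Finset.sum_const, Finset.card_univ, nsmul_eq_mul]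
  have hEint : ∫ y, E y ∂mT d ≤ L * (δ + K * ε1) := by
    rw [hEdef, integral_finsetSum _ fun l _ =>
      (hEl l).integrable_of_hasCompactSupport (HasCompactSupport.of_compactSpace _)]
    refine (Finset.sum_le_sum fun l _ => hterm l).trans (le_of_eq ?_)
    rw [Finset.sum_const, Finset.card_range, nsmul_eq_mul]
  obtain ⟨N1, hN1⟩ := ne_equi hα E hEc ε1 hε1p
  refine ⟨N1 + ∑ s, N0 s, fun N hN x => ?_⟩
  have hNs : ∀ s, N0 s ≤ N := fun s => by
    have := Finset.single_le_sum (fun i _ => Nat.zero_le (N0 i)) (Finset.mem_univ s)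
    omega
  have hEN := hN1 N (by omega) x
  have hn : ∀ n ∈ Icc 1 N, ‖∑ l ∈ range L, u (n + l) * T l (x + n • α)‖ ≤ E (x + n • α) +
      ∑ s, M * ‖∑ l ∈ range L, u (n + l) * w s ^ l‖ := by
    intro n _
    set y := x + n • α with hy
    have e1 : ∑ l ∈ range L, u (n + l) * T l y =
        ∑ l ∈ range L, u (n + l) * (T l y - ∑ s, w s ^ l * b' s y) +
        ∑ s, b' s y * (∑ l ∈ range L, u (n + l) * w s ^ l) := by
      have e2 : ∑ s, b' s y * (∑ l ∈ range L, u (n + l) * w s ^ l) =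
          ∑ l ∈ range L, u (n + l) * ∑ s, w s ^ l * b' s y := by
        simp_rw [Finset.mul_sum]
        rw [Finset.sum_comm]
        exact Finset.sum_congr rfl fun l _ => Finset.sum_congr rfl fun s _ => by ring
      rw [e2, ← Finset.sum_add_distrib]
      exact Finset.sum_congr rfl fun l _ => by ring
    rw [e1]
    refine (norm_add_le _ _).trans (add_le_add ((norm_sum_le _ _).trans (Finset.sum_le_sum fun l _ => ?_))
      ((norm_sum_le _ _).trans (Finset.sum_le_sum fun s _ => ?_)))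
    · rw [norm_mul]
      exact mul_le_of_le_one_left (norm_nonneg _) (hu _)
    · rw [norm_mul]
      exact mul_le_mul_of_nonneg_right (hbM s y) (norm_nonneg _)
  refine (Finset.sum_le_sum hn).trans ?_
  rw [Finset.sum_add_distrib]
  have h6 : ∑ n ∈ Icc 1 N, ∑ s, M * ‖∑ l ∈ range L, u (n + l) * w s ^ l‖ =
      ∑ s, M * ∑ n ∈ Icc 1 N, ‖∑ l ∈ range L, u (n + l) * w s ^ l‖ := by
    rw [Finset.sum_comm]
    exact Finset.sum_congr rfl fun s _ => (Finset.mul_sum _ _ _).symm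
  rw [h6]
  have h7 : ∑ s, M * ∑ n ∈ Icc 1 N, ‖∑ l ∈ range L, u (n + l) * w s ^ l‖ ≤ K * (ε1 * L * N) := by
    have h8 : ∀ s ∈ Finset.univ, M * ∑ n ∈ Icc 1 N, ‖∑ l ∈ range L, u (n + l) * w s ^ l‖ ≤ ε1 * L * N := by
      intro s _
      refine (mul_le_mul_of_nonneg_left (hN0 s N (hNs s)) hM0.le).trans (le_of_eq ?_)
      field_simp
    refine (Finset.sum_le_sum h8).trans (le_of_eq ?_)
    rw [Finset.sum_const, Finset.card_univ, nsmul_eq_mul]
  have hN' : (0 : ℝ) ≤ N := Nat.cast_nonneg _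
  have h8 : (∫ t, E t ∂mT d + ε1) * N ≤ (L * (δ + K * ε1) + ε1 * L) * N := by
    apply mul_le_mul_of_nonneg_right _ hN'
    nlinarith [hEint]
  have h9 : (2 * K + 1) * ε1 ≤ ε := by
    rw [hε1, mul_div_assoc', div_le_iff₀ (by positivity)]
    nlinarith
  have h10 : 0 ≤ (L : ℝ) * N := by positivity
  have h11 := mul_le_mul_of_nonneg_right h9 h10
  calc _ ≤ (L * (δ + K * ε1) + ε1 * L) * N + K * (ε1 * L * N) := add_le_add (hEN.trans h8) h7
    _ = δ * (L * N) + (2 * K + 1) * ε1 * (L * N) := by ring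
    _ ≤ δ * (L * N) + ε * (L * N) := by linarith
    _ = (δ + ε) * L * N := by ring

variable {ι : Type} [Fintype ι] [DecidableEq ι] {A : Td d → Matrix ι ι ℂ} {Q : Matrix ι ι ℂ}

/-- the part of a unitary cocycle with discrete spectrum, cut out by a continuous function `C` -/
theorem ne_part1 (hU : UC A Q) (hα : ∀ k : Fin d → ℤ, k ≠ 0 → mFourier k α ≠ 1) {u : ℕ → ℂ} (hu : ∀ n, ‖u n‖ ≤ 1)
    {S : Type} [Fintype S] (w : S → ℂ) (hw : ∀ s, ‖w s‖ = 1) (hS : ∀ s, ShortOrth u (w s))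
    (F : S → Td d → Matrix ι ι ℂ) (hm : ∀ s i k, Integrable (fun y => F s y i k) (mT d))
    (C : Td d → Matrix ι ι ℂ) (hC : Continuous C) (δ : ℝ)
    (hδ : ∀ l i k, ∫ y, ‖(C (y + l • α) * cp α A Q l y) i k - ∑ s, w s ^ l * F s y i k‖ ∂mT d ≤ δ)
    (ε : ℝ) (hε : 0 < ε) :
    ∃ N0 : ℕ, ∀ N ≥ N0, ∀ (x : Td d) (i j : ι),
      ‖∑ n ∈ Icc 1 N, u n * (C (x + n • α) * cp α A Q n x) i j‖ ≤ (Fintype.card ι * δ + ε) * N := by
  classical
  set K : ℝ := (Fintype.card ι : ℝ) with hK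
  have hK0 : 0 ≤ K := Nat.cast_nonneg _
  set T : ι → ι → ℕ → Td d → ℂ := fun i k l y => (C (y + l • α) * cp α A Q l y) i k with hT
  have hTc : ∀ i k l, Continuous (T i k l) := fun i k l =>
    ((hC.comp (continuous_id.add continuous_const)).matrix_mul (cp_cont hU l)).matrix_elem i k
  set ε1 : ℝ := ε / (2 * (K + 1)) with hε1
  have hε1p : 0 < ε1 := by positivity
  have hcore : ∀ i k : ι, ∃ L0 : ℕ, ∀ L ≥ L0, ∃ N0 : ℕ, ∀ N ≥ N0, ∀ x : Td d,
      ∑ n ∈ Icc 1 N, ‖∑ l ∈ range L, u (n + l) * T i k l (x + n • α)‖ ≤ (δ + ε1) * L * N := fun i k =>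
    ne_core1 hα hu w hw hS (fun s y => F s y i k) (fun s => hm s i k) (T i k) (hTc i k) δ (fun l => hδ l i k) ε1 hε1p
  choose L0 hL0 using hcore
  set L : ℕ := ∑ i, ∑ k, L0 i k + 1 with hL
  have hLs : ∀ i k, L0 i k ≤ L := fun i k => by
    have e1 := Finset.single_le_sum (fun k _ => Nat.zero_le (L0 i k)) (Finset.mem_univ k)
    have e2 := Finset.single_le_sum (fun i _ => Nat.zero_le (∑ k, L0 i k)) (Finset.mem_univ i)
    omega
  choose N0 hN0 using fun i k => hL0 i k L (hLs i k)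
  -- bound for C
  obtain ⟨B, hB⟩ : ∃ B : ℝ, ∀ (y : Td d) (i k : ι), ‖C y i k‖ ≤ B := by
    have hc : ∀ i k : ι, ∃ B : ℝ, ∀ y : Td d, ‖C y i k‖ ≤ B := fun i k =>
      ⟨‖(⟨fun y => C y i k, hC.matrix_elem i k⟩ : C(Td d, ℂ))‖, fun y =>
        (⟨fun y => C y i k, hC.matrix_elem i k⟩ : C(Td d, ℂ)).norm_coe_le_norm y⟩
    choose B hB using hc
    refine ⟨∑ i, ∑ k, |B i k|, fun y i k => (hB i k y).trans ((le_abs_self _).trans ?_)⟩
    exact (Finset.single_le_sum (f := fun k => |B i k|) (fun k _ => abs_nonneg _) (Finset.mem_univ k)).trans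
      (Finset.single_le_sum (f := fun i => ∑ k, |B i k|) (fun i _ => Finset.sum_nonneg fun k _ => abs_nonneg _) (Finset.mem_univ i))
  have hLpos : (0 : ℝ) < L := by
    have : 0 < L := by omega
    exact_mod_cast this
  obtain ⟨N1, hN1⟩ := exists_nat_ge (4 * (K * B) * L / ε)
  refine ⟨N1 + ∑ i, ∑ k, N0 i k, fun N hN x i j => ?_⟩
  have hNs : ∀ i k, N0 i k ≤ N := fun i k => by
    have e1 := Finset.single_le_sum (fun k _ => Nat.zero_le (N0 i k)) (Finset.mem_univ k)
    have e2 := Finset.single_le_sum (fun i _ => Nat.zero_le (∑ k, N0 i k)) (Finset.mem_univ i)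
    omega
  have hNN : 4 * (K * B) * L / ε ≤ N := hN1.trans (by exact_mod_cast (show N1 ≤ N by omega))
  have hB0 : 0 ≤ B := (norm_nonneg _).trans (hB x i j)
  have hbound : ∀ n : ℕ, ‖u n * (C (x + n • α) * cp α A Q n x) i j‖ ≤ K * B := by
    intro n
    rw [norm_mul, Matrix.mul_apply]
    have e1 : ‖∑ k, C (x + n • α) i k * cp α A Q n x k j‖ ≤ K * B := by
      refine (norm_sum_le _ _).trans ?_
      have : ∀ k ∈ Finset.univ, ‖C (x + n • α) i k * cp α A Q n x k j‖ ≤ B := by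
        intro k _
        rw [norm_mul]
        calc ‖C (x + n • α) i k‖ * ‖cp α A Q n x k j‖ ≤ B * 1 :=
              mul_le_mul (hB _ i k) (cp_entry hU n x k j) (norm_nonneg _) hB0
          _ = B := mul_one _
      refine (Finset.sum_le_sum this).trans (le_of_eq ?_)
      rw [Finset.sum_const, Finset.card_univ, nsmul_eq_mul]
    calc ‖u n‖ * ‖∑ k, C (x + n • α) i k * cp α A Q n x k j‖ ≤ 1 * (K * B) :=
          mul_le_mul (hu n) e1 (norm_nonneg _) zero_le_one
      _ = K * B := one_mul _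
  have hblk := ne_block (fun n => u n * (C (x + n • α) * cp α A Q n x) i j) (K * B) hbound L N
  have hsum : ∑ n ∈ Icc 1 N, ‖∑ l ∈ range L, u (n + l) * (C (x + (n + l) • α) * cp α A Q (n + l) x) i j‖ ≤
      K * ((δ + ε1) * L * N) := by
    have hpt : ∀ n ∈ Icc 1 N, ‖∑ l ∈ range L, u (n + l) * (C (x + (n + l) • α) * cp α A Q (n + l) x) i j‖ ≤
        ∑ k, ‖∑ l ∈ range L, u (n + l) * T i k l (x + n • α)‖ := by
      intro n _
      have e1 : ∑ l ∈ range L, u (n + l) * (C (x + (n + l) • α) * cp α A Q (n + l) x) i j =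
          ∑ k, (∑ l ∈ range L, u (n + l) * T i k l (x + n • α)) * cp α A Q n x k j := by
        simp_rw [Finset.sum_mul]
        rw [Finset.sum_comm]
        refine Finset.sum_congr rfl fun l _ => ?_
        rw [add_comm n l, cp_add hU l n x, ← Matrix.mul_assoc, Matrix.mul_apply, Finset.mul_sum]
        refine Finset.sum_congr rfl fun k _ => ?_
        rw [hT]
        simp only
        rw [show x + (l + n) • α = x + n • α + l • α by rw [add_smul, add_comm (l • α), add_assoc]]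
        ring
      rw [e1]
      refine (norm_sum_le _ _).trans (Finset.sum_le_sum fun k _ => ?_)
      rw [norm_mul]
      exact mul_le_of_le_one_right (norm_nonneg _) (cp_entry hU n x k j)
    refine (Finset.sum_le_sum hpt).trans ?_
    rw [Finset.sum_comm]
    refine (Finset.sum_le_sum fun k _ => hN0 i k N (hNs i k) x).trans (le_of_eq ?_)
    rw [Finset.sum_const, Finset.card_univ, nsmul_eq_mul]
  have h1 : L * ‖∑ n ∈ Icc 1 N, u n * (C (x + n • α) * cp α A Q n x) i j‖ ≤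
      L * (K * ((δ + ε1) * N) + 2 * (K * B) * L) := by
    refine hblk.trans (le_trans (add_le_add hsum le_rfl) (le_of_eq (by ring)))
  have h2 := le_of_mul_le_mul_left h1 hLpos
  refine h2.trans ?_
  have h3 : 2 * (K * B) * L ≤ ε / 2 * N := by
    rw [div_le_iff₀ hε] at hNN
    linarith
  have h4 : K * ε1 ≤ ε / 2 := by
    rw [hε1, mul_div_assoc', div_le_div_iff₀ (by positivity) (by norm_num)]
    nlinarith
  have h5 : K * ε1 * N ≤ ε / 2 * N := mul_le_mul_of_nonneg_right h4 (Nat.cast_nonneg _)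
  calc K * ((δ + ε1) * N) + 2 * (K * B) * L = K * δ * N + K * ε1 * N + 2 * (K * B) * L := by ring
    _ ≤ K * δ * N + ε / 2 * N + ε / 2 * N := by linarith
    _ = (K * δ + ε) * N := by ring

theorem mne_iter (α : Td d) (n : ℕ) (x : Td d) : (fun x : Td d => x + α)^[n] x = x + n • α := by
  induction n with
  | zero => simp
  | succ n ih => rw [Function.iterate_succ_apply', ih, succ_nsmul, add_assoc]

theorem mne_cpS (α : Td d) (A : Td d → Matrix ι ι ℂ) (n : ℕ) (x : Td d) :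
    cpS (fun x : Td d => x + α) A n x = cp α A 1 n x := by
  induction n with
  | zero => rfl
  | succ n ih => rw [cpS, cp, ih, mne_iter]

/-- entries of `D (x + n α) A_n(x)` are bounded -/
theorem mne_bound (hU : UC A Q) {D : Td d → Matrix ι ι ℂ} (hD : Continuous D) :
    ∃ R : ℝ, 0 < R ∧ ∀ (n : ℕ) (x : Td d) (i j : ι), ‖(D (x + n • α) * cp α A Q n x) i j‖ ≤ R := by
  obtain ⟨B, hB⟩ : ∃ B : ℝ, ∀ (y : Td d) (i k : ι), ‖D y i k‖ ≤ B := by
    have hc : ∀ i k : ι, ∃ B : ℝ, ∀ y : Td d, ‖D y i k‖ ≤ B := fun i k =>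
      ⟨‖(⟨fun y => D y i k, hD.matrix_elem i k⟩ : C(Td d, ℂ))‖, fun y =>
        (⟨fun y => D y i k, hD.matrix_elem i k⟩ : C(Td d, ℂ)).norm_coe_le_norm y⟩
    choose B hB using hc
    refine ⟨∑ i, ∑ k, |B i k|, fun y i k => (hB i k y).trans ((le_abs_self _).trans ?_)⟩
    exact (Finset.single_le_sum (f := fun k => |B i k|) (fun k _ => abs_nonneg _) (Finset.mem_univ k)).trans
      (Finset.single_le_sum (f := fun i => ∑ k, |B i k|) (fun i _ => Finset.sum_nonneg fun k _ => abs_nonneg _) (Finset.mem_univ i))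
  refine ⟨Fintype.card ι * |B| + 1, by positivity, fun n x i j => ?_⟩
  rw [Matrix.mul_apply]
  have e1 : ‖∑ k, D (x + n • α) i k * cp α A Q n x k j‖ ≤ Fintype.card ι * |B| := by
    refine (norm_sum_le _ _).trans ?_
    have : ∀ k ∈ Finset.univ, ‖D (x + n • α) i k * cp α A Q n x k j‖ ≤ |B| := by
      intro k _
      rw [norm_mul]
      calc ‖D (x + n • α) i k‖ * ‖cp α A Q n x k j‖ ≤ |B| * 1 :=
            mul_le_mul ((hB _ i k).trans (le_abs_self _)) (cp_entry hU n x k j) (norm_nonneg _) (abs_nonneg _)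
        _ = |B| := mul_one _
    refine (Finset.sum_le_sum this).trans (le_of_eq ?_)
    rw [Finset.sum_const, Finset.card_univ, nsmul_eq_mul]
  linarith

/-- the part almost without rational spectrum -/
theorem mne_obs (hU : UC A 1) (hα : ∀ k : Fin d → ℤ, k ≠ 0 → mFourier k α ≠ 1) {u : ℕ → ℂ} (hu : BMult u)
    {D : Td d → Matrix ι ι ℂ} (hD : Continuous D) (a' : ℕ → ℂ) (K ε : ℝ) (hP : PosDef a') (h0 : (a' 0).im = 0)
    (hK : ∀ n, ‖a' n‖ ≤ K) (hR : NoRat a') (δ : ℝ) (hδ : 0 < δ) (hε : ε ≤ δ ^ 2 / 256)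
    (hd : ∀ n, ‖∫ x, (D (x + n • α) * cp α A 1 n x * (D x)ᴴ).trace ∂mT d - a' n‖ ≤ ε) :
    ∃ N0 : ℕ, ∀ N ≥ N0, ∀ (x : Td d) (i j : ι),
      ‖∑ n ∈ Icc 1 N, u n * (D (x + n • α) * cp α A 1 n x) i j‖ ≤ δ * N := by
  obtain ⟨R, hR0, hRb⟩ := mne_bound (α := α) hU hD
  set X : ℕ → Td d → Matrix ι ι ℂ := fun n x => ((R : ℂ)⁻¹) • (D (x + n • α) * cp α A 1 n x) with hX
  have hXF : ObsF α A 1 X := by
    refine ⟨fun n => ?_, fun l k v => ?_, fun n x i j => ?_⟩
    · exact Continuous.const_smul ((hD.comp (continuous_id.add continuous_const)).matrix_mul (cp_cont hU n)) ((R : ℂ)⁻¹)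
    · simp only [hX]
      rw [cp_add hU l k v, show v + (l + k) • α = v + k • α + l • α by rw [add_smul, add_comm (l • α), add_assoc],
        Matrix.smul_mul, Matrix.mul_assoc]
    · simp only [hX]
      rw [Matrix.smul_apply, smul_eq_mul, norm_mul, norm_inv, Complex.norm_real, Real.norm_of_nonneg hR0.le,
        inv_mul_le_iff₀ hR0, mul_one]
      exact hRb n x i j
  set I : ℕ → ℂ := fun n => ∫ x, (D (x + n • α) * cp α A 1 n x * (D x)ᴴ).trace ∂mT d with hI
  have haa : ∀ n, ObsX.aa X n = ((R : ℂ)⁻¹) ^ 2 * I n := by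
    intro n
    unfold ObsX.aa ObsX.trc
    rw [hI, ← integral_const_mul]
    refine integral_congr_ae (Eventually.of_forall fun x => ?_)
    simp only [hX]
    rw [zero_smul, add_zero, show cp α A 1 0 x = 1 from rfl, Matrix.mul_one, Matrix.conjTranspose_smul, Matrix.smul_mul,
      Matrix.mul_smul, smul_smul, Matrix.trace_smul, smul_eq_mul, sq]
    congr 2
    rw [star_inv₀]
    simp
  have hV : VN a' (a' 0).re := vn_of_posDef a' hP h0
  obtain ⟨N0, hN0⟩ := ObsX.obs_mst hU hXF hα hu (δ / R) (by positivity) (by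
    intro r hr
    obtain ⟨j0, hj0⟩ := prime_avg a' (max K (a' 0).re) (fun n => (hK n).trans (le_max_left _ _))
      (fun c N r' B hB => (hV c N r' B hB).trans (mul_le_mul_of_nonneg_right (le_max_right _ _)
        ((norm_nonneg _).trans (hB 0)))) hR r hr (δ ^ 2 / 256) (by positivity)
    refine ⟨j0, fun j hj => ?_⟩
    have h1 : ‖∑ p ∈ Qb j, I (p * r)‖ ≤ δ ^ 2 / 128 * (Qb j).card := by
      have h2 : ∑ p ∈ Qb j, I (p * r) = ∑ p ∈ Qb j, (I (p * r) - a' (p * r)) + ∑ p ∈ Qb j, a' (p * r) := by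
        rw [← Finset.sum_add_distrib]
        exact Finset.sum_congr rfl fun p _ => by ring
      rw [h2]
      refine (norm_add_le _ _).trans ?_
      have h3 : ‖∑ p ∈ Qb j, (I (p * r) - a' (p * r))‖ ≤ (Qb j).card * (δ ^ 2 / 256) := by
        refine (norm_sum_le _ _).trans ((Finset.sum_le_sum fun p _ => (hd (p * r)).trans hε).trans (le_of_eq ?_))
        rw [Finset.sum_const, nsmul_eq_mul]
      linarith [hj0 j hj]
    simp_rw [haa]
    rw [← Finset.mul_sum, norm_mul, norm_pow, norm_inv, Complex.norm_real, Real.norm_of_nonneg hR0.le]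
    calc R⁻¹ ^ 2 * ‖∑ p ∈ Qb j, I (p * r)‖ ≤ R⁻¹ ^ 2 * (δ ^ 2 / 128 * (Qb j).card) :=
          mul_le_mul_of_nonneg_left h1 (by positivity)
      _ = (δ / R) ^ 2 / 128 * (Qb j).card := by field_simp)
  refine ⟨N0, fun N hN x i j => ?_⟩
  have h1 := hN0 N hN x i j
  have h2 : ∑ n ∈ Icc 1 N, u n * X n x i j = (R : ℂ)⁻¹ * ∑ n ∈ Icc 1 N, u n * (D (x + n • α) * cp α A 1 n x) i j := by
    rw [Finset.mul_sum]
    refine Finset.sum_congr rfl fun n _ => ?_
    simp only [hX]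
    rw [Matrix.smul_apply, smul_eq_mul]; ring
  rw [h2, norm_mul, norm_inv, Complex.norm_real, Real.norm_of_nonneg hR0.le, inv_mul_le_iff₀ hR0] at h1
  refine h1.trans (le_of_eq ?_)
  field_simp

/-- every continuous unitary matrix cocycle over a totally irrational rotation -/
theorem mne (hU : UC A 1) (hα : ∀ k : Fin d → ℤ, k ≠ 0 → mFourier k α ≠ 1) {u : ℕ → ℂ} (hu : BMult u)
    (hw : ∀ (w : ℂ) (q : ℕ), 0 < q → w ^ q = 1 → ShortOrth u w) (ε : ℝ) (hε : 0 < ε) :
    ∃ N0 : ℕ, ∀ N ≥ N0, ∀ (x : Td d) (i j : ι), ‖∑ n ∈ Icc 1 N, u n * cp α A 1 n x i j‖ ≤ ε * N := by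
  set K : ℝ := (Fintype.card ι : ℝ) with hK
  have hK0 : 0 ≤ K := Nat.cast_nonneg _
  set δ : ℝ := ε / 2 with hδ
  have hδ0 : 0 < δ := by positivity
  set ε1 : ℝ := min 1 (min (δ ^ 2 / (256 * (4 * (2 * K + 2)))) (ε / (4 * (K + 1)))) with hε1
  have hε1p : 0 < ε1 := lt_min one_pos (lt_min (by positivity) (by positivity))
  have hε11 : ε1 ≤ 1 := min_le_left _ _
  have hε12 : 4 * (2 * K + 2) * ε1 ≤ δ ^ 2 / 256 := by
    have h1 : ε1 ≤ δ ^ 2 / (256 * (4 * (2 * K + 2))) := (min_le_right _ _).trans (min_le_left _ _)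
    calc 4 * (2 * K + 2) * ε1 ≤ 4 * (2 * K + 2) * (δ ^ 2 / (256 * (4 * (2 * K + 2)))) :=
          mul_le_mul_of_nonneg_left h1 (by positivity)
      _ = δ ^ 2 / 256 := by field_simp
  have hε13 : K * ε1 ≤ ε / 4 := by
    have h1 : ε1 ≤ ε / (4 * (K + 1)) := (min_le_right _ _).trans (min_le_right _ _)
    calc K * ε1 ≤ K * (ε / (4 * (K + 1))) := mul_le_mul_of_nonneg_left h1 hK0
      _ ≤ ε / 4 := by
          rw [mul_div_assoc', div_le_div_iff₀ (by positivity) (by norm_num)]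
          nlinarith
  have hS : MeasurePreserving (fun x : Td d => x + α) (mT d) (mT d) := measurePreserving_add_right (mT d) α
  obtain ⟨m, w, F, C, hC, hq, hF, hCF, a', ha1, ha2, ha3, ha4, ha5⟩ :=
    spec_split hS (continuous_id.add continuous_const) hU.cont hU.AAH ε1 hε1p hε11
  simp only [mne_iter, mne_cpS] at hCF ha5
  have hwn : ∀ s, ‖w s‖ = 1 := by
    intro s
    obtain ⟨q, hq0, hq1⟩ := hq s
    have := congrArg norm hq1
    rw [norm_pow, norm_one] at this
    exact (pow_eq_one_iff_of_nonneg (norm_nonneg _) hq0.ne').1 this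
  have hwS : ∀ s, ShortOrth u (w s) := fun s => by
    obtain ⟨q, hq0, hq1⟩ := hq s
    exact hw (w s) q hq0 hq1
  obtain ⟨N1, hN1⟩ := ne_part1 hU hα hu.le_one w hwn hwS F hF C hC ε1 hCF (ε / 4) (by positivity)
  obtain ⟨N2, hN2⟩ := mne_obs hU hα hu (D := fun x => 1 - C x) (continuous_const.sub hC) a' _ _ ha1 ha2 ha3 ha4 δ hδ0
    hε12 ha5
  refine ⟨max N1 N2, fun N hN x i j => ?_⟩
  have h1 := hN1 N ((le_max_left _ _).trans hN) x i j
  have h2 := hN2 N ((le_max_right _ _).trans hN) x i j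
  have h3 : ∑ n ∈ Icc 1 N, u n * cp α A 1 n x i j =
      ∑ n ∈ Icc 1 N, u n * (C (x + n • α) * cp α A 1 n x) i j +
        ∑ n ∈ Icc 1 N, u n * ((1 - C (x + n • α)) * cp α A 1 n x) i j := by
    rw [← Finset.sum_add_distrib]
    refine Finset.sum_congr rfl fun n _ => ?_
    rw [Matrix.sub_mul, Matrix.one_mul, Matrix.sub_apply]
    ring
  rw [h3]
  refine (norm_add_le _ _).trans ?_
  have hN0 : (0 : ℝ) ≤ N := Nat.cast_nonneg _
  calc _ ≤ (K * ε1 + ε / 4) * N + δ * N := add_le_add h1 h2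
    _ ≤ (ε / 4 + ε / 4) * N + ε / 2 * N := by
        have : (K * ε1 + ε / 4) * N ≤ (ε / 4 + ε / 4) * N := mul_le_mul_of_nonneg_right (by linarith) hN0
        have h5 : δ * N = ε / 2 * N := by rw [hδ]
        rw [h5]
        linarith
    _ = ε * N := by ring

end Pool.Agent.Lib.MP_9fe581_an.HD
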