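import Pool.Agent.Lib.MP_9fe581_an.HD.Defs
import Pool.Agent.Lib.SW.FourierSW

/-!
# HD: the primes are uniformly close to a fixed finite Ramanujan model in Fourier transform (module A2)
-/

set_option autoImplicit false

open Finset

namespace Pool.Agent.Lib.MP_9fe581_an.HD

/-- Euler's function tends to infinity on squarefree numbers -/
theorem model_tot (K : ℕ) : ∃ Q0 : ℕ, ∀ q : ℕ, Squarefree q → Q0 < q → K < q.totient := by
  refine ⟨primorial (K + 1), fun q hq h => ?_⟩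
  by_contra hc
  push Not at hc
  have hq0 : q ≠ 0 := hq.ne_zero
  have h1 : q ≤ primorial (K + 1) := by
    calc q = ∏ p ∈ q.primeFactors, p := (Nat.prod_primeFactors_of_squarefree hq).symm
      _ ≤ ∏ p ∈ (range (K + 1 + 1)).filter Nat.Prime, p := by
        apply Finset.prod_le_prod_of_subset_of_one_le'
        · intro p hp
          have hpp := Nat.prime_of_mem_primeFactors hp
          have hpd := Nat.dvd_of_mem_primeFactors hp
          rw [mem_filter, mem_range]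
          refine ⟨?_, hpp⟩
          have h2 : p.totient ≤ q.totient :=
            Nat.le_of_dvd (Nat.totient_pos.2 (Nat.pos_of_ne_zero hq0))
              (Nat.totient_dvd_of_dvd hpd)
          rw [Nat.totient_prime hpp] at h2
          omega
        · intro p hp _
          rw [mem_filter] at hp
          exact hp.2.one_le
      _ = primorial (K + 1) := rfl
  omega

/-- reduced fractions are well spaced -/
theorem model_sep {Y q q' : ℕ} (hq : 0 < q) (hqY : q ≤ Y) (hq' : 0 < q') (hqY' : q' ≤ Y)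
    (b b' : ℤ) (hb : IsCoprime b (q : ℤ)) (hb' : IsCoprime b' (q' : ℤ)) (m m' : ℤ) (θ : ℝ)
    (h1 : |θ + b / q - m| < 1 / (2 * (Y : ℝ) ^ 2))
    (h2 : |θ + b' / q' - m'| < 1 / (2 * (Y : ℝ) ^ 2)) :
    q = q' ∧ b - b' = (m - m') * q := by
  have hqr : (0 : ℝ) < q := by exact_mod_cast hq
  have hqr' : (0 : ℝ) < q' := by exact_mod_cast hq'
  have hYr : (0 : ℝ) < Y := by exact_mod_cast lt_of_lt_of_le hq hqY
  have e1 : ((b * q' - b' * q - (m - m') * q * q' : ℤ) : ℝ) =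
      ((θ + b / q - m) - (θ + b' / q' - m')) * (q * q') := by
    push_cast
    field_simp
    ring
  have h3 : |(θ + b / q - m) - (θ + b' / q' - m')| < 1 / (Y : ℝ) ^ 2 := by
    refine lt_of_le_of_lt (abs_sub _ _) ?_
    have : 1 / (Y : ℝ) ^ 2 = 1 / (2 * (Y : ℝ) ^ 2) + 1 / (2 * (Y : ℝ) ^ 2) := by
      field_simp
      norm_num
    rw [this]
    exact add_lt_add h1 h2
  have h4 : ((q : ℝ) * q') ≤ (Y : ℝ) ^ 2 := by
    rw [sq]
    exact mul_le_mul (by exact_mod_cast hqY) (by exact_mod_cast hqY') hqr'.le hYr.le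
  have h5 : |((b * q' - b' * q - (m - m') * q * q' : ℤ) : ℝ)| < 1 := by
    rw [e1, abs_mul, abs_of_pos (mul_pos hqr hqr')]
    calc |(θ + b / q - m) - (θ + b' / q' - m')| * ((q : ℝ) * q')
        < 1 / (Y : ℝ) ^ 2 * ((q : ℝ) * q') := mul_lt_mul_of_pos_right h3 (mul_pos hqr hqr')
      _ ≤ 1 / (Y : ℝ) ^ 2 * (Y : ℝ) ^ 2 := mul_le_mul_of_nonneg_left h4 (by positivity)
      _ = 1 := by field_simp
  have h6 : b * q' - b' * q - (m - m') * q * q' = 0 := by
    rw [← Int.cast_abs] at h5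
    have h7 : |b * q' - b' * q - (m - m') * q * q'| < 1 := by exact_mod_cast h5
    exact Int.abs_lt_one_iff.1 h7
  have h8 : (q : ℤ) ∣ (q' : ℤ) := by
    have : (q : ℤ) ∣ b * q' := ⟨b' + (m - m') * q', by linear_combination h6⟩
    exact hb.symm.dvd_of_dvd_mul_left this
  have h9 : (q' : ℤ) ∣ (q : ℤ) := by
    have : (q' : ℤ) ∣ b' * q := ⟨b - (m - m') * q, by linear_combination -h6⟩
    exact hb'.symm.dvd_of_dvd_mul_left this
  have h10 : q = q' := Nat.dvd_antisymm (by exact_mod_cast h8) (by exact_mod_cast h9)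
  refine ⟨h10, ?_⟩
  subst h10
  have hqz : (q : ℤ) ≠ 0 := by exact_mod_cast hq.ne'
  have h11 : (b - b' - (m - m') * q) * q = 0 := by linear_combination h6
  rcases mul_eq_zero.1 h11 with h | h
  · linarith
  · exact absurd h hqz

theorem model_one (q : ℕ) (hq : Squarefree q) (N : ℕ) (θ δ : ℝ) (hδ : 0 < δ) (b0 : ℕ)
    (h : ∀ b : ℕ, b < q → Nat.Coprime b q → b ≠ b0 → ∀ m : ℤ, δ ≤ |θ + b / q - m|) :
    ‖∑ n ∈ Icc 1 N, (SW.gq q n : ℂ) * GT.e (n * θ)‖ ≤ N / q.totient + 1 / (2 * δ) := by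
  have hφ : (0 : ℝ) < q.totient := by
    exact_mod_cast Nat.totient_pos.2 (Nat.pos_of_ne_zero hq.ne_zero)
  rw [SW.rm_sum_swap q hq, norm_mul]
  have h1 : ‖∑ b ∈ (range q).filter (fun b => Nat.Coprime b q),
      ∑ n ∈ Icc 1 N, GT.e ((θ + (b : ℝ) / q) * n)‖ ≤ N + (q.totient : ℝ) * (1 / (2 * δ)) := by
    refine (norm_sum_le _ _).trans ?_
    have h2 : ∀ b ∈ (range q).filter (fun b => Nat.Coprime b q),
        ‖∑ n ∈ Icc 1 N, GT.e ((θ + (b : ℝ) / q) * n)‖ ≤
          (if b = b0 then (N : ℝ) else 0) + 1 / (2 * δ) := by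
      intro b hb
      rw [Finset.mem_filter, mem_range] at hb
      by_cases hbb : b = b0
      · rw [if_pos hbb]
        have h3 : ‖∑ n ∈ Icc 1 N, GT.e ((θ + (b : ℝ) / q) * n)‖ ≤ N := by
          refine (norm_sum_le _ _).trans ?_
          have : ∀ n ∈ Icc 1 N, ‖GT.e ((θ + (b : ℝ) / q) * n)‖ ≤ 1 := by
            intro n _
            unfold GT.e
            rw [show (2 : ℂ) * Real.pi * (((θ + (b : ℝ) / q) * n : ℝ) : ℂ) * Complex.I =
              ((2 * Real.pi * ((θ + (b : ℝ) / q) * n) : ℝ) : ℂ) * Complex.I by push_cast; ring]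
            rw [Complex.norm_exp_ofReal_mul_I]
          refine (Finset.sum_le_sum this).trans ?_
          simp
        have h4 : 0 ≤ 1 / (2 * δ) := by positivity
        linarith
      · rw [if_neg hbb, zero_add]
        refine GT.RE.norm_geom_Icc_le _ _ hδ (fun m => ?_) N
        exact h b hb.1 hb.2 hbb m
    refine (Finset.sum_le_sum h2).trans ?_
    rw [Finset.sum_add_distrib, Finset.sum_const, SW.rm_card, nsmul_eq_mul]
    refine add_le_add ?_ le_rfl
    rw [Finset.sum_ite_eq']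
    split_ifs
    · exact le_rfl
    · positivity
  have h3 := SW.rm_norm_factor q hq
  have h4 : ‖((ArithmeticFunction.moebius q : ℤ) : ℂ) / (q.totient : ℂ)‖ ≤ 1 / q.totient := by
    rw [le_div_iff₀ hφ]
    exact h3
  calc _ ≤ 1 / (q.totient : ℝ) * (N + (q.totient : ℝ) * (1 / (2 * δ))) :=
        mul_le_mul h4 h1 (norm_nonneg _) (by positivity)
    _ = _ := by
        field_simp

theorem model_tail (K : ℕ) (hK : 0 < K) : ∃ Q0 : ℕ, ∀ (Y N : ℕ) (T : Finset ℕ),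
    (∀ q ∈ T, Squarefree q ∧ Q0 < q ∧ q ≤ Y) → ∀ θ : ℝ,
      ‖∑ n ∈ Icc 1 N, ((SW.LQ T n : ℝ) : ℂ) * GT.e (n * θ)‖ ≤ N / K + (Y : ℝ) ^ 3 := by
  obtain ⟨Q0, hQ0⟩ := model_tot K
  refine ⟨Q0, fun Y N T hT θ => ?_⟩
  rcases Nat.eq_zero_or_pos Y with rfl | hY
  · have hT0 : T = ∅ := by
      rw [Finset.eq_empty_iff_forall_notMem]
      intro q hq
      have := hT q hq
      omega
    rw [hT0]
    have e : ∀ n ∈ Icc 1 N, ((SW.LQ ∅ n : ℝ) : ℂ) * GT.e (n * θ) = 0 := by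
      intro n _
      simp [SW.LQ]
    rw [Finset.sum_congr rfl e]
    simp
    positivity
  have hYr : (1 : ℝ) ≤ Y := by exact_mod_cast hY
  have hKr : (0 : ℝ) < K := by exact_mod_cast hK
  obtain ⟨δ, hδ⟩ : ∃ δ : ℝ, δ = 1 / (2 * (Y : ℝ) ^ 2) := ⟨_, rfl⟩
  have hδ0 : 0 < δ := by rw [hδ]; positivity
  have hδ2 : 1 / (2 * δ) = (Y : ℝ) ^ 2 := by
    rw [hδ]
    field_simp
  have hcard : (T.card : ℝ) ≤ Y := by
    have h1 : T ⊆ Icc 1 Y := by
      intro q hq
      have := hT q hq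
      rw [mem_Icc]
      omega
    have h2 := Finset.card_le_card h1
    rw [Nat.card_Icc] at h2
    have h3 : T.card ≤ Y := by omega
    exact_mod_cast h3
  -- the sum over the moduli
  have hsw : ∑ n ∈ Icc 1 N, ((SW.LQ T n : ℝ) : ℂ) * GT.e (n * θ) =
      ∑ q ∈ T, ∑ n ∈ Icc 1 N, (SW.gq q n : ℂ) * GT.e (n * θ) := by
    rw [Finset.sum_comm]
    refine Finset.sum_congr rfl fun n _ => ?_
    unfold SW.LQ
    rw [Complex.ofReal_sum, Finset.sum_mul]
  rw [hsw]
  refine (norm_sum_le _ _).trans ?_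
  by_cases hex : ∃ q0 ∈ T, ∃ b0 : ℕ, b0 < q0 ∧ Nat.Coprime b0 q0 ∧
      ∃ m0 : ℤ, |θ + b0 / q0 - m0| < δ
  · obtain ⟨q0, hq0T, b0, hb0, hc0, m0, hm0⟩ := hex
    obtain ⟨hs0, hQ00, hY0⟩ := hT q0 hq0T
    have hq0 : 0 < q0 := by omega
    have key : ∀ q ∈ T, ‖∑ n ∈ Icc 1 N, (SW.gq q n : ℂ) * GT.e (n * θ)‖ ≤
        (if q = q0 then (N : ℝ) / K else 0) + (Y : ℝ) ^ 2 := by
      intro q hqT
      obtain ⟨hs, hQ, hqY⟩ := hT q hqT
      have hq : 0 < q := by omega
      by_cases hqq : q = q0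
      · rw [if_pos hqq]
        subst hqq
        have h1 := model_one q hs N θ δ hδ0 b0 (by
          intro b hb hbc hbb m
          by_contra hlt
          push Not at hlt
          rw [hδ] at hlt hm0
          obtain ⟨-, h2⟩ := model_sep hq hqY hq hqY (b : ℤ) (b0 : ℤ)
            (Nat.isCoprime_iff_coprime.2 hbc) (Nat.isCoprime_iff_coprime.2 hc0) m m0 θ
            (by simpa using hlt) (by simpa using hm0)
          apply hbb
          have h3 : ((b : ℤ) - b0) % q = 0 := by rw [h2]; exact Int.mul_emod_left _ _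
          have h4 : (b : ℤ) % q = (b0 : ℤ) % q := Int.emod_eq_emod_iff_emod_sub_eq_zero.2 h3
          have h5 : b % q = b0 % q := by exact_mod_cast h4
          rwa [Nat.mod_eq_of_lt hb, Nat.mod_eq_of_lt hb0] at h5)
        rw [hδ2] at h1
        refine h1.trans ?_
        refine add_le_add ?_ le_rfl
        have h2 : (K : ℝ) ≤ q.totient := by exact_mod_cast (hQ0 q hs hQ).le
        exact div_le_div_of_nonneg_left (by positivity) hKr h2
      · rw [if_neg hqq, zero_add, ← hδ2]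
        refine SW.sum_gq_exp_le q hs N θ δ hδ0 ?_
        intro b hb m
        by_contra hlt
        push Not at hlt
        rw [hδ] at hlt hm0
        obtain ⟨h2, -⟩ := model_sep hq hqY hq0 hY0 b (b0 : ℤ) hb
          (Nat.isCoprime_iff_coprime.2 hc0) m m0 θ hlt (by simpa using hm0)
        exact hqq h2
    refine (Finset.sum_le_sum key).trans ?_
    rw [Finset.sum_add_distrib, Finset.sum_const, nsmul_eq_mul, Finset.sum_ite_eq', if_pos hq0T]
    refine add_le_add le_rfl ?_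
    calc (T.card : ℝ) * (Y : ℝ) ^ 2 ≤ (Y : ℝ) * (Y : ℝ) ^ 2 :=
          mul_le_mul_of_nonneg_right hcard (by positivity)
      _ = (Y : ℝ) ^ 3 := by ring
  · push Not at hex
    have key : ∀ q ∈ T, ‖∑ n ∈ Icc 1 N, (SW.gq q n : ℂ) * GT.e (n * θ)‖ ≤ (Y : ℝ) ^ 2 := by
      intro q hqT
      obtain ⟨hs, hQ, hqY⟩ := hT q hqT
      have hq : 0 < q := by omega
      have hqz : (0 : ℤ) < q := by exact_mod_cast hq
      have hqr : (0 : ℝ) < q := by exact_mod_cast hq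
      rw [← hδ2]
      refine SW.sum_gq_exp_le q hs N θ δ hδ0 ?_
      intro b hb m
      -- reduce b modulo q
      have h1 := Int.emod_nonneg b hqz.ne'
      have h2 := Int.emod_lt_of_pos b hqz
      obtain ⟨b1, hb1⟩ := Int.eq_ofNat_of_zero_le h1
      have h3 : b = q * (b / q) + b1 := by
        rw [← hb1]
        exact (Int.mul_ediv_add_emod b q).symm
      have h4 : IsCoprime (b1 : ℤ) (q : ℤ) := by
        rw [h3] at hb
        have := (IsCoprime.mul_add_left_left_iff (x := (b1 : ℤ)) (y := (q : ℤ)) (z := b / q)).1 hb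
        exact this
      have h5 := hex q hqT b1 (by omega) (Nat.isCoprime_iff_coprime.1 h4) (m - b / q)
      have h6 : θ + (b : ℝ) / q - m = θ + (b1 : ℝ) / q - ((m - b / q : ℤ) : ℝ) := by
        have h7 : (b : ℝ) = q * ((b / q : ℤ) : ℝ) + b1 := by
          have := congrArg (fun z : ℤ => (z : ℝ)) h3
          push_cast at this ⊢
          exact this
        rw [h7]
        push_cast
        field_simp
        ring
      rw [h6]
      exact h5
    refine (Finset.sum_le_sum key).trans ?_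
    rw [Finset.sum_const, nsmul_eq_mul]
    have h1 : (T.card : ℝ) * (Y : ℝ) ^ 2 ≤ (Y : ℝ) ^ 3 := by
      calc (T.card : ℝ) * (Y : ℝ) ^ 2 ≤ (Y : ℝ) * (Y : ℝ) ^ 2 :=
            mul_le_mul_of_nonneg_right hcard (by positivity)
        _ = (Y : ℝ) ^ 3 := by ring
    have h2 : (0 : ℝ) ≤ N / K := by positivity
    linarith

theorem model (ε : ℝ) (hε : 0 < ε) : ∃ Q0 N0 : ℕ, ∀ N ≥ N0, ∀ θ : ℝ,
    ‖∑ n ∈ Icc 1 N, ((GT.lam n - SW.LQ ((Icc 1 Q0).filter Squarefree) n : ℝ) : ℂ) * GT.e (n * θ)‖ ≤ ε * N := by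
  obtain ⟨A1, hA1⟩ := SW.fourier_lam 1
  obtain ⟨C, hC, hF⟩ := hA1 (A1 + 1)
  obtain ⟨K, hK⟩ := exists_nat_gt (4 / ε)
  have hK0 : 0 < K := by
    have : (0 : ℝ) < K := lt_trans (by positivity) hK
    exact_mod_cast this
  obtain ⟨Q0, hQ0⟩ := model_tail K hK0
  obtain ⟨C2, hC2, hlog⟩ := SW.FourierSW_log_pow (3 * (A1 + 1)) (1 / 2) (by norm_num)
  obtain ⟨N1, hN1⟩ := exists_nat_gt (Real.exp (max (max 1 Q0) (4 * C / ε)))
  obtain ⟨N2, hN2⟩ := exists_nat_gt ((4 * C2 / ε) ^ 2)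
  refine ⟨Q0, max (max N1 N2) 2, fun N hN θ => ?_⟩
  have hN1' : N1 ≤ N := (le_max_left _ _).trans ((le_max_left _ _).trans hN)
  have hN2' : N2 ≤ N := (le_max_right _ _).trans ((le_max_left _ _).trans hN)
  have hN3' : 2 ≤ N := (le_max_right _ _).trans hN
  have hNr : (0 : ℝ) < N := by
    have : 0 < N := by omega
    exact_mod_cast this
  obtain ⟨L, hL⟩ : ∃ L : ℝ, L = Real.log N := ⟨_, rfl⟩
  have hLM : max (max 1 (Q0 : ℝ)) (4 * C / ε) ≤ L := by
    rw [hL, Real.le_log_iff_exp_le hNr]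
    have : (N1 : ℝ) ≤ N := by exact_mod_cast hN1'
    linarith
  have hL1 : 1 ≤ L := (le_max_left _ _).trans ((le_max_left _ _).trans hLM)
  have hLQ : (Q0 : ℝ) ≤ L := (le_max_right _ _).trans ((le_max_left _ _).trans hLM)
  have hLC : 4 * C / ε ≤ L := (le_max_right _ _).trans hLM
  have hL0 : 0 < L := by linarith
  obtain ⟨Y, hY⟩ : ∃ Y : ℕ, Y = ⌊L ^ (A1 + 1)⌋₊ := ⟨_, rfl⟩
  have hYL : (Y : ℝ) ≤ L ^ (A1 + 1) := by
    rw [hY]
    exact Nat.floor_le (by positivity)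
  have hQY : Q0 ≤ Y := by
    rw [hY]
    apply Nat.le_floor
    calc (Q0 : ℝ) ≤ L := hLQ
      _ = L ^ 1 := (pow_one L).symm
      _ ≤ L ^ (A1 + 1) := pow_le_pow_right₀ hL1 (by omega)
  obtain ⟨Qs, hQs⟩ : ∃ Qs : Finset ℕ, Qs = (Icc 1 Y).filter Squarefree := ⟨_, rfl⟩
  obtain ⟨T, hT⟩ : ∃ T : Finset ℕ, T = (Ioc Q0 Y).filter Squarefree := ⟨_, rfl⟩
  have hsplit : Qs = (Icc 1 Q0).filter Squarefree ∪ T := by
    rw [hQs, hT, ← Finset.filter_union]
    congr 1
    ext n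
    simp only [mem_Icc, mem_union, mem_Ioc]
    omega
  have hdisj : Disjoint ((Icc 1 Q0).filter Squarefree) T := by
    rw [Finset.disjoint_left, hT]
    intro n hn hn'
    rw [mem_filter, mem_Icc] at hn
    rw [mem_filter, mem_Ioc] at hn'
    omega
  have hLQs : ∀ n : ℕ, SW.LQ Qs n = SW.LQ ((Icc 1 Q0).filter Squarefree) n + SW.LQ T n := by
    intro n
    unfold SW.LQ
    rw [hsplit, Finset.sum_union hdisj]
  have h1 := hF N hN3' Qs (by
    intro q hq
    rw [hQs, mem_filter, mem_Icc] at hq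
    refine ⟨hq.2, ?_⟩
    rw [← hL]
    refine le_trans ?_ hYL
    exact_mod_cast hq.1.2) (by
    intro q hq hqL
    rw [hQs, mem_filter, mem_Icc]
    refine ⟨⟨Nat.pos_of_ne_zero hq.ne_zero, ?_⟩, hq⟩
    rw [hY]
    apply Nat.le_floor
    rw [← hL] at hqL
    exact hqL.trans (pow_le_pow_right₀ hL1 (by omega))) N le_rfl θ
  have h2 := hQ0 Y N T (by
    intro q hq
    rw [hT, mem_filter, mem_Ioc] at hq
    exact ⟨hq.2, hq.1.1, hq.1.2⟩) θ
  have hdec : ∑ n ∈ Icc 1 N, ((GT.lam n - SW.LQ ((Icc 1 Q0).filter Squarefree) n : ℝ) : ℂ) *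
      GT.e (n * θ) = ∑ n ∈ Icc 1 N, ((GT.lam n - SW.LQ Qs n : ℝ) : ℂ) * GT.e (n * θ) +
        ∑ n ∈ Icc 1 N, ((SW.LQ T n : ℝ) : ℂ) * GT.e (n * θ) := by
    rw [← Finset.sum_add_distrib]
    refine Finset.sum_congr rfl fun n _ => ?_
    rw [hLQs, ← add_mul, ← Complex.ofReal_add]
    congr 2
    ring
  rw [hdec]
  refine (norm_add_le _ _).trans ((add_le_add h1 h2).trans ?_)
  rw [← hL, pow_one]
  -- first term
  have g1 : C * N / L ≤ ε / 4 * N := by
    rw [div_le_iff₀ hL0]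
    have h3 : 4 * C ≤ L * ε := (div_le_iff₀ hε).1 hLC
    nlinarith
  have g2 : (N : ℝ) / K ≤ ε / 4 * N := by
    have hKr : (0 : ℝ) < K := by exact_mod_cast hK0
    rw [div_le_iff₀ hKr]
    have h3 : 4 < K * ε := (div_lt_iff₀ hε).1 hK
    nlinarith
  have g3 : (Y : ℝ) ^ 3 ≤ ε / 4 * N := by
    have h3 : (Y : ℝ) ^ 3 ≤ L ^ (3 * (A1 + 1)) := by
      calc (Y : ℝ) ^ 3 ≤ (L ^ (A1 + 1)) ^ 3 := pow_le_pow_left₀ (by positivity) hYL 3
        _ = L ^ (3 * (A1 + 1)) := by rw [← pow_mul]; ring_nf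
    have h4 := hlog N (by exact_mod_cast (by omega : 1 ≤ N))
    rw [← hL, ← Real.sqrt_eq_rpow] at h4
    have h5 : (4 * C2 / ε) ^ 2 ≤ N := by
      have : (N2 : ℝ) ≤ N := by exact_mod_cast hN2'
      linarith
    have h6 : 4 * C2 / ε ≤ Real.sqrt N := by
      rw [← Real.sqrt_sq (show 0 ≤ 4 * C2 / ε by positivity)]
      exact Real.sqrt_le_sqrt h5
    have h7 : 4 * C2 ≤ Real.sqrt N * ε := (div_le_iff₀ hε).1 h6
    have h8 := Real.mul_self_sqrt hNr.le
    have h9 := Real.sqrt_nonneg (N : ℝ)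
    calc (Y : ℝ) ^ 3 ≤ C2 * Real.sqrt N := h3.trans h4
      _ ≤ (Real.sqrt N * ε / 4) * Real.sqrt N :=
          mul_le_mul_of_nonneg_right (by linarith) h9
      _ = ε / 4 * (Real.sqrt N * Real.sqrt N) := by ring
      _ = ε / 4 * N := by rw [h8]
  have : 0 ≤ ε / 4 * N := by positivity
  linarith

end Pool.Agent.Lib.MP_9fe581_an.HD
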