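import Pool.Agent.Lib.MP_9fe581_an.HD.Main

/-!
# HD* for families with an observable

`X_n(x)` with `X_{l+k}(u) = X_l(u + k α) A_k(u)`, e.g. `X_n(x) = B(x + n α) A_n(x)`, entries at most 1.  Everything of the
modules V1, V2, S1, N2, N3, N4, M1 holds for such families (`X = A`: the old statements).  Final theorem `obs_mst`.
-/

set_option linter.unusedSectionVars false

open Finset MeasureTheory Filter Topology UnitAddTorus
open scoped ComplexConjugate Matrix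

namespace Pool.Agent.Lib.MP_9fe581_an.HD

/-- families of continuous matrix functions moved by the cocycle -/
structure ObsF {d : ℕ} {ι : Type} [Fintype ι] [DecidableEq ι] (α : Td d) (A : Td d → Matrix ι ι ℂ) (Q : Matrix ι ι ℂ)
    (X : ℕ → Td d → Matrix ι ι ℂ) : Prop where
  cont : ∀ n, Continuous (X n)
  add : ∀ l k u, X (l + k) u = X l (u + k • α) * cp α A Q k u
  bd : ∀ n x i j, ‖X n x i j‖ ≤ 1

namespace ObsX

variable {d : ℕ} {ι : Type} [Fintype ι] [DecidableEq ι]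
variable {α : Td d} {A : Td d → Matrix ι ι ℂ} {Q : Matrix ι ι ℂ} {X : ℕ → Td d → Matrix ι ι ℂ}

/-- `tr (X_n(x) X_0(x)^*)` -/
noncomputable def trc (X : ℕ → Td d → Matrix ι ι ℂ) (n : ℕ) (x : Td d) : ℂ := (X n x * (X 0 x)ᴴ).trace

noncomputable def aa (X : ℕ → Td d → Matrix ι ι ℂ) (n : ℕ) : ℂ := ∫ x, trc X n x ∂mT d

noncomputable def bb (X : ℕ → Td d → Matrix ι ι ℂ) (s : Td d) (n : ℕ) : ℂ :=
  ∫ u, trc X n (u + s) * conj (trc X n u) ∂mT d

noncomputable def Dl (X : ℕ → Td d → Matrix ι ι ℂ) (j n : ℕ) : ℝ :=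
  (1 / ((Qb j).card : ℝ)) * ∑ q ∈ Qb j, (eqf (trc X n) q - ‖aa X n‖ ^ 2)

noncomputable def Wt (X : ℕ → Td d → Matrix ι ι ℂ) (p q L : ℕ) (u v : Td d) (a b c f : ι) : ℂ :=
  (1 / (L : ℂ)) * ∑ l ∈ range L, X (p * l) u a b * conj (X (q * l) v c f)

noncomputable def Phi (X : ℕ → Td d → Matrix ι ι ℂ) (p q L : ℕ) (u v : Td d) : ℝ :=
  ∑ a, ∑ b, ∑ c, ∑ f, ‖Wt X p q L u v a b c f‖ ^ 2

theorem x_Q (hU : UC A Q) (hX : ObsF α A Q X) (n : ℕ) (w : Td d) : X n w * Q = X n w := by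
  have h := hX.add n 0 w
  rw [add_zero, zero_smul, add_zero] at h
  exact h.symm

/-- `X_l(u) X_{l'}(u)^* = X_{l-l'}(u + l' α) X_0(u + l' α)^*` -/
theorem x_shift (hU : UC A Q) (hX : ObsF α A Q X) (l l' : ℕ) (h : l' ≤ l) (u : Td d) :
    X l u * (X l' u)ᴴ = X (l - l') (u + l' • α) * (X 0 (u + l' • α))ᴴ := by
  have h1 := hX.add (l - l') l' u
  have h2 := hX.add 0 l' u
  rw [Nat.sub_add_cancel h] at h1
  rw [zero_add] at h2
  rw [h1, h2, Matrix.conjTranspose_mul, mul_assoc, ← mul_assoc (cp α A Q l' u), cp_AAH hU, ← mul_assoc, x_Q hU hX]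

theorem x_shift2 (hU : UC A Q) (hX : ObsF α A Q X) (l l' k : ℕ) (u : Td d) :
    X (l + k) u * (X (l' + k) u)ᴴ = X l (u + k • α) * (X l' (u + k • α))ᴴ := by
  rw [hX.add l k u, hX.add l' k u, Matrix.conjTranspose_mul, mul_assoc, ← mul_assoc (cp α A Q k u), cp_AAH hU, ← mul_assoc,
    x_Q hU hX]

/-- bound for the trace -/
theorem x_tr (hX : ObsF α A Q X) (n : ℕ) (x : Td d) : ‖trc X n x‖ ≤ (Fintype.card ι : ℝ) ^ 2 := by
  unfold trc
  rw [Matrix.trace]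
  have h1 : ∀ i : ι, ‖(X n x * (X 0 x)ᴴ).diag i‖ ≤ Fintype.card ι := by
    intro i
    rw [Matrix.diag_apply, Matrix.mul_apply]
    refine (norm_sum_le _ _).trans ?_
    have h2 : ∀ j ∈ Finset.univ, ‖X n x i j * (X 0 x)ᴴ j i‖ ≤ 1 := by
      intro j _
      rw [norm_mul, Matrix.conjTranspose_apply, norm_star]
      exact mul_le_one₀ (hX.bd _ _ _ _) (norm_nonneg _) (hX.bd _ _ _ _)
    refine (Finset.sum_le_sum h2).trans (le_of_eq ?_)
    rw [Finset.sum_const, Finset.card_univ, nsmul_eq_mul, mul_one]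
  refine (norm_sum_le _ _).trans ((Finset.sum_le_sum fun i _ => h1 i).trans (le_of_eq ?_))
  rw [Finset.sum_const, Finset.card_univ, nsmul_eq_mul]; ring

/-- the van der Corput bound for the entries of the cocycle products -/
theorem vdc (hU : UC A Q) (hX : ObsF α A Q X) (p q L M : ℕ) (hL : 0 < L) (x : Td d) (i j : ι) :
    ‖∑ m ∈ Icc 1 M, X (p * m) x i j * conj (X (q * m) x i j)‖ ≤
      (∑ m ∈ Icc 1 M, Real.sqrt (Phi X p q L (x + (p * m) • α) (x + (q * m) • α))) + 2 * L := by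
  set s : ℕ → ℂ := fun m => X (p * m) x i j * conj (X (q * m) x i j) with hs
  have hs1 : ∀ n, ‖s n‖ ≤ 1 := by
    intro n
    rw [hs]
    simp only
    rw [norm_mul, Complex.norm_conj]
    calc ‖X (p * n) x i j‖ * ‖X (q * n) x i j‖ ≤ 1 * 1 :=
          mul_le_mul (hX.bd _ x i j) (hX.bd _ x i j) (norm_nonneg _) zero_le_one
      _ = 1 := one_mul 1
  have h1 := vdc_avg s hs1 M L hL
  have h2 : ‖∑ m ∈ Icc 1 M, (1 / (L : ℂ)) * ∑ l ∈ range L, s (m + l)‖ ≤
      ∑ m ∈ Icc 1 M, Real.sqrt (Phi X p q L (x + (p * m) • α) (x + (q * m) • α)) := by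
    refine (norm_sum_le _ _).trans (Finset.sum_le_sum fun m _ => ?_)
    have h3 : (1 / (L : ℂ)) * ∑ l ∈ range L, s (m + l) =
        ∑ b, ∑ f, Wt X p q L (x + (p * m) • α) (x + (q * m) • α) i b i f *
          (cp α A Q (p * m) x b j * conj (cp α A Q (q * m) x f j)) := by
      have h4 : ∀ l, s (m + l) = ∑ b, ∑ f,
          (X (p * l) (x + (p * m) • α) i b * conj (X (q * l) (x + (q * m) • α) i f)) *
            (cp α A Q (p * m) x b j * conj (cp α A Q (q * m) x f j)) := by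
        intro l
        rw [hs]
        simp only
        have h5 : p * (m + l) = p * l + p * m := by ring
        have h6 : q * (m + l) = q * l + q * m := by ring
        rw [h5, h6, hX.add, hX.add, Matrix.mul_apply, Matrix.mul_apply, map_sum,
          Finset.sum_mul_sum]
        refine Finset.sum_congr rfl fun b _ => Finset.sum_congr rfl fun f _ => ?_
        rw [map_mul]
        ring
      simp_rw [h4]
      rw [Finset.sum_comm, Finset.mul_sum]
      refine Finset.sum_congr rfl fun b _ => ?_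
      rw [Finset.sum_comm, Finset.mul_sum]
      refine Finset.sum_congr rfl fun f _ => ?_
      unfold Wt
      rw [← Finset.sum_mul, mul_assoc]
    rw [h3]
    refine vdc_cs (fun b f => Wt X p q L (x + (p * m) • α) (x + (q * m) • α) i b i f)
      (fun b => cp α A Q (p * m) x b j) (fun b => cp α A Q (q * m) x b j) (cp_col hU _ x j)
      (cp_col hU _ x j) _ ?_
    unfold Phi
    have h7 : ∀ a : ι, 0 ≤ ∑ b, ∑ c, ∑ f,
        ‖Wt X p q L (x + (p * m) • α) (x + (q * m) • α) a b c f‖ ^ 2 := fun a =>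
      Finset.sum_nonneg fun b _ => Finset.sum_nonneg fun c _ => Finset.sum_nonneg fun f _ => by
        positivity
    refine le_trans ?_ (Finset.single_le_sum (fun a _ => h7 a) (Finset.mem_univ i))
    refine Finset.sum_le_sum fun b _ => ?_
    exact Finset.single_le_sum (f := fun c => ∑ f,
      ‖Wt X p q L (x + (p * m) • α) (x + (q * m) • α) i b c f‖ ^ 2)
      (fun c _ => Finset.sum_nonneg fun f _ => by positivity) (Finset.mem_univ i)
  have h8 : ∑ m ∈ Icc 1 M, X (p * m) x i j * conj (X (q * m) x i j) =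
      (∑ m ∈ Icc 1 M, s m - ∑ m ∈ Icc 1 M, (1 / (L : ℂ)) * ∑ l ∈ range L, s (m + l)) +
        ∑ m ∈ Icc 1 M, (1 / (L : ℂ)) * ∑ l ∈ range L, s (m + l) := by
    rw [sub_add_cancel]
  rw [h8]
  refine (norm_add_le _ _).trans ?_
  linarith


theorem phi_cont (hU : UC A Q) (hX : ObsF α A Q X) (p q L : ℕ) :
    Continuous fun z : Td d × Td d => Phi X p q L z.1 z.2 := by
  have h1 : ∀ (n : ℕ) (a b : ι), Continuous fun z : Td d × Td d => X n z.1 a b :=
    fun n a b => ((hX.cont n).matrix_elem a b).comp continuous_fst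
  have h2 : ∀ (n : ℕ) (a b : ι), Continuous fun z : Td d × Td d => X n z.2 a b :=
    fun n a b => ((hX.cont n).matrix_elem a b).comp continuous_snd
  unfold Phi Wt
  refine continuous_finsetSum _ fun a _ => continuous_finsetSum _ fun b _ =>
    continuous_finsetSum _ fun c _ => continuous_finsetSum _ fun f _ => ?_
  refine Continuous.pow (Continuous.norm ?_) 2
  refine continuous_const.mul (continuous_finsetSum _ fun l _ => ?_)
  exact (h1 _ a b).mul (Complex.continuous_conj.comp (h2 _ c f))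

theorem phi_nonneg (p q L : ℕ) (u v : Td d) : 0 ≤ Phi X p q L u v := by
  unfold Phi
  exact Finset.sum_nonneg fun a _ => Finset.sum_nonneg fun b _ => Finset.sum_nonneg fun c _ =>
    Finset.sum_nonneg fun f _ => by positivity

theorem corr_sqrt_sum0 (f : ℕ → ℝ) (hf : ∀ m, 0 ≤ f m) (M : ℕ) (hM : 0 < M) :
    ∑ m ∈ Icc 1 M, Real.sqrt (f m) ≤ M * Real.sqrt ((1 / M) * ∑ m ∈ Icc 1 M, f m) := by
  have hM' : (0 : ℝ) < M := Nat.cast_pos.2 hM
  have h1 := Real.sum_mul_le_sqrt_mul_sqrt (Icc 1 M) (fun _ => (1 : ℝ)) (fun m => Real.sqrt (f m))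
  simp only [one_mul, one_pow, Finset.sum_const, Nat.card_Icc, Nat.add_sub_cancel,
    nsmul_eq_mul, mul_one] at h1
  have h2 : ∑ m ∈ Icc 1 M, Real.sqrt (f m) ^ 2 = ∑ m ∈ Icc 1 M, f m :=
    Finset.sum_congr rfl fun m _ => Real.sq_sqrt (hf m)
  rw [h2] at h1
  refine h1.trans (le_of_eq ?_)
  have h3 : Real.sqrt ((1 / M) * ∑ m ∈ Icc 1 M, f m) =
      Real.sqrt (∑ m ∈ Icc 1 M, f m) / Real.sqrt M := by
    rw [one_div, inv_mul_eq_div, Real.sqrt_div (Finset.sum_nonneg fun m _ => hf m)]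
  rw [h3]
  have h4 : Real.sqrt (M : ℝ) ≠ 0 := (Real.sqrt_pos.2 hM').ne'
  field_simp
  rw [Real.sq_sqrt hM'.le, mul_comm]

theorem corr_le (hU : UC A Q) (hX : ObsF α A Q X) (hα : ∀ k : Fin d → ℤ, k ≠ 0 → mFourier k α ≠ 1) (p q L : ℕ) (hL : 0 < L)
    (ε : ℝ) (hε : 0 < ε) : ∃ M0 : ℕ, ∀ M ≥ M0, ∀ (x : Td d) (i j : ι),
      ‖∑ m ∈ Icc 1 M, X (p * m) x i j * conj (X (q * m) x i j)‖ ≤
        (Real.sqrt (∫ t, Phi X p q L (x + p • t) (x + q • t) ∂mT d) + ε) * M := by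
  let Φ : C(Td d × Td d, ℂ) :=
    ⟨fun z => ((Phi X p q L z.1 z.2 : ℝ) : ℂ), Complex.continuous_ofReal.comp (phi_cont hU hX p q L)⟩
  obtain ⟨M1, hM1⟩ := equi hα p q Φ ((ε / 2) ^ 2) (by positivity)
  obtain ⟨M2, hM2⟩ := exists_nat_ge (4 * L / ε)
  refine ⟨max (max M1 M2) 1, fun M hM x i j => ?_⟩
  have hMM1 : M1 ≤ M := (le_max_left M1 M2).trans ((le_max_left _ _).trans hM)
  have hMM2 : M2 ≤ M := (le_max_right M1 M2).trans ((le_max_left _ _).trans hM)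
  have hM0 : 0 < M := (le_max_right _ _).trans hM
  have hM' : (0 : ℝ) < M := Nat.cast_pos.2 hM0
  set I : ℝ := ∫ t, Phi X p q L (x + p • t) (x + q • t) ∂mT d with hI
  set S : ℝ := (1 / M) * ∑ m ∈ Icc 1 M,
    Phi X p q L (x + (p * m) • α) (x + (q * m) • α) with hS
  have hI0 : 0 ≤ I := integral_nonneg fun t => phi_nonneg p q L _ _
  have h1 : |S - I| ≤ (ε / 2) ^ 2 := by
    have h2 := hM1 M hMM1 x
    have h3 : (1 / (M : ℂ)) * ∑ m ∈ Icc 1 M, Φ (x + (p * m) • α, x + (q * m) • α) -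
        ∫ t, Φ (x + p • t, x + q • t) ∂mT d = ((S - I : ℝ) : ℂ) := by
      have h4 : ∫ t, Φ (x + p • t, x + q • t) ∂mT d = ((I : ℝ) : ℂ) := by
        rw [hI, ← integral_complex_ofReal]
        rfl
      rw [h4, hS]
      push_cast
      rfl
    rw [h3, Complex.norm_real] at h2
    exact h2
  have h2 : S ≤ I + (ε / 2) ^ 2 := by
    have := (abs_le.1 h1).2
    linarith
  have h3 : Real.sqrt S ≤ Real.sqrt I + ε / 2 := by
    rw [← Real.sqrt_sq (show 0 ≤ Real.sqrt I + ε / 2 by positivity)]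
    refine Real.sqrt_le_sqrt (h2.trans ?_)
    have h4 := Real.sq_sqrt hI0
    have h5 := Real.sqrt_nonneg I
    nlinarith
  have h4 := vdc (α := α) hU hX p q L M hL x i j
  have h5 : ∑ m ∈ Icc 1 M, Real.sqrt (Phi X p q L (x + (p * m) • α) (x + (q * m) • α)) ≤
      M * Real.sqrt S := corr_sqrt_sum
    (fun m => Phi X p q L (x + (p * m) • α) (x + (q * m) • α))
    (fun m => phi_nonneg (X := X) p q L (x + (p * m) • α) (x + (q * m) • α)) M hM0
  have h6 : 2 * (L : ℝ) ≤ ε / 2 * M := by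
    have h7 : 4 * L / ε ≤ (M : ℝ) := hM2.trans (by exact_mod_cast hMM2)
    rw [div_le_iff₀ hε] at h7
    linarith
  calc ‖∑ m ∈ Icc 1 M, X (p * m) x i j * conj (X (q * m) x i j)‖
      ≤ (∑ m ∈ Icc 1 M, Real.sqrt (Phi X p q L (x + (p * m) • α) (x + (q * m) • α))) + 2 * L := h4
    _ ≤ M * Real.sqrt S + 2 * L := by linarith
    _ ≤ M * (Real.sqrt I + ε / 2) + ε / 2 * M :=
        add_le_add (mul_le_mul_of_nonneg_left h3 hM'.le) h6
    _ = (Real.sqrt I + ε) * M := by ring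


theorem trc_cont (hX : ObsF α A Q X) (n : ℕ) : Continuous (trc X n) := by
  unfold trc
  exact ((hX.cont _).matrix_mul (hX.cont _).matrix_conjTranspose).matrix_trace

/-- `tr (A_{pl}(u) A_{pl'}(u)^*)` -/
noncomputable def s1X (X : ℕ → Td d → Matrix ι ι ℂ) (p l l' : ℕ) (u : Td d) : ℂ :=
  (X (p * l) u * (X (p * l') u)ᴴ).trace

theorem s1X_eq (p l l' : ℕ) (u : Td d) :
    s1X X p l l' u = ∑ a, ∑ b, X (p * l) u a b * conj (X (p * l') u a b) := by
  simp [s1X, Matrix.trace, Matrix.mul_apply, Matrix.conjTranspose_apply]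

theorem s1_phi (p q L : ℕ) (u v : Td d) :
    ((Phi X p q L u v : ℝ) : ℂ) =
      (1 / (L : ℂ) ^ 2) * ∑ l ∈ range L, ∑ l' ∈ range L, s1X X p l l' u * conj (s1X X q l l' v) := by
  have h1 : ∀ a b c f : ι, ((‖Wt X p q L u v a b c f‖ ^ 2 : ℝ) : ℂ) =
      (1 / (L : ℂ) ^ 2) * ∑ l ∈ range L, ∑ l' ∈ range L,
        (X (p * l) u a b * conj (X (p * l') u a b)) *
          (conj (X (q * l) v c f) * X (q * l') v c f) := by
    intro a b c f
    rw [Complex.ofReal_pow, ← Complex.mul_conj', Wt, map_mul, map_sum]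
    have : conj (1 / (L : ℂ)) = 1 / (L : ℂ) := by simp
    rw [this]
    have h2 : (∑ l ∈ range L, X (p * l) u a b * conj (X (q * l) v c f)) *
        (∑ l ∈ range L, conj (X (p * l) u a b * conj (X (q * l) v c f))) =
        ∑ l ∈ range L, ∑ l' ∈ range L,
        (X (p * l) u a b * conj (X (p * l') u a b)) *
          (conj (X (q * l) v c f) * X (q * l') v c f) := by
      rw [Finset.sum_mul_sum]
      refine Finset.sum_congr rfl fun l _ => Finset.sum_congr rfl fun l' _ => ?_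
      rw [map_mul, Complex.conj_conj]; ring
    rw [← h2]; ring
  unfold Phi
  push_cast
  have h3 : ∀ a b c f : ι, ((‖Wt X p q L u v a b c f‖ : ℂ) ^ 2) =
      (1 / (L : ℂ) ^ 2) * ∑ l ∈ range L, ∑ l' ∈ range L,
        (X (p * l) u a b * conj (X (p * l') u a b)) *
          (conj (X (q * l) v c f) * X (q * l') v c f) := by
    intro a b c f
    rw [← h1 a b c f]; push_cast; rfl
  simp_rw [h3, ← Finset.mul_sum]
  congr 1
  simp_rw [s1X_eq, map_sum, map_mul, Complex.conj_conj]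
  -- move the sums over l, l' outside
  have h4 : ∀ g : ι → ι → ι → ι → ℕ → ℕ → ℂ, (∑ a, ∑ b, ∑ c, ∑ f, ∑ l ∈ range L, ∑ l' ∈ range L, g a b c f l l') =
      ∑ l ∈ range L, ∑ l' ∈ range L, ∑ a, ∑ b, ∑ c, ∑ f, g a b c f l l' := by
    intro g
    have h5 : ∀ h : ι → ι → ι → ι → ℂ, (∑ a, ∑ b, ∑ c, ∑ f, h a b c f) =
        ∑ x : ι × ι × ι × ι, h x.1 x.2.1 x.2.2.1 x.2.2.2 := by
      intro h; simp [Fintype.sum_prod_type]
    simp_rw [h5]
    rw [Finset.sum_comm]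
    exact Finset.sum_congr rfl fun l _ => Finset.sum_comm
  rw [h4]
  refine Finset.sum_congr rfl fun l _ => Finset.sum_congr rfl fun l' _ => ?_
  simp_rw [Finset.sum_mul, Finset.mul_sum]

theorem s1_sum_phi (P : Finset ℕ) (L : ℕ) (u : ℕ → Td d) :
    ∑ p ∈ P, ∑ q ∈ P, Phi X p q L (u p) (u q) =
      (1 / (L : ℝ) ^ 2) * ∑ l ∈ range L, ∑ l' ∈ range L, ‖∑ p ∈ P, s1X X p l l' (u p)‖ ^ 2 := by
  have h : ((∑ p ∈ P, ∑ q ∈ P, Phi X p q L (u p) (u q) : ℝ) : ℂ) =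
      (((1 / (L : ℝ) ^ 2) * ∑ l ∈ range L, ∑ l' ∈ range L, ‖∑ p ∈ P, s1X X p l l' (u p)‖ ^ 2 : ℝ) : ℂ) := by
    push_cast
    simp_rw [s1_phi, ← Finset.mul_sum, ← Complex.mul_conj', map_sum, Finset.sum_mul_sum]
    congr 1
    have h6 : ∀ g : ℕ → ℕ → ℕ → ℕ → ℂ, (∑ p ∈ P, ∑ q ∈ P, ∑ l ∈ range L, ∑ l' ∈ range L, g p q l l') =
        ∑ l ∈ range L, ∑ l' ∈ range L, ∑ p ∈ P, ∑ q ∈ P, g p q l l' := by
      intro g
      have h5 : ∀ h : ℕ → ℕ → ℂ, (∑ p ∈ P, ∑ q ∈ P, h p q) = ∑ x ∈ P ×ˢ P, h x.1 x.2 := by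
        intro h; rw [Finset.sum_product]
      simp_rw [h5]
      rw [Finset.sum_comm]
      exact Finset.sum_congr rfl fun l _ => Finset.sum_comm
    exact h6 _
  exact_mod_cast h

theorem s1X_cont (hA : ∀ n, Continuous (X n)) (p l l' : ℕ) : Continuous (s1X X p l l') := by
  unfold s1X
  exact ((hA _).matrix_mul (hA _).matrix_conjTranspose).matrix_trace

theorem s1X_gt (hU : UC A Q) (hX : ObsF α A Q X) (p l l' : ℕ) (h : l' ≤ l) (u : Td d) :
    s1X X p l l' u = trc X (p * (l - l')) (u + (p * l') • α) := by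
  rw [s1X, x_shift hU hX _ _ (Nat.mul_le_mul_left p h), Nat.mul_sub, trc]

theorem s1X_symm (p l l' : ℕ) (u : Td d) : s1X X p l' l u = conj (s1X X p l l' u) := by
  simp only [s1X_eq, map_sum, map_mul, Complex.conj_conj]
  exact Finset.sum_congr rfl fun a _ => Finset.sum_congr rfl fun b _ => mul_comm _ _

theorem s1_int {f : Td d → ℝ} (hf : Continuous f) : Integrable f (mT d) :=
  hf.integrable_of_hasCompactSupport (HasCompactSupport.of_compactSpace _)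

theorem s1_int_gt (hU : UC A Q) (hX : ObsF α A Q X) (P : Finset ℕ) (l l' : ℕ) (h : l' ≤ l) (x : Td d) :
    ∫ t, ‖∑ p ∈ P, s1X X p l l' (x + p • t)‖ ^ 2 ∂mT d =
      ∫ t, ‖∑ p ∈ P, trc X (p * (l - l')) (x + p • t)‖ ^ 2 ∂mT d := by
  have h1 : ∀ t : Td d, ‖∑ p ∈ P, s1X X p l l' (x + p • t)‖ ^ 2 =
      (fun s : Td d => ‖∑ p ∈ P, trc X (p * (l - l')) (x + p • s)‖ ^ 2) (t + l' • α) := by
    intro t
    simp only
    congr 2
    refine Finset.sum_congr rfl fun p _ => ?_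
    rw [s1X_gt hU hX p l l' h, smul_add, smul_smul, add_assoc]
  simp_rw [h1]
  exact integral_add_right_eq_self (μ := mT d)
    (fun s : Td d => ‖∑ p ∈ P, trc X (p * (l - l')) (x + p • s)‖ ^ 2) (l' • α)

theorem s1_int_lt (hU : UC A Q) (hX : ObsF α A Q X) (P : Finset ℕ) (l l' : ℕ) (h : l' ≤ l) (x : Td d) :
    ∫ t, ‖∑ p ∈ P, s1X X p l' l (x + p • t)‖ ^ 2 ∂mT d =
      ∫ t, ‖∑ p ∈ P, trc X (p * (l - l')) (x + p • t)‖ ^ 2 ∂mT d := by
  rw [← s1_int_gt hU hX P l l' h x]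
  refine integral_congr_ae (Eventually.of_forall fun t => ?_)
  simp only
  rw [show (∑ p ∈ P, s1X X p l' l (x + p • t)) = conj (∑ p ∈ P, s1X X p l l' (x + p • t)) by
    rw [map_sum]; exact Finset.sum_congr rfl fun p _ => s1X_symm p l l' _]
  rw [RCLike.norm_conj]

theorem s1_comb (J : ℕ → ℝ) (hJ : ∀ r, 0 ≤ J r) (L l : ℕ) (hl : l < L) :
    ∑ l' ∈ range L, J (if l' ≤ l then l - l' else l' - l) ≤ J 0 + 2 * ∑ r ∈ Ico 1 L, J r := by
  rw [← Finset.sum_range_add_sum_Ico _ (show l + 1 ≤ L by omega)]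
  have h1 : ∑ l' ∈ range (l + 1), J (if l' ≤ l then l - l' else l' - l) = J 0 + ∑ r ∈ Ico 1 (l + 1), J r := by
    have h2 : ∑ l' ∈ range (l + 1), J (if l' ≤ l then l - l' else l' - l) = ∑ l' ∈ range (l + 1), J (l + 1 - 1 - l') := by
      refine Finset.sum_congr rfl fun l' h' => ?_
      rw [Finset.mem_range] at h'
      rw [if_pos (by omega)]; rfl
    rw [h2, Finset.sum_range_reflect J (l + 1), ← Finset.sum_range_add_sum_Ico _ (show 1 ≤ l + 1 by omega),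
      Finset.sum_range_one]
  have h3 : ∑ l' ∈ Ico (l + 1) L, J (if l' ≤ l then l - l' else l' - l) = ∑ r ∈ Ico 1 (L - l), J r := by
    rw [Finset.sum_Ico_eq_sum_range, Finset.sum_Ico_eq_sum_range, show L - (l + 1) = L - l - 1 by omega]
    refine Finset.sum_congr rfl fun i _ => ?_
    rw [if_neg (by omega), show l + 1 + i - l = 1 + i by omega]
  have h4 : ∑ r ∈ Ico 1 (l + 1), J r ≤ ∑ r ∈ Ico 1 L, J r :=
    Finset.sum_le_sum_of_subset_of_nonneg (Finset.Ico_subset_Ico_right (by omega)) fun i _ _ => hJ i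
  have h5 : ∑ r ∈ Ico 1 (L - l), J r ≤ ∑ r ∈ Ico 1 L, J r :=
    Finset.sum_le_sum_of_subset_of_nonneg (Finset.Ico_subset_Ico_right (by omega)) fun i _ _ => hJ i
  rw [h1, h3]; linarith

theorem s1_phi_cont (hA : ∀ n, Continuous (X n)) (p q L : ℕ) (x : Td d) :
    Continuous fun t : Td d => Phi X p q L (x + p • t) (x + q • t) := by
  have hp : Continuous fun t : Td d => x + p • t := continuous_const.add (continuous_nsmul p)
  have hq : Continuous fun t : Td d => x + q • t := continuous_const.add (continuous_nsmul q)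
  unfold Phi Wt
  refine continuous_finsetSum _ fun a _ => continuous_finsetSum _ fun b _ =>
    continuous_finsetSum _ fun c _ => continuous_finsetSum _ fun f _ => ?_
  refine (Continuous.norm (continuous_const.mul (continuous_finsetSum _ fun l _ => ?_))).pow 2
  exact (((hA _).comp hp).matrix_elem a b).mul (Complex.continuous_conj.comp (((hA _).comp hq).matrix_elem c f))

theorem sum_pairs (hU : UC A Q) (hX : ObsF α A Q X) (P : Finset ℕ) (L : ℕ) (hL : 0 < L) (x : Td d) :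
    ∑ p ∈ P, ∑ q ∈ P, ∫ t, Phi X p q L (x + p • t) (x + q • t) ∂mT d ≤
      ((Fintype.card ι : ℝ) ^ 2) ^ 2 * (P.card : ℝ) ^ 2 / L +
        (2 / L) * ∑ r ∈ Ico 1 L, ∫ t, ‖∑ p ∈ P, trc X (p * r) (x + p • t)‖ ^ 2 ∂mT d := by
  have hA := hX.cont
  set J : ℕ → ℝ := fun r => ∫ t, ‖∑ p ∈ P, trc X (p * r) (x + p • t)‖ ^ 2 ∂mT d with hJdef
  have hJ : ∀ r, 0 ≤ J r := fun r => integral_nonneg fun t => by positivity
  have hpc : ∀ p : ℕ, Continuous fun t : Td d => x + p • t := fun p => continuous_const.add (continuous_nsmul p)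
  have hJ0 : J 0 ≤ ((Fintype.card ι : ℝ) ^ 2) ^ 2 * (P.card : ℝ) ^ 2 := by
    have hb : ∀ t : Td d, ‖∑ p ∈ P, trc X (p * 0) (x + p • t)‖ ^ 2 ≤
        ((Fintype.card ι : ℝ) ^ 2) ^ 2 * (P.card : ℝ) ^ 2 := by
      intro t
      have h1 : ‖∑ p ∈ P, trc X (p * 0) (x + p • t)‖ ≤ P.card * (Fintype.card ι : ℝ) ^ 2 := by
        refine (norm_sum_le _ _).trans ?_
        refine (Finset.sum_le_sum fun p _ => x_tr hX _ _).trans ?_
        rw [Finset.sum_const, nsmul_eq_mul]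
      calc ‖∑ p ∈ P, trc X (p * 0) (x + p • t)‖ ^ 2 ≤ (P.card * (Fintype.card ι : ℝ) ^ 2 : ℝ) ^ 2 :=
            pow_le_pow_left₀ (norm_nonneg _) h1 2
        _ = _ := by ring
    have hc : Continuous fun t : Td d => ‖∑ p ∈ P, trc X (p * 0) (x + p • t)‖ ^ 2 :=
      (continuous_finsetSum _ fun p _ => (trc_cont hX _).comp (hpc p)).norm.pow 2
    calc J 0 ≤ ∫ _t : Td d, ((Fintype.card ι : ℝ) ^ 2) ^ 2 * (P.card : ℝ) ^ 2 ∂mT d :=
          integral_mono (s1_int hc) (integrable_const _) hb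
      _ = _ := by simp
  have h1 : ∑ p ∈ P, ∑ q ∈ P, ∫ t, Phi X p q L (x + p • t) (x + q • t) ∂mT d =
      (1 / (L : ℝ) ^ 2) * ∑ l ∈ range L, ∑ l' ∈ range L, J (if l' ≤ l then l - l' else l' - l) := by
    have h2 : ∑ p ∈ P, ∑ q ∈ P, ∫ t, Phi X p q L (x + p • t) (x + q • t) ∂mT d =
        ∫ t, ∑ p ∈ P, ∑ q ∈ P, Phi X p q L (x + p • t) (x + q • t) ∂mT d := by
      rw [integral_finsetSum _ fun p _ => integrable_finsetSum _ fun q _ => s1_int (s1_phi_cont hA p q L x)]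
      exact Finset.sum_congr rfl fun p _ =>
        (integral_finsetSum _ fun q _ => s1_int (s1_phi_cont hA p q L x)).symm
    have h3 : ∀ t : Td d, ∑ p ∈ P, ∑ q ∈ P, Phi X p q L (x + p • t) (x + q • t) =
        (1 / (L : ℝ) ^ 2) * ∑ l ∈ range L, ∑ l' ∈ range L, ‖∑ p ∈ P, s1X X p l l' (x + p • t)‖ ^ 2 :=
      fun t => s1_sum_phi P L fun p => x + p • t
    have hXc : ∀ l l' : ℕ, Continuous fun t : Td d => ‖∑ p ∈ P, s1X X p l l' (x + p • t)‖ ^ 2 := fun l l' =>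
      (continuous_finsetSum _ fun p _ => (s1X_cont hA p l l').comp (hpc p)).norm.pow 2
    rw [h2]
    simp_rw [h3]
    rw [integral_const_mul, integral_finsetSum _ fun l _ => integrable_finsetSum _ fun l' _ => s1_int (hXc l l')]
    congr 1
    refine Finset.sum_congr rfl fun l _ => ?_
    rw [integral_finsetSum _ fun l' _ => s1_int (hXc l l')]
    refine Finset.sum_congr rfl fun l' _ => ?_
    split_ifs with h
    · exact s1_int_gt hU hX P l l' h x
    · exact s1_int_lt hU hX P l' l (by omega) x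
  have hL' : (0 : ℝ) < L := by exact_mod_cast hL
  have h4 : ∑ l ∈ range L, ∑ l' ∈ range L, J (if l' ≤ l then l - l' else l' - l) ≤
      L * (J 0 + 2 * ∑ r ∈ Ico 1 L, J r) := by
    refine (Finset.sum_le_sum fun l hl => s1_comb J hJ L l (Finset.mem_range.1 hl)).trans ?_
    rw [Finset.sum_const, Finset.card_range, nsmul_eq_mul]
  rw [h1]
  calc (1 / (L : ℝ) ^ 2) * ∑ l ∈ range L, ∑ l' ∈ range L, J (if l' ≤ l then l - l' else l' - l)
      ≤ (1 / (L : ℝ) ^ 2) * (L * (J 0 + 2 * ∑ r ∈ Ico 1 L, J r)) := by gcongr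
    _ = J 0 / L + (2 / L) * ∑ r ∈ Ico 1 L, J r := by field_simp
    _ ≤ _ := by gcongr


/-- `tr (A_l(u) A_{l'}(u)^*)` -/
noncomputable def n2X (X : ℕ → Td d → Matrix ι ι ℂ) (l l' : ℕ) (u : Td d) : ℂ :=
  (X l u * (X l' u)ᴴ).trace

theorem n2X_eq (l l' : ℕ) (u : Td d) :
    n2X X l l' u = ∑ a, ∑ b, X l u a b * conj (X l' u a b) := by
  simp [n2X, Matrix.trace, Matrix.mul_apply, Matrix.conjTranspose_apply]

theorem n2_gen (z : ℕ → ℂ) (e : ℕ → ℕ) (M : ℕ) (v u : Td d) :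
    ((∑ a, ∑ b, ∑ c, ∑ f, ‖∑ m ∈ range M, z m * (X (e m) v a b * conj (X (e m) u c f))‖ ^ 2 : ℝ) : ℂ) =
      ∑ m ∈ range M, ∑ m' ∈ range M, z m * conj (z m') *
        (n2X X (e m) (e m') v * conj (n2X X (e m) (e m') u)) := by
  have h1 : ∀ a b c f : ι, ((‖∑ m ∈ range M, z m * (X (e m) v a b * conj (X (e m) u c f))‖ : ℂ) ^ 2) =
      ∑ m ∈ range M, ∑ m' ∈ range M, z m * conj (z m') *
        ((X (e m) v a b * conj (X (e m') v a b)) *
          (conj (X (e m) u c f) * X (e m') u c f)) := by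
    intro a b c f
    rw [← Complex.mul_conj', map_sum, Finset.sum_mul_sum]
    refine Finset.sum_congr rfl fun m _ => Finset.sum_congr rfl fun m' _ => ?_
    rw [map_mul, map_mul, Complex.conj_conj]; ring
  push_cast
  simp_rw [h1]
  have h4 : ∀ g : ι → ι → ι → ι → ℕ → ℕ → ℂ, (∑ a, ∑ b, ∑ c, ∑ f, ∑ l ∈ range M, ∑ l' ∈ range M, g a b c f l l') =
      ∑ l ∈ range M, ∑ l' ∈ range M, ∑ a, ∑ b, ∑ c, ∑ f, g a b c f l l' := by
    intro g
    have h5 : ∀ h : ι → ι → ι → ι → ℂ, (∑ a, ∑ b, ∑ c, ∑ f, h a b c f) =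
        ∑ x : ι × ι × ι × ι, h x.1 x.2.1 x.2.2.1 x.2.2.2 := by
      intro h; simp [Fintype.sum_prod_type]
    simp_rw [h5]
    rw [Finset.sum_comm]
    exact Finset.sum_congr rfl fun l _ => Finset.sum_comm
  rw [h4]
  refine Finset.sum_congr rfl fun l _ => Finset.sum_congr rfl fun l' _ => ?_
  simp_rw [n2X_eq, map_sum, map_mul, Complex.conj_conj, Finset.sum_mul, Finset.mul_sum]

theorem n2_phi (L : ℕ) (v u : Td d) :
    ((Phi X 1 1 L v u : ℝ) : ℂ) =
      (1 / (L : ℂ) ^ 2) * ∑ l ∈ range L, ∑ l' ∈ range L, n2X X l l' v * conj (n2X X l l' u) := by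
  have h := n2_gen (X := X) (fun _ => 1 / (L : ℂ)) (fun m => m) L v u
  have h1 : Phi X 1 1 L v u = ∑ a, ∑ b, ∑ c, ∑ f,
      ‖∑ m ∈ range L, (1 / (L : ℂ)) * (X m v a b * conj (X m u c f))‖ ^ 2 := by
    unfold Phi Wt
    simp only [one_mul, Finset.mul_sum]
  rw [h1, h, Finset.mul_sum]
  refine Finset.sum_congr rfl fun l _ => ?_
  rw [Finset.mul_sum]
  refine Finset.sum_congr rfl fun l' _ => ?_
  have : conj (1 / (L : ℂ)) = 1 / (L : ℂ) := by simp
  rw [this]; ring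

theorem n2X_shift (hU : UC A Q) (hX : ObsF α A Q X) (l l' k : ℕ) (u : Td d) :
    n2X X (l + k) (l' + k) u = n2X X l l' (u + k • α) := by
  unfold n2X
  rw [x_shift2 hU hX]

theorem n2X_gt (hU : UC A Q) (hX : ObsF α A Q X) (l l' : ℕ) (h : l' ≤ l) (u : Td d) :
    n2X X l l' u = trc X (l - l') (u + l' • α) := by
  rw [n2X, x_shift hU hX _ _ h, trc]

theorem n2X_symm (l l' : ℕ) (u : Td d) : n2X X l' l u = conj (n2X X l l' u) := by
  simp only [n2X_eq, map_sum, map_mul, Complex.conj_conj]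
  exact Finset.sum_congr rfl fun a _ => Finset.sum_congr rfl fun b _ => mul_comm _ _

theorem n2X_cont (hU : UC A Q) (hX : ObsF α A Q X) (l l' : ℕ) : Continuous (n2X X l l') := by
  unfold n2X
  exact ((hX.cont _).matrix_mul (hX.cont _).matrix_conjTranspose).matrix_trace

theorem n2_intC {f : Td d → ℂ} (hf : Continuous f) : Integrable f (mT d) :=
  hf.integrable_of_hasCompactSupport (HasCompactSupport.of_compactSpace _)

theorem n2_int {f : Td d → ℝ} (hf : Continuous f) : Integrable f (mT d) :=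
  hf.integrable_of_hasCompactSupport (HasCompactSupport.of_compactSpace _)

theorem n2_pair_le (hU : UC A Q) (hX : ObsF α A Q X) (s : Td d) {l l' : ℕ} (h : l' ≤ l) :
    ∫ u, n2X X l l' (u + s) * conj (n2X X l l' u) ∂mT d = bb X s (l - l') := by
  have h1 : ∀ u : Td d, n2X X l l' (u + s) * conj (n2X X l l' u) =
      (fun w : Td d => trc X (l - l') (w + s) * conj (trc X (l - l') w)) (u + l' • α) := by
    intro u
    simp only
    rw [n2X_gt hU hX l l' h, n2X_gt hU hX l l' h, add_right_comm u s]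
  simp_rw [h1]
  exact integral_add_right_eq_self (μ := mT d)
    (fun w : Td d => trc X (l - l') (w + s) * conj (trc X (l - l') w)) (l' • α)

theorem n2_pair (hU : UC A Q) (hX : ObsF α A Q X) (s : Td d) (l l' : ℕ) :
    ∫ u, n2X X l l' (u + s) * conj (n2X X l l' u) ∂mT d =
      if l' ≤ l then bb X s (l - l') else conj (bb X s (l' - l)) := by
  split_ifs with h
  · exact n2_pair_le hU hX s h
  · rw [← n2_pair_le hU hX s (le_of_not_ge h), ← integral_conj]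
    congr 1
    funext u
    rw [n2X_symm l' l (u + s), n2X_symm l' l u, map_mul]

theorem n2_pair_int (hU : UC A Q) (hX : ObsF α A Q X) (s : Td d) (l l' : ℕ) :
    Integrable (fun u => n2X X l l' (u + s) * conj (n2X X l l' u)) (mT d) := by
  apply n2_intC
  exact ((n2X_cont hU hX l l').comp (continuous_id.add continuous_const)).mul
    (Complex.continuous_conj.comp (n2X_cont hU hX l l'))

theorem phi_expand (hU : UC A Q) (hX : ObsF α A Q X) (N : ℕ) (_hN : 0 < N) (s : Td d) :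
    ∫ u, Phi X 1 1 N (u + s) u ∂mT d =
      (1 / (N : ℝ) ^ 2) * ∑ n ∈ range N, ∑ n' ∈ range N, (bb X s (if n' ≤ n then n - n' else n' - n)).re := by
  have h1 : ((∫ u, Phi X 1 1 N (u + s) u ∂mT d : ℝ) : ℂ) =
      (1 / (N : ℂ) ^ 2) * ∑ n ∈ range N, ∑ n' ∈ range N,
        (if n' ≤ n then bb X s (n - n') else conj (bb X s (n' - n))) := by
    rw [← integral_complex_ofReal]
    simp_rw [n2_phi]
    rw [integral_const_mul, integral_finsetSum _ fun l _ => integrable_finsetSum _ fun l' _ => n2_pair_int hU hX s l l']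
    congr 1
    refine Finset.sum_congr rfl fun l _ => ?_
    rw [integral_finsetSum _ fun l' _ => n2_pair_int hU hX s l l']
    exact Finset.sum_congr rfl fun l' _ => n2_pair hU hX s l l'
  have h2 : ∫ u, Phi X 1 1 N (u + s) u ∂mT d = (((∫ u, Phi X 1 1 N (u + s) u ∂mT d : ℝ) : ℂ)).re :=
    (Complex.ofReal_re _).symm
  have h3 : (1 / (N : ℂ) ^ 2) = ((1 / (N : ℝ) ^ 2 : ℝ) : ℂ) := by push_cast; rfl
  rw [h2, h1, h3, Complex.re_ofReal_mul, Complex.re_sum]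
  congr 1
  refine Finset.sum_congr rfl fun l _ => ?_
  rw [Complex.re_sum]
  refine Finset.sum_congr rfl fun l' _ => ?_
  split_ifs with h
  · rfl
  · rw [Complex.conj_re]

theorem bb_posDef (hU : UC A Q) (hX : ObsF α A Q X) (s : Td d) : PosDef (bb X s) := by
  intro M z
  have h1 : (∑ m ∈ range M, ∑ m' ∈ range M, z m * conj (z m') *
      (if m' ≤ m then bb X s (m - m') else conj (bb X s (m' - m)))) =
      ∫ u, (((∑ a, ∑ b, ∑ c, ∑ f, ‖∑ m ∈ range M, z m *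
        (X m (u + s) a b * conj (X m u c f))‖ ^ 2 : ℝ)) : ℂ) ∂mT d := by
    have h2 : ∀ u : Td d, (((∑ a, ∑ b, ∑ c, ∑ f, ‖∑ m ∈ range M, z m *
        (X m (u + s) a b * conj (X m u c f))‖ ^ 2 : ℝ)) : ℂ) =
        ∑ m ∈ range M, ∑ m' ∈ range M, z m * conj (z m') *
        (n2X X m m' (u + s) * conj (n2X X m m' u)) := fun u => n2_gen z (fun m => m) M (u + s) u
    simp_rw [h2]
    rw [integral_finsetSum _ fun m _ => integrable_finsetSum _ fun m' _ => (n2_pair_int hU hX s m m').const_mul _]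
    refine Finset.sum_congr rfl fun m _ => ?_
    rw [integral_finsetSum _ fun m' _ => (n2_pair_int hU hX s m m').const_mul _]
    refine Finset.sum_congr rfl fun m' _ => ?_
    rw [integral_const_mul, n2_pair hU hX s m m']
  rw [h1, integral_complex_ofReal, Complex.ofReal_re]
  exact integral_nonneg fun u => Finset.sum_nonneg fun a _ => Finset.sum_nonneg fun b _ =>
    Finset.sum_nonneg fun c _ => Finset.sum_nonneg fun f _ => sq_nonneg _

theorem trc_zero_im (x : Td d) : (trc X 0 x).im = 0 := by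
  have h1 : trc X 0 x = ((∑ a, ∑ b, ‖X 0 x a b‖ ^ 2 : ℝ) : ℂ) := by
    have h2 : trc X 0 x = n2X X 0 0 x := rfl
    rw [h2, n2X_eq]
    push_cast
    exact Finset.sum_congr rfl fun a _ => Finset.sum_congr rfl fun b _ => Complex.mul_conj' _
  rw [h1, Complex.ofReal_im]

theorem bb_zero_im (hX : ObsF α A Q X) (s : Td d) : (bb X s 0).im = 0 := by
  have h1 : ∀ u : Td d, trc X 0 (u + s) * conj (trc X 0 u) = (((trc X 0 (u + s)).re * (trc X 0 u).re : ℝ) : ℂ) := by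
    intro u
    apply Complex.ext
    · rw [Complex.mul_re, Complex.conj_re, Complex.conj_im, trc_zero_im, trc_zero_im, Complex.ofReal_re]; ring
    · rw [Complex.mul_im, Complex.conj_re, Complex.conj_im, trc_zero_im, trc_zero_im, Complex.ofReal_im]; ring
  unfold bb
  simp_rw [h1]
  rw [integral_complex_ofReal, Complex.ofReal_im]

theorem bb_zero_le (hX : ObsF α A Q X) (s : Td d) : (bb X s 0).re ≤ ((Fintype.card ι : ℝ) ^ 2) ^ 2 := by
  have h1 : ‖bb X s 0‖ ≤ ((Fintype.card ι : ℝ) ^ 2) ^ 2 := by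
    unfold bb
    refine (norm_integral_le_of_norm_le_const (C := ((Fintype.card ι : ℝ) ^ 2) ^ 2)
      (ae_of_all _ fun x => ?_)).trans ?_
    · rw [norm_mul, RCLike.norm_conj, sq ((Fintype.card ι : ℝ) ^ 2)]
      exact mul_le_mul (x_tr hX 0 _) (x_tr hX 0 _) (norm_nonneg _) (by positivity)
    · simp
  exact (Complex.re_le_norm _).trans h1

theorem n2_blocks (F : ℕ → ℂ) (M R : ℕ) :
    ∑ n ∈ range (M * R), F n = ∑ i ∈ range R, ∑ l ∈ range M, F (l + M * i) := by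
  induction R with
  | zero => simp
  | succ R ih =>
    rw [Nat.mul_succ, Finset.sum_range_add, ih, Finset.sum_range_succ]
    congr 1
    exact Finset.sum_congr rfl fun l _ => by rw [add_comm]

theorem n2_conv (R : ℕ) (hR : 0 < R) (V : ℕ → ℂ) :
    ‖(1 / (R : ℂ)) * ∑ i ∈ range R, V i‖ ^ 2 ≤ (1 / (R : ℝ)) * ∑ i ∈ range R, ‖V i‖ ^ 2 := by
  have hR' : (0 : ℝ) < R := by exact_mod_cast hR
  have h1 : ‖∑ i ∈ range R, V i‖ ^ 2 ≤ R * ∑ i ∈ range R, ‖V i‖ ^ 2 := by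
    calc ‖∑ i ∈ range R, V i‖ ^ 2 ≤ (∑ i ∈ range R, ‖V i‖) ^ 2 :=
          pow_le_pow_left₀ (norm_nonneg _) (norm_sum_le _ _) 2
      _ ≤ (range R).card * ∑ i ∈ range R, ‖V i‖ ^ 2 := sq_sum_le_card_mul_sum_sq
      _ = _ := by rw [Finset.card_range]
  rw [norm_mul, mul_pow, norm_div, norm_one, Complex.norm_natCast]
  calc (1 / (R : ℝ)) ^ 2 * ‖∑ i ∈ range R, V i‖ ^ 2 ≤ (1 / (R : ℝ)) ^ 2 * (R * ∑ i ∈ range R, ‖V i‖ ^ 2) := by gcongr
    _ = (1 / (R : ℝ)) * ∑ i ∈ range R, ‖V i‖ ^ 2 := by field_simp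

theorem n2_pt (hU : UC A Q) (hX : ObsF α A Q X) (M R : ℕ) (hM : 0 < M) (hR : 0 < R) (v u : Td d) :
    Phi X 1 1 (M * R) v u ≤ (1 / (R : ℝ)) * ∑ i ∈ range R,
      Phi X 1 1 M (v + (M * i) • α) (u + (M * i) • α) := by
  set V : ℕ → ι → ι → ι → ι → ℂ := fun i a b c f =>
    ∑ l ∈ range M, (1 / (M : ℂ)) * (X (l + M * i) v a b * conj (X (l + M * i) u c f)) with hV
  have hM' : (M : ℂ) ≠ 0 := Nat.cast_ne_zero.2 hM.ne'
  have hR' : (R : ℂ) ≠ 0 := Nat.cast_ne_zero.2 hR.ne'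
  have h1 : ∀ a b c f, Wt X 1 1 (M * R) v u a b c f = (1 / (R : ℂ)) * ∑ i ∈ range R, V i a b c f := by
    intro a b c f
    unfold Wt
    simp only [one_mul, hV]
    rw [n2_blocks, Finset.mul_sum, Finset.mul_sum]
    refine Finset.sum_congr rfl fun i _ => ?_
    rw [Finset.mul_sum, Finset.mul_sum]
    refine Finset.sum_congr rfl fun l _ => ?_
    push_cast
    field_simp
  have h2 : ∀ i, ∑ a, ∑ b, ∑ c, ∑ f, ‖V i a b c f‖ ^ 2 = Phi X 1 1 M (v + (M * i) • α) (u + (M * i) • α) := by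
    intro i
    have h3 := n2_gen (X := X) (fun _ => 1 / (M : ℂ)) (fun m => m + M * i) M v u
    have h4 : ((∑ a, ∑ b, ∑ c, ∑ f, ‖V i a b c f‖ ^ 2 : ℝ) : ℂ) =
        ((Phi X 1 1 M (v + (M * i) • α) (u + (M * i) • α) : ℝ) : ℂ) := by
      simp only [hV]
      rw [h3, n2_phi, Finset.mul_sum]
      refine Finset.sum_congr rfl fun l _ => ?_
      rw [Finset.mul_sum]
      refine Finset.sum_congr rfl fun l' _ => ?_
      have : conj (1 / (M : ℂ)) = 1 / (M : ℂ) := by simp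
      rw [this, n2X_shift hU hX, n2X_shift hU hX]; ring
    exact_mod_cast h4
  have h0 : Phi X 1 1 (M * R) v u =
      ∑ a, ∑ b, ∑ c, ∑ f, ‖(1 / (R : ℂ)) * ∑ i ∈ range R, V i a b c f‖ ^ 2 :=
    Finset.sum_congr rfl fun a _ => Finset.sum_congr rfl fun b _ => Finset.sum_congr rfl fun c _ =>
      Finset.sum_congr rfl fun f _ => by rw [h1]
  rw [h0]
  calc ∑ a, ∑ b, ∑ c, ∑ f, ‖(1 / (R : ℂ)) * ∑ i ∈ range R, V i a b c f‖ ^ 2
      ≤ ∑ a, ∑ b, ∑ c, ∑ f, (1 / (R : ℝ)) * ∑ i ∈ range R, ‖V i a b c f‖ ^ 2 :=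
        Finset.sum_le_sum fun a _ => Finset.sum_le_sum fun b _ => Finset.sum_le_sum fun c _ =>
          Finset.sum_le_sum fun f _ => n2_conv R hR _
    _ = (1 / (R : ℝ)) * ∑ i ∈ range R, ∑ a, ∑ b, ∑ c, ∑ f, ‖V i a b c f‖ ^ 2 := by
        simp_rw [← Finset.mul_sum]
        congr 1
        have h5 : ∀ h : ι → ι → ι → ι → ℝ, (∑ a, ∑ b, ∑ c, ∑ f, h a b c f) =
            ∑ x : ι × ι × ι × ι, h x.1 x.2.1 x.2.2.1 x.2.2.2 := by
          intro h; simp [Fintype.sum_prod_type]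
        simp_rw [h5]
        exact Finset.sum_comm
    _ = (1 / (R : ℝ)) * ∑ i ∈ range R, Phi X 1 1 M (v + (M * i) • α) (u + (M * i) • α) := by
        rw [Finset.sum_congr rfl fun i _ => h2 i]

theorem phi_cont2 (hU : UC A Q) (hX : ObsF α A Q X) (L : ℕ) {f g : Td d → Td d} (hf : Continuous f) (hg : Continuous g) :
    Continuous fun u => Phi X 1 1 L (f u) (g u) := by
  have hA := hX.cont
  unfold Phi Wt
  refine continuous_finsetSum _ fun a _ => continuous_finsetSum _ fun b _ => continuous_finsetSum _ fun c _ =>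
    continuous_finsetSum _ fun e _ => ((continuous_const.mul (continuous_finsetSum _ fun l _ => ?_)).norm.pow 2)
  exact ((((hA (1 * l)).comp hf).matrix_elem a b).mul
    (Complex.continuous_conj.comp (((hA (1 * l)).comp hg).matrix_elem c e)))

theorem phi_mono (hU : UC A Q) (hX : ObsF α A Q X) (M R : ℕ) (hM : 0 < M) (hR : 0 < R) (s : Td d) :
    ∫ u, Phi X 1 1 (M * R) (u + s) u ∂mT d ≤ ∫ u, Phi X 1 1 M (u + s) u ∂mT d := by
  have hc0 : Continuous fun u : Td d => Phi X 1 1 (M * R) (u + s) u :=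
    phi_cont2 hU hX (M * R) (f := fun u => u + s) (g := fun u => u) (continuous_id.add continuous_const) continuous_id
  have hi : ∀ i : ℕ, Continuous fun u : Td d => Phi X 1 1 M (u + s + (M * i) • α) (u + (M * i) • α) := fun i =>
    phi_cont2 hU hX M (f := fun u => u + s + (M * i) • α) (g := fun u => u + (M * i) • α)
      ((continuous_id.add continuous_const).add continuous_const) (continuous_id.add continuous_const)
  have h1 : ∫ u, Phi X 1 1 (M * R) (u + s) u ∂mT d ≤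
      ∫ u, (1 / (R : ℝ)) * ∑ i ∈ range R, Phi X 1 1 M (u + s + (M * i) • α) (u + (M * i) • α) ∂mT d := by
    refine integral_mono (n2_int hc0) (n2_int ?_) fun u => n2_pt hU hX M R hM hR (u + s) u
    exact continuous_const.mul (continuous_finsetSum _ fun i _ => hi i)
  refine h1.trans ?_
  rw [integral_const_mul, integral_finsetSum _ fun i _ => n2_int (hi i)]
  have h2 : ∀ i : ℕ, ∫ u, Phi X 1 1 M (u + s + (M * i) • α) (u + (M * i) • α) ∂mT d =
      ∫ u, Phi X 1 1 M (u + s) u ∂mT d := by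
    intro i
    have h4 := integral_add_right_eq_self (μ := mT d) (fun w : Td d => Phi X 1 1 M (w + s) w) ((M * i) • α)
    rw [← h4]
    refine integral_congr_ae (Eventually.of_forall fun u => ?_)
    simp only
    rw [add_right_comm u s]
  rw [Finset.sum_congr rfl fun i _ => h2 i]
  rw [Finset.sum_const, Finset.card_range, nsmul_eq_mul]
  have hR' : (0 : ℝ) < R := by exact_mod_cast hR
  apply le_of_eq
  field_simp



theorem ai_cont (hU : UC A Q) (hX : ObsF α A Q X) (n : ℕ) : Continuous (trc X n) :=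
  trc_cont hX n

theorem ai_bb_cont (hU : UC A Q) (hX : ObsF α A Q X) (n : ℕ) : Continuous fun s => bb X s n := by
  have hF := ai_cont (α := α) hU hX n
  have h1 : Continuous (Function.uncurry fun (s u : Td d) =>
      trc X n (u + s) * conj (trc X n u)) := by
    refine Continuous.mul ?_ ?_
    · exact hF.comp (continuous_snd.add continuous_fst)
    · exact Complex.continuous_conj.comp (hF.comp continuous_snd)
  have h2 := continuous_parametric_integral_of_continuous (μ := mT d) h1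
    (isCompact_univ (X := Td d))
  simpa [bb, Measure.restrict_univ] using h2

theorem ai_cont_int {f : Td d → ℝ} (hf : Continuous f) : Integrable f (mT d) := by
  have := hf.continuousOn.integrableOn_compact (μ := mT d) (isCompact_univ (X := Td d))
  rwa [integrableOn_univ] at this

theorem ai_cont_intC {f : Td d → ℂ} (hf : Continuous f) : Integrable f (mT d) := by
  have := hf.continuousOn.integrableOn_compact (μ := mT d) (isCompact_univ (X := Td d))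
  rwa [integrableOn_univ] at this

/-- `|n - n'|` -/
def ai_d (n n' : ℕ) : ℕ := if n' ≤ n then n - n' else n' - n

theorem ai_re_avg (hU : UC A Q) (hX : ObsF α A Q X) (n q : ℕ) (hq : 0 < q) :
    (1 / (q : ℝ) ^ d) * ∑ i : Fin d → Fin q, (bb X (ptq q i) n).re = eqf (trc X n) q := by
  have h := avg_eqf (trc X n) (ai_cont hU hX n) q hq
  have h2 := congrArg Complex.re h
  rw [Complex.ofReal_re] at h2
  rw [← h2]
  have e : (1 / (q : ℂ) ^ d) = ((1 / (q : ℝ) ^ d : ℝ) : ℂ) := by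
    push_cast
    rfl
  rw [e, Complex.re_ofReal_mul, Complex.re_sum]
  rfl

theorem ai_re_int (hU : UC A Q) (hX : ObsF α A Q X) (n : ℕ) :
    ∫ s, (bb X s n).re ∂mT d = ‖aa X n‖ ^ 2 := by
  have h := int_bb (trc X n) (ai_cont (α := α) hU hX n)
  have h2 := congrArg Complex.re h
  rw [Complex.ofReal_re] at h2
  have h3 : ∫ s, (bb X s n).re ∂mT d = (∫ s, bb X s n ∂mT d).re :=
    integral_re (𝕜 := ℂ) (ai_cont_intC (ai_bb_cont (α := α) hU hX n))
  rw [h3]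
  exact h2

theorem ai_avg (hU : UC A Q) (hX : ObsF α A Q X) (N q : ℕ) (hN : 0 < N) (hq : 0 < q) :
    (1 / (q : ℝ) ^ d) * ∑ i : Fin d → Fin q, ∫ u, Phi X 1 1 N (u + ptq q i) u ∂mT d =
      (1 / (N : ℝ) ^ 2) * ∑ n ∈ range N, ∑ n' ∈ range N, eqf (trc X (ai_d n n')) q := by
  have h1 : ∀ i : Fin d → Fin q, ∫ u, Phi X 1 1 N (u + ptq q i) u ∂mT d =
      (1 / (N : ℝ) ^ 2) * ∑ n ∈ range N, ∑ n' ∈ range N, (bb X (ptq q i) (ai_d n n')).re :=
    fun i => phi_expand hU hX N hN _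
  rw [Finset.sum_congr rfl fun i _ => h1 i, ← Finset.mul_sum, mul_left_comm]
  congr 1
  rw [Finset.sum_comm, Finset.mul_sum]
  refine Finset.sum_congr rfl fun n _ => ?_
  rw [Finset.sum_comm, Finset.mul_sum]
  refine Finset.sum_congr rfl fun n' _ => ?_
  exact ai_re_avg hU hX _ q hq

theorem ai_int (hU : UC A Q) (hX : ObsF α A Q X) (N : ℕ) (hN : 0 < N) :
    ∫ s, (∫ u, Phi X 1 1 N (u + s) u ∂mT d) ∂mT d =
      (1 / (N : ℝ) ^ 2) * ∑ n ∈ range N, ∑ n' ∈ range N, ‖aa X (ai_d n n')‖ ^ 2 := by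
  have h1 : ∀ s : Td d, ∫ u, Phi X 1 1 N (u + s) u ∂mT d =
      (1 / (N : ℝ) ^ 2) * ∑ n ∈ range N, ∑ n' ∈ range N, (bb X s (ai_d n n')).re :=
    fun s => phi_expand hU hX N hN s
  have hint : ∀ n : ℕ, Integrable (fun s => (bb X s n).re) (mT d) := fun n =>
    ai_cont_int (Complex.continuous_re.comp (ai_bb_cont hU hX n))
  rw [integral_congr_ae (ae_of_all _ h1), integral_const_mul]
  congr 1
  rw [integral_finsetSum _ fun n _ => integrable_finsetSum _ fun n' _ => hint _]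
  refine Finset.sum_congr rfl fun n _ => ?_
  rw [integral_finsetSum _ fun n' _ => hint _]
  exact Finset.sum_congr rfl fun n' _ => ai_re_int hU hX _

theorem ai_Phi_cont (hU : UC A Q) (hX : ObsF α A Q X) (N : ℕ) (hN : 0 < N) :
    Continuous fun s => ∫ u, Phi X 1 1 N (u + s) u ∂mT d := by
  have h1 : (fun s : Td d => ∫ u, Phi X 1 1 N (u + s) u ∂mT d) =
      fun s => (1 / (N : ℝ) ^ 2) * ∑ n ∈ range N, ∑ n' ∈ range N, (bb X s (ai_d n n')).re :=
    funext fun s => phi_expand hU hX N hN s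
  rw [h1]
  refine continuous_const.mul ?_
  refine continuous_finsetSum _ fun n _ => continuous_finsetSum _ fun n' _ => ?_
  exact Complex.continuous_re.comp (ai_bb_cont hU hX _)

/-- the average of the energies of the frequencies divisible by `q` -/
noncomputable def ai_E (X : ℕ → Td d → Matrix ι ι ℂ) (q N : ℕ) : ℝ :=
  (1 / (N : ℝ) ^ 2) * ∑ n ∈ range N, ∑ n' ∈ range N, eqf (trc X (ai_d n n')) q

/-- the average of the energies of the frequency 0 -/
noncomputable def ai_I (X : ℕ → Td d → Matrix ι ι ℂ) (N : ℕ) : ℝ :=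
  (1 / (N : ℝ) ^ 2) * ∑ n ∈ range N, ∑ n' ∈ range N, ‖aa X (ai_d n n')‖ ^ 2

theorem ai_E_mono (hU : UC A Q) (hX : ObsF α A Q X) (q M R : ℕ) (hq : 0 < q) (hM : 0 < M) (hR : 0 < R) :
    ai_E X q (M * R) ≤ ai_E X q M := by
  unfold ai_E
  rw [← ai_avg hU hX (M * R) q (Nat.mul_pos hM hR) hq, ← ai_avg hU hX M q hM hq]
  refine mul_le_mul_of_nonneg_left ?_ (by positivity)
  exact Finset.sum_le_sum fun i _ => phi_mono hU hX M R hM hR _

theorem ai_I_mono (hU : UC A Q) (hX : ObsF α A Q X) (M R : ℕ) (hM : 0 < M) (hR : 0 < R) :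
    ai_I X (M * R) ≤ ai_I X M := by
  unfold ai_I
  rw [← ai_int hU hX (M * R) (Nat.mul_pos hM hR), ← ai_int hU hX M hM]
  exact integral_mono (ai_cont_int (ai_Phi_cont hU hX _ (Nat.mul_pos hM hR)))
    (ai_cont_int (ai_Phi_cont hU hX _ hM)) fun s => phi_mono hU hX M R hM hR s

theorem ai_I_nonneg (N : ℕ) : 0 ≤ ai_I X N := by
  unfold ai_I
  positivity

/-- `|n - n'| = h` has at least `M` solutions for `h < M`, `n, n' < 2 M` -/
theorem ai_count (f : ℕ → ℝ) (hf : ∀ n, 0 ≤ f n) (M : ℕ) :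
    (M : ℝ) * ∑ h ∈ range M, f h ≤
      ∑ n ∈ range (2 * M), ∑ n' ∈ range (2 * M), f (ai_d n n') := by
  rw [← Finset.sum_product']
  have hinj : Set.InjOn (fun y : ℕ × ℕ => (y.2 + y.1, y.2)) (range M ×ˢ range M : Finset (ℕ × ℕ)) := by
    rintro ⟨a, b⟩ _ ⟨a', b'⟩ _ h
    simp only [Prod.mk.injEq] at h
    ext
    · show a = a'
      omega
    · exact h.2
  have h1 : ∑ x ∈ (range M ×ˢ range M).image (fun y : ℕ × ℕ => (y.2 + y.1, y.2)),
      f (ai_d x.1 x.2) ≤ ∑ x ∈ range (2 * M) ×ˢ range (2 * M), f (ai_d x.1 x.2) := by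
    refine Finset.sum_le_sum_of_subset_of_nonneg ?_ fun _ _ _ => hf _
    intro x hx
    rw [Finset.mem_image] at hx
    obtain ⟨y, hy, rfl⟩ := hx
    rw [Finset.mem_product, mem_range, mem_range] at hy ⊢
    constructor
    · show y.2 + y.1 < 2 * M
      omega
    · show y.2 < 2 * M
      omega
  refine le_trans (le_of_eq ?_) h1
  rw [Finset.sum_image hinj, Finset.sum_product, Finset.mul_sum]
  refine Finset.sum_congr rfl fun a _ => ?_
  have h2 : ∀ b ∈ range M, f (ai_d (b + a) b) = f a := by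
    intro b _
    unfold ai_d
    rw [if_pos (by omega)]
    congr 1
    omega
  rw [Finset.sum_congr rfl h2, Finset.sum_const, card_range, nsmul_eq_mul]

theorem ai_term_nonneg (hU : UC A Q) (hX : ObsF α A Q X) (q n : ℕ) : 0 ≤ eqf (trc X n) q - ‖aa X n‖ ^ 2 :=
  sub_nonneg.2 (eqf_ge (trc X n) (ai_cont hU hX n) q)

theorem ai_core (hU : UC A Q) (hX : ObsF α A Q X) (ε : ℝ) (hε : 0 < ε) : ∃ i0 q1 : ℕ, ∀ q ≥ q1, ∀ k ≥ i0,
    ∑ h ∈ range (2 ^ k), (eqf (trc X h) q - ‖aa X h‖ ^ 2) ≤ ε * 2 ^ k := by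
  have hbdd : BddBelow (Set.range fun k : ℕ => ai_I X (2 ^ k)) :=
    ⟨0, by rintro _ ⟨k, rfl⟩; exact ai_I_nonneg _⟩
  obtain ⟨i0, hi0⟩ := exists_lt_of_ciInf_lt (f := fun k : ℕ => ai_I X (2 ^ k))
    (a := (⨅ k : ℕ, ai_I X (2 ^ k)) + ε / 8) (by linarith)
  have hinf : ∀ k : ℕ, ai_I X (2 ^ i0) ≤ ai_I X (2 ^ k) + ε / 8 := by
    intro k
    have := ciInf_le hbdd k
    linarith
  have hev : ∀ᶠ q : ℕ in atTop, ∀ n ∈ range (2 ^ i0), eqf (trc X n) q ≤
      ‖aa X n‖ ^ 2 + ε / 8 := by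
    rw [Filter.eventually_all_finset]
    intro n _
    have h1 := eqf_tendsto (trc X n) (ai_cont (α := α) hU hX n)
    have h2 : ‖∫ t, trc X n t ∂mT d‖ ^ 2 < ‖aa X n‖ ^ 2 + ε / 8 := by
      have : (∫ t, trc X n t ∂mT d) = aa X n := rfl
      rw [this]
      linarith
    exact (h1.eventually (gt_mem_nhds h2)).mono fun q hq => hq.le
  obtain ⟨q1, hq1⟩ := Filter.eventually_atTop.1 hev
  refine ⟨i0, max q1 1, fun q hq k hk => ?_⟩
  have hq0 : 0 < q := lt_of_lt_of_le Nat.one_pos ((le_max_right _ _).trans hq)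
  have hqq1 : q1 ≤ q := (le_max_left _ _).trans hq
  -- the chain
  have c1 : ai_E X q (2 ^ (k + 1)) ≤ ai_E X q (2 ^ i0) := by
    have h1 := ai_E_mono (α := α) hU hX q (2 ^ i0) (2 ^ (k + 1 - i0)) hq0 (by positivity)
      (by positivity)
    rwa [← pow_add, show i0 + (k + 1 - i0) = k + 1 by omega] at h1
  have c2 : ai_E X q (2 ^ i0) ≤ ai_I X (2 ^ i0) + ε / 8 := by
    unfold ai_E ai_I
    have hM : (0 : ℝ) < ((2 ^ i0 : ℕ) : ℝ) := by positivity
    have h1 : ∑ n ∈ range (2 ^ i0), ∑ n' ∈ range (2 ^ i0), eqf (trc X (ai_d n n')) q ≤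
        ∑ n ∈ range (2 ^ i0), ∑ n' ∈ range (2 ^ i0), (‖aa X (ai_d n n')‖ ^ 2 + ε / 8) := by
      refine Finset.sum_le_sum fun n hn => Finset.sum_le_sum fun n' hn' => ?_
      refine hq1 q hqq1 _ ?_
      rw [mem_range] at hn hn' ⊢
      unfold ai_d
      split_ifs <;> omega
    have h2 : ∑ n ∈ range (2 ^ i0), ∑ n' ∈ range (2 ^ i0), (‖aa X (ai_d n n')‖ ^ 2 + ε / 8) =
        (∑ n ∈ range (2 ^ i0), ∑ n' ∈ range (2 ^ i0), ‖aa X (ai_d n n')‖ ^ 2) +
          ((2 ^ i0 : ℕ) : ℝ) ^ 2 * (ε / 8) := by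
      simp only [Finset.sum_add_distrib, Finset.sum_const, card_range, nsmul_eq_mul]
      ring
    rw [h2] at h1
    have h3 := mul_le_mul_of_nonneg_left h1
      (show (0 : ℝ) ≤ 1 / ((2 ^ i0 : ℕ) : ℝ) ^ 2 by positivity)
    refine h3.trans (le_of_eq ?_)
    field_simp
  have c3 := hinf (k + 1)
  have c4 : ai_E X q (2 ^ (k + 1)) - ai_I X (2 ^ (k + 1)) ≤ ε / 4 := by linarith
  -- the double sum
  have hN : (0 : ℝ) < ((2 ^ (k + 1) : ℕ) : ℝ) := by positivity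
  have c5 : ∑ n ∈ range (2 ^ (k + 1)), ∑ n' ∈ range (2 ^ (k + 1)),
      (eqf (trc X (ai_d n n')) q - ‖aa X (ai_d n n')‖ ^ 2) ≤
        ε / 4 * ((2 ^ (k + 1) : ℕ) : ℝ) ^ 2 := by
    have e1 : ai_E X q (2 ^ (k + 1)) - ai_I X (2 ^ (k + 1)) =
        (1 / ((2 ^ (k + 1) : ℕ) : ℝ) ^ 2) * ∑ n ∈ range (2 ^ (k + 1)), ∑ n' ∈ range (2 ^ (k + 1)),
          (eqf (trc X (ai_d n n')) q - ‖aa X (ai_d n n')‖ ^ 2) := by
      unfold ai_E ai_I
      simp only [Finset.sum_sub_distrib]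
      ring
    rw [e1, one_div, inv_mul_le_iff₀ (by positivity)] at c4
    linarith
  have c6 := ai_count (fun h => eqf (trc X h) q - ‖aa X h‖ ^ 2)
    (fun n => ai_term_nonneg hU hX q n) (2 ^ k)
  rw [show 2 * 2 ^ k = 2 ^ (k + 1) by ring] at c6
  have c7 := c6.trans c5
  have hk0 : (0 : ℝ) < 2 ^ k := by positivity
  have e2 : ε / 4 * ((2 ^ (k + 1) : ℕ) : ℝ) ^ 2 = (2 : ℝ) ^ k * (ε * 2 ^ k) := by
    push_cast
    ring
  rw [e2] at c7
  push_cast at c7
  exact le_of_mul_le_mul_left c7 hk0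

theorem Dl_nonneg (hU : UC A Q) (hX : ObsF α A Q X) (j n : ℕ) : 0 ≤ Dl X j n := by
  unfold Dl
  refine mul_nonneg (by positivity) (Finset.sum_nonneg fun q _ => ?_)
  exact ai_term_nonneg hU hX q n

theorem Dl_all (hU : UC A Q) (hX : ObsF α A Q X) (ε : ℝ) (hε : 0 < ε) : ∃ N0 j1 : ℕ, ∀ j ≥ j1, ∀ N ≥ N0,
    ∑ n ∈ range N, Dl X j n ≤ ε * N := by
  obtain ⟨i0, q1, h⟩ := ai_core (α := α) hU hX (ε / 2) (by positivity)
  refine ⟨2 ^ i0, q1, fun j hj N hN => ?_⟩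
  have hNpos : 0 < N := lt_of_lt_of_le (by positivity) hN
  obtain ⟨k, hk⟩ : ∃ k, k = Nat.clog 2 N := ⟨_, rfl⟩
  have hk1 : N ≤ 2 ^ k := by
    rw [hk]
    exact Nat.le_pow_clog (by norm_num) N
  have hk2 : 2 ^ k ≤ 2 * N := by
    rcases Nat.lt_or_ge 1 N with h1 | h1
    · have h2 := Nat.pow_pred_clog_lt_self (b := 2) (by norm_num) h1
      have h3 : 0 < Nat.clog 2 N := Nat.clog_pos (by norm_num) h1
      rw [hk]
      have h4 : 2 ^ Nat.clog 2 N = 2 * 2 ^ (Nat.clog 2 N).pred := by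
        rw [← pow_succ']
        congr 1
        exact (Nat.succ_pred_eq_of_pos h3).symm
      omega
    · have : N = 1 := by omega
      rw [hk, this]
      simp
  have hki : i0 ≤ k := by
    have h1 : 2 ^ i0 ≤ 2 ^ k := hN.trans hk1
    exact (Nat.pow_le_pow_iff_right (by norm_num)).1 h1
  have hle : ∑ n ∈ range N, Dl X j n ≤ ∑ n ∈ range (2 ^ k), Dl X j n :=
    Finset.sum_le_sum_of_subset_of_nonneg (Finset.range_subset_range.2 hk1)
      fun n _ _ => Dl_nonneg hU hX j n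
  have hsw : ∑ n ∈ range (2 ^ k), Dl X j n = (1 / ((Qb j).card : ℝ)) * ∑ q ∈ Qb j,
      ∑ n ∈ range (2 ^ k), (eqf (trc X n) q - ‖aa X n‖ ^ 2) := by
    unfold Dl
    rw [← Finset.mul_sum, Finset.sum_comm]
  have hq : ∑ q ∈ Qb j, ∑ n ∈ range (2 ^ k), (eqf (trc X n) q - ‖aa X n‖ ^ 2) ≤
      ((Qb j).card : ℝ) * (ε / 2 * 2 ^ k) := by
    rw [← nsmul_eq_mul]
    refine Finset.sum_le_card_nsmul _ _ _ fun q hq => h q ?_ k hki
    unfold Qb at hq
    rw [mem_filter, mem_Ico] at hq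
    have : j < 2 ^ j := Nat.lt_two_pow_self
    omega
  have hK : (1 / ((Qb j).card : ℝ)) * (((Qb j).card : ℝ) * (ε / 2 * 2 ^ k)) ≤ ε / 2 * 2 ^ k := by
    rcases Nat.eq_zero_or_pos (Qb j).card with h0 | h0
    · rw [h0]
      simp
      positivity
    · have : (0 : ℝ) < ((Qb j).card : ℝ) := by exact_mod_cast h0
      rw [← mul_assoc, one_div, inv_mul_cancel₀ this.ne', one_mul]
  have hk2' : (2 : ℝ) ^ k ≤ 2 * N := by exact_mod_cast hk2
  calc ∑ n ∈ range N, Dl X j n ≤ _ := hle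
    _ = _ := hsw
    _ ≤ (1 / ((Qb j).card : ℝ)) * (((Qb j).card : ℝ) * (ε / 2 * 2 ^ k)) :=
        mul_le_mul_of_nonneg_left hq (by positivity)
    _ ≤ ε / 2 * 2 ^ k := hK
    _ ≤ ε / 2 * (2 * N) := mul_le_mul_of_nonneg_left hk2' (by positivity)
    _ = ε * N := by ring



theorem DlPrimes_trc_cont (hU : UC A Q) (hX : ObsF α A Q X) (n : ℕ) : Continuous (trc X n) := by
  exact trc_cont hX n

theorem DlPrimes_bb_cont (hU : UC A Q) (hX : ObsF α A Q X) (n : ℕ) : Continuous fun s : Td d => bb X s n := by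
  have hc := DlPrimes_trc_cont (α := α) hU hX n
  have h := continuous_parametric_integral_of_continuous (μ := mT d)
    (f := fun (s u : Td d) => trc X n (u + s) * conj (trc X n u)) (s := Set.univ)
    (by
      unfold Function.uncurry
      exact (hc.comp (continuous_snd.add continuous_fst)).mul (Complex.continuous_conj.comp (hc.comp continuous_snd)))
    isCompact_univ
  unfold bb
  simpa only [Measure.restrict_univ] using h

theorem DlPrimes_vn_bb (hU : UC A Q) (hX : ObsF α A Q X) (s : Td d) (c : ℕ → ℂ) (N r : ℕ) (B : ℝ)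
    (hB : ∀ θ : ℝ, ‖∑ n ∈ Icc 1 N, c n * GT.e (n * θ)‖ ≤ B) :
    ‖∑ n ∈ Icc 1 N, c n * bb X s (r * n)‖ ≤ ((Fintype.card ι : ℝ) ^ 2) ^ 2 * B := by
  have hB0 : 0 ≤ B := (norm_nonneg _).trans (hB 0)
  refine (vn_of_posDef _ (bb_posDef hU hX s) (bb_zero_im hX s) c N r B hB).trans ?_
  exact mul_le_mul_of_nonneg_right (bb_zero_le hX s) hB0

theorem DlPrimes_vn_eqf (hU : UC A Q) (hX : ObsF α A Q X) (q : ℕ) (hq : 0 < q) (c : ℕ → ℂ) (N r : ℕ) (B : ℝ)
    (hB : ∀ θ : ℝ, ‖∑ n ∈ Icc 1 N, c n * GT.e (n * θ)‖ ≤ B) :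
    ‖∑ n ∈ Icc 1 N, c n * ((eqf (trc X (r * n)) q : ℝ) : ℂ)‖ ≤ ((Fintype.card ι : ℝ) ^ 2) ^ 2 * B := by
  have h1 : ∑ n ∈ Icc 1 N, c n * ((eqf (trc X (r * n)) q : ℝ) : ℂ) =
      (1 / (q : ℂ) ^ d) * ∑ i : Fin d → Fin q, ∑ n ∈ Icc 1 N, c n * bb X (ptq q i) (r * n) := by
    rw [Finset.sum_comm, Finset.mul_sum]
    refine Finset.sum_congr rfl fun n _ => ?_
    rw [← avg_eqf _ (DlPrimes_trc_cont hU hX _) q hq, ← Finset.mul_sum]
    unfold bb
    ring
  rw [h1, norm_mul, norm_div, norm_one, norm_pow, Complex.norm_natCast]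
  have hqd : (0 : ℝ) < (q : ℝ) ^ d := by positivity
  rw [one_div, inv_mul_le_iff₀ hqd]
  calc _ ≤ ∑ i : Fin d → Fin q, ‖∑ n ∈ Icc 1 N, c n * bb X (ptq q i) (r * n)‖ := norm_sum_le _ _
    _ ≤ ∑ i : Fin d → Fin q, ((Fintype.card ι : ℝ) ^ 2) ^ 2 * B :=
      Finset.sum_le_sum fun i _ => DlPrimes_vn_bb hU hX _ c N r B hB
    _ = (q : ℝ) ^ d * (((Fintype.card ι : ℝ) ^ 2) ^ 2 * B) := by
      rw [Finset.sum_const, nsmul_eq_mul, Finset.card_univ, Fintype.card_fun, Fintype.card_fin, Fintype.card_fin]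
      push_cast
      ring

theorem DlPrimes_vn_aa (hU : UC A Q) (hX : ObsF α A Q X) (c : ℕ → ℂ) (N r : ℕ) (B : ℝ)
    (hB : ∀ θ : ℝ, ‖∑ n ∈ Icc 1 N, c n * GT.e (n * θ)‖ ≤ B) :
    ‖∑ n ∈ Icc 1 N, c n * ((‖aa X (r * n)‖ ^ 2 : ℝ) : ℂ)‖ ≤ ((Fintype.card ι : ℝ) ^ 2) ^ 2 * B := by
  have hint : ∀ n, Integrable (fun s : Td d => bb X s n) (mT d) := by
    intro n
    have h := DlPrimes_bb_cont (α := α) hU hX n
    exact h.integrable_of_hasCompactSupport (HasCompactSupport.of_compactSpace _)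
  have h1 : ∑ n ∈ Icc 1 N, c n * ((‖aa X (r * n)‖ ^ 2 : ℝ) : ℂ) =
      ∫ s, ∑ n ∈ Icc 1 N, c n * bb X s (r * n) ∂mT d := by
    rw [integral_finsetSum _ fun n _ => (hint _).const_mul _]
    refine Finset.sum_congr rfl fun n _ => ?_
    rw [integral_const_mul]
    congr 1
    have := int_bb _ (DlPrimes_trc_cont (α := α) hU hX (r * n))
    unfold aa bb
    rw [this]
  rw [h1]
  have h2 := norm_integral_le_of_norm_le_const (μ := mT d) (C := ((Fintype.card ι : ℝ) ^ 2) ^ 2 * B)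
    (f := fun s => ∑ n ∈ Icc 1 N, c n * bb X s (r * n))
    (Eventually.of_forall fun s => DlPrimes_vn_bb hU hX s c N r B hB)
  simpa using h2

theorem Dl_vn (hU : UC A Q) (hX : ObsF α A Q X) (j : ℕ) : VN (fun n => ((Dl X j n : ℝ) : ℂ)) (2 * ((Fintype.card ι : ℝ) ^ 2) ^ 2) := by
  intro c N r B hB
  have hB0 : 0 ≤ B := (norm_nonneg _).trans (hB 0)
  have h1 : ∑ n ∈ Icc 1 N, c n * ((Dl X j (r * n) : ℝ) : ℂ) =
      (1 / ((Qb j).card : ℂ)) * ∑ q ∈ Qb j,
        (∑ n ∈ Icc 1 N, c n * ((eqf (trc X (r * n)) q : ℝ) : ℂ) -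
          ∑ n ∈ Icc 1 N, c n * ((‖aa X (r * n)‖ ^ 2 : ℝ) : ℂ)) := by
    unfold Dl
    simp only [← Finset.sum_sub_distrib]
    rw [Finset.sum_comm, Finset.mul_sum]
    refine Finset.sum_congr rfl fun n _ => ?_
    push_cast
    simp only [← mul_sub]
    rw [← Finset.mul_sum]
    ring
  show ‖∑ n ∈ Icc 1 N, c n * ((Dl X j (r * n) : ℝ) : ℂ)‖ ≤ _
  rw [h1, norm_mul, norm_div, norm_one, Complex.norm_natCast]
  rcases Nat.eq_zero_or_pos (Qb j).card with h0 | h0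
  · rw [h0]
    simp only [Nat.cast_zero, div_zero, zero_mul]
    positivity
  have h0' : (0 : ℝ) < (Qb j).card := by exact_mod_cast h0
  rw [one_div, inv_mul_le_iff₀ h0']
  calc _ ≤ ∑ q ∈ Qb j, ‖∑ n ∈ Icc 1 N, c n * ((eqf (trc X (r * n)) q : ℝ) : ℂ) -
          ∑ n ∈ Icc 1 N, c n * ((‖aa X (r * n)‖ ^ 2 : ℝ) : ℂ)‖ := norm_sum_le _ _
    _ ≤ ∑ q ∈ Qb j, (2 * ((Fintype.card ι : ℝ) ^ 2) ^ 2 * B) := by
      refine Finset.sum_le_sum fun q hq => ?_
      have hq0 : 0 < q := by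
        unfold Qb at hq
        exact (mem_filter.1 hq).2.pos
      calc _ ≤ _ := norm_sub_le _ _
        _ ≤ ((Fintype.card ι : ℝ) ^ 2) ^ 2 * B + ((Fintype.card ι : ℝ) ^ 2) ^ 2 * B :=
          add_le_add (DlPrimes_vn_eqf hU hX q hq0 c N r B hB) (DlPrimes_vn_aa hU hX c N r B hB)
        _ = _ := by ring
    _ = _ := by rw [Finset.sum_const, nsmul_eq_mul]

/-- the energy estimate: uniform in `x` -/
theorem energy (hU : UC A Q) (hX : ObsF α A Q X) (r : ℕ) (hr : 1 ≤ r) (η : ℝ) (hη : 0 < η)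
    (κ : ℝ) (hκ : κ ^ 2 ≤ η / 4) (hR : ∃ j0 : ℕ, ∀ j ≥ j0, ‖∑ p ∈ Qb j, aa X (p * r)‖ ≤ κ * ((Qb j).card : ℝ)) :
    ∃ j0 : ℕ, ∀ j ≥ j0, ∀ x : Td d,
      ∫ t, ‖∑ p ∈ Qb j, trc X (p * r) (x + p • t)‖ ^ 2 ∂mT d ≤ η * ((Qb j).card : ℝ) ^ 2 := by
  set B : ℝ := (Fintype.card ι : ℝ) ^ 2 with hB
  have hB0 : 0 ≤ B := by positivity
  obtain ⟨j1, h1⟩ := hR
  obtain ⟨j2, h2⟩ := nonneg_prime_avg (Dl X) (2 * B ^ 2) (Dl_nonneg hU hX) (Dl_vn hU hX) (Dl_all hU hX) r hr (η / 4) (by positivity)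
  obtain ⟨j3, h3⟩ := main_card_large (4 * B ^ 2 / η + 1)
  refine ⟨max j1 (max j2 j3), fun j hj x => ?_⟩
  have k1 := h1 j ((le_max_left _ _).trans hj)
  have k2 := h2 j ((le_max_left _ _).trans ((le_max_right _ _).trans hj))
  have k3 := h3 j ((le_max_right _ _).trans ((le_max_right _ _).trans hj))
  set K : ℝ := ((Qb j).card : ℝ) with hK
  have hKpos : 0 < K := by
    have : 0 ≤ 4 * B ^ 2 / η := by positivity
    linarith
  have k4 := divisors (Qb j) (fun p hp => (mem_filter.1 hp).2) (fun p => trc X (p * r))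
    (fun p _ => by
      exact trc_cont hX (p * r)) B hB0
    (fun p _ y => x_tr hX _ _) x
  have k5 : ∑ p ∈ Qb j, ∑ q ∈ Qb j, (eqf (trc X (p * r)) q - ‖∫ t, trc X (p * r) t ∂mT d‖ ^ 2) =
      K * ∑ p ∈ Qb j, Dl X j (p * r) := by
    rw [Finset.mul_sum]
    refine Finset.sum_congr rfl fun p _ => ?_
    unfold Dl
    rw [← mul_assoc, mul_one_div_cancel hKpos.ne', one_mul]
    rfl
  have k6 : ‖∑ p ∈ Qb j, ∫ t, trc X (p * r) t ∂mT d‖ ^ 2 ≤ η / 4 * K ^ 2 := by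
    have e : ∑ p ∈ Qb j, ∫ t, trc X (p * r) t ∂mT d = ∑ p ∈ Qb j, aa X (p * r) := rfl
    rw [e]
    calc _ ≤ (κ * K) ^ 2 := pow_le_pow_left₀ (norm_nonneg _) k1 2
      _ = κ ^ 2 * K ^ 2 := by rw [mul_pow]
      _ ≤ η / 4 * K ^ 2 := mul_le_mul_of_nonneg_right hκ (by positivity)
  have k7 : K * B ^ 2 ≤ η / 4 * K ^ 2 := by
    have : 4 * B ^ 2 / η ≤ K := by linarith
    rw [div_le_iff₀ hη] at this
    nlinarith
  calc ∫ t, ‖∑ p ∈ Qb j, trc X (p * r) (x + p • t)‖ ^ 2 ∂mT d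
      ≤ _ := k4
    _ ≤ η / 4 * K ^ 2 + η / 4 * K ^ 2 + K * (η / 4 * K) := by
        rw [k5]
        refine add_le_add (add_le_add k6 k7) (mul_le_mul_of_nonneg_left k2 hKpos.le)
    _ ≤ η * K ^ 2 := by nlinarith [sq_nonneg K, mul_pos hη hKpos]

/-- the orthogonality theorem for one level `ε`: the averages of `aa X` over the primes only have to be at most `ε^2/128` -/
theorem obs_mst (hU : UC A Q) (hX : ObsF α A Q X) (hα : ∀ k : Fin d → ℤ, k ≠ 0 → mFourier k α ≠ 1)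
    {u : ℕ → ℂ} (hu : BMult u) (ε : ℝ) (hε : 0 < ε)
    (hR : ∀ r : ℕ, 1 ≤ r → ∃ j0 : ℕ, ∀ j ≥ j0, ‖∑ p ∈ Qb j, aa X (p * r)‖ ≤ ε ^ 2 / 128 * ((Qb j).card : ℝ)) :
    ∃ N0 : ℕ, ∀ N ≥ N0, ∀ (x : Td d) (i j : ι), ‖∑ n ∈ Icc 1 N, u n * X n x i j‖ ≤ ε * N := by
  have key : ∃ N0 : ℕ, ∀ N ≥ N0, ∀ z : Td d × ι × ι,
      ‖∑ n ∈ Icc 1 N, u n * (fun (z : Td d × ι × ι) (n : ℕ) => X n z.1 z.2.1 z.2.2) z n‖ ≤ ε * N := by
    refine kbsz_one hu _ (fun z n => hX.bd n _ _ _) ε hε ?_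
    set η : ℝ := (ε / 4) ^ 2 with hηdef
    have hη : 0 < η := by positivity
    set B : ℝ := (Fintype.card ι : ℝ) ^ 2 with hB
    obtain ⟨L, hL⟩ := exists_nat_ge (8 * B ^ 2 / η ^ 2 + 1)
    have hL0 : (0 : ℝ) < L := by
      have : 0 ≤ 8 * B ^ 2 / η ^ 2 := by positivity
      linarith
    have hLn : 0 < L := by exact_mod_cast hL0
    have hen : ∀ᶠ j in atTop, ∀ r ∈ Ico 1 L, ∀ x : Td d,
        ∫ t, ‖∑ p ∈ Qb j, trc X (p * r) (x + p • t)‖ ^ 2 ∂mT d ≤ η ^ 2 / 16 * ((Qb j).card : ℝ) ^ 2 := by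
      rw [Filter.eventually_all_finset]
      intro r hr
      obtain ⟨j0, h0⟩ := energy hU hX r (mem_Ico.1 hr).1 (η ^ 2 / 16) (by positivity) (ε ^ 2 / 128)
        (by rw [hηdef]; apply le_of_eq; ring) (hR r (mem_Ico.1 hr).1)
      exact eventually_atTop.2 ⟨j0, h0⟩
    obtain ⟨J0, hJ0⟩ := eventually_atTop.1 hen
    refine ⟨J0, fun j hj => ?_⟩
    have hc : ∀ p q : ℕ, ∃ M0 : ℕ, ∀ M ≥ M0, ∀ (x : Td d) (i j : ι),
      ‖∑ m ∈ Icc 1 M, X (p * m) x i j * conj (X (q * m) x i j)‖ ≤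
        (Real.sqrt (∫ t, Phi X p q L (x + p • t) (x + q • t) ∂mT d) + η / 2) * M := fun p q =>
      corr_le hU hX hα p q L hLn (η / 2) (by positivity)
    choose M0 hM0 using hc
    refine ⟨(Qb j ×ˢ Qb j).sup fun x => M0 x.1 x.2, fun z => ?_⟩
    refine ⟨fun p q => Real.sqrt (∫ t, Phi X p q L (z.1 + p • t) (z.1 + q • t) ∂mT d) + η / 2, ?_, ?_, ?_⟩
    · intro p _ q _
      positivity
    · intro p hp q hq _ M hM
      refine hM0 p q M (le_trans ?_ hM) z.1 z.2.1 z.2.2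
      exact Finset.le_sup (f := fun x : ℕ × ℕ => M0 x.1 x.2) (b := (p, q)) (mem_product.2 ⟨hp, hq⟩)
    · have h1 := sum_pairs (α := α) hU hX (Qb j) L hLn z.1
      have h2 : ∑ r ∈ Ico 1 L, ∫ t, ‖∑ p ∈ Qb j, trc X (p * r) (z.1 + p • t)‖ ^ 2 ∂mT d ≤
          L * (η ^ 2 / 16 * ((Qb j).card : ℝ) ^ 2) := by
        refine (Finset.sum_le_card_nsmul _ _ _ fun r hr => hJ0 j hj r hr z.1).trans ?_
        rw [nsmul_eq_mul]
        refine mul_le_mul_of_nonneg_right ?_ (by positivity)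
        rw [Nat.card_Ico]
        exact_mod_cast Nat.sub_le _ _
      have h3 : ∑ p ∈ Qb j, ∑ q ∈ Qb j, ∫ t, Phi X p q L (z.1 + p • t) (z.1 + q • t) ∂mT d ≤
          (η / 2) ^ 2 * ((Qb j).card : ℝ) ^ 2 := by
        refine h1.trans ?_
        have h4 : B ^ 2 * ((Qb j).card : ℝ) ^ 2 / L ≤ η ^ 2 / 8 * ((Qb j).card : ℝ) ^ 2 := by
          rw [div_le_iff₀ hL0]
          have h5 : 8 * B ^ 2 / η ^ 2 ≤ L := by linarith
          rw [div_le_iff₀ (by positivity)] at h5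
          have h6 : (0 : ℝ) ≤ ((Qb j).card : ℝ) ^ 2 := by positivity
          nlinarith
        have h7 : 2 / (L : ℝ) * ∑ r ∈ Ico 1 L, ∫ t, ‖∑ p ∈ Qb j, trc X (p * r) (z.1 + p • t)‖ ^ 2 ∂mT d ≤
            η ^ 2 / 8 * ((Qb j).card : ℝ) ^ 2 := by
          refine (mul_le_mul_of_nonneg_left h2 (by positivity)).trans_eq ?_
          field_simp
          ring
        calc _ ≤ η ^ 2 / 8 * ((Qb j).card : ℝ) ^ 2 + η ^ 2 / 8 * ((Qb j).card : ℝ) ^ 2 := add_le_add h4 h7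
          _ = _ := by ring
      have h8 := main_sum_sqrt (Qb j) (fun p q => ∫ t, Phi X p q L (z.1 + p • t) (z.1 + q • t) ∂mT d)
        (fun p q => integral_nonneg fun t => phi_nonneg _ _ _ _ _) (η / 2) (by positivity) h3
      simp_rw [Finset.sum_add_distrib]
      have h9 : ∑ p ∈ Qb j, ∑ q ∈ Qb j, η / 2 = η / 2 * ((Qb j).card : ℝ) ^ 2 := by
        simp only [Finset.sum_const, nsmul_eq_mul]
        ring
      rw [h9]
      calc _ ≤ η / 2 * ((Qb j).card : ℝ) ^ 2 + η / 2 * ((Qb j).card : ℝ) ^ 2 := add_le_add h8 le_rfl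
        _ = _ := by ring
  obtain ⟨N0, hN0⟩ := key
  exact ⟨N0, fun N hN x i j => hN0 N hN (x, i, j)⟩


end ObsX
end Pool.Agent.Lib.MP_9fe581_an.HD
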