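import Mathlib

/-!
# HD: Peter - Weyl, part a: finite dimensional invariant subspaces of unitary representations of compact groups

`U` a strongly continuous unitary representation of the compact group `G` on the Hilbert space `H`, `κ : H`.
`S = ∫ |U x κ⟩⟨U x κ|` is compact, symmetric, commutes with `U`, and `κ` is orthogonal to its kernel. If `U g` is
trivial on all finite dimensional invariant subspaces then it is trivial on the eigenspaces of `S` for the nonzero
eigenvalues, so `U g κ = κ`.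
-/

open MeasureTheory Filter Topology
open scoped ComplexConjugate InnerProductSpace

namespace Pool.Agent.Lib.MP_9fe581_an.HD

section

variable {G H : Type*} [Group G] [TopologicalSpace G] [IsTopologicalGroup G] [CompactSpace G]
  [T2Space G] [NormedAddCommGroup H] [InnerProductSpace ℂ H] [CompleteSpace H]

/-- A strongly continuous unitary representation. -/
structure HRep (U : G → H →L[ℂ] H) : Prop where
  cont : ∀ v, Continuous fun x => U x v
  one : ∀ v, U 1 v = v
  mul : ∀ x y v, U (x * y) v = U x (U y v)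
  inn : ∀ x v w, ⟪U x v, U x w⟫_ℂ = ⟪v, w⟫_ℂ

/-- The average of the projections on the translates of `κ`. -/
noncomputable def avg [MeasurableSpace G] (μ : Measure G) (U : G → H →L[ℂ] H) (κ : H) : H →L[ℂ] H :=
  ∫ x, (innerSL ℂ (U x κ)).smulRight (U x κ) ∂μ

variable [MeasurableSpace G] [BorelSpace G] {U : G → H →L[ℂ] H} (hU : HRep U) (κ : H)
  (μ : Measure G)

include hU

omit [IsTopologicalGroup G] [CompactSpace G] [T2Space G] [CompleteSpace H] [MeasurableSpace G]
  [BorelSpace G] in
private theorem cont_rk : Continuous fun x => (innerSL ℂ (U x κ)).smulRight (U x κ) := by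
  have h : Continuous fun v : H => (innerSL ℂ v).smulRight v := by
    have h1 : Continuous fun v : H => innerSL ℂ v := (innerSL ℂ).continuous
    have h2 : Continuous fun p : (H →L[ℂ] ℂ) × H => p.1.smulRight p.2 :=
      (ContinuousLinearMap.smulRightL ℂ H H).continuous₂
    exact h2.comp (h1.prodMk continuous_id)
  exact h.comp (hU.cont κ)

omit [IsTopologicalGroup G] [T2Space G] [CompleteSpace H] in
private theorem int_rk [IsFiniteMeasureOnCompacts μ] :
    Integrable (fun x => (innerSL ℂ (U x κ)).smulRight (U x κ)) μ :=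
  (cont_rk hU κ).integrable_of_hasCompactSupport (HasCompactSupport.of_compactSpace _)

private theorem avg_apply [IsFiniteMeasureOnCompacts μ] (v : H) :
    avg μ U κ v = ∫ x, ⟪U x κ, v⟫_ℂ • U x κ ∂μ := by
  unfold avg
  rw [ContinuousLinearMap.integral_apply (int_rk hU κ μ)]
  rfl

omit [IsTopologicalGroup G] [T2Space G] [CompleteSpace H] in
private theorem int_ap [IsFiniteMeasureOnCompacts μ] (v : H) :
    Integrable (fun x => ⟪U x κ, v⟫_ℂ • U x κ) μ :=
  Continuous.integrable_of_hasCompactSupport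
    (((hU.cont κ).inner continuous_const).smul (hU.cont κ)) (HasCompactSupport.of_compactSpace _)

private theorem avg_compact [IsProbabilityMeasure μ] : IsCompactOperator (avg μ U κ) := by
  have hs : Convex ℝ {A : H →L[ℂ] H | IsCompactOperator A} := by
    intro A hA B hB a b _ _ _
    have h1 : IsCompactOperator ((a : ℂ) • A) := hA.smul (a : ℂ)
    have h2 : IsCompactOperator ((b : ℂ) • B) := hB.smul (b : ℂ)
    have h3 := h1.add h2
    have e : a • A + b • B = (a : ℂ) • A + (b : ℂ) • B := by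
      ext v
      simp
    show IsCompactOperator (a • A + b • B)
    rw [e]
    exact h3
  refine hs.integral_mem isClosed_setOfPred_isCompactOperator (Eventually.of_forall fun x => ?_)
    (int_rk hU κ μ)
  have h : IsCompactOperator (innerSL ℂ (U x κ)) := isCompactOperator_of_locallyCompactSpace_dom _
  exact h.clm_comp (ContinuousLinearMap.toSpanSingleton ℂ (U x κ))

private theorem inner_avg [IsFiniteMeasureOnCompacts μ] (v w : H) :
    ⟪w, avg μ U κ v⟫_ℂ = ∫ x, ⟪U x κ, v⟫_ℂ * ⟪w, U x κ⟫_ℂ ∂μ := by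
  rw [avg_apply hU, ← integral_inner (int_ap hU κ μ v)]
  simp only [inner_smul_right]

private theorem avg_symm [IsFiniteMeasureOnCompacts μ] : (avg μ U κ).IsSymmetric := by
  intro v w
  show ⟪avg μ U κ v, w⟫_ℂ = ⟪v, avg μ U κ w⟫_ℂ
  rw [← inner_conj_symm, inner_avg hU, inner_avg hU, ← integral_conj]
  refine integral_congr_ae (Eventually.of_forall fun x => ?_)
  show conj (⟪U x κ, v⟫_ℂ * ⟪w, U x κ⟫_ℂ) = ⟪U x κ, w⟫_ℂ * ⟪v, U x κ⟫_ℂ
  rw [map_mul, inner_conj_symm, inner_conj_symm, mul_comm]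

private theorem avg_comm [IsFiniteMeasureOnCompacts μ] [μ.IsMulLeftInvariant] (g : G) (v : H) :
    avg μ U κ (U g v) = U g (avg μ U κ v) := by
  rw [avg_apply hU, avg_apply hU, ← (U g).integral_comp_comm (int_ap hU κ μ v),
    ← integral_mul_left_eq_self _ g]
  refine integral_congr_ae (Eventually.of_forall fun x => ?_)
  show ⟪U (g * x) κ, U g v⟫_ℂ • U (g * x) κ = U g (⟪U x κ, v⟫_ℂ • U x κ)
  rw [hU.mul, hU.inn, map_smul]

private theorem avg_ker [IsFiniteMeasureOnCompacts μ] [μ.IsOpenPosMeasure] (v : H)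
    (hv : avg μ U κ v = 0) : ⟪κ, v⟫_ℂ = 0 := by
  by_contra hne
  have h1 := inner_avg hU κ μ v v
  rw [hv, inner_zero_right] at h1
  have hc : Continuous fun x => ‖⟪U x κ, v⟫_ℂ‖ ^ 2 :=
    ((hU.cont κ).inner continuous_const).norm.pow 2
  have h2 : 0 < ∫ x, ‖⟪U x κ, v⟫_ℂ‖ ^ 2 ∂μ := by
    refine hc.integral_pos_of_hasCompactSupport_nonneg_nonzero
      (HasCompactSupport.of_compactSpace _) (fun x => sq_nonneg _) (x := (1 : G)) ?_
    show ‖⟪U 1 κ, v⟫_ℂ‖ ^ 2 ≠ 0
    rw [hU.one]
    exact pow_ne_zero 2 (norm_ne_zero_iff.2 hne)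
  have h3 : (((∫ x, ‖⟪U x κ, v⟫_ℂ‖ ^ 2 ∂μ : ℝ)) : ℂ) =
      ∫ x, ⟪U x κ, v⟫_ℂ * ⟪v, U x κ⟫_ℂ ∂μ := by
    rw [← integral_complex_ofReal]
    refine integral_congr_ae (Eventually.of_forall fun x => ?_)
    show ((‖⟪U x κ, v⟫_ℂ‖ ^ 2 : ℝ) : ℂ) = ⟪U x κ, v⟫_ℂ * ⟪v, U x κ⟫_ℂ
    rw [← inner_conj_symm v, Complex.mul_conj, Complex.normSq_eq_norm_sq]
  rw [← h1] at h3
  have h4 : (∫ x, ‖⟪U x κ, v⟫_ℂ‖ ^ 2 ∂μ : ℝ) = 0 := by exact_mod_cast h3
  exact h2.ne' h4

omit [MeasurableSpace G] [BorelSpace G] in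
/-- If `U g` moves `κ` then it is not trivial on some finite dimensional invariant subspace. -/
theorem exists_fin {g : G} (hg : U g κ ≠ κ) :
    ∃ V : Submodule ℂ H, FiniteDimensional ℂ V ∧ (∀ x, ∀ v ∈ V, U x v ∈ V) ∧
      ∃ v ∈ V, U g v ≠ v := by
  borelize G
  set μ : Measure G := Measure.haarMeasure ⊤ with hμ
  have hp : IsProbabilityMeasure μ :=
    ⟨by have := Measure.haarMeasure_self (G := G) (K₀ := ⊤); simpa using this⟩
  by_contra hcon
  push Not at hcon
  set S := avg μ U κ with hS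
  have hcomp : IsCompactOperator S := avg_compact hU κ μ
  have hsym : S.IsSymmetric := avg_symm hU κ μ
  have htriv : ∀ l : ℂ, l ≠ 0 → ∀ v, S v = l • v → U g v = v := by
    intro l hl v hv
    have hfin := ContinuousLinearMap.finite_dimensional_eigenspace hcomp l hl
    refine hcon (Module.End.eigenspace S.toLinearMap l) hfin ?_ v ?_
    · intro x w hw
      rw [Module.End.mem_eigenspace_iff] at hw ⊢
      have hw' : S w = l • w := hw
      show S (U x w) = l • U x w
      rw [hS, avg_comm hU κ μ, ← hS, hw', map_smul]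
    · rw [Module.End.mem_eigenspace_iff]
      exact hv
  -- the fixed vectors of `U g` and the kernel of `S`
  set W : Submodule ℂ H := LinearMap.ker ((U g - ContinuousLinearMap.id ℂ H : H →L[ℂ] H) : H →ₗ[ℂ] H)
    with hW
  have hWm : ∀ v, v ∈ W ↔ U g v = v := by
    intro v
    rw [hW, LinearMap.mem_ker]
    show U g v - v = 0 ↔ _
    exact sub_eq_zero
  have hWc : IsClosed (W : Set H) := (U g - ContinuousLinearMap.id ℂ H).isClosed_ker
  set N : Submodule ℂ H := LinearMap.ker (S : H →ₗ[ℂ] H) with hN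
  have hNm : ∀ v, v ∈ N ↔ S v = 0 := fun v => LinearMap.mem_ker
  have hNc : IsClosed (N : Set H) := S.isClosed_ker
  have i1 : CompleteSpace W := hWc.completeSpace_coe
  have i2 : CompleteSpace N := hNc.completeSpace_coe
  obtain ⟨w, hw, w', hw', hκ⟩ : ∃ w ∈ W, ∃ w' ∈ Wᗮ, κ = w + w' :=
    ⟨_, (W.starProjection_apply_mem κ), _, W.sub_starProjection_mem_orthogonal κ, by abel⟩
  obtain ⟨a, ha, a', ha', hwa⟩ : ∃ a ∈ N, ∃ a' ∈ Nᗮ, w' = a + a' :=
    ⟨_, (N.starProjection_apply_mem w'), _, N.sub_starProjection_mem_orthogonal w', by abel⟩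
  have hbot := ContinuousLinearMap.orthogonalComplement_iSup_eigenspaces_eq_bot hcomp hsym
  have ha0 : a' = 0 := by
    have h1 : a' ∈ (⨆ l, Module.End.eigenspace (S : Module.End ℂ H) l)ᗮ := by
      rw [← Submodule.iInf_orthogonal, Submodule.mem_iInf]
      intro l
      rw [Submodule.mem_orthogonal]
      intro u hu
      have hu' : S u = l • u := (Module.End.mem_eigenspace_iff).1 hu
      by_cases hl : l = 0
      · rw [hl, zero_smul] at hu'
        exact (Submodule.mem_orthogonal N a').1 ha' u ((hNm u).2 hu')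
      · have h2 : ⟪u, w'⟫_ℂ = 0 :=
          (Submodule.mem_orthogonal W w').1 hw' u ((hWm u).2 (htriv l hl u hu'))
        have h3 : ⟪u, a⟫_ℂ = 0 := by
          have h4 : ⟪S u, a⟫_ℂ = ⟪u, S a⟫_ℂ := hsym u a
          rw [(hNm a).1 ha, inner_zero_right, hu', inner_smul_left] at h4
          exact (mul_eq_zero.1 h4).resolve_left
            ((map_ne_zero (starRingEnd ℂ)).2 hl)
        rw [hwa, inner_add_right, h3, zero_add] at h2
        exact h2
    rw [hbot] at h1
    exact (Submodule.mem_bot ℂ).1 h1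
  have hS0 : S w' = 0 := by
    rw [hwa, ha0, add_zero]
    exact (hNm a).1 ha
  have h1 := avg_ker hU κ μ w' hS0
  rw [hκ, inner_add_left, (Submodule.mem_orthogonal W w').1 hw' w hw, zero_add,
    inner_self_eq_zero] at h1
  apply hg
  rw [hκ, h1, add_zero]
  exact (hWm w).1 hw

end

end Pool.Agent.Lib.MP_9fe581_an.HD
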