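import Pool.Agent.Lib.MP_9fe581_an.HD.GDefs
import Pool.Agent.Lib.MP_9fe581_an.HD.PWa

/-!
# HD: Peter - Weyl, separation form: finite dimensional unitary representations separate the points of a compact group

`exists_fin` (PWa) for the left regular representation on `L2` of the Haar measure (`DomMulAct`), `κ` a continuous
function with `κ 1 = 1`, `κ g⁻¹ = 0`; an orthonormal basis of the finite dimensional invariant subspace.
-/

open Finset MeasureTheory Filter Topology
open scoped ComplexConjugate Matrix InnerProductSpace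

namespace Pool.Agent.Lib.MP_9fe581_an.HD

/-- The matrices of a unitary representation on a finite dimensional invariant subspace. -/
theorem pw_matrix {G H : Type} [Group G] [TopologicalSpace G] [NormedAddCommGroup H]
    [InnerProductSpace ℂ H] {U : G → H →L[ℂ] H} (hU : HRep U) (V : Submodule ℂ H)
    (hV : FiniteDimensional ℂ V) (hinv : ∀ x, ∀ v ∈ V, U x v ∈ V) {g : G} {v : H} (hv : v ∈ V)
    (hgv : U g v ≠ v) :
    ∃ (n : ℕ) (π : G → Matrix (Fin n) (Fin n) ℂ), URep π ∧ π g ≠ 1 := by
  set b := stdOrthonormalBasis ℂ V with hb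
  set π : G → Matrix (Fin (Module.finrank ℂ V)) (Fin (Module.finrank ℂ V)) ℂ :=
    fun x => Matrix.of fun i j => ⟪(b i : H), U x (b j : H)⟫_ℂ with hπ
  have hsum : ∀ w ∈ V, w = ∑ k, ⟪(b k : H), w⟫_ℂ • (b k : H) := by
    intro w hw
    have h1 := b.sum_repr' ⟨w, hw⟩
    have h2 := congrArg (fun z : V => (z : H)) h1
    simp only [Submodule.coe_sum, Submodule.coe_smul, Submodule.coe_inner] at h2
    exact h2.symm
  have hort : ∀ i j, ⟪(b i : H), (b j : H)⟫_ℂ = if i = j then 1 else 0 := by
    intro i j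
    have h1 := orthonormal_iff_ite.1 b.orthonormal i j
    rwa [Submodule.coe_inner] at h1
  have hone : π 1 = 1 := by
    ext i j
    show ⟪(b i : H), U 1 (b j : H)⟫_ℂ = _
    rw [hU.one, hort, Matrix.one_apply]
  have hmul : ∀ x y, π (x * y) = π x * π y := by
    intro x y
    ext i j
    rw [Matrix.mul_apply]
    show ⟪(b i : H), U (x * y) (b j : H)⟫_ℂ =
      ∑ k, ⟪(b i : H), U x (b k : H)⟫_ℂ * ⟪(b k : H), U y (b j : H)⟫_ℂ
    rw [hU.mul]
    conv_lhs => rw [hsum (U y (b j : H)) (hinv y _ (b j).2)]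
    rw [map_sum, inner_sum]
    refine Finset.sum_congr rfl fun k _ => ?_
    rw [map_smul, inner_smul_right, mul_comm]
  refine ⟨_, π, ⟨?_, hone, hmul, ?_⟩, ?_⟩
  · refine continuous_matrix fun i j => ?_
    exact continuous_const.inner (hU.cont _)
  · intro x
    have h1 : (π x)ᴴ = π x⁻¹ := by
      ext i j
      rw [Matrix.conjTranspose_apply]
      show conj ⟪(b j : H), U x (b i : H)⟫_ℂ = ⟪(b i : H), U x⁻¹ (b j : H)⟫_ℂ
      rw [inner_conj_symm, ← hU.inn x⁻¹, ← hU.mul, inv_mul_cancel, hU.one]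
    rw [h1, ← hmul, mul_inv_cancel, hone]
  · intro h1
    apply hgv
    have h2 : ∀ j, U g (b j : H) = (b j : H) := by
      intro j
      rw [hsum (U g (b j : H)) (hinv g _ (b j).2)]
      have h3 : ∀ k, ⟪(b k : H), U g (b j : H)⟫_ℂ = if k = j then 1 else 0 := by
        intro k
        have h4 := congrFun (congrFun h1 k) j
        rw [Matrix.one_apply] at h4
        exact h4
      simp only [h3, ite_smul, one_smul, zero_smul]
      rw [Finset.sum_ite_eq' Finset.univ j, if_pos (Finset.mem_univ j)]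
    rw [hsum v hv, map_sum]
    refine Finset.sum_congr rfl fun k _ => ?_
    rw [map_smul, h2]

theorem pw_sep {G : Type} [Group G] [TopologicalSpace G] [IsTopologicalGroup G] [CompactSpace G] [T2Space G]
    {g : G} (hg : g ≠ 1) :
    ∃ (n : ℕ) (π : G → Matrix (Fin n) (Fin n) ℂ), URep π ∧ π g ≠ 1 := by
  borelize G
  set μ : Measure G := Measure.haarMeasure ⊤ with hμ
  -- the left regular representation
  have hfact : Fact ((2 : ENNReal) ≠ ⊤) := ⟨ENNReal.ofNat_ne_top⟩
  let U₀ : G → Lp ℂ 2 μ →ₗᵢ[ℂ] Lp ℂ 2 μ := fun x =>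
    { toFun := fun f => DomMulAct.mk x⁻¹ • f
      map_add' := fun f h => smul_add _ f h
      map_smul' := fun c f => smul_comm _ c f
      norm_map' := fun f => DomMulAct.norm_smul_Lp _ f }
  let U : G → Lp ℂ 2 μ →L[ℂ] Lp ℂ 2 μ := fun x => (U₀ x).toContinuousLinearMap
  have hUa : ∀ x f, U x f = DomMulAct.mk x⁻¹ • f := fun x f => rfl
  have hU : HRep U := by
    refine ⟨fun f => ?_, fun f => ?_, fun x y f => ?_, fun x f h => ?_⟩
    · show Continuous fun x : G => DomMulAct.mk x⁻¹ • f
      exact (DomMulAct.continuous_mk.comp continuous_inv).smul continuous_const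
    · rw [hUa, inv_one, DomMulAct.mk_one, one_smul]
    · rw [hUa, hUa, hUa, mul_inv_rev, DomMulAct.mk_mul, mul_smul]
    · exact (U₀ x).inner_map_map f h
  -- the function
  obtain ⟨f, hf0, hf1, -⟩ := exists_continuous_zero_one_of_isClosed (X := G)
    (s := {g⁻¹}) (t := {1}) isClosed_singleton isClosed_singleton (by
      rw [Set.disjoint_singleton]
      exact inv_ne_one.2 hg)
  have hfc : Continuous fun x => ((f x : ℝ) : ℂ) := Complex.continuous_ofReal.comp f.continuous
  have hfL : MemLp (fun x => ((f x : ℝ) : ℂ)) 2 μ :=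
    hfc.memLp_of_hasCompactSupport (HasCompactSupport.of_compactSpace _)
  have hne : U g (hfL.toLp _) ≠ hfL.toLp _ := by
    intro h
    rw [hUa, DomMulAct.mk_smul_toLp, MemLp.toLp_eq_toLp_iff] at h
    have h1 : Continuous fun x : G => ((f (g⁻¹ • x) : ℝ) : ℂ) :=
      hfc.comp (continuous_const_smul g⁻¹)
    have h2 := (h1.ae_eq_iff_eq μ hfc).1 h
    have h3 := congrFun h2 1
    have h4 : f (g⁻¹ • (1 : G)) = 0 := by
      rw [smul_eq_mul, mul_one]
      exact hf0 rfl
    have h5 : f (1 : G) = 1 := hf1 rfl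
    simp only [h4, h5] at h3
    norm_num at h3
  obtain ⟨V, hV, hinv, v, hv, hgv⟩ := exists_fin hU _ hne
  exact pw_matrix hU V hV hinv hv hgv

end Pool.Agent.Lib.MP_9fe581_an.HD
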