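import Pool.Agent.Lib.MP_9fe581_an.HD.LamAvg
import Pool.Agent.Lib.MP_9fe581_an.HD.Cheb

/-!
# HD, module A3: averages of `a (p r)` over the primes of a dyadic block
-/

open Finset MeasureTheory Filter Topology UnitAddTorus
open scoped ComplexConjugate Matrix

namespace Pool.Agent.Lib.MP_9fe581_an.HD

theorem PrimeAvg_block (j r : ℕ) (a : ℕ → ℂ) :
    ∑ p ∈ Qb j, ((Real.log p : ℝ) : ℂ) * a (p * r) =
      ∑ n ∈ Icc 1 (2 ^ (j + 1) - 1), ((GT.lam n : ℝ) : ℂ) * a (r * n) -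
        ∑ n ∈ Icc 1 (2 ^ j - 1), ((GT.lam n : ℝ) : ℂ) * a (r * n) := by
  have h0 : 1 ≤ 2 ^ j := Nat.one_le_two_pow
  have h1 : 2 ^ (j + 1) = 2 * 2 ^ j := by ring
  have h2 : Icc 1 (2 ^ (j + 1) - 1) = Icc 1 (2 ^ j - 1) ∪ Ico (2 ^ j) (2 ^ (j + 1)) := by
    ext n
    simp only [mem_union, mem_Icc, mem_Ico]
    omega
  have h3 : Disjoint (Icc 1 (2 ^ j - 1)) (Ico (2 ^ j) (2 ^ (j + 1))) := by
    rw [Finset.disjoint_left]
    intro n hn hn'
    rw [mem_Icc] at hn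
    rw [mem_Ico] at hn'
    omega
  rw [h2, Finset.sum_union h3, add_sub_cancel_left]
  unfold Qb
  rw [Finset.sum_filter]
  refine Finset.sum_congr rfl fun n _ => ?_
  unfold GT.lam
  split_ifs
  · rw [mul_comm n r]
  · simp

theorem PrimeAvg_log (j p : ℕ) (hp : p ∈ Qb j) : |Real.log p - j * Real.log 2| ≤ 1 := by
  unfold Qb at hp
  rw [mem_filter, mem_Ico] at hp
  obtain ⟨⟨h1, h2⟩, -⟩ := hp
  have hp0 : (0 : ℝ) < p := by
    have : 0 < p := lt_of_lt_of_le (by positivity) h1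
    exact_mod_cast this
  have h3 : j * Real.log 2 ≤ Real.log p := by
    rw [← Real.log_pow]
    apply Real.log_le_log (by positivity)
    exact_mod_cast h1
  have h4 : Real.log p ≤ (j + 1) * Real.log 2 := by
    have : ((j : ℝ) + 1) * Real.log 2 = Real.log (2 ^ (j + 1)) := by
      rw [Real.log_pow]
      push_cast
      ring
    rw [this]
    apply Real.log_le_log hp0
    exact_mod_cast h2.le
  have h5 : Real.log 2 ≤ 1 := by
    have := Real.log_two_lt_d9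
    linarith
  rw [abs_le]
  constructor <;> linarith

theorem prime_avg (a : ℕ → ℂ) (C : ℝ) (hC : ∀ n, ‖a n‖ ≤ C) (hV : VN a C) (hR : NoRat a) (r : ℕ) (hr : 1 ≤ r)
    (ε : ℝ) (hε : 0 < ε) : ∃ j0 : ℕ, ∀ j ≥ j0, ‖∑ p ∈ Qb j, a (p * r)‖ ≤ ε * ((Qb j).card : ℝ) := by
  have hC0 := PrimeAvg_C_nonneg hV
  obtain ⟨c, hc, j1, hK⟩ := Qb_card
  -- choose `ε1` with `3 ε1 / (c log 2) ≤ ε / 2`
  obtain ⟨N0, h1⟩ := lam_avg a C hV hR r hr (ε * c / 12) (by positivity)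
  obtain ⟨j2, hj2⟩ := exists_nat_ge (4 * C / ε)
  refine ⟨max (N0 + 1) (max j1 (max j2 1)), fun j hj => ?_⟩
  have hjN : N0 + 1 ≤ j := (le_max_left _ _).trans hj
  have hj1 : j1 ≤ j := ((le_max_left _ _).trans (le_max_right _ _)).trans hj
  have hj2' : j2 ≤ j := ((le_max_left _ _).trans ((le_max_right _ _).trans (le_max_right _ _))).trans hj
  have hj3 : 1 ≤ j := ((le_max_right _ _).trans ((le_max_right _ _).trans (le_max_right _ _))).trans hj
  have hjR : (0 : ℝ) < j := by exact_mod_cast hj3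
  have hpow : j < 2 ^ j := Nat.lt_two_pow_self
  have hpow' : 2 ^ (j + 1) = 2 * 2 ^ j := by ring
  have hA := h1 (2 ^ (j + 1) - 1) (by omega)
  have hB := h1 (2 ^ j - 1) (by omega)
  have hcast1 : ((2 ^ (j + 1) - 1 : ℕ) : ℝ) ≤ 2 * 2 ^ j := by
    have : (2 ^ (j + 1) - 1 : ℕ) ≤ 2 * 2 ^ j := by omega
    exact_mod_cast this
  have hcast2 : ((2 ^ j - 1 : ℕ) : ℝ) ≤ 2 ^ j := by
    have : (2 ^ j - 1 : ℕ) ≤ 2 ^ j := by omega
    exact_mod_cast this
  have hlog := PrimeAvg_block j r a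
  have hD : ‖∑ p ∈ Qb j, ((Real.log p : ℝ) : ℂ) * a (p * r)‖ ≤ ε * c / 4 * 2 ^ j := by
    rw [hlog]
    have hpos : 0 ≤ ε * c / 12 := by positivity
    calc _ ≤ _ := norm_sub_le _ _
      _ ≤ ε * c / 12 * ((2 ^ (j + 1) - 1 : ℕ) : ℝ) + ε * c / 12 * ((2 ^ j - 1 : ℕ) : ℝ) :=
        add_le_add hA hB
      _ ≤ ε * c / 12 * (2 * 2 ^ j) + ε * c / 12 * 2 ^ j :=
        add_le_add (mul_le_mul_of_nonneg_left hcast1 hpos) (mul_le_mul_of_nonneg_left hcast2 hpos)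
      _ = ε * c / 4 * 2 ^ j := by ring
  have hE : ‖∑ p ∈ Qb j, ((Real.log p - j * Real.log 2 : ℝ) : ℂ) * a (p * r)‖ ≤ C * (Qb j).card := by
    calc _ ≤ ∑ p ∈ Qb j, ‖((Real.log p - j * Real.log 2 : ℝ) : ℂ) * a (p * r)‖ := norm_sum_le _ _
      _ ≤ ∑ p ∈ Qb j, C := by
        refine Finset.sum_le_sum fun p hp => ?_
        rw [norm_mul, Complex.norm_real, Real.norm_eq_abs]
        have h := PrimeAvg_log j p hp
        have h' := hC (p * r)
        calc _ ≤ 1 * C := mul_le_mul h h' (norm_nonneg _) zero_le_one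
          _ = C := one_mul C
      _ = C * (Qb j).card := by rw [Finset.sum_const, nsmul_eq_mul, mul_comm]
  have hF : ((j * Real.log 2 : ℝ) : ℂ) * ∑ p ∈ Qb j, a (p * r) =
      ∑ p ∈ Qb j, ((Real.log p : ℝ) : ℂ) * a (p * r) -
        ∑ p ∈ Qb j, ((Real.log p - j * Real.log 2 : ℝ) : ℂ) * a (p * r) := by
    rw [← Finset.sum_sub_distrib, Finset.mul_sum]
    refine Finset.sum_congr rfl fun p _ => ?_
    push_cast
    ring
  have hl2 : (1 / 2 : ℝ) ≤ Real.log 2 := by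
    have := Real.log_two_gt_d9
    linarith
  have hG : (j : ℝ) * Real.log 2 * ‖∑ p ∈ Qb j, a (p * r)‖ ≤ ε * c / 4 * 2 ^ j + C * (Qb j).card := by
    have h := congrArg norm hF
    rw [norm_mul, Complex.norm_real, Real.norm_eq_abs, abs_of_nonneg (by positivity)] at h
    rw [h]
    exact (norm_sub_le _ _).trans (add_le_add hD hE)
  have hKj := hK j hj1
  have hKj' : c * 2 ^ j ≤ (Qb j).card * j := by
    rwa [div_le_iff₀ hjR] at hKj
  have hCj : 4 * C ≤ ε * j := by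
    have : (4 * C / ε : ℝ) ≤ j := hj2.trans (by exact_mod_cast hj2')
    rw [div_le_iff₀ hε] at this
    linarith
  have hcard : (0 : ℝ) ≤ (Qb j).card := Nat.cast_nonneg _
  have hS : 0 ≤ ‖∑ p ∈ Qb j, a (p * r)‖ := norm_nonneg _
  -- `j log 2 S ≤ ε/4 K j + ε/4 j K`
  have h10 : (j : ℝ) * (1 / 2) * ‖∑ p ∈ Qb j, a (p * r)‖ ≤ ε / 4 * ((Qb j).card * j) + ε / 4 * j * (Qb j).card := by
    calc _ ≤ (j : ℝ) * Real.log 2 * ‖∑ p ∈ Qb j, a (p * r)‖ := by
          apply mul_le_mul_of_nonneg_right _ hS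
          exact mul_le_mul_of_nonneg_left hl2 hjR.le
      _ ≤ _ := hG
      _ ≤ ε / 4 * ((Qb j).card * j) + ε / 4 * j * (Qb j).card := by
          have h11 : ε * c / 4 * 2 ^ j ≤ ε / 4 * ((Qb j).card * j) := by
            have : ε * c / 4 * 2 ^ j = ε / 4 * (c * 2 ^ j) := by ring
            rw [this]
            exact mul_le_mul_of_nonneg_left hKj' (by positivity)
          have h12 : C * (Qb j).card ≤ ε / 4 * j * (Qb j).card := by
            apply mul_le_mul_of_nonneg_right _ hcard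
            linarith
          linarith
  have h13 : (j : ℝ) * ((1 / 2) * ‖∑ p ∈ Qb j, a (p * r)‖) ≤ j * (ε / 2 * (Qb j).card) := by
    linarith
  have h14 := le_of_mul_le_mul_left h13 hjR
  linarith

end Pool.Agent.Lib.MP_9fe581_an.HD
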