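import Pool.Agent.Lib.MP_9fe581_an.HD.NonErg
import Pool.Agent.Lib.DN.PWDefs
import Pool.Agent.Lib.MP_45349e_nt.LS.LamB

set_option autoImplicit false

/-!
# From `λχ` to `μ(n) w^n` with a root of unity `w` on short intervals
-/

namespace Pool.Agent.Lib.MP_9fe581_an.HD

open Finset
open Pool.Agent.Lib.MP_45349e_nt.LS (lam lam_mul lam_one)
open Pool.Agent.Lib.DN (lc)

/-- short sums of `F` are small on average -/
def SO (F : ℕ → ℂ) : Prop := ∀ η : ℝ, 0 < η → ∃ L0 : ℕ, ∀ L ≥ L0, ∃ N0 : ℕ, ∀ N ≥ N0,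
  ∑ n ∈ Icc 1 N, ‖∑ l ∈ range L, F (n + l)‖ ≤ η * L * N

theorem so_congr {F G : ℕ → ℂ} (h : ∀ n, 1 ≤ n → F n = G n) (hF : SO F) : SO G := by
  intro η hη
  obtain ⟨L0, h0⟩ := hF η hη
  refine ⟨L0, fun L hL => ?_⟩
  obtain ⟨N0, h1⟩ := h0 L hL
  refine ⟨N0, fun N hN => ?_⟩
  refine le_trans (le_of_eq ?_) (h1 N hN)
  refine sum_congr rfl fun n hn => ?_
  rw [mem_Icc] at hn
  congr 1
  exact sum_congr rfl fun l _ => (h (n + l) (by omega)).symm

theorem so_zero : SO fun _ => 0 := by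
  intro η hη
  refine ⟨0, fun L _ => ⟨0, fun N _ => ?_⟩⟩
  simp only [sum_const_zero, norm_zero]
  positivity

theorem so_add {F G : ℕ → ℂ} (hF : SO F) (hG : SO G) : SO fun n => F n + G n := by
  intro η hη
  obtain ⟨L1, h1⟩ := hF (η / 2) (by positivity)
  obtain ⟨L2, h2⟩ := hG (η / 2) (by positivity)
  refine ⟨max L1 L2, fun L hL => ?_⟩
  obtain ⟨N1, h3⟩ := h1 L ((le_max_left _ _).trans hL)
  obtain ⟨N2, h4⟩ := h2 L ((le_max_right _ _).trans hL)
  refine ⟨max N1 N2, fun N hN => ?_⟩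
  have h5 := h3 N ((le_max_left _ _).trans hN)
  have h6 := h4 N ((le_max_right _ _).trans hN)
  calc ∑ n ∈ Icc 1 N, ‖∑ l ∈ range L, (F (n + l) + G (n + l))‖
      ≤ ∑ n ∈ Icc 1 N, (‖∑ l ∈ range L, F (n + l)‖ + ‖∑ l ∈ range L, G (n + l)‖) := by
        refine sum_le_sum fun n _ => ?_
        rw [sum_add_distrib]
        exact norm_add_le _ _
    _ ≤ η * L * N := by
        rw [sum_add_distrib]
        linarith

theorem so_smul {F : ℕ → ℂ} (c : ℂ) (hF : SO F) : SO fun n => c * F n := by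
  intro η hη
  obtain ⟨L1, h1⟩ := hF (η / (‖c‖ + 1)) (by positivity)
  refine ⟨L1, fun L hL => ?_⟩
  obtain ⟨N1, h2⟩ := h1 L hL
  refine ⟨N1, fun N hN => ?_⟩
  have h3 := h2 N hN
  calc ∑ n ∈ Icc 1 N, ‖∑ l ∈ range L, c * F (n + l)‖
      = ‖c‖ * ∑ n ∈ Icc 1 N, ‖∑ l ∈ range L, F (n + l)‖ := by
        rw [mul_sum]
        refine sum_congr rfl fun n _ => ?_
        rw [← mul_sum, norm_mul]
    _ ≤ ‖c‖ * (η / (‖c‖ + 1) * L * N) := mul_le_mul_of_nonneg_left h3 (norm_nonneg c)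
    _ = ‖c‖ / (‖c‖ + 1) * (η * L * N) := by ring
    _ ≤ 1 * (η * L * N) := by
        refine mul_le_mul_of_nonneg_right ?_ (by positivity)
        rw [div_le_one (by positivity)]
        linarith
    _ = η * L * N := one_mul _

theorem so_sum {ι : Type} (I : Finset ι) (F : ι → ℕ → ℂ) (h : ∀ i ∈ I, SO (F i)) :
    SO fun n => ∑ i ∈ I, F i n := by
  classical
  induction I using Finset.induction_on with
  | empty => simpa using so_zero
  | insert a s ha ih =>
    have h1 := so_add (h a (mem_insert_self a s)) (ih fun i hi => h i (mem_insert_of_mem hi))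
    refine so_congr (fun n _ => ?_) h1
    rw [sum_insert ha]

/-- approximation in density -/
theorem so_lim {F : ℕ → ℂ} (h : ∀ ε : ℝ, 0 < ε → ∃ G : ℕ → ℂ, SO G ∧ ∃ N0 : ℕ, ∀ N ≥ N0,
    ∑ n ∈ Icc 1 N, ‖F n - G n‖ ≤ ε * N) : SO F := by
  intro η hη
  obtain ⟨G, hG, M0, hM⟩ := h (η / 4) (by positivity)
  obtain ⟨L1, h1⟩ := hG (η / 2) (by positivity)
  refine ⟨L1, fun L hL => ?_⟩
  obtain ⟨N1, h2⟩ := h1 L hL
  refine ⟨max N1 (max M0 L), fun N hN => ?_⟩
  have h3 := h2 N ((le_max_left _ _).trans hN)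
  have hNM : M0 ≤ N := (le_max_left _ _).trans ((le_max_right _ _).trans hN)
  have hNL : L ≤ N := (le_max_right _ _).trans ((le_max_right _ _).trans hN)
  have h4 : ∀ l ∈ range L, ∑ n ∈ Icc 1 N, ‖F (n + l) - G (n + l)‖ ≤ η / 4 * (2 * N) := by
    intro l hl
    rw [mem_range] at hl
    calc ∑ n ∈ Icc 1 N, ‖F (n + l) - G (n + l)‖
        = ∑ n ∈ (Icc 1 N).image (fun n => n + l), ‖F n - G n‖ := by
          rw [sum_image fun a _ b _ hab => Nat.add_right_cancel hab]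
      _ ≤ ∑ n ∈ Icc 1 (N + l), ‖F n - G n‖ := by
          refine sum_le_sum_of_subset_of_nonneg (fun m hm => ?_) fun _ _ _ => norm_nonneg _
          rw [mem_image] at hm
          obtain ⟨n, hn, rfl⟩ := hm
          rw [mem_Icc] at hn ⊢
          omega
      _ ≤ η / 4 * ((N + l : ℕ) : ℝ) := hM (N + l) (by omega)
      _ ≤ η / 4 * (2 * N) := by
          refine mul_le_mul_of_nonneg_left ?_ (by positivity)
          have : ((N + l : ℕ) : ℝ) ≤ ((2 * N : ℕ) : ℝ) := by exact_mod_cast (by omega)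
          push_cast at this ⊢
          linarith
  calc ∑ n ∈ Icc 1 N, ‖∑ l ∈ range L, F (n + l)‖
      ≤ ∑ n ∈ Icc 1 N, (‖∑ l ∈ range L, G (n + l)‖ + ∑ l ∈ range L, ‖F (n + l) - G (n + l)‖) := by
        refine sum_le_sum fun n _ => ?_
        have h5 : ∑ l ∈ range L, F (n + l) = ∑ l ∈ range L, G (n + l) +
            ∑ l ∈ range L, (F (n + l) - G (n + l)) := by
          rw [← sum_add_distrib]
          exact sum_congr rfl fun l _ => by ring
        rw [h5]
        exact (norm_add_le _ _).trans (add_le_add le_rfl (norm_sum_le _ _))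
    _ = ∑ n ∈ Icc 1 N, ‖∑ l ∈ range L, G (n + l)‖ +
        ∑ l ∈ range L, ∑ n ∈ Icc 1 N, ‖F (n + l) - G (n + l)‖ := by
        rw [sum_add_distrib, sum_comm (s := Icc 1 N) (t := range L)]
    _ ≤ η / 2 * L * N + ∑ _l ∈ range L, η / 4 * (2 * N) := add_le_add h3 (sum_le_sum h4)
    _ = η * L * N := by
        rw [sum_const, card_range, nsmul_eq_mul]
        ring

private theorem rat_union (A B : Finset ℕ) (g : ℕ → ℝ) (hg : ∀ n, 0 ≤ g n) :
    ∑ n ∈ A ∪ B, g n ≤ ∑ n ∈ A, g n + ∑ n ∈ B, g n := by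
  have h1 := sum_union_inter (s₁ := A) (s₂ := B) (f := g)
  have h2 : 0 ≤ ∑ n ∈ A ∩ B, g n := sum_nonneg fun n _ => hg n
  linarith

/-- from dyadic blocks to all `n ≤ N` -/
theorem so_of_dyadic {F : ℕ → ℂ} (hF : ∀ n, ‖F n‖ ≤ 1)
    (h : ∀ η : ℝ, 0 < η → ∃ L0 : ℕ, ∀ L ≥ L0, ∃ X0 : ℕ, ∀ X ≥ X0,
      ∑ n ∈ Ioc X (2 * X), ‖∑ l ∈ range L, F (n + l)‖ ≤ η * L * X) : SO F := by
  intro η hη
  obtain ⟨L0, h0⟩ := h (η / 4) (by positivity)
  refine ⟨L0, fun L hL => ?_⟩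
  obtain ⟨X0, h1⟩ := h0 L hL
  have hb : ∀ n, ‖∑ l ∈ range L, F (n + l)‖ ≤ L := by
    intro n
    refine (norm_sum_le _ _).trans ?_
    refine (sum_le_sum fun l _ => hF (n + l)).trans ?_
    simp
  obtain ⟨M, hM⟩ : ∃ M : ℕ, M = 2 * X0 + 2 + ⌈8 / η⌉₊ := ⟨_, rfl⟩
  have hMη : 8 / η ≤ M := by
    have h2 := Nat.le_ceil (8 / η)
    have h3 : ((⌈8 / η⌉₊ : ℕ) : ℝ) ≤ M := by
      rw [hM]
      exact_mod_cast (by omega)
    linarith
  have hclaim : ∀ N : ℕ, ∑ n ∈ Icc 1 N, ‖∑ l ∈ range L, F (n + l)‖ ≤ η / 2 * L * N + L * M := by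
    intro N
    induction N using Nat.strong_induction_on with
    | _ N ih =>
      by_cases hN : N < M
      · calc ∑ n ∈ Icc 1 N, ‖∑ l ∈ range L, F (n + l)‖ ≤ ∑ _n ∈ Icc 1 N, (L : ℝ) :=
              sum_le_sum fun n _ => hb n
          _ = N * L := by
              rw [sum_const, Nat.card_Icc, nsmul_eq_mul, Nat.add_sub_cancel]
          _ ≤ η / 2 * L * N + L * M := by
              have h2 : (N : ℝ) ≤ M := by exact_mod_cast hN.le
              have h3 : 0 ≤ η / 2 * L * N := by positivity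
              have h4 : (N : ℝ) * L ≤ M * L := mul_le_mul_of_nonneg_right h2 (Nat.cast_nonneg _)
              linarith
      · push Not at hN
        obtain ⟨X, hX⟩ : ∃ X : ℕ, X = N / 2 := ⟨_, rfl⟩
        have hXN : X < N := by omega
        have hX0 : X0 ≤ X := by omega
        have h2 := ih X hXN
        have h3 := h1 X hX0
        have hsub : Icc 1 N ⊆ (Icc 1 X ∪ Ioc X (2 * X)) ∪ {N} := by
          intro n hn
          rw [mem_Icc] at hn
          rw [mem_union, mem_union, mem_Icc, mem_Ioc, mem_singleton]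
          omega
        have h4 : ∑ n ∈ Icc 1 N, ‖∑ l ∈ range L, F (n + l)‖ ≤
            ∑ n ∈ Icc 1 X, ‖∑ l ∈ range L, F (n + l)‖ +
              ∑ n ∈ Ioc X (2 * X), ‖∑ l ∈ range L, F (n + l)‖ + L := by
          refine (sum_le_sum_of_subset_of_nonneg hsub fun _ _ _ => norm_nonneg _).trans ?_
          refine (rat_union _ _ _ fun _ => norm_nonneg _).trans ?_
          refine add_le_add (rat_union _ _ _ fun _ => norm_nonneg _) ?_
          rw [sum_singleton]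
          exact hb N
        have h5 : (X : ℝ) ≤ N / 2 := by
          rw [hX]
          exact Nat.cast_div_le
        have h6 : (8 / η : ℝ) ≤ N := hMη.trans (by exact_mod_cast hN)
        have h7 : (L : ℝ) ≤ η / 8 * L * N := by
          rw [div_le_iff₀ hη] at h6
          have h8 : (0 : ℝ) ≤ L := Nat.cast_nonneg L
          nlinarith
        have h8 : (0 : ℝ) ≤ L := Nat.cast_nonneg L
        have h9 : η * L * X ≤ η * L * (N / 2) := mul_le_mul_of_nonneg_left h5 (by positivity)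
        nlinarith
  refine ⟨⌈2 * M / η⌉₊, fun N hN => ?_⟩
  refine (hclaim N).trans ?_
  have h2 : 2 * (M : ℝ) / η ≤ N := (Nat.le_ceil _).trans (by exact_mod_cast hN)
  rw [div_le_iff₀ hη] at h2
  have h3 : (0 : ℝ) ≤ L := Nat.cast_nonneg L
  nlinarith

/-- the sum over the multiples of `d` of an interval -/
theorem rat_mult (d : ℕ) (hd : 0 < d) (n L : ℕ) (F : ℕ → ℂ) :
    ∑ l ∈ range L, (if d ∣ n + l then F ((n + l) / d) else 0) =
      ∑ m ∈ Ico ((n + d - 1) / d) ((n + L + d - 1) / d), F m := by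
  have h1 : ∑ l ∈ range L, (if d ∣ n + l then F ((n + l) / d) else 0) =
      ∑ m ∈ Ico n (n + L), (if d ∣ m then F (m / d) else 0) := by
    rw [sum_Ico_eq_sum_range, Nat.add_sub_cancel_left]
  rw [h1, ← sum_filter]
  symm
  refine sum_bij (fun m _ => d * m) ?_ ?_ ?_ ?_
  · intro m hm
    rw [mem_Ico] at hm
    rw [mem_filter, mem_Ico]
    refine ⟨⟨?_, ?_⟩, Dvd.intro m rfl⟩
    · have h2 := (Nat.div_le_iff_le_mul_add_pred hd).1 hm.1
      omega
    · have h2 := hm.2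
      rw [Nat.lt_div_iff_mul_lt hd] at h2
      have h3 : m * d = d * m := mul_comm m d
      omega
  · intro m _ m' _ h
    exact Nat.eq_of_mul_eq_mul_left hd h
  · intro x hx
    rw [mem_filter, mem_Ico] at hx
    obtain ⟨⟨h2, h3⟩, ⟨m, rfl⟩⟩ := hx
    refine ⟨m, ?_, rfl⟩
    rw [mem_Ico]
    constructor
    · rw [Nat.div_le_iff_le_mul_add_pred hd]
      omega
    · rw [Nat.lt_div_iff_mul_lt hd]
      have h4 : m * d = d * m := mul_comm m d
      omega
  · intro m _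
    rw [Nat.mul_div_cancel_left m hd]

/-- dilation -/
theorem so_dil {F : ℕ → ℂ} (hb : ∀ n, ‖F n‖ ≤ 1) (hF : SO F) (d : ℕ) (hd : 0 < d) :
    SO fun n => if d ∣ n then F (n / d) else 0 := by
  intro η hη
  have hdr : (0 : ℝ) < d := by exact_mod_cast hd
  have hd1 : (1 : ℝ) ≤ d := by exact_mod_cast hd
  obtain ⟨L1, h1⟩ := hF (η / 8) (by positivity)
  refine ⟨max (d * (L1 + 1)) (⌈4 / η⌉₊ + 1), fun L hL => ?_⟩
  have hL1 : d * (L1 + 1) ≤ L := (le_max_left _ _).trans hL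
  have hLη : 4 / η ≤ L := by
    have h2 : ⌈4 / η⌉₊ ≤ L := by
      have := (le_max_right _ _).trans hL
      omega
    exact (Nat.le_ceil _).trans (by exact_mod_cast h2)
  have hL' : L1 ≤ L / d := by
    rw [Nat.le_div_iff_mul_le hd]
    nlinarith
  obtain ⟨N1, h2⟩ := h1 (L / d) hL'
  refine ⟨d * (N1 + 1) + 1, fun N hN => ?_⟩
  -- one window
  have hwin : ∀ n, ‖∑ l ∈ range L, (if d ∣ n + l then F ((n + l) / d) else 0)‖ ≤
      ‖∑ k ∈ range (L / d), F ((n + d - 1) / d + k)‖ + 1 := by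
    intro n
    rw [rat_mult d hd]
    obtain ⟨a, ha⟩ : ∃ a, a = (n + d - 1) / d := ⟨_, rfl⟩
    obtain ⟨b, hb'⟩ : ∃ b, b = (n + L + d - 1) / d := ⟨_, rfl⟩
    rw [← ha, ← hb']
    have h3 : a + L / d ≤ b := by
      rw [ha, hb']
      have h4 : (n + d - 1) / d + L / d ≤ (n + d - 1 + L) / d := Nat.div_add_div_le_add_div
      have h5 : n + d - 1 + L = n + L + d - 1 := by omega
      rw [h5] at h4
      exact h4
    have h4 : b ≤ a + L / d + 1 := by
      rw [ha, hb']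
      have h5 : n + L + d - 1 = (n + d - 1) + L := by omega
      rw [h5]
      rw [Nat.add_div hd]
      split_ifs <;> omega
    have h5 : ∑ m ∈ Ico a b, F m = ∑ k ∈ range (L / d), F (a + k) +
        ∑ m ∈ Ico (a + L / d) b, F m := by
      rw [← sum_Ico_consecutive F (Nat.le_add_right a (L / d)) h3, sum_Ico_eq_sum_range,
        Nat.add_sub_cancel_left]
    rw [h5]
    refine (norm_add_le _ _).trans (add_le_add le_rfl ?_)
    refine (norm_sum_le _ _).trans ?_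
    refine (sum_le_sum fun m _ => hb m).trans ?_
    rw [sum_const, Nat.card_Ico, nsmul_eq_mul, mul_one]
    exact_mod_cast (by omega : b - (a + L / d) ≤ 1)
  -- each window of `m` is used at most `d` times
  have hcount : ∑ n ∈ Icc 1 N, ‖∑ k ∈ range (L / d), F ((n + d - 1) / d + k)‖ ≤
      d * ∑ m ∈ Icc 1 (N / d + 1), ‖∑ k ∈ range (L / d), F (m + k)‖ := by
    have hmaps : ∀ n ∈ Icc 1 N, (n + d - 1) / d ∈ Icc 1 (N / d + 1) := by
      intro n hn
      rw [mem_Icc] at hn ⊢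
      constructor
      · rw [Nat.le_div_iff_mul_le hd]
        omega
      · calc (n + d - 1) / d ≤ (N + d) / d := Nat.div_le_div_right (by omega)
          _ = N / d + 1 := Nat.add_div_right N hd
    rw [← sum_fiberwise_of_maps_to hmaps, mul_sum]
    refine sum_le_sum fun m _ => ?_
    have h3 : ∀ n ∈ (Icc 1 N).filter (fun n => (n + d - 1) / d = m),
        ‖∑ k ∈ range (L / d), F ((n + d - 1) / d + k)‖ = ‖∑ k ∈ range (L / d), F (m + k)‖ := by
      intro n hn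
      rw [(mem_filter.1 hn).2]
    rw [sum_congr rfl h3, sum_const, nsmul_eq_mul]
    refine mul_le_mul_of_nonneg_right ?_ (norm_nonneg _)
    have h4 : ((Icc 1 N).filter fun n => (n + d - 1) / d = m).card ≤ (Ioc (d * m - d) (d * m)).card := by
      refine card_le_card fun n hn => ?_
      rw [mem_filter, mem_Icc] at hn
      rw [mem_Ioc]
      have h5 := Nat.div_add_mod (n + d - 1) d
      have h6 := Nat.mod_lt (n + d - 1) hd
      rw [hn.2] at h5
      omega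
    rw [Nat.card_Ioc] at h4
    exact_mod_cast (by omega : ((Icc 1 N).filter fun n => (n + d - 1) / d = m).card ≤ d)
  have hN1 : N1 ≤ N / d + 1 := by
    have : N1 + 1 ≤ N / d := by
      rw [Nat.le_div_iff_mul_le hd]
      nlinarith
    omega
  have h3 := h2 (N / d + 1) hN1
  have hNd : ((N / d + 1 : ℕ) : ℝ) ≤ 2 * (N / d) := by
    have h4 : ((N / d : ℕ) : ℝ) ≤ N / d := Nat.cast_div_le
    have h5 : (1 : ℝ) ≤ N / d := by
      rw [le_div_iff₀ hdr, one_mul]
      exact_mod_cast (by nlinarith : d ≤ N)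
    push_cast at h4 ⊢
    linarith
  have hLd : ((L / d : ℕ) : ℝ) ≤ L := by
    have h4 : ((L / d : ℕ) : ℝ) ≤ L / d := Nat.cast_div_le
    exact h4.trans (div_le_self (Nat.cast_nonneg _) hd1)
  calc ∑ n ∈ Icc 1 N, ‖∑ l ∈ range L, (if d ∣ n + l then F ((n + l) / d) else 0)‖
      ≤ ∑ n ∈ Icc 1 N, (‖∑ k ∈ range (L / d), F ((n + d - 1) / d + k)‖ + 1) :=
        sum_le_sum fun n _ => hwin n
    _ = ∑ n ∈ Icc 1 N, ‖∑ k ∈ range (L / d), F ((n + d - 1) / d + k)‖ + N := by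
        rw [sum_add_distrib, sum_const, Nat.card_Icc, nsmul_eq_mul, mul_one, Nat.add_sub_cancel]
    _ ≤ d * (η / 8 * L * (2 * (N / d))) + N := by
        refine add_le_add ?_ le_rfl
        refine hcount.trans (mul_le_mul_of_nonneg_left (h3.trans ?_) hdr.le)
        have h4 : (0 : ℝ) ≤ L := Nat.cast_nonneg L
        calc η / 8 * ((L / d : ℕ) : ℝ) * ((N / d + 1 : ℕ) : ℝ)
            ≤ η / 8 * L * ((N / d + 1 : ℕ) : ℝ) := by gcongr
          _ ≤ η / 8 * L * (2 * (N / d)) := mul_le_mul_of_nonneg_left hNd (by positivity)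
    _ ≤ η * L * N := by
        rw [div_le_iff₀ hη] at hLη
        have h4 : (0 : ℝ) ≤ N := Nat.cast_nonneg N
        have h5 : (d : ℝ) * (η / 8 * L * (2 * (N / d))) = η / 4 * L * N := by
          field_simp
          ring
        rw [h5]
        nlinarith

/-- expansion of a function of the reduced residue classes in characters -/
theorem rat_char {q : ℕ} [NeZero q] (ψ : ZMod q → ℂ) (b : ZMod q) :
    ∑ χ : DirichletCharacter ℂ q, ((q.totient : ℂ)⁻¹ *
      ∑ a ∈ univ.filter (fun a : ZMod q => IsUnit a), ψ a * χ a⁻¹) * χ b =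
      if IsUnit b then ψ b else 0 := by
  have hφ : (q.totient : ℂ) ≠ 0 := by
    have := Nat.totient_pos.2 (NeZero.pos q)
    exact_mod_cast this.ne'
  have h1 : ∀ χ : DirichletCharacter ℂ q, ((q.totient : ℂ)⁻¹ *
      ∑ a ∈ univ.filter (fun a : ZMod q => IsUnit a), ψ a * χ a⁻¹) * χ b =
      ∑ a ∈ univ.filter (fun a : ZMod q => IsUnit a), (q.totient : ℂ)⁻¹ * ψ a * (χ a⁻¹ * χ b) := by
    intro χ
    rw [mul_sum, sum_mul]
    exact sum_congr rfl fun a _ => by ring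
  simp only [h1]
  rw [sum_comm]
  have h2 : ∀ a ∈ univ.filter (fun a : ZMod q => IsUnit a),
      ∑ χ : DirichletCharacter ℂ q, (q.totient : ℂ)⁻¹ * ψ a * (χ a⁻¹ * χ b) =
        if a = b then ψ a else 0 := by
    intro a ha
    rw [← mul_sum, DirichletCharacter.sum_char_inv_mul_char_eq ℂ (mem_filter.1 ha).2 b]
    split_ifs
    · field_simp
    · rw [mul_zero]
  rw [sum_congr rfl h2, sum_ite_eq' (univ.filter fun a : ZMod q => IsUnit a) b ψ]
  simp only [mem_filter, mem_univ, true_and]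

theorem rat_norm_lam (n : ℕ) : ‖((lam n : ℝ) : ℂ)‖ = 1 := by
  rw [Complex.norm_real]
  unfold lam
  rw [norm_pow, norm_neg, norm_one, one_pow]

theorem rat_lam_sq (n : ℕ) : lam n * lam n = 1 := by
  unfold lam
  rw [← mul_pow]
  norm_num

theorem rat_norm_w {q : ℕ} (hq : 0 < q) {w : ℂ} (hw : w ^ q = 1) : ‖w‖ = 1 :=
  Complex.norm_eq_one_of_pow_eq_one hw hq.ne'

/-- the coprime part -/
theorem so_cop (H : ∀ (q : ℕ) [NeZero q] (χ : DirichletCharacter ℂ q), SO (lc χ)) {q g : ℕ}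
    (hq : 0 < q) (hg : g ∣ q) {w : ℂ} (hw : w ^ q = 1) :
    SO fun m => ((lam m : ℝ) : ℂ) * (if Nat.Coprime m (q / g) then w ^ (g * m) else 0) := by
  have hg0 : 0 < g := Nat.pos_of_dvd_of_pos hg hq
  have hqg : 0 < q / g := Nat.div_pos (Nat.le_of_dvd hq hg) hg0
  have : NeZero (q / g) := ⟨hqg.ne'⟩
  obtain ⟨ψ, hψ⟩ : ∃ ψ : ZMod (q / g) → ℂ, ψ = fun a => w ^ (g * a.val) := ⟨_, rfl⟩
  have h1 : SO fun m => ∑ χ : DirichletCharacter ℂ (q / g), (((q / g).totient : ℂ)⁻¹ *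
      ∑ a ∈ univ.filter (fun a : ZMod (q / g) => IsUnit a), ψ a * χ a⁻¹) * lc χ m :=
    so_sum univ _ fun χ _ => so_smul _ (H (q / g) χ)
  refine so_congr (fun m _ => ?_) h1
  have h2 : ∀ χ : DirichletCharacter ℂ (q / g), (((q / g).totient : ℂ)⁻¹ *
      ∑ a ∈ univ.filter (fun a : ZMod (q / g) => IsUnit a), ψ a * χ a⁻¹) * lc χ m =
      ((lam m : ℝ) : ℂ) * ((((q / g).totient : ℂ)⁻¹ *
      ∑ a ∈ univ.filter (fun a : ZMod (q / g) => IsUnit a), ψ a * χ a⁻¹) *
        χ (m : ZMod (q / g))) := by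
    intro χ
    unfold lc
    ring
  simp only [h2]
  rw [← mul_sum, rat_char]
  congr 1
  by_cases h3 : Nat.Coprime m (q / g)
  · rw [if_pos h3, if_pos ((ZMod.isUnit_iff_coprime m (q / g)).2 h3), hψ]
    simp only
    rw [ZMod.val_natCast]
    have h4 : g * (m % (q / g)) = (g * m) % q := by
      rw [← Nat.mul_mod_mul_left, Nat.mul_div_cancel' hg]
    rw [h4]
    conv_rhs => rw [← Nat.div_add_mod (g * m) q, pow_add, pow_mul, hw, one_pow, one_mul]
  · rw [if_neg h3, if_neg (fun h => h3 ((ZMod.isUnit_iff_coprime m (q / g)).1 h))]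

theorem so_lam_pow (H : ∀ (q : ℕ) [NeZero q] (χ : DirichletCharacter ℂ q), SO (lc χ)) {q : ℕ}
    (hq : 0 < q) {w : ℂ} (hw : w ^ q = 1) : SO fun n => ((lam n : ℝ) : ℂ) * w ^ n := by
  have hw1 := rat_norm_w hq hw
  have h1 : SO fun n => ∑ g ∈ q.divisors, ((lam g : ℝ) : ℂ) * (if g ∣ n then
      ((lam (n / g) : ℝ) : ℂ) * (if Nat.Coprime (n / g) (q / g) then w ^ (g * (n / g)) else 0)
      else 0) := by
    refine so_sum _ _ fun g hg => so_smul _ ?_
    have hgq := (Nat.mem_divisors.1 hg).1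
    refine so_dil (F := fun m => ((lam m : ℝ) : ℂ) *
      (if Nat.Coprime m (q / g) then w ^ (g * m) else 0)) (fun m => ?_) (so_cop H hq hgq hw) g
      (Nat.pos_of_dvd_of_pos hgq hq)
    rw [norm_mul, rat_norm_lam, one_mul]
    split_ifs
    · rw [norm_pow, hw1, one_pow]
    · rw [norm_zero]
      exact zero_le_one
  refine so_congr (fun n hn => ?_) h1
  have hg0 : 0 < Nat.gcd n q := Nat.gcd_pos_of_pos_right n hq
  rw [sum_eq_single (Nat.gcd n q)]
  · have h2 : Nat.gcd n q ∣ n := Nat.gcd_dvd_left n q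
    have h3 : Nat.Coprime (n / Nat.gcd n q) (q / Nat.gcd n q) := Nat.coprime_div_gcd_div_gcd hg0
    rw [if_pos h2, if_pos h3, Nat.mul_div_cancel' h2, ← mul_assoc]
    congr 1
    rw [← Complex.ofReal_mul, ← lam_mul _ _ hg0.ne' (Nat.div_pos (Nat.le_of_dvd hn h2) hg0).ne',
      Nat.mul_div_cancel' h2]
  · intro g hg hne
    have hgq := (Nat.mem_divisors.1 hg).1
    have hgp : 0 < g := Nat.pos_of_dvd_of_pos hgq hq
    by_cases h2 : g ∣ n
    · rw [if_pos h2]
      have h3 : ¬ Nat.Coprime (n / g) (q / g) := by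
        intro h4
        refine hne ?_
        have h5 : Nat.gcd n q = g * Nat.gcd (n / g) (q / g) := by
          rw [← Nat.gcd_mul_left, Nat.mul_div_cancel' h2, Nat.mul_div_cancel' hgq]
        rw [h5, Nat.Coprime.gcd_eq_one h4, mul_one]
      rw [if_neg h3, mul_zero, mul_zero]
    · rw [if_neg h2, mul_zero]
  · intro h2
    exact absurd (Nat.mem_divisors.2 ⟨Nat.gcd_dvd_right n q, hq.ne'⟩) h2

/-- `d² ∣ b² a` with `a` squarefree -/
theorem rat_sq_dvd {a b d : ℕ} (ha : Squarefree a) (hb : b ≠ 0) (hd : d ^ 2 ∣ b ^ 2 * a) :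
    d ∣ b := by
  have ha0 : a ≠ 0 := ha.ne_zero
  have hd0 : d ≠ 0 := by
    rintro rfl
    rw [zero_pow two_ne_zero] at hd
    have := Nat.eq_zero_of_zero_dvd hd
    exact (mul_ne_zero (pow_ne_zero 2 hb) ha0) this
  rw [← Nat.factorization_le_iff_dvd hd0 hb]
  intro p
  have h1 := (Nat.factorization_le_iff_dvd (pow_ne_zero 2 hd0)
    (mul_ne_zero (pow_ne_zero 2 hb) ha0)).2 hd p
  rw [Nat.factorization_mul (pow_ne_zero 2 hb) ha0, Nat.factorization_pow,
    Nat.factorization_pow] at h1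
  have h2 := ha.natFactorization_le_one p
  simp only [Finsupp.coe_smul, Finsupp.coe_add, Pi.add_apply, Pi.smul_apply, smul_eq_mul] at h1
  omega

/-- `μ(n) = λ(n) ∑_{d² ∣ n} μ(d)` -/
theorem rat_mu {n M : ℕ} (hn : 0 < n) (hM : n ≤ M) :
    ((ArithmeticFunction.moebius n : ℤ) : ℂ) = ((lam n : ℝ) : ℂ) *
      ∑ d ∈ Icc 1 M, (if d ^ 2 ∣ n then ((ArithmeticFunction.moebius d : ℤ) : ℂ) else 0) := by
  obtain ⟨a, b, hab, ha⟩ := Nat.sq_mul_squarefree n
  have hb0 : b ≠ 0 := by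
    rintro rfl
    simp at hab
    omega
  have h1 : ∑ d ∈ Icc 1 M, (if d ^ 2 ∣ n then ((ArithmeticFunction.moebius d : ℤ) : ℂ) else 0) =
      ∑ d ∈ b.divisors, ((ArithmeticFunction.moebius d : ℤ) : ℂ) := by
    rw [← sum_filter]
    refine sum_congr ?_ fun _ _ => rfl
    ext d
    rw [mem_filter, mem_Icc, Nat.mem_divisors]
    constructor
    · rintro ⟨_, h2⟩
      rw [← hab] at h2
      exact ⟨rat_sq_dvd ha hb0 h2, hb0⟩
    · rintro ⟨h2, _⟩
      have h3 : d ^ 2 ∣ n := by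
        rw [← hab]
        exact Dvd.dvd.mul_right (pow_dvd_pow_of_dvd h2 2) a
      refine ⟨⟨Nat.pos_of_dvd_of_pos h2 (Nat.pos_of_ne_zero hb0), ?_⟩, h3⟩
      have h4 : d ≤ d ^ 2 := Nat.le_self_pow two_ne_zero d
      exact h4.trans ((Nat.le_of_dvd hn h3).trans hM)
  have h2 : ∑ d ∈ b.divisors, ((ArithmeticFunction.moebius d : ℤ) : ℂ) = if b = 1 then 1 else 0 := by
    have h3 := congrArg (fun f : ArithmeticFunction ℤ => f b)
      ArithmeticFunction.moebius_mul_coe_zeta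
    simp only [ArithmeticFunction.coe_mul_zeta_apply, ArithmeticFunction.one_apply] at h3
    rw [← Int.cast_sum, h3]
    split_ifs <;> simp
  rw [h1, h2]
  by_cases hb1 : b = 1
  · rw [if_pos hb1, mul_one]
    rw [hb1, one_pow, one_mul] at hab
    rw [← hab, ArithmeticFunction.moebius_apply_of_squarefree ha]
    unfold lam
    push_cast
    rfl
  · rw [if_neg hb1, mul_zero]
    have h3 : ¬ Squarefree n := by
      intro h4
      refine hb1 ?_
      have h5 : b * b ∣ n := by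
        rw [← hab, sq]
        exact Dvd.intro a rfl
      exact Nat.isUnit_iff.1 (h4 b h5)
    rw [ArithmeticFunction.moebius_eq_zero_of_not_squarefree h3]
    simp

/-- the number of multiples -/
theorem rat_count (N d : ℕ) : ∑ n ∈ Icc 1 N, (if d ^ 2 ∣ n then (1 : ℝ) else 0) ≤
    N * ((d : ℝ) ^ 2)⁻¹ := by
  rw [← sum_filter, sum_const, nsmul_eq_mul, mul_one]
  have h1 : ((Icc 1 N).filter fun n => d ^ 2 ∣ n).card = N / d ^ 2 := by
    have h2 := Nat.Ioc_filter_dvd_card_eq_div N (d ^ 2)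
    have h3 : Icc 1 N = Ioc 0 N := by
      ext n
      rw [mem_Icc, mem_Ioc]
      omega
    rw [h3]
    exact h2
  rw [h1]
  have h2 : ((N / d ^ 2 : ℕ) : ℝ) ≤ (N : ℝ) / ((d ^ 2 : ℕ) : ℝ) := Nat.cast_div_le
  rw [div_eq_mul_inv] at h2
  push_cast at h2 ⊢
  exact h2

theorem so_mu_pow (H : ∀ (q : ℕ) [NeZero q] (χ : DirichletCharacter ℂ q), SO (lc χ)) {q : ℕ}
    (hq : 0 < q) {w : ℂ} (hw : w ^ q = 1) :
    SO fun n => ((ArithmeticFunction.moebius n : ℤ) : ℂ) * w ^ n := by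
  have hw1 := rat_norm_w hq hw
  refine so_lim fun ε hε => ?_
  obtain ⟨D, hD⟩ : ∃ D : ℕ, D = ⌈1 / ε⌉₊ + 1 := ⟨_, rfl⟩
  have hD0 : D ≠ 0 := by omega
  have hDε : ((D : ℝ))⁻¹ ≤ ε := by
    have h1 : 1 / ε ≤ D := by
      have h2 := Nat.le_ceil (1 / ε)
      have h3 : ((⌈1 / ε⌉₊ : ℕ) : ℝ) ≤ D := by
        rw [hD]
        exact_mod_cast Nat.le_succ _
      linarith
    have h4 : (0 : ℝ) < 1 / ε := by positivity
    calc ((D : ℝ))⁻¹ ≤ (1 / ε)⁻¹ := inv_anti₀ h4 h1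
      _ = ε := by rw [one_div, inv_inv]
  refine ⟨fun n => ∑ d ∈ Icc 1 D, ((ArithmeticFunction.moebius d : ℤ) : ℂ) *
    (if d ^ 2 ∣ n then ((lam (n / d ^ 2) : ℝ) : ℂ) * (w ^ d ^ 2) ^ (n / d ^ 2) else 0), ?_,
    0, fun N _ => ?_⟩
  · refine so_sum _ _ fun d hd => so_smul _ ?_
    have hd1 := (mem_Icc.1 hd).1
    refine so_dil (F := fun m => ((lam m : ℝ) : ℂ) * (w ^ d ^ 2) ^ m) (fun m => ?_)
      (so_lam_pow H hq (w := w ^ d ^ 2) ?_) (d ^ 2) (by positivity)
    · rw [norm_mul, rat_norm_lam, one_mul, norm_pow, norm_pow, hw1, one_pow, one_pow]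
    · rw [← pow_mul, mul_comm, pow_mul, hw, one_pow]
  · have h1 : ∀ n ∈ Icc 1 N, ‖((ArithmeticFunction.moebius n : ℤ) : ℂ) * w ^ n -
        ∑ d ∈ Icc 1 D, ((ArithmeticFunction.moebius d : ℤ) : ℂ) *
          (if d ^ 2 ∣ n then ((lam (n / d ^ 2) : ℝ) : ℂ) * (w ^ d ^ 2) ^ (n / d ^ 2) else 0)‖ ≤
        ∑ d ∈ Ioc D (D + N), (if d ^ 2 ∣ n then (1 : ℝ) else 0) := by
      intro n hn
      rw [mem_Icc] at hn
      have h2 : ∑ d ∈ Icc 1 D, ((ArithmeticFunction.moebius d : ℤ) : ℂ) *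
          (if d ^ 2 ∣ n then ((lam (n / d ^ 2) : ℝ) : ℂ) * (w ^ d ^ 2) ^ (n / d ^ 2) else 0) =
          ((lam n : ℝ) : ℂ) * w ^ n * ∑ d ∈ Icc 1 D,
            (if d ^ 2 ∣ n then ((ArithmeticFunction.moebius d : ℤ) : ℂ) else 0) := by
        rw [mul_sum]
        refine sum_congr rfl fun d hd => ?_
        have hd1 := (mem_Icc.1 hd).1
        by_cases h3 : d ^ 2 ∣ n
        · rw [if_pos h3, if_pos h3, ← pow_mul, Nat.mul_div_cancel' h3]
          have h4 : lam n = lam (n / d ^ 2) := by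
            have hd2 : d ^ 2 ≠ 0 := by positivity
            have h5 : n / d ^ 2 ≠ 0 :=
              (Nat.div_pos (Nat.le_of_dvd hn.1 h3) (by positivity)).ne'
            have h6 : lam (d ^ 2) = 1 := by
              rw [sq, lam_mul d d (by omega) (by omega), rat_lam_sq]
            conv_lhs => rw [← Nat.mul_div_cancel' h3, lam_mul _ _ hd2 h5, h6, one_mul]
          rw [h4]
          ring
        · rw [if_neg h3, if_neg h3, mul_zero, mul_zero]
      have h3 := rat_mu hn.1 (hn.2.trans (Nat.le_add_left N D))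
      have h4 : Icc 1 (D + N) = Icc 1 D ∪ Ioc D (D + N) := by
        ext d
        rw [mem_union, mem_Icc, mem_Icc, mem_Ioc]
        omega
      have h5 : Disjoint (Icc 1 D) (Ioc D (D + N)) := by
        rw [disjoint_left]
        intro d hd
        rw [mem_Icc] at hd
        rw [mem_Ioc]
        omega
      rw [h4, sum_union h5] at h3
      rw [h2, h3]
      have h6 : ∀ x y z : ℂ, x * (y + z) * w ^ n - x * w ^ n * y = x * w ^ n * z :=
        fun x y z => by ring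
      rw [h6, norm_mul, norm_mul, rat_norm_lam, norm_pow, hw1, one_pow, one_mul, one_mul]
      refine (norm_sum_le _ _).trans (sum_le_sum fun d _ => ?_)
      split_ifs
      · rw [Complex.norm_intCast]
        exact_mod_cast ArithmeticFunction.abs_moebius_le_one
      · rw [norm_zero]
    calc _ ≤ ∑ n ∈ Icc 1 N, ∑ d ∈ Ioc D (D + N), (if d ^ 2 ∣ n then (1 : ℝ) else 0) :=
          sum_le_sum h1
      _ = ∑ d ∈ Ioc D (D + N), ∑ n ∈ Icc 1 N, (if d ^ 2 ∣ n then (1 : ℝ) else 0) := sum_comm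
      _ ≤ ∑ d ∈ Ioc D (D + N), N * ((d : ℝ) ^ 2)⁻¹ := sum_le_sum fun d _ => rat_count N d
      _ = N * ∑ d ∈ Ioc D (D + N), ((d : ℝ) ^ 2)⁻¹ := by rw [mul_sum]
      _ ≤ N * (D : ℝ)⁻¹ := by
          refine mul_le_mul_of_nonneg_left ?_ (Nat.cast_nonneg N)
          have h2 := sum_Ioc_inv_sq_le_sub (α := ℝ) hD0 (Nat.le_add_right D N)
          have h3 : (0 : ℝ) ≤ (((D + N : ℕ) : ℝ))⁻¹ := by positivity
          linarith
      _ ≤ ε * N := by
          rw [mul_comm]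
          exact mul_le_mul_of_nonneg_right hDε (Nat.cast_nonneg N)

/-- **Rational phases on short intervals.** -/
theorem rat (H : ∀ (q : ℕ) [NeZero q] (χ : DirichletCharacter ℂ q) (η : ℝ), 0 < η →
    ∃ L0 : ℕ, ∀ L ≥ L0, ∃ X0 : ℕ, ∀ X ≥ X0,
      ∑ n ∈ Ioc X (2 * X), ‖∑ l ∈ range L, lc χ (n + l)‖ ≤ η * L * X)
    {q : ℕ} (hq : 0 < q) {w : ℂ} (hw : w ^ q = 1) :
    ShortOrth (fun n => ((ArithmeticFunction.moebius n : ℤ) : ℂ)) w := by
  have hw1 := rat_norm_w hq hw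
  have h1 := so_mu_pow (fun q _ χ => so_of_dyadic (fun n => by
    unfold lc
    rw [norm_mul, rat_norm_lam, one_mul]
    exact DirichletCharacter.norm_le_one χ _) (H q χ)) hq hw
  intro η hη
  obtain ⟨L0, h2⟩ := h1 η hη
  refine ⟨L0, fun L hL => ?_⟩
  obtain ⟨N0, h3⟩ := h2 L hL
  refine ⟨N0, fun N hN => ?_⟩
  refine le_trans (le_of_eq ?_) (h3 N hN)
  refine sum_congr rfl fun n _ => ?_
  have h4 : ∑ l ∈ range L, ((ArithmeticFunction.moebius (n + l) : ℤ) : ℂ) * w ^ (n + l) =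
      w ^ n * ∑ l ∈ range L, ((ArithmeticFunction.moebius (n + l) : ℤ) : ℂ) * w ^ l := by
    rw [mul_sum]
    refine sum_congr rfl fun l _ => ?_
    rw [pow_add]
    ring
  rw [h4, norm_mul, norm_pow, hw1, one_pow, one_mul]

end Pool.Agent.Lib.MP_9fe581_an.HD
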