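import Pool.Agent.Lib.MP_9fe581_an.HD.GDefs

/-!
# R0. The Haar probability measure of a compact group is right invariant
-/

set_option autoImplicit false

open MeasureTheory

namespace Pool.Agent.Lib.MP_9fe581_an.HD

variable {G : Type} [Group G] [TopologicalSpace G] [IsTopologicalGroup G]
  [CompactSpace G] [T2Space G] [SecondCountableTopology G] [MeasurableSpace G] [BorelSpace G]

omit [T2Space G] [SecondCountableTopology G] in
theorem haar_right (μ : Measure G) [μ.IsHaarMeasure] [IsProbabilityMeasure μ] : μ.IsMulRightInvariant := by
  constructor
  intro g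
  have h1 : (μ.map (· * g)).IsMulLeftInvariant := by infer_instance
  have h2 : IsProbabilityMeasure (μ.map (· * g)) :=
    Measure.isProbabilityMeasure_map (measurable_mul_const g).aemeasurable
  have h3 := Measure.isMulInvariant_eq_smul_of_compactSpace (μ.map (· * g)) μ
  have h4 : Measure.haarScalarFactor (μ.map (· * g)) μ = 1 := by
    have h5 := congrArg (fun m : Measure G => m Set.univ) h3
    simp only [measure_univ, Measure.smul_apply] at h5
    have h6 : ((Measure.haarScalarFactor (μ.map (· * g)) μ : NNReal) : ENNReal) = 1 := by
      simpa [ENNReal.smul_def] using h5.symm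
    exact_mod_cast h6
  rw [h3, h4, one_smul]

end Pool.Agent.Lib.MP_9fe581_an.HD
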