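import Pool.Agent.Lib.MP_9fe581_an.HD.Defs
import Pool.Agent.Lib.MP_9fe581_an.Kbsz

/-!
# HD: short exponential sums with an irrational phase

`short_irr`: for a bounded multiplicative `u` and `β` irrational, the sums
`∑_{l < L} u (n + l) e ((n + l) β)` are `≤ η L` on average over `n ≤ N` (first `N → ∞`, then `L → ∞`).
-/

open Finset MeasureTheory Filter Topology
open scoped ComplexConjugate

namespace Pool.Agent.Lib.MP_9fe581_an.HD.IR

/-- windows of length `L` -/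
lemma window (f : ℕ → ℝ) (hf : ∀ k, 0 ≤ f k) (N L : ℕ) :
    ∑ n ∈ Icc 1 N, ∑ l ∈ range L, f (n + l) ≤ L * ∑ k ∈ Icc 1 (N + L), f k := by
  rw [Finset.sum_comm]
  have h : ∀ l ∈ range L, ∑ n ∈ Icc 1 N, f (n + l) ≤ ∑ k ∈ Icc 1 (N + L), f k := by
    intro l hl
    rw [mem_range] at hl
    have e1 : ∑ n ∈ Icc 1 N, f (n + l) = ∑ k ∈ (Icc 1 N).image (fun n => n + l), f k := by
      rw [Finset.sum_image]
      intro a _ b _ hab
      exact Nat.add_right_cancel hab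
    rw [e1]
    refine Finset.sum_le_sum_of_subset_of_nonneg ?_ fun k _ _ => hf k
    intro k hk
    rw [mem_image] at hk
    obtain ⟨n, hn, rfl⟩ := hk
    rw [mem_Icc] at hn ⊢
    omega
  refine (Finset.sum_le_card_nsmul _ _ _ h).trans_eq ?_
  rw [card_range, nsmul_eq_mul]

/-- telescoping -/
lemma tel (f : ℕ → ℂ) (x p L : ℕ) :
    ∑ l ∈ range L, f (x + p + l) - ∑ l ∈ range L, f (x + l)
      = ∑ l ∈ range p, f (x + L + l) - ∑ l ∈ range p, f (x + l) := by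
  have h1 := Finset.sum_range_add (fun l => f (x + l)) L p
  have h2 := Finset.sum_range_add (fun l => f (x + l)) p L
  rw [add_comm L p] at h1
  rw [h1] at h2
  have e1 : ∀ l, f (x + L + l) = f (x + (L + l)) := fun l => by rw [add_assoc]
  have e2 : ∀ l, f (x + p + l) = f (x + (p + l)) := fun l => by rw [add_assoc]
  simp only [e1, e2]
  linear_combination -h2

/-- one multiple of `p` in a window of length `p` -/
lemma one_mult (w : ℕ → ℂ) (hw : ∀ k, ‖w k‖ ≤ 1) (p y : ℕ) :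
    ‖∑ l ∈ range p, if p ∣ y + l then w (y + l) else 0‖ ≤ 1 := by
  rw [← Finset.sum_filter]
  refine (norm_sum_le _ _).trans ?_
  have hc : ((range p).filter (fun l => p ∣ y + l)).card ≤ 1 := by
    rw [Finset.card_le_one]
    intro a ha b hb
    rw [mem_filter, mem_range] at ha hb
    have h1 : (y + a) ≡ (y + b) [MOD p] := by
      rw [Nat.ModEq, Nat.mod_eq_zero_of_dvd ha.2, Nat.mod_eq_zero_of_dvd hb.2]
    have h2 : a ≡ b [MOD p] := Nat.ModEq.add_left_cancel' y h1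
    rwa [Nat.ModEq, Nat.mod_eq_of_lt ha.1, Nat.mod_eq_of_lt hb.1] at h2
  refine (Finset.sum_le_card_nsmul _ _ 1 fun l _ => hw _).trans ?_
  rw [nsmul_eq_mul, mul_one]
  exact_mod_cast hc

/-- shift by `p h` -/
lemma shift (w : ℕ → ℂ) (hw : ∀ k, ‖w k‖ ≤ 1) (p L x h : ℕ) :
    ‖∑ l ∈ range L, (if p ∣ x + p * h + l then w (x + p * h + l) else 0)
      - ∑ l ∈ range L, (if p ∣ x + l then w (x + l) else 0)‖ ≤ 2 * h := by
  induction h with
  | zero => simp
  | succ h ih =>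
    have e := tel (fun k => if p ∣ k then w k else 0) (x + p * h) p L
    have e' : x + p * (h + 1) = x + p * h + p := by ring
    rw [e']
    have h1 := one_mult w hw p (x + p * h + L)
    have h2 := one_mult w hw p (x + p * h)
    have h3 : ‖∑ l ∈ range L, (if p ∣ x + p * h + p + l then w (x + p * h + p + l) else 0)
        - ∑ l ∈ range L, (if p ∣ x + p * h + l then w (x + p * h + l) else 0)‖ ≤ 2 := by
      rw [e]
      refine (norm_sub_le _ _).trans ?_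
      linarith
    push_cast
    calc _ = ‖(∑ l ∈ range L, (if p ∣ x + p * h + p + l then w (x + p * h + p + l) else 0)
        - ∑ l ∈ range L, (if p ∣ x + p * h + l then w (x + p * h + l) else 0))
        + (∑ l ∈ range L, (if p ∣ x + p * h + l then w (x + p * h + l) else 0)
        - ∑ l ∈ range L, (if p ∣ x + l then w (x + l) else 0))‖ := by
          congr 1; ring
      _ ≤ 2 + 2 * h := (norm_add_le _ _).trans (add_le_add h3 ih)
      _ = 2 * (h + 1) := by ring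

/-- smoothing -/
lemma smooth (w : ℕ → ℂ) (hw : ∀ k, ‖w k‖ ≤ 1) (p L x H : ℕ) (hH : 0 < H) :
    ‖∑ l ∈ range L, (if p ∣ x + l then w (x + l) else 0)‖
      ≤ 2 * H + (1 / (H : ℝ)) * ∑ l ∈ range L,
        ‖∑ h ∈ range H, if p ∣ x + l then w (x + l + p * h) else 0‖ := by
  have hHr : (0 : ℝ) < H := by exact_mod_cast hH
  set T : ℂ := ∑ l ∈ range L, (if p ∣ x + l then w (x + l) else 0) with hT
  have e1 : (H : ℂ) * T = ∑ h ∈ range H, (∑ l ∈ range L,
      (if p ∣ x + p * h + l then w (x + p * h + l) else 0))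
      - ∑ h ∈ range H, (∑ l ∈ range L,
      (if p ∣ x + p * h + l then w (x + p * h + l) else 0) - T) := by
    rw [Finset.sum_sub_distrib, Finset.sum_const, card_range, nsmul_eq_mul]
    ring
  have e2 : ∑ h ∈ range H, (∑ l ∈ range L,
      (if p ∣ x + p * h + l then w (x + p * h + l) else 0))
      = ∑ l ∈ range L, ∑ h ∈ range H, if p ∣ x + l then w (x + l + p * h) else 0 := by
    rw [Finset.sum_comm]
    refine Finset.sum_congr rfl fun l _ => Finset.sum_congr rfl fun h _ => ?_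
    have a1 : x + p * h + l = x + l + p * h := by ring
    rw [a1]
    have a2 : p ∣ x + l + p * h ↔ p ∣ x + l := (Nat.dvd_add_iff_left (dvd_mul_right p h)).symm
    simp only [a2]
  have h1 : (H : ℝ) * ‖T‖ ≤ ∑ l ∈ range L,
        ‖∑ h ∈ range H, if p ∣ x + l then w (x + l + p * h) else 0‖ + H * (2 * H) := by
    have : (H : ℝ) * ‖T‖ = ‖(H : ℂ) * T‖ := by rw [norm_mul, Complex.norm_natCast]
    rw [this, e1, e2]
    refine (norm_sub_le _ _).trans (add_le_add (norm_sum_le _ _) ?_)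
    refine (norm_sum_le _ _).trans ?_
    have hb : ∀ h ∈ range H, ‖∑ l ∈ range L,
      (if p ∣ x + p * h + l then w (x + p * h + l) else 0) - T‖ ≤ 2 * H := by
      intro h hh
      refine (shift w hw p L x h).trans ?_
      have : (h : ℝ) ≤ H := by exact_mod_cast (mem_range.1 hh).le
      linarith
    refine (Finset.sum_le_card_nsmul _ _ _ hb).trans_eq ?_
    rw [card_range, nsmul_eq_mul]
  rw [one_div, ← sub_le_iff_le_add', ← mul_le_mul_iff_right₀ hHr, ← mul_assoc, mul_inv_cancel₀ hHr.ne',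
    one_mul]
  linarith

/-- sum over the windows -/
lemma sum_smooth (w : ℕ → ℂ) (hw : ∀ k, ‖w k‖ ≤ 1) (p : ℕ) (hp : 0 < p) (N L H : ℕ) (hH : 0 < H) :
    ∑ n ∈ Icc 1 N, ‖∑ l ∈ range L, (if p ∣ n + l then w (n + l) else 0)‖
      ≤ 2 * H * N + (L / (H : ℝ)) * ∑ m ∈ Icc 1 ((N + L) / p),
        ‖∑ h ∈ range H, w (p * (m + h))‖ := by
  have hHr : (0 : ℝ) < H := by exact_mod_cast hH
  have e : ∀ k, ‖∑ h ∈ range H, if p ∣ k then w (k + p * h) else 0‖
      = if p ∣ k then ‖∑ h ∈ range H, w (k + p * h)‖ else 0 := by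
    intro k
    by_cases h : p ∣ k
    · simp only [if_pos h]
    · simp only [if_neg h, Finset.sum_const_zero, norm_zero]
  have h1 : ∀ n ∈ Icc 1 N, ‖∑ l ∈ range L, (if p ∣ n + l then w (n + l) else 0)‖
      ≤ 2 * H + (1 / (H : ℝ)) * ∑ l ∈ range L,
        (fun k => if p ∣ k then ‖∑ h ∈ range H, w (k + p * h)‖ else 0) (n + l) := by
    intro n _
    refine (smooth w hw p L n H hH).trans_eq ?_
    simp only [e]
  refine (Finset.sum_le_sum h1).trans ?_
  rw [Finset.sum_add_distrib, Finset.sum_const, Nat.card_Icc, Nat.add_sub_cancel, nsmul_eq_mul,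
    ← Finset.mul_sum]
  have h2 := window (fun k => if p ∣ k then ‖∑ h ∈ range H, w (k + p * h)‖ else 0)
    (fun k => by split_ifs <;> positivity) N L
  have h3 : (∑ k ∈ Icc 1 (N + L), (fun k => if p ∣ k then ‖∑ h ∈ range H, w (k + p * h)‖ else 0) k)
      = ∑ m ∈ Icc 1 ((N + L) / p), ‖∑ h ∈ range H, w (p * (m + h))‖ := by
    have := sum_dvd_eq (fun k => ((‖∑ h ∈ range H, w (k + p * h)‖ : ℝ) : ℂ)) (N + L) p hp
    have c : ((∑ k ∈ Icc 1 (N + L), (if p ∣ k then ‖∑ h ∈ range H, w (k + p * h)‖ else 0) : ℝ) : ℂ)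
        = ((∑ m ∈ Icc 1 ((N + L) / p), ‖∑ h ∈ range H, w (p * (m + h))‖ : ℝ) : ℂ) := by
      have c1 : ((∑ k ∈ Icc 1 (N + L), (if p ∣ k then ‖∑ h ∈ range H, w (k + p * h)‖ else 0) : ℝ) : ℂ)
          = ∑ k ∈ Icc 1 (N + L), if p ∣ k then ((‖∑ h ∈ range H, w (k + p * h)‖ : ℝ) : ℂ) else 0 := by
        rw [Complex.ofReal_sum]
        refine Finset.sum_congr rfl fun k _ => ?_
        split_ifs <;> simp
      rw [c1, this, Complex.ofReal_sum]
      refine Finset.sum_congr rfl fun m _ => ?_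
      simp only [mul_add]
    exact_mod_cast c
  rw [h3] at h2
  have h4 : (1 / (H : ℝ)) * ∑ n ∈ Icc 1 N, ∑ l ∈ range L,
        (fun k => if p ∣ k then ‖∑ h ∈ range H, w (k + p * h)‖ else 0) (n + l)
      ≤ (1 / (H : ℝ)) * (L * ∑ m ∈ Icc 1 ((N + L) / p), ‖∑ h ∈ range H, w (p * (m + h))‖) :=
    mul_le_mul_of_nonneg_left h2 (by positivity)
  calc _ ≤ (N : ℝ) * (2 * H) + (1 / (H : ℝ)) * (L * ∑ m ∈ Icc 1 ((N + L) / p),
        ‖∑ h ∈ range H, w (p * (m + h))‖) := by linarith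
    _ = _ := by ring

/-- geometric sums -/
lemma geo (θ : ℝ) (hθ : GT.e θ ≠ 1) (m H : ℕ) :
    ‖∑ h ∈ range H, GT.e (((m + h : ℕ) : ℝ) * θ)‖ ≤ 2 / ‖GT.e θ - 1‖ := by
  have h1 : ∀ h : ℕ, GT.e (((m + h : ℕ) : ℝ) * θ) = GT.e (m * θ) * GT.e θ ^ h := by
    intro h
    induction h with
    | zero => simp
    | succ h ih =>
      rw [pow_succ, ← mul_assoc, ← ih, ← GT.e_add]
      congr 1; push_cast; ring
  simp_rw [h1]
  rw [← Finset.mul_sum, norm_mul, GT.norm_e, one_mul, geom_sum_eq hθ, norm_div]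
  have h2 : ‖GT.e θ ^ H - 1‖ ≤ 2 := by
    refine (norm_sub_le _ _).trans ?_
    rw [norm_pow, GT.norm_e, one_pow, norm_one]; norm_num
  have h3 : 0 < ‖GT.e θ - 1‖ := norm_pos_iff.2 (sub_ne_zero.2 hθ)
  gcongr

lemma e_conj (x : ℝ) : conj (GT.e x) = GT.e (-x) := by
  have h1 : GT.e x * GT.e (-x) = 1 := by rw [← GT.e_add, add_neg_cancel, GT.e_zero]
  have h2 : GT.e x * conj (GT.e x) = 1 := by
    rw [Complex.mul_conj, Complex.normSq_eq_norm_sq, GT.norm_e]; norm_num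
  have h0 : GT.e x ≠ 0 := by
    intro h
    rw [h, zero_mul] at h1
    exact zero_ne_one h1
  exact mul_left_cancel₀ h0 (h2.trans h1.symm)

/-- Bessel's inequality for the almost orthogonal phases `e (p k β)`, `k` in a window -/
lemma bessel (P : Finset ℕ) (β R : ℝ) (hR : 0 ≤ R)
    (hPR : ∀ p ∈ P, ∀ q ∈ P, p ≠ q → GT.e (((p : ℝ) - q) * β) ≠ 1 ∧ 2 / ‖GT.e (((p : ℝ) - q) * β) - 1‖ ≤ R)
    (u : ℕ → ℂ) (hu : ∀ n, ‖u n‖ ≤ 1) (H : ℕ) (hH : P.card * R ≤ H) (m : ℕ) :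
    ∑ p ∈ P, ‖∑ h ∈ range H, u (m + h) * GT.e (((p * (m + h) : ℕ) : ℝ) * β)‖ ^ 2 ≤ 2 * (H : ℝ) ^ 2 := by
  set x : ℕ → ℂ := fun p => ∑ h ∈ range H, u (m + h) * GT.e (((p * (m + h) : ℕ) : ℝ) * β) with hx
  set S : ℝ := ∑ p ∈ P, ‖x p‖ ^ 2 with hS
  have hS0 : 0 ≤ S := Finset.sum_nonneg fun _ _ => by positivity
  -- dual sum
  set y : ℕ → ℂ := fun h => ∑ p ∈ P, conj (x p) * GT.e (((p * (m + h) : ℕ) : ℝ) * β) with hy
  have e1 : (S : ℂ) = ∑ h ∈ range H, u (m + h) * y h := by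
    rw [hS, Complex.ofReal_sum]
    have : ∀ p ∈ P, ((‖x p‖ ^ 2 : ℝ) : ℂ)
        = ∑ h ∈ range H, u (m + h) * (conj (x p) * GT.e (((p * (m + h) : ℕ) : ℝ) * β)) := by
      intro p _
      have h1 : ((‖x p‖ ^ 2 : ℝ) : ℂ) = conj (x p) * x p := by
        rw [mul_comm, Complex.mul_conj, Complex.normSq_eq_norm_sq]
      rw [h1]
      conv_lhs => rw [hx]
      rw [Finset.mul_sum]
      refine Finset.sum_congr rfl fun h _ => ?_
      ring
    rw [Finset.sum_congr rfl this, Finset.sum_comm]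
    refine Finset.sum_congr rfl fun h _ => ?_
    rw [hy, Finset.mul_sum]
  have e2 : S ≤ ∑ h ∈ range H, ‖y h‖ := by
    have : S = ‖(S : ℂ)‖ := by rw [Complex.norm_real, Real.norm_of_nonneg hS0]
    rw [this, e1]
    refine (norm_sum_le _ _).trans (Finset.sum_le_sum fun h _ => ?_)
    rw [norm_mul]
    exact mul_le_of_le_one_left (norm_nonneg _) (hu _)
  have e3 : S ^ 2 ≤ H * ∑ h ∈ range H, ‖y h‖ ^ 2 := by
    refine (pow_le_pow_left₀ hS0 e2 2).trans ((sq_sum_le_card_mul_sum_sq).trans_eq ?_)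
    rw [card_range]
  -- expand the square
  have e4 : ((∑ h ∈ range H, ‖y h‖ ^ 2 : ℝ) : ℂ) = ∑ z ∈ P ×ˢ P, conj (x z.1) * x z.2 *
      ∑ h ∈ range H, GT.e (((m + h : ℕ) : ℝ) * (((z.1 : ℝ) - z.2) * β)) := by
    rw [Complex.ofReal_sum]
    have : ∀ h ∈ range H, ((‖y h‖ ^ 2 : ℝ) : ℂ) = ∑ z ∈ P ×ˢ P, conj (x z.1) * x z.2 *
        GT.e (((m + h : ℕ) : ℝ) * (((z.1 : ℝ) - z.2) * β)) := by
      intro h _
      have h1 : ((‖y h‖ ^ 2 : ℝ) : ℂ) = y h * conj (y h) := by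
        rw [Complex.mul_conj, Complex.normSq_eq_norm_sq]
      rw [h1]
      simp only [hy]
      rw [map_sum, Finset.sum_mul_sum, ← Finset.sum_product']
      refine Finset.sum_congr rfl fun z _ => ?_
      rw [map_mul, Complex.conj_conj, e_conj]
      have h2 : GT.e (((m + h : ℕ) : ℝ) * (((z.1 : ℝ) - z.2) * β))
          = GT.e (((z.1 * (m + h) : ℕ) : ℝ) * β) * GT.e (-(((z.2 * (m + h) : ℕ) : ℝ) * β)) := by
        rw [← GT.e_add]; congr 1; push_cast; ring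
      rw [h2]; ring
    rw [Finset.sum_congr rfl this, Finset.sum_comm]
    exact Finset.sum_congr rfl fun z _ => (Finset.mul_sum _ _ _).symm
  have e5 : ∑ h ∈ range H, ‖y h‖ ^ 2 ≤ ∑ z ∈ P ×ˢ P, ‖x z.1‖ * ‖x z.2‖ *
      ‖∑ h ∈ range H, GT.e (((m + h : ℕ) : ℝ) * (((z.1 : ℝ) - z.2) * β))‖ := by
    have : (∑ h ∈ range H, ‖y h‖ ^ 2 : ℝ) = ‖((∑ h ∈ range H, ‖y h‖ ^ 2 : ℝ) : ℂ)‖ := by
      rw [Complex.norm_real, Real.norm_of_nonneg]
      exact Finset.sum_nonneg fun _ _ => by positivity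
    rw [this, e4]
    refine (norm_sum_le _ _).trans_eq (Finset.sum_congr rfl fun z _ => ?_)
    rw [norm_mul, norm_mul, RCLike.norm_conj]
  have e6 : ∑ z ∈ P ×ˢ P, ‖x z.1‖ * ‖x z.2‖ *
      ‖∑ h ∈ range H, GT.e (((m + h : ℕ) : ℝ) * (((z.1 : ℝ) - z.2) * β))‖
      ≤ ∑ z ∈ P ×ˢ P, ((if z.1 = z.2 then ‖x z.1‖ ^ 2 * H else 0) + ‖x z.1‖ * ‖x z.2‖ * R) := by
    refine Finset.sum_le_sum fun z hz => ?_
    rw [mem_product] at hz
    by_cases h : z.1 = z.2
    · rw [if_pos h, ← h]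
      have : ‖∑ h ∈ range H, GT.e (((m + h : ℕ) : ℝ) * (((z.1 : ℝ) - z.1) * β))‖ ≤ H := by
        refine (norm_sum_le _ _).trans ?_
        simp [GT.norm_e]
      have h2 : 0 ≤ ‖x z.1‖ * ‖x z.1‖ * R := by positivity
      have h3 := mul_le_mul_of_nonneg_left this (mul_nonneg (norm_nonneg (x z.1)) (norm_nonneg (x z.1)))
      nlinarith
    · rw [if_neg h, zero_add]
      obtain ⟨h1, h2⟩ := hPR _ hz.1 _ hz.2 h
      exact mul_le_mul_of_nonneg_left ((geo _ h1 m H).trans h2) (by positivity)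
  have e7 : ∑ z ∈ P ×ˢ P, ((if z.1 = z.2 then ‖x z.1‖ ^ 2 * H else 0) + ‖x z.1‖ * ‖x z.2‖ * R)
      = H * S + R * (∑ p ∈ P, ‖x p‖) ^ 2 := by
    rw [Finset.sum_add_distrib]
    congr 1
    · rw [Finset.sum_product]
      rw [hS, Finset.mul_sum]
      refine Finset.sum_congr rfl fun p hp => ?_
      simp only
      rw [Finset.sum_ite_eq, if_pos hp]; ring
    · rw [sq, Finset.sum_mul_sum, ← Finset.sum_product', Finset.mul_sum]
      refine Finset.sum_congr rfl fun z _ => ?_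
      ring
  have e8 : (∑ p ∈ P, ‖x p‖) ^ 2 ≤ P.card * S := sq_sum_le_card_mul_sum_sq
  have e9 : S ^ 2 ≤ H * (2 * H * S) := by
    refine e3.trans (mul_le_mul_of_nonneg_left ?_ (Nat.cast_nonneg _))
    refine (e5.trans e6).trans ?_
    rw [e7]
    have h1 := mul_le_mul_of_nonneg_left e8 hR
    have h2 := mul_le_mul_of_nonneg_right hH hS0
    nlinarith
  by_contra hcon
  rw [not_le] at hcon
  have hSpos : 0 < S := lt_of_le_of_lt (by positivity) hcon
  nlinarith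

/-- `∑_{m ≤ M} √(M/m) ≤ 2M` -/
lemma sum_sqrt (M : ℕ) : ∑ m ∈ Icc 1 M, Real.sqrt ((M : ℝ) / m) ≤ 2 * M := by
  have h : ∀ K : ℕ, ∑ m ∈ Icc 1 K, 1 / Real.sqrt m ≤ 2 * Real.sqrt K := by
    intro K
    induction K with
    | zero => simp
    | succ K ih =>
      rw [Finset.sum_Icc_succ_top (by omega)]
      have h0 : (0 : ℝ) < ((K + 1 : ℕ) : ℝ) := by positivity
      have h1 : 0 < Real.sqrt ((K + 1 : ℕ) : ℝ) := Real.sqrt_pos.2 h0
      have h2 : Real.sqrt K ≤ Real.sqrt ((K + 1 : ℕ) : ℝ) := Real.sqrt_le_sqrt (by push_cast; linarith)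
      have h3 : Real.sqrt ((K + 1 : ℕ) : ℝ) ^ 2 = K + 1 := by
        rw [Real.sq_sqrt h0.le]; push_cast; ring
      have h4 : Real.sqrt (K : ℝ) ^ 2 = K := Real.sq_sqrt (Nat.cast_nonneg _)
      have h5 : 0 ≤ Real.sqrt (K : ℝ) := Real.sqrt_nonneg _
      have h6 : 1 / Real.sqrt ((K + 1 : ℕ) : ℝ) ≤ 2 * Real.sqrt ((K + 1 : ℕ) : ℝ) - 2 * Real.sqrt K := by
        rw [div_le_iff₀ h1]
        nlinarith
      linarith
  have e : ∀ m ∈ Icc 1 M, Real.sqrt ((M : ℝ) / m) = Real.sqrt M * (1 / Real.sqrt m) := by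
    intro m _
    rw [Real.sqrt_div (Nat.cast_nonneg _)]; ring
  rw [Finset.sum_congr rfl e, ← Finset.mul_sum]
  have h1 := mul_le_mul_of_nonneg_left (h M) (Real.sqrt_nonneg (M : ℝ))
  have h2 : Real.sqrt (M : ℝ) * (2 * Real.sqrt M) = 2 * M := by
    have := Real.mul_self_sqrt (Nat.cast_nonneg (α := ℝ) M)
    linear_combination 2 * this
  linarith

/-- few large pairs -/
lemma pairs (P : Finset ℕ) (hP : ∀ p ∈ P, 0 < p) (f : ℕ → ℕ → ℝ) (hf : ∀ p m, 0 ≤ f p m) (H : ℝ) (hH : 0 ≤ H)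
    (hb : ∀ m, ∑ p ∈ P, f p m ^ 2 ≤ 2 * H ^ 2) (M : ℕ) :
    ∑ p ∈ P, ∑ m ∈ Icc 1 (M / p), f p m ≤ 3 * H * M := by
  have e1 : ∀ p ∈ P, ∑ m ∈ Icc 1 (M / p), f p m = ∑ m ∈ Icc 1 M, if p * m ≤ M then f p m else 0 := by
    intro p hp
    rw [← Finset.sum_filter]
    refine Finset.sum_congr ?_ fun _ _ => rfl
    ext m
    rw [mem_filter, mem_Icc, mem_Icc, Nat.le_div_iff_mul_le (hP p hp), mul_comm m p]
    constructor
    · intro h
      refine ⟨⟨h.1, ?_⟩, h.2⟩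
      exact (Nat.le_mul_of_pos_left m (hP p hp)).trans h.2
    · intro h
      exact ⟨h.1.1, h.2⟩
  rw [Finset.sum_congr rfl e1, Finset.sum_comm]
  have e2 : ∀ m ∈ Icc 1 M, ∑ p ∈ P, (if p * m ≤ M then f p m else 0)
      ≤ Real.sqrt ((M : ℝ) / m) * (3 / 2 * H) := by
    intro m hm
    rw [mem_Icc] at hm
    have hm0 : (0 : ℝ) < m := by exact_mod_cast hm.1
    rw [← Finset.sum_filter]
    set Q := P.filter (fun p => p * m ≤ M) with hQ
    have hc : (Q.card : ℝ) ≤ (M : ℝ) / m := by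
      have h1 : Q ⊆ Icc 1 (M / m) := by
        intro p hp
        rw [hQ, mem_filter] at hp
        rw [mem_Icc]
        exact ⟨hP p hp.1, (Nat.le_div_iff_mul_le hm.1).2 hp.2⟩
      have h2 := card_le_card h1
      rw [Nat.card_Icc, Nat.add_sub_cancel] at h2
      exact (by exact_mod_cast h2 : (Q.card : ℝ) ≤ ((M / m : ℕ) : ℝ)).trans Nat.cast_div_le
    have h1 : (∑ p ∈ Q, f p m) ^ 2 ≤ ((M : ℝ) / m) * (2 * H ^ 2) := by
      refine (sq_sum_le_card_mul_sum_sq).trans ?_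
      refine mul_le_mul hc ?_ (Finset.sum_nonneg fun _ _ => by positivity) (by positivity)
      refine le_trans ?_ (hb m)
      exact Finset.sum_le_sum_of_subset_of_nonneg (filter_subset _ _) fun _ _ _ => by positivity
    have h2 : (∑ p ∈ Q, f p m) ^ 2 ≤ (Real.sqrt ((M : ℝ) / m) * (3 / 2 * H)) ^ 2 := by
      rw [mul_pow, Real.sq_sqrt (by positivity)]
      refine h1.trans (mul_le_mul_of_nonneg_left ?_ (by positivity))
      nlinarith [sq_nonneg H]
    exact (pow_le_pow_iff_left₀ (Finset.sum_nonneg fun _ _ => hf _ _) (by positivity) two_ne_zero).1 h2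
  refine (Finset.sum_le_sum e2).trans ?_
  rw [← Finset.sum_mul]
  have h3 := mul_le_mul_of_nonneg_right (sum_sqrt M) (by positivity : (0 : ℝ) ≤ 3 / 2 * H)
  linarith

/-- the main inequality -/
lemma main {u : ℕ → ℂ} (hu : BMult u) (β : ℝ) (P : Finset ℕ) (hP : ∀ p ∈ P, p.Prime) (R : ℝ) (hR : 0 ≤ R)
    (hPR : ∀ p ∈ P, ∀ q ∈ P, p ≠ q →
      GT.e (((p : ℝ) - q) * β) ≠ 1 ∧ 2 / ‖GT.e (((p : ℝ) - q) * β) - 1‖ ≤ R)
    (H : ℕ) (hH0 : 0 < H) (hH : P.card * R ≤ H) (N L : ℕ) :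
    (∑ p ∈ P, (1 : ℝ) / p) * ∑ n ∈ Icc 1 N, ‖∑ l ∈ range L, u (n + l) * GT.e (((n + l : ℕ) : ℝ) * β)‖
      ≤ L * Real.sqrt (((N + L : ℕ) : ℝ) * (((N + L : ℕ) : ℝ) * (∑ p ∈ P, (1 : ℝ) / p)
          + 2 * (∑ p ∈ P, (1 : ℝ) / p) * P.card))
        + 5 * (L * ((N + L : ℕ) : ℝ)) + 2 * H * N * P.card := by
  set A : ℝ := ∑ p ∈ P, (1 : ℝ) / p with hA
  have hA0 : 0 ≤ A := Finset.sum_nonneg fun p _ => by positivity
  have hHr : (0 : ℝ) < H := by exact_mod_cast hH0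
  set s : ℕ → ℂ := fun k => u k * GT.e ((k : ℝ) * β) with hs
  have hs1 : ∀ k, ‖s k‖ ≤ 1 := fun k => by
    rw [hs]; simp only; rw [norm_mul, GT.norm_e, mul_one]; exact hu.le_one k
  set w : ℕ → ℕ → ℂ := fun p k => u (k / p) * GT.e ((k : ℝ) * β) with hw
  have hw1 : ∀ p k, ‖w p k‖ ≤ 1 := fun p k => by
    rw [hw]; simp only; rw [norm_mul, GT.norm_e, mul_one]; exact hu.le_one _
  -- the error of `u (p m) = u p * u m`
  have herr : ∀ p ∈ P, ∀ k, ‖(if p ∣ k then s k else 0) - u p * (if p ∣ k then w p k else 0)‖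
      ≤ 2 * (if p ^ 2 ∣ k then (1 : ℝ) else 0) := by
    intro p hp k
    have hpp := hP p hp
    by_cases h : p ∣ k
    · obtain ⟨m, rfl⟩ := h
      have hd : p ∣ p * m := dvd_mul_right p m
      rw [if_pos hd, if_pos hd]
      have e1 : w p (p * m) = u m * GT.e (((p * m : ℕ) : ℝ) * β) := by
        rw [hw]; simp only; rw [Nat.mul_div_cancel_left m hpp.pos]
      rw [e1]
      by_cases h2 : p ∣ m
      · have : p ^ 2 ∣ p * m := by rw [sq]; exact Nat.mul_dvd_mul_left p h2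
        rw [if_pos this]
        refine (norm_sub_le _ _).trans ?_
        have k1 := hs1 (p * m)
        have k2 : ‖u p * (u m * GT.e (((p * m : ℕ) : ℝ) * β))‖ ≤ 1 := by
          rw [norm_mul, norm_mul, GT.norm_e, mul_one]
          exact mul_le_one₀ (hu.le_one _) (norm_nonneg _) (hu.le_one _)
        linarith
      · have e2 : s (p * m) = u p * u m * GT.e (((p * m : ℕ) : ℝ) * β) := by
          rw [hs]; simp only; rw [hu.mul p m ((Nat.Prime.coprime_iff_not_dvd hpp).2 h2)]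
        rw [e2, mul_assoc, sub_self, norm_zero]
        split_ifs <;> norm_num
    · rw [if_neg h, if_neg h, mul_zero, sub_zero, norm_zero]
      split_ifs <;> norm_num
  -- one `n`
  have h1 : ∀ n ∈ Icc 1 N, A * ‖∑ l ∈ range L, s (n + l)‖
      ≤ ∑ p ∈ P, ‖∑ l ∈ range L, (if p ∣ n + l then w p (n + l) else 0)‖
        + ∑ p ∈ P, ∑ l ∈ range L, (fun k => 2 * (if p ^ 2 ∣ k then (1 : ℝ) else 0)) (n + l)
        + ∑ l ∈ range L, (fun k => |om P k - A|) (n + l) := by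
    intro n _
    have e1 : (A : ℂ) * ∑ l ∈ range L, s (n + l)
        = ∑ p ∈ P, u p * ∑ l ∈ range L, (if p ∣ n + l then w p (n + l) else 0)
          + ∑ p ∈ P, ∑ l ∈ range L, ((if p ∣ n + l then s (n + l) else 0)
            - u p * (if p ∣ n + l then w p (n + l) else 0))
          - ∑ l ∈ range L, ((om P (n + l) - A : ℝ) : ℂ) * s (n + l) := by
      have e2 : ∀ l, ((om P (n + l) - A : ℝ) : ℂ) * s (n + l)
          = ∑ p ∈ P, (if p ∣ n + l then s (n + l) else 0) - (A : ℂ) * s (n + l) := by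
        intro l
        rw [Complex.ofReal_sub, sub_mul]
        congr 1
        unfold om
        rw [Complex.ofReal_sum, Finset.sum_mul]
        refine Finset.sum_congr rfl fun p _ => ?_
        split_ifs <;> simp
      simp_rw [e2, Finset.sum_sub_distrib]
      rw [Finset.sum_comm (s := range L) (t := P)]
      simp_rw [Finset.mul_sum]
      ring
    have e3 : A * ‖∑ l ∈ range L, s (n + l)‖ = ‖(A : ℂ) * ∑ l ∈ range L, s (n + l)‖ := by
      rw [norm_mul, Complex.norm_real, Real.norm_of_nonneg hA0]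
    rw [e3, e1]
    refine (norm_sub_le _ _).trans (add_le_add ((norm_add_le _ _).trans (add_le_add ?_ ?_)) ?_)
    · refine (norm_sum_le _ _).trans (Finset.sum_le_sum fun p _ => ?_)
      rw [norm_mul]
      exact mul_le_of_le_one_left (norm_nonneg _) (hu.le_one _)
    · refine (norm_sum_le _ _).trans (Finset.sum_le_sum fun p hp => ?_)
      exact (norm_sum_le _ _).trans (Finset.sum_le_sum fun l _ => herr p hp _)
    · refine (norm_sum_le _ _).trans (Finset.sum_le_sum fun l _ => ?_)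
      rw [norm_mul, Complex.norm_real, Real.norm_eq_abs]
      exact mul_le_of_le_one_right (abs_nonneg _) (hs1 _)
  have h2 := Finset.sum_le_sum h1
  rw [← Finset.mul_sum, Finset.sum_add_distrib, Finset.sum_add_distrib] at h2
  -- first sum
  have h3 : ∑ n ∈ Icc 1 N, ∑ p ∈ P, ‖∑ l ∈ range L, (if p ∣ n + l then w p (n + l) else 0)‖
      ≤ 2 * H * N * P.card + 3 * (L * ((N + L : ℕ) : ℝ)) := by
    rw [Finset.sum_comm]
    have k1 : ∀ p ∈ P, ∑ n ∈ Icc 1 N, ‖∑ l ∈ range L, (if p ∣ n + l then w p (n + l) else 0)‖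
        ≤ 2 * H * N + (L / (H : ℝ)) * ∑ m ∈ Icc 1 ((N + L) / p),
          ‖∑ h ∈ range H, u (m + h) * GT.e (((p * (m + h) : ℕ) : ℝ) * β)‖ := by
      intro p hp
      refine (sum_smooth (w p) (hw1 p) p (hP p hp).pos N L H hH0).trans_eq ?_
      have e1 : ∀ k, w p (p * k) = u k * GT.e (((p * k : ℕ) : ℝ) * β) := by
        intro k
        rw [hw]; simp only; rw [Nat.mul_div_cancel_left k (hP p hp).pos]
      simp only [e1]
    refine (Finset.sum_le_sum k1).trans ?_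
    rw [Finset.sum_add_distrib, Finset.sum_const, nsmul_eq_mul, ← Finset.mul_sum]
    have k2 := pairs P (fun p hp => (hP p hp).pos)
      (fun p m => ‖∑ h ∈ range H, u (m + h) * GT.e (((p * (m + h) : ℕ) : ℝ) * β)‖)
      (fun _ _ => norm_nonneg _) H hHr.le (fun m => bessel P β R hR hPR u hu.le_one H hH m) (N + L)
    have k3 := mul_le_mul_of_nonneg_left k2 (by positivity : (0 : ℝ) ≤ (L / (H : ℝ)))
    have k4 : (L / (H : ℝ)) * (3 * H * ((N + L : ℕ) : ℝ)) = 3 * (L * ((N + L : ℕ) : ℝ)) := by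
      field_simp
    rw [k4] at k3
    have k5 : (P.card : ℝ) * (2 * H * N) = 2 * H * N * P.card := by ring
    rw [k5]
    exact add_le_add le_rfl k3
  -- second sum
  have h4 : ∑ n ∈ Icc 1 N, ∑ p ∈ P, ∑ l ∈ range L, (fun k => 2 * (if p ^ 2 ∣ k then (1 : ℝ) else 0)) (n + l)
      ≤ 2 * (L * ((N + L : ℕ) : ℝ)) := by
    rw [Finset.sum_comm]
    have k1 : ∀ p ∈ P, ∑ n ∈ Icc 1 N, ∑ l ∈ range L, (fun k => 2 * (if p ^ 2 ∣ k then (1 : ℝ) else 0)) (n + l)
        ≤ 2 * (L * ((N + L : ℕ) : ℝ)) * ((1 : ℝ) / (p : ℝ) ^ 2) := by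
      intro p hp
      refine (window (fun k => 2 * (if p ^ 2 ∣ k then (1 : ℝ) else 0))
        (fun k => by split_ifs <;> norm_num) N L).trans ?_
      rw [← Finset.mul_sum, sum_ite_dvd]
      have k2 : (((N + L) / p ^ 2 : ℕ) : ℝ) ≤ ((N + L : ℕ) : ℝ) / (p : ℝ) ^ 2 := by
        refine (Nat.cast_div_le (α := ℝ)).trans_eq ?_
        push_cast; ring
      have k3 : (L : ℝ) * (2 * (((N + L) / p ^ 2 : ℕ) : ℝ)) ≤ L * (2 * (((N + L : ℕ) : ℝ) / (p : ℝ) ^ 2)) := by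
        gcongr
      refine k3.trans_eq ?_
      ring
    refine (Finset.sum_le_sum k1).trans ?_
    rw [← Finset.mul_sum]
    exact mul_le_of_le_one_right (by positivity) (sum_inv_sq_le P hP)
  -- third sum
  have h5 := window (fun k => |om P k - A|) (fun k => abs_nonneg _) N L
  have h6 := mul_le_mul_of_nonneg_left (abs_sum_le P hP (N + L)) (Nat.cast_nonneg (α := ℝ) L)
  rw [← hA] at h6
  have h7 : (∑ n ∈ Icc 1 N, ∑ l ∈ range L, (fun k => |om P k - A|) (n + l))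
      ≤ L * Real.sqrt (((N + L : ℕ) : ℝ) * (((N + L : ℕ) : ℝ) * A + 2 * A * P.card)) := h5.trans h6
  linarith

/-- finite sets of primes with a large sum of reciprocals -/
lemma primes_large (B : ℝ) : ∃ P : Finset ℕ, (∀ p ∈ P, p.Prime) ∧ B < ∑ p ∈ P, (1 : ℝ) / p := by
  have h1 := not_summable_one_div_on_primes
  have h2 := (not_summable_iff_tendsto_nat_atTop_of_nonneg
    (f := Set.indicator {p | Nat.Prime p} (fun n : ℕ => (1 : ℝ) / n))
    (fun n => Set.indicator_nonneg (fun _ _ => by positivity) n)).1 h1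
  obtain ⟨J, hJ⟩ := (h2.eventually (eventually_gt_atTop B)).exists
  refine ⟨(range J).filter Nat.Prime, fun p hp => (mem_filter.1 hp).2, ?_⟩
  rw [Finset.sum_filter]
  simpa only [Set.indicator_apply, Set.mem_ofPred_eq] using hJ

end IR

/-- LEMMA IR: short exponential sums of a bounded multiplicative function at an irrational frequency. -/
theorem short_irr {u : ℕ → ℂ} (hu : BMult u) {β : ℝ} (hβ : Irrational β) (η : ℝ) (hη : 0 < η) :
    ∃ L0 : ℕ, ∀ L ≥ L0, ∃ N0 : ℕ, ∀ N ≥ N0,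
      ∑ n ∈ Icc 1 N, ‖∑ l ∈ range L, u (n + l) * GT.e (((n + l : ℕ) : ℝ) * β)‖ ≤ η * L * N := by
  obtain ⟨P, hP, hPA⟩ := IR.primes_large (max 1 (max (128 / η ^ 2) (40 / η)))
  set A : ℝ := ∑ p ∈ P, (1 : ℝ) / p with hA
  have hA1 : 1 < A := (le_max_left _ _).trans_lt hPA
  have hA2 : 128 / η ^ 2 < A := ((le_max_left _ _).trans (le_max_right _ _)).trans_lt hPA
  have hA3 : 40 / η < A := ((le_max_right _ _).trans (le_max_right _ _)).trans_lt hPA
  have hA0 : 0 < A := by linarith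
  -- the phases
  have hne : ∀ p ∈ P, ∀ q ∈ P, p ≠ q → GT.e (((p : ℝ) - q) * β) ≠ 1 := by
    intro p _ q _ hpq h
    unfold GT.e at h
    rw [Complex.exp_eq_one_iff] at h
    obtain ⟨n, hn⟩ := h
    have hpi : (2 * (Real.pi : ℂ) * Complex.I) ≠ 0 := Complex.two_pi_I_ne_zero
    have h1 : ((((p : ℝ) - q) * β : ℝ) : ℂ) = n := by
      refine mul_left_cancel₀ hpi ?_
      push_cast at hn ⊢
      linear_combination hn
    have h2 : ((p : ℝ) - q) * β = n := by exact_mod_cast h1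
    have h3 : ((p : ℝ) - q) ≠ 0 := by
      rw [sub_ne_zero]; exact_mod_cast hpq
    apply hβ
    refine ⟨(n : ℚ) / ((p : ℚ) - q), ?_⟩
    push_cast
    rw [div_eq_iff h3, ← h2]; ring
  set R : ℝ := ∑ z ∈ P ×ˢ P, 2 / ‖GT.e (((z.1 : ℝ) - z.2) * β) - 1‖ with hR
  have hR0 : 0 ≤ R := Finset.sum_nonneg fun _ _ => by positivity
  have hPR : ∀ p ∈ P, ∀ q ∈ P, p ≠ q →
      GT.e (((p : ℝ) - q) * β) ≠ 1 ∧ 2 / ‖GT.e (((p : ℝ) - q) * β) - 1‖ ≤ R := by
    intro p hp q hq hpq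
    refine ⟨hne p hp q hq hpq, ?_⟩
    have hz : (p, q) ∈ P ×ˢ P := mem_product.2 ⟨hp, hq⟩
    have := Finset.single_le_sum (s := P ×ˢ P) (a := (p, q))
      (f := fun z : ℕ × ℕ => 2 / ‖GT.e (((z.1 : ℝ) - z.2) * β) - 1‖)
      (fun z _ => div_nonneg zero_le_two (norm_nonneg _)) hz
    rw [hR]
    exact this
  obtain ⟨H1, hH1⟩ := exists_nat_ge ((P.card : ℝ) * R)
  set H : ℕ := H1 + 1 with hHdef
  have hH : (P.card : ℝ) * R ≤ H := hH1.trans (by rw [hHdef]; push_cast; linarith)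
  obtain ⟨L0, hL0⟩ := exists_nat_ge (4 * H * P.card / (η * A))
  refine ⟨L0, fun L hL => ⟨max L (2 * P.card), fun N hN => ?_⟩⟩
  have hNL : (L : ℝ) ≤ N := by exact_mod_cast (le_max_left _ _).trans hN
  have hNP : 2 * (P.card : ℝ) ≤ N := by exact_mod_cast (le_max_right _ _).trans hN
  have hN0 : (0 : ℝ) ≤ N := Nat.cast_nonneg _
  have hLr0 : (0 : ℝ) ≤ L := Nat.cast_nonneg _
  have hm := IR.main hu β P hP R hR0 hPR H (Nat.succ_pos _) hH N L
  rw [← hA] at hm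
  have hM : (((N + L : ℕ) : ℝ)) = N + L := by push_cast; ring
  rw [hM] at hm
  -- the square root
  have hsq : Real.sqrt (((N : ℝ) + L) * (((N : ℝ) + L) * A + 2 * A * P.card)) ≤ (2 * N) * (η / 8 * A) := by
    refine Real.sqrt_le_iff.2 ⟨by positivity, ?_⟩
    have k1 : 128 < η ^ 2 * A := by
      rw [div_lt_iff₀ (by positivity)] at hA2; linarith
    have k2 : ((N : ℝ) + L) * (((N : ℝ) + L) * A + 2 * A * P.card) ≤ (2 * N) * (4 * N * A) := by
      have i1 : (N : ℝ) + L ≤ 2 * N := by linarith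
      have i2 : ((N : ℝ) + L) * A + 2 * A * P.card ≤ 4 * N * A := by nlinarith
      exact mul_le_mul i1 i2 (by positivity) (by positivity)
    refine k2.trans ?_
    have k3 : (2 * (N : ℝ)) * (4 * N * A) = (N ^ 2 * A / 16) * 128 := by ring
    have k4 : ((2 * (N : ℝ)) * (η / 8 * A)) ^ 2 = (N ^ 2 * A / 16) * (η ^ 2 * A) := by ring
    rw [k3, k4]
    exact mul_le_mul_of_nonneg_left k1.le (by positivity)
  have h5 : 40 ≤ η * A := by
    rw [div_lt_iff₀ hη] at hA3; linarith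
  have hLL : 4 * (H : ℝ) * P.card ≤ η * A * L := by
    have : (L0 : ℝ) ≤ L := by exact_mod_cast hL
    have h6 := hL0.trans this
    rw [div_le_iff₀ (by positivity)] at h6
    linarith
  set X : ℝ := ∑ n ∈ Icc 1 N, ‖∑ l ∈ range L, u (n + l) * GT.e (((n + l : ℕ) : ℝ) * β)‖ with hX
  have h7 : A * X ≤ A * (η * L * N) := by
    refine hm.trans ?_
    have i1 : (L : ℝ) * Real.sqrt (((N : ℝ) + L) * (((N : ℝ) + L) * A + 2 * A * P.card))
        ≤ L * ((2 * N) * (η / 8 * A)) := mul_le_mul_of_nonneg_left hsq hLr0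
    have i2 : 5 * ((L : ℝ) * ((N : ℝ) + L)) ≤ L * N * (η * A / 4) := by
      have j1 : (L : ℝ) * ((N : ℝ) + L) ≤ L * (2 * N) := mul_le_mul_of_nonneg_left (by linarith) hLr0
      have j2 : (L : ℝ) * N * 40 ≤ L * N * (η * A) := mul_le_mul_of_nonneg_left h5 (by positivity)
      linarith
    have i3 : 2 * (H : ℝ) * N * P.card ≤ η * A * L / 2 * N := by
      have := mul_le_mul_of_nonneg_right hLL hN0
      linarith
    nlinarith
  exact le_of_mul_le_mul_left h7 hA0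

end Pool.Agent.Lib.MP_9fe581_an.HD
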