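import Pool.Agent.Lib.MP_9fe581_an.HD.ShortIrr
import Pool.Agent.Lib.MP_9fe581_an.HD.NonErg

/-!
# HD: orthogonality to irrational phases on short intervals
-/

open Finset MeasureTheory Filter Topology
open scoped ComplexConjugate

namespace Pool.Agent.Lib.MP_9fe581_an.HD

/-- Bounded multiplicative functions are orthogonal to `w^n` on short intervals, if `w` is not a root of unity. -/
theorem shortOrth_irr {u : ℕ → ℂ} (hu : BMult u) {w : ℂ} (hw : ‖w‖ = 1) (hq : ∀ q : ℕ, 0 < q → w ^ q ≠ 1) :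
    ShortOrth u w := by
  set β : ℝ := Complex.arg w / (2 * Real.pi) with hβdef
  have hpi : (2 * Real.pi) ≠ 0 := by positivity
  have hw1 : w = GT.e β := by
    have h := Complex.norm_mul_exp_arg_mul_I w
    rw [hw, Complex.ofReal_one, one_mul] at h
    rw [← h]
    unfold GT.e
    congr 1
    rw [hβdef]
    push_cast
    have : (2 * (Real.pi : ℂ)) ≠ 0 := by exact_mod_cast hpi
    field_simp
  have hpow : ∀ n : ℕ, GT.e ((n : ℝ) * β) = w ^ n := by
    intro n
    induction n with
    | zero => simp [GT.e_zero]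
    | succ n ih =>
      rw [pow_succ, ← ih, hw1, ← GT.e_add]
      congr 1
      push_cast; ring
  have hβ : Irrational β := by
    rintro ⟨r, hr⟩
    have hd : 0 < r.den := r.pos
    apply hq r.den hd
    rw [← hpow, ← hr]
    have h1 : ((r.den : ℕ) : ℝ) * ((r : ℚ) : ℝ) = ((r.num : ℤ) : ℝ) := by
      have h2 := Rat.den_mul_eq_num r
      exact_mod_cast h2
    rw [h1]
    exact GT.e_int _
  intro η hη
  obtain ⟨L0, hL0⟩ := short_irr hu hβ η hη
  refine ⟨L0, fun L hL => ?_⟩
  obtain ⟨N0, hN0⟩ := hL0 L hL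
  refine ⟨N0, fun N hN => ?_⟩
  refine le_of_eq_of_le (Finset.sum_congr rfl fun n _ => ?_) (hN0 N hN)
  have h1 : ∑ l ∈ range L, u (n + l) * GT.e (((n + l : ℕ) : ℝ) * β)
      = w ^ n * ∑ l ∈ range L, u (n + l) * w ^ l := by
    rw [Finset.mul_sum]
    refine Finset.sum_congr rfl fun l _ => ?_
    rw [hpow, pow_add]; ring
  rw [h1, norm_mul, norm_pow, hw, one_pow, one_mul]

end Pool.Agent.Lib.MP_9fe581_an.HD
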