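import Pool.Agent.Lib.MP_9fe581_an.HD.Defs

/-!
# HD: the Fourier tail of a function by its modulus of continuity
-/

open Finset MeasureTheory Filter Topology UnitAddTorus
open scoped ComplexConjugate Matrix

namespace Pool.Agent.Lib.MP_9fe581_an.HD

section Bessel

noncomputable local instance : MeasureSpace UnitAddCircle := ⟨AddCircle.haarAddCircle⟩

local instance : Measure.IsAddHaarMeasure (volume : Measure UnitAddCircle) :=
  inferInstanceAs (Measure.IsAddHaarMeasure AddCircle.haarAddCircle)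

local instance : IsProbabilityMeasure (volume : Measure UnitAddCircle) :=
  inferInstanceAs (IsProbabilityMeasure AddCircle.haarAddCircle)

variable {d : ℕ}

/-- Bessel's inequality for a continuous function which is bounded by `κ`. -/
theorem t1_bessel (G : Td d → ℂ) (hG : Continuous G) (κ : ℝ) (hκ : ∀ x, ‖G x‖ ≤ κ)
    (S : Finset (Fin d → ℤ)) :
    ∑ a ∈ S, ‖∫ t, mFourier (-a) t * G t ∂mT d‖ ^ 2 ≤ κ ^ 2 := by
  have h0 : 0 ≤ κ := (norm_nonneg _).trans (hκ 0)
  have h1 := hasSum_sq_mFourierCoeff (ContinuousMap.toLp 2 volume ℂ (⟨G, hG⟩ : C(Td d, ℂ)))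
  have h2 := sum_le_hasSum S (fun i _ => sq_nonneg _) h1
  simp only [mFourierCoeff_toLp] at h2
  have h3 : ∀ a, mFourierCoeff (⟨G, hG⟩ : C(Td d, ℂ)) a = ∫ t, mFourier (-a) t * G t ∂mT d := by
    intro a
    rfl
  simp only [h3] at h2
  refine h2.trans ?_
  have h4 : ∫ t, ‖(ContinuousMap.toLp 2 volume ℂ (⟨G, hG⟩ : C(Td d, ℂ))) t‖ ^ 2 =
      ∫ t, ‖G t‖ ^ 2 := by
    refine integral_congr_ae ?_
    filter_upwards [ContinuousMap.coeFn_toLp (𝕜 := ℂ) (p := 2) volume (⟨G, hG⟩ : C(Td d, ℂ))]
      with t ht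
    rw [ht]
    rfl
  rw [h4]
  have h5 : ∫ t : Td d, ‖G t‖ ^ 2 ≤ ∫ _ : Td d, κ ^ 2 := by
    refine integral_mono_of_nonneg (Filter.Eventually.of_forall fun t => sq_nonneg _)
      (integrable_const _) (Filter.Eventually.of_forall fun t => ?_)
    exact pow_le_pow_left₀ (norm_nonneg _) (hκ t) 2
  refine h5.trans ?_
  rw [integral_const]
  simp

end Bessel

variable {d : ℕ}

theorem t1_mFourier_add (a : Fin d → ℤ) (x y : Td d) :
    mFourier a (x + y) = mFourier a x * mFourier a y := by
  simp only [mFourier, ContinuousMap.coe_mk, ← Finset.prod_mul_distrib, Pi.add_apply]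
  refine Finset.prod_congr rfl fun i _ => ?_
  simp only [fourier_apply, smul_add, AddCircle.toCircle_add, Circle.coe_mul]

theorem t1_mFourier_single (a : Fin d → ℤ) (i : Fin d) (s : ℝ) :
    mFourier a (Pi.single i (s : UnitAddCircle)) =
      Complex.exp (2 * Real.pi * Complex.I * a i * s) := by
  simp only [mFourier, ContinuousMap.coe_mk]
  rw [Finset.prod_eq_single i]
  · rw [Pi.single_eq_same, fourier_coe_apply]
    simp
  · intro j _ hj
    rw [Pi.single_eq_of_ne hj, fourier_eval_zero]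
  · intro h
    exact absurd (mem_univ i) h

/-- The coefficients of a translate. -/
theorem t1_coeff (F : Td d → ℂ) (hc : Continuous F) (a : Fin d → ℤ) (i : Fin d) (s : ℝ) :
    ∫ t, mFourier (-a) t * (F (t + Pi.single i (s : UnitAddCircle)) - F t) ∂mT d =
      (Complex.exp (2 * Real.pi * Complex.I * a i * s) - 1) *
        ∫ t, mFourier (-a) t * F t ∂mT d := by
  have hi1 : Integrable (fun t => mFourier (-a) t * F t) (mT d) := by
    refine Continuous.integrable_of_hasCompactSupport (by fun_prop)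
      (HasCompactSupport.of_compactSpace _)
  have hi2 : Integrable (fun t => mFourier (-a) t * F (t + Pi.single i (s : UnitAddCircle)))
      (mT d) := by
    refine Continuous.integrable_of_hasCompactSupport (by fun_prop)
      (HasCompactSupport.of_compactSpace _)
  have h1 : ∫ t, mFourier (-a) t * F (t + Pi.single i (s : UnitAddCircle)) ∂mT d =
      Complex.exp (2 * Real.pi * Complex.I * a i * s) *
        ∫ t, mFourier (-a) t * F t ∂mT d := by
    rw [← integral_add_right_eq_self (μ := mT d) (fun t => mFourier (-a) t * F t)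
      (Pi.single i (s : UnitAddCircle)), ← integral_const_mul]
    refine integral_congr_ae (Filter.Eventually.of_forall fun t => ?_)
    simp only
    rw [t1_mFourier_add, t1_mFourier_single]
    have h2 : Complex.exp (2 * Real.pi * Complex.I * a i * s) *
        Complex.exp (2 * Real.pi * Complex.I * ((-a) i : ℤ) * s) = 1 := by
      rw [← Complex.exp_add, ← Complex.exp_zero]
      congr 1
      push_cast [Pi.neg_apply]
      ring
    linear_combination (-(mFourier (-a) t * F (t + Pi.single i (s : UnitAddCircle)))) * h2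
  have h3 : ∀ t, mFourier (-a) t * (F (t + Pi.single i (s : UnitAddCircle)) - F t) =
      mFourier (-a) t * F (t + Pi.single i (s : UnitAddCircle)) - mFourier (-a) t * F t :=
    fun t => mul_sub _ _ _
  simp only [h3]
  rw [integral_sub hi2 hi1, h1]
  ring

theorem t1_norm_sq (m : ℤ) (s : ℝ) :
    ‖Complex.exp (2 * Real.pi * Complex.I * m * s) - 1‖ ^ 2 =
      2 - 2 * Real.cos (2 * Real.pi * m * s) := by
  have h1 : (2 * Real.pi * Complex.I * m * s : ℂ) =
      ((2 * Real.pi * m * s : ℝ) : ℂ) * Complex.I := by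
    push_cast; ring
  rw [h1, ← Complex.normSq_eq_norm_sq, Complex.exp_mul_I, ← Complex.ofReal_cos,
    ← Complex.ofReal_sin, Complex.normSq_apply]
  simp only [Complex.sub_re, Complex.add_re, Complex.ofReal_re, Complex.mul_re, Complex.I_re,
    mul_zero, Complex.ofReal_im, Complex.I_im, mul_one, sub_self, add_zero, Complex.one_re,
    Complex.sub_im, Complex.add_im, Complex.mul_im, zero_add, Complex.one_im, sub_zero]
  nlinarith [Real.sin_sq_add_cos_sq (2 * Real.pi * m * s)]

theorem t1_integral (m : ℤ) (H : ℕ) (hH : 1 ≤ H) (hm : (H : ℤ) < |m|) :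
    1 / (H : ℝ) ≤ ∫ s in (0 : ℝ)..1 / H, (2 - 2 * Real.cos (2 * Real.pi * m * s)) := by
  have hH0 : (0 : ℝ) < H := by exact_mod_cast hH
  have hm0 : (m : ℝ) ≠ 0 := by
    intro h
    have : m = 0 := by exact_mod_cast h
    rw [this] at hm
    simp at hm
    omega
  set w : ℝ := 2 * Real.pi * m with hw
  have hw0 : w ≠ 0 := mul_ne_zero (mul_ne_zero two_ne_zero Real.pi_ne_zero) hm0
  have h1 : ∫ s in (0 : ℝ)..1 / H, (2 - 2 * Real.cos (w * s)) =
      2 / H - 2 * (Real.sin (w * (1 / H)) / w) := by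
    rw [intervalIntegral.integral_sub (by simp) (by
      apply Continuous.intervalIntegrable; fun_prop), intervalIntegral.integral_const,
      intervalIntegral.integral_const_mul,
      intervalIntegral.integral_comp_mul_left (fun x => Real.cos x) hw0, integral_cos]
    simp only [mul_zero, Real.sin_zero, sub_zero, smul_eq_mul]
    field_simp
  rw [h1]
  have h2 : |Real.sin (w * (1 / H)) / w| ≤ 1 / (2 * H) := by
    rw [abs_div]
    have h3 : 2 * (H : ℝ) ≤ |w| := by
      rw [hw, abs_mul, abs_of_pos (by positivity : (0 : ℝ) < 2 * Real.pi)]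
      have h4 : (H : ℝ) ≤ |(m : ℝ)| := by
        have : ((H : ℤ) : ℝ) < ((|m| : ℤ) : ℝ) := by exact_mod_cast hm
        rw [Int.cast_abs] at this
        exact le_of_lt (by exact_mod_cast this)
      nlinarith [Real.pi_gt_three, abs_nonneg (m : ℝ)]
    calc |Real.sin (w * (1 / H))| / |w| ≤ 1 / |w| := by
          gcongr
          exact Real.abs_sin_le_one _
      _ ≤ 1 / (2 * H) := by
          gcongr
  have h5 := (abs_le.1 h2).2
  have h6 : 2 / (H : ℝ) - 2 * (1 / (2 * H)) = 1 / H := by
    field_simp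
    ring
  linarith

/-- One coordinate. -/
theorem t1_coord (F : Td d → ℂ) (hc : Continuous F) (H : ℕ) (hH : 1 ≤ H) (κ : ℝ)
    (h : ∀ x y : Td d, dist x y ≤ 1 / (H : ℝ) → ‖F x - F y‖ ≤ κ) (i : Fin d)
    (S : Finset (Fin d → ℤ)) (hS : ∀ a ∈ S, (H : ℤ) < |a i|) :
    ∑ a ∈ S, ‖∫ t, mFourier (-a) t * F t ∂mT d‖ ^ 2 ≤ κ ^ 2 := by
  have hH0 : (0 : ℝ) < H := by exact_mod_cast hH
  have h1 : ∀ s ∈ Set.Icc (0 : ℝ) (1 / H),
      ∑ a ∈ S, ‖∫ t, mFourier (-a) t * F t ∂mT d‖ ^ 2 *
        (2 - 2 * Real.cos (2 * Real.pi * (a i : ℤ) * s)) ≤ κ ^ 2 := by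
    intro s hs
    have h2 := t1_bessel (fun x => F (x + Pi.single i (s : UnitAddCircle)) - F x)
      (by fun_prop) κ (by
        intro x
        refine h _ _ ?_
        rw [dist_pi_le_iff (by positivity)]
        intro j
        rw [Pi.add_apply, dist_eq_norm, add_sub_cancel_left]
        by_cases hj : j = i
        · subst hj
          rw [Pi.single_eq_same]
          refine (QuotientAddGroup.norm_mk_le_norm (S := AddSubgroup.zmultiples (1 : ℝ))
            (m := s)).trans ?_
          rw [Real.norm_eq_abs, abs_of_nonneg hs.1]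
          exact hs.2
        · rw [Pi.single_eq_of_ne hj, norm_zero]
          positivity) S
    refine le_trans (le_of_eq ?_) h2
    refine Finset.sum_congr rfl fun a _ => ?_
    rw [t1_coeff F hc, norm_mul, mul_pow, t1_norm_sq]
    ring
  have h3 : ∫ s in (0 : ℝ)..1 / H, ∑ a ∈ S, ‖∫ t, mFourier (-a) t * F t ∂mT d‖ ^ 2 *
        (2 - 2 * Real.cos (2 * Real.pi * (a i : ℤ) * s)) ≤ ∫ _ in (0 : ℝ)..1 / H, κ ^ 2 := by
    refine intervalIntegral.integral_mono_on (by positivity) ?_ ?_ h1
    · apply Continuous.intervalIntegrable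
      fun_prop
    · simp
  rw [intervalIntegral.integral_const, sub_zero, smul_eq_mul,
    intervalIntegral.integral_finsetSum (fun a _ => by
      apply Continuous.intervalIntegrable; fun_prop)] at h3
  have h4 : ∑ a ∈ S, ‖∫ t, mFourier (-a) t * F t ∂mT d‖ ^ 2 * (1 / (H : ℝ)) ≤
      ∑ a ∈ S, ∫ s in (0 : ℝ)..1 / H, ‖∫ t, mFourier (-a) t * F t ∂mT d‖ ^ 2 *
        (2 - 2 * Real.cos (2 * Real.pi * (a i : ℤ) * s)) := by
    refine Finset.sum_le_sum fun a ha => ?_
    rw [intervalIntegral.integral_const_mul]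
    exact mul_le_mul_of_nonneg_left (t1_integral (a i) H hH (hS a ha)) (sq_nonneg _)
  rw [← Finset.sum_mul] at h4
  have h5 : (∑ a ∈ S, ‖∫ t, mFourier (-a) t * F t ∂mT d‖ ^ 2) * (1 / (H : ℝ)) ≤
      κ ^ 2 * (1 / (H : ℝ)) := by
    rw [mul_comm (κ ^ 2)]
    exact h4.trans h3
  exact le_of_mul_le_mul_right h5 (by positivity)

theorem tail_le (F : Td d → ℂ) (hc : Continuous F) (H : ℕ) (hH : 1 ≤ H) (κ : ℝ)
    (h : ∀ x y : Td d, dist x y ≤ 1 / (H : ℝ) → ‖F x - F y‖ ≤ κ) : tl F H ≤ d * κ ^ 2 := by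
  unfold tl
  refine tsum_le_of_sum_le' (by positivity) fun S => ?_
  calc ∑ a ∈ S, (if (∃ i, (H : ℤ) < |a i|) then ‖∫ t, mFourier (-a) t * F t ∂mT d‖ ^ 2 else 0)
      ≤ ∑ a ∈ S, ∑ i : Fin d, (if (H : ℤ) < |a i| then
          ‖∫ t, mFourier (-a) t * F t ∂mT d‖ ^ 2 else 0) := by
        refine Finset.sum_le_sum fun a _ => ?_
        have h0 : ∀ i ∈ (univ : Finset (Fin d)), (0 : ℝ) ≤ if (H : ℤ) < |a i| then
            ‖∫ t, mFourier (-a) t * F t ∂mT d‖ ^ 2 else 0 := by
          intro i _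
          split_ifs
          · exact sq_nonneg _
          · exact le_rfl
        split_ifs with h1
        · obtain ⟨i, hi⟩ := h1
          refine le_trans ?_ (Finset.single_le_sum h0 (mem_univ i))
          rw [if_pos hi]
        · exact Finset.sum_nonneg h0
    _ = ∑ i : Fin d, ∑ a ∈ S.filter (fun a => (H : ℤ) < |a i|),
          ‖∫ t, mFourier (-a) t * F t ∂mT d‖ ^ 2 := by
        rw [Finset.sum_comm]
        refine Finset.sum_congr rfl fun i _ => ?_
        rw [Finset.sum_filter]
    _ ≤ ∑ _i : Fin d, κ ^ 2 := by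
        refine Finset.sum_le_sum fun i _ => ?_
        exact t1_coord F hc H hH κ h i _ fun a ha => (Finset.mem_filter.1 ha).2
    _ = d * κ ^ 2 := by
        rw [Finset.sum_const, Finset.card_univ, Fintype.card_fin, nsmul_eq_mul]

end Pool.Agent.Lib.MP_9fe581_an.HD
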