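import Pool.Agent.Lib.MP_9fe581_an.HD.Final

/-!
# HD: torus fibres, additive notation
-/

set_option autoImplicit false

open Finset MeasureTheory Filter Topology UnitAddTorus
open scoped ComplexConjugate Matrix

namespace Pool.Agent.Lib.MP_9fe581_an.HD

/-- the torus, written multiplicatively -/
abbrev MTd (m : ℕ) := Multiplicative (Td m)

instance (m : ℕ) : MeasurableSpace (MTd m) := inferInstanceAs (MeasurableSpace (Td m))
instance (m : ℕ) : BorelSpace (MTd m) := inferInstanceAs (BorelSpace (Td m))
instance (m : ℕ) : ConnectedSpace (MTd m) := inferInstanceAs (ConnectedSpace (Td m))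

/-- Haar measure -/
noncomputable def mM (m : ℕ) : Measure (MTd m) := mT m

instance (m : ℕ) : IsProbabilityMeasure (mM m) := inferInstanceAs (IsProbabilityMeasure (mT m))

instance (m : ℕ) : (mM m).IsHaarMeasure where
  lt_top_of_isCompact := fun _ hK => IsFiniteMeasureOnCompacts.lt_top_of_isCompact (μ := mT m) hK
  map_mul_left_eq_self := fun g => map_add_left_eq_self (mT m) (Multiplicative.toAdd g)
  open_pos := fun _ hU hne => IsOpen.measure_ne_zero (mT m) hU hne

/-- the diagonal representation -/
noncomputable def rhoT (m : ℕ) (y : MTd m) : Matrix (Fin m) (Fin m) ℂ :=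
  Matrix.diagonal fun i => fourier 1 (Multiplicative.toAdd y i)

theorem rhoT_urep (m : ℕ) : URep (rhoT m) where
  cont := by
    unfold rhoT
    refine Continuous.matrix_diagonal ?_
    refine continuous_pi fun i => ?_
    exact (fourier 1).continuous.comp ((continuous_apply i).comp continuous_toAdd)
  one := by
    unfold rhoT
    rw [← Matrix.diagonal_one]
    congr 1
    funext i
    simp
  mul := by
    intro g h
    unfold rhoT
    rw [Matrix.diagonal_mul_diagonal]
    congr 1
    funext i
    rw [toAdd_mul, Pi.add_apply]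
    simp [fourier_apply, AddCircle.toCircle_add]
  uni := by
    intro g
    unfold rhoT
    rw [Matrix.diagonal_conjTranspose, Matrix.diagonal_mul_diagonal, ← Matrix.diagonal_one]
    congr 1
    funext i
    simp only [Pi.star_apply, RCLike.star_def]
    rw [← fourier_neg, ← fourier_add']
    simp

theorem rhoT_inj (m : ℕ) : Function.Injective (rhoT m) := by
  intro g h hgh
  unfold rhoT at hgh
  have h1 := Matrix.diagonal_injective hgh
  apply Multiplicative.toAdd.injective
  funext i
  have h2 := congrFun h1 i
  simp only [fourier_one] at h2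
  exact AddCircle.injective_toCircle one_ne_zero (Subtype.ext h2)

theorem unifOrth_torus {d m : ℕ} {α : Td d} {φ : Td d → Td m} (hφ : Continuous φ)
    (hT : Ergodic (fun z : Td d × Td m => (z.1 + α, z.2 + φ z.1)) ((mT d).prod (mT m))) (f : C(Td d × Td m, ℂ)) :
    UnifOrth (fun z : Td d × Td m => (z.1 + α, z.2 + φ z.1)) (fun z => f z - ∫ w, f w ∂(mT d).prod (mT m)) := by
  have h1 : skew α (fun x => (Multiplicative.ofAdd (φ x) : MTd m)) =
      fun z : Td d × Td m => (z.1 + α, z.2 + φ z.1) := by
    funext z
    unfold skew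
    refine Prod.ext rfl ?_
    exact add_comm (φ z.1) z.2
  have h2 : Ergodic (skew α (fun x => (Multiplicative.ofAdd (φ x) : MTd m))) ((mT d).prod (mM m)) := by
    rw [h1]
    exact hT
  have h3 := unifOrth_final (μ := mM m) (rhoT_urep m) (rhoT_inj m) (continuous_ofAdd.comp hφ) h2 f
  have h4 : skew α (Multiplicative.ofAdd ∘ φ : Td d → MTd m) =
      fun z : Td d × Td m => (z.1 + α, z.2 + φ z.1) := h1
  rw [h4] at h3
  exact h3

end Pool.Agent.Lib.MP_9fe581_an.HD
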