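import Pool.Agent.Lib.MP_9fe581_an.HD.CBasic

/-!
# HD, module V1: the inequality of van der Corput for the matrix cocycle
-/

open Finset MeasureTheory Filter Topology UnitAddTorus
open scoped ComplexConjugate Matrix

namespace Pool.Agent.Lib.MP_9fe581_an.HD

variable {d : ℕ} {ι : Type} [Fintype ι] [DecidableEq ι]
variable {α : Td d} {A : Td d → Matrix ι ι ℂ} {Q : Matrix ι ι ℂ}

theorem vdc_shift (s : ℕ → ℂ) (hs : ∀ n, ‖s n‖ ≤ 1) (M l : ℕ) :
    ‖∑ m ∈ Icc 1 M, s m - ∑ m ∈ Icc 1 M, s (m + l)‖ ≤ 2 * l := by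
  induction l with
  | zero => simp
  | succ l ih =>
    have h1 : ∑ m ∈ Icc 1 M, s (m + l) - ∑ m ∈ Icc 1 M, s (m + (l + 1)) =
        s (1 + l) - s (M + 1 + l) := by
      rw [← Finset.sum_sub_distrib]
      have h2 : Icc 1 M = Ico 1 (M + 1) := by
        ext m
        simp only [Finset.mem_Icc, Finset.mem_Ico]
        omega
      rw [h2, Finset.sum_Ico_eq_sum_range]
      have h3 : ∀ m ∈ range (M + 1 - 1), s (1 + m + l) - s (1 + m + (l + 1)) =
          (fun m => s (1 + m + l)) m - (fun m => s (1 + m + l)) (m + 1) := by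
        intro m _
        simp only
        congr 2
        ring
      rw [Finset.sum_congr rfl h3, Finset.sum_range_sub']
      simp only [Nat.add_sub_cancel, add_zero]
      rw [Nat.add_comm 1 M]
    have h4 : ∑ m ∈ Icc 1 M, s m - ∑ m ∈ Icc 1 M, s (m + (l + 1)) =
        (∑ m ∈ Icc 1 M, s m - ∑ m ∈ Icc 1 M, s (m + l)) + (s (1 + l) - s (M + 1 + l)) := by
      rw [← h1]
      ring
    rw [h4]
    refine (norm_add_le _ _).trans ?_
    have h5 := (norm_sub_le (s (1 + l)) (s (M + 1 + l))).trans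
      (add_le_add (hs (1 + l)) (hs (M + 1 + l)))
    push_cast
    linarith

theorem vdc_avg (s : ℕ → ℂ) (hs : ∀ n, ‖s n‖ ≤ 1) (M L : ℕ) (hL : 0 < L) :
    ‖∑ m ∈ Icc 1 M, s m - ∑ m ∈ Icc 1 M, (1 / (L : ℂ)) * ∑ l ∈ range L, s (m + l)‖ ≤ 2 * L := by
  have hL' : (L : ℂ) ≠ 0 := Nat.cast_ne_zero.2 hL.ne'
  have hL'' : (0 : ℝ) < L := Nat.cast_pos.2 hL
  have h1 : ∑ m ∈ Icc 1 M, s m - ∑ m ∈ Icc 1 M, (1 / (L : ℂ)) * ∑ l ∈ range L, s (m + l) =
      (1 / (L : ℂ)) * ∑ l ∈ range L, (∑ m ∈ Icc 1 M, s m - ∑ m ∈ Icc 1 M, s (m + l)) := by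
    rw [Finset.sum_sub_distrib, Finset.sum_const, Finset.card_range, nsmul_eq_mul, mul_sub,
      ← mul_assoc, one_div, inv_mul_cancel₀ hL', one_mul, ← Finset.mul_sum, Finset.sum_comm]
  rw [h1, norm_mul]
  have h2 : ‖(1 / (L : ℂ))‖ = 1 / L := by
    rw [norm_div, norm_one, Complex.norm_natCast]
  rw [h2]
  have h3 : ‖∑ l ∈ range L, (∑ m ∈ Icc 1 M, s m - ∑ m ∈ Icc 1 M, s (m + l))‖ ≤
      ∑ l ∈ range L, (2 * (L : ℝ)) := by
    refine (norm_sum_le _ _).trans (Finset.sum_le_sum fun l hl => ?_)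
    refine (vdc_shift s hs M l).trans ?_
    have h4 : (l : ℝ) ≤ L := by
      exact_mod_cast (Finset.mem_range.1 hl).le
    linarith
  rw [Finset.sum_const, Finset.card_range, nsmul_eq_mul] at h3
  calc 1 / (L : ℝ) * ‖∑ l ∈ range L, (∑ m ∈ Icc 1 M, s m - ∑ m ∈ Icc 1 M, s (m + l))‖
      ≤ 1 / (L : ℝ) * (L * (2 * L)) := mul_le_mul_of_nonneg_left h3 (by positivity)
    _ = 2 * L := by
      field_simp

theorem vdc_cs {ι' : Type} [Fintype ι'] (W : ι' → ι' → ℂ) (y z : ι' → ℂ)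
    (hy : ∑ b, ‖y b‖ ^ 2 ≤ 1) (hz : ∑ b, ‖z b‖ ^ 2 ≤ 1) (Φ : ℝ)
    (hΦ : ∑ b, ∑ f, ‖W b f‖ ^ 2 ≤ Φ) :
    ‖∑ b, ∑ f, W b f * (y b * conj (z f))‖ ≤ Real.sqrt Φ := by
  have h1 : ‖∑ b, ∑ f, W b f * (y b * conj (z f))‖ ≤
      ∑ p : ι' × ι', ‖W p.1 p.2‖ * (‖y p.1‖ * ‖z p.2‖) := by
    rw [← Finset.univ_product_univ, Finset.sum_product]
    refine (norm_sum_le _ _).trans (Finset.sum_le_sum fun b _ => ?_)
    refine (norm_sum_le _ _).trans (Finset.sum_le_sum fun f _ => ?_)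
    rw [norm_mul, norm_mul, Complex.norm_conj]
  have h2 := Real.sum_mul_le_sqrt_mul_sqrt (Finset.univ : Finset (ι' × ι'))
    (fun p => ‖W p.1 p.2‖) (fun p => ‖y p.1‖ * ‖z p.2‖)
  have h3 : ∑ p : ι' × ι', ‖W p.1 p.2‖ ^ 2 = ∑ b, ∑ f, ‖W b f‖ ^ 2 := by
    rw [← Finset.univ_product_univ, Finset.sum_product]
  have h4 : ∑ p : ι' × ι', (‖y p.1‖ * ‖z p.2‖) ^ 2 ≤ 1 := by
    rw [← Finset.univ_product_univ, Finset.sum_product]
    have h5 : ∑ b, ∑ f, (‖y b‖ * ‖z f‖) ^ 2 = (∑ b, ‖y b‖ ^ 2) * ∑ f, ‖z f‖ ^ 2 := by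
      rw [Finset.sum_mul_sum]
      refine Finset.sum_congr rfl fun b _ => Finset.sum_congr rfl fun f _ => ?_
      ring
    rw [h5]
    have h6 : 0 ≤ ∑ f, ‖z f‖ ^ 2 := Finset.sum_nonneg fun f _ => by positivity
    calc (∑ b, ‖y b‖ ^ 2) * ∑ f, ‖z f‖ ^ 2 ≤ 1 * 1 :=
          mul_le_mul hy hz h6 zero_le_one
      _ = 1 := one_mul 1
  refine h1.trans (h2.trans ?_)
  rw [h3]
  calc Real.sqrt (∑ b, ∑ f, ‖W b f‖ ^ 2) * Real.sqrt (∑ p : ι' × ι', (‖y p.1‖ * ‖z p.2‖) ^ 2)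
      ≤ Real.sqrt Φ * 1 := by
        refine mul_le_mul (Real.sqrt_le_sqrt hΦ) ?_ (Real.sqrt_nonneg _) (Real.sqrt_nonneg _)
        exact Real.sqrt_le_one.2 h4
    _ = Real.sqrt Φ := mul_one _

/-- the van der Corput bound for the entries of the cocycle products -/
theorem vdc (hU : UC A Q) (p q L M : ℕ) (hL : 0 < L) (x : Td d) (i j : ι) :
    ‖∑ m ∈ Icc 1 M, cp α A Q (p * m) x i j * conj (cp α A Q (q * m) x i j)‖ ≤
      (∑ m ∈ Icc 1 M, Real.sqrt (Phi α A Q p q L (x + (p * m) • α) (x + (q * m) • α))) + 2 * L := by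
  set s : ℕ → ℂ := fun m => cp α A Q (p * m) x i j * conj (cp α A Q (q * m) x i j) with hs
  have hs1 : ∀ n, ‖s n‖ ≤ 1 := by
    intro n
    rw [hs]
    simp only
    rw [norm_mul, Complex.norm_conj]
    calc ‖cp α A Q (p * n) x i j‖ * ‖cp α A Q (q * n) x i j‖ ≤ 1 * 1 :=
          mul_le_mul (cp_entry hU _ x i j) (cp_entry hU _ x i j) (norm_nonneg _) zero_le_one
      _ = 1 := one_mul 1
  have h1 := vdc_avg s hs1 M L hL
  have h2 : ‖∑ m ∈ Icc 1 M, (1 / (L : ℂ)) * ∑ l ∈ range L, s (m + l)‖ ≤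
      ∑ m ∈ Icc 1 M, Real.sqrt (Phi α A Q p q L (x + (p * m) • α) (x + (q * m) • α)) := by
    refine (norm_sum_le _ _).trans (Finset.sum_le_sum fun m _ => ?_)
    have h3 : (1 / (L : ℂ)) * ∑ l ∈ range L, s (m + l) =
        ∑ b, ∑ f, Wt α A Q p q L (x + (p * m) • α) (x + (q * m) • α) i b i f *
          (cp α A Q (p * m) x b j * conj (cp α A Q (q * m) x f j)) := by
      have h4 : ∀ l, s (m + l) = ∑ b, ∑ f,
          (cp α A Q (p * l) (x + (p * m) • α) i b * conj (cp α A Q (q * l) (x + (q * m) • α) i f)) *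
            (cp α A Q (p * m) x b j * conj (cp α A Q (q * m) x f j)) := by
        intro l
        rw [hs]
        simp only
        have h5 : p * (m + l) = p * l + p * m := by ring
        have h6 : q * (m + l) = q * l + q * m := by ring
        rw [h5, h6, cp_add hU, cp_add hU, Matrix.mul_apply, Matrix.mul_apply, map_sum,
          Finset.sum_mul_sum]
        refine Finset.sum_congr rfl fun b _ => Finset.sum_congr rfl fun f _ => ?_
        rw [map_mul]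
        ring
      simp_rw [h4]
      rw [Finset.sum_comm, Finset.mul_sum]
      refine Finset.sum_congr rfl fun b _ => ?_
      rw [Finset.sum_comm, Finset.mul_sum]
      refine Finset.sum_congr rfl fun f _ => ?_
      unfold Wt
      rw [← Finset.sum_mul, mul_assoc]
    rw [h3]
    refine vdc_cs (fun b f => Wt α A Q p q L (x + (p * m) • α) (x + (q * m) • α) i b i f)
      (fun b => cp α A Q (p * m) x b j) (fun b => cp α A Q (q * m) x b j) (cp_col hU _ x j)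
      (cp_col hU _ x j) _ ?_
    unfold Phi
    have h7 : ∀ a : ι, 0 ≤ ∑ b, ∑ c, ∑ f,
        ‖Wt α A Q p q L (x + (p * m) • α) (x + (q * m) • α) a b c f‖ ^ 2 := fun a =>
      Finset.sum_nonneg fun b _ => Finset.sum_nonneg fun c _ => Finset.sum_nonneg fun f _ => by
        positivity
    refine le_trans ?_ (Finset.single_le_sum (fun a _ => h7 a) (Finset.mem_univ i))
    refine Finset.sum_le_sum fun b _ => ?_
    exact Finset.single_le_sum (f := fun c => ∑ f,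
      ‖Wt α A Q p q L (x + (p * m) • α) (x + (q * m) • α) i b c f‖ ^ 2)
      (fun c _ => Finset.sum_nonneg fun f _ => by positivity) (Finset.mem_univ i)
  have h8 : ∑ m ∈ Icc 1 M, cp α A Q (p * m) x i j * conj (cp α A Q (q * m) x i j) =
      (∑ m ∈ Icc 1 M, s m - ∑ m ∈ Icc 1 M, (1 / (L : ℂ)) * ∑ l ∈ range L, s (m + l)) +
        ∑ m ∈ Icc 1 M, (1 / (L : ℂ)) * ∑ l ∈ range L, s (m + l) := by
    rw [sub_add_cancel]
  rw [h8]
  refine (norm_add_le _ _).trans ?_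
  linarith

end Pool.Agent.Lib.MP_9fe581_an.HD
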